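import Mathlib
import Pool.Agent.Lib_helper1.PS.Defs
import Pool.Agent.Lib_helper1.PS.Base
import Pool.Agent.Lib_helper35.Var.Sieve

/-! ### Block LSG -/

section LSG
/-! PS, block LSG: the large sieve for the characters `n^(2πik)` -/

namespace Pool.Agent.PS

open Filter Topology MeasureTheory

theorem lsg_ang (k : ℤ) {n : ℕ} (hn : 1 ≤ n) :
    ang k n = Pool.Agent.Var35.e ((k : ℝ) * Real.log n) := by
  rw [ang_exp k hn]
  unfold Pool.Agent.Var35.e
  congr 3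
  ring

/-- logarithms of integers are spaced -/
theorem lsg_log {x : ℝ} {m n : ℕ} (hm : 1 ≤ m) (hmn : m < n) (hn : (n : ℝ) ≤ x) :
    1 / x ≤ Real.log n - Real.log m := by
  have hm0 : (0 : ℝ) < m := by exact_mod_cast hm
  have hn0 : (0 : ℝ) < n := by exact_mod_cast (lt_of_le_of_lt (Nat.zero_le m) hmn)
  have h1 : Real.log ((m : ℝ) / n) ≤ (m : ℝ) / n - 1 :=
    Real.log_le_sub_one_of_pos (by positivity)
  rw [Real.log_div hm0.ne' hn0.ne'] at h1
  have h2 : (m : ℝ) + 1 ≤ n := by exact_mod_cast hmn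
  have h3 : 1 / x ≤ 1 / (n : ℝ) := one_div_le_one_div_of_le hn0 hn
  have h4 : 1 / (n : ℝ) ≤ 1 - (m : ℝ) / n := by
    rw [div_le_iff₀ hn0, sub_mul, div_mul_cancel₀ _ hn0.ne']
    linarith
  linarith

theorem lsg_sep {x : ℝ} (hx : 1 ≤ x) (S : Finset ℕ)
    (hS : ∀ n ∈ S, 1 ≤ n ∧ (n : ℝ) ≤ x)
    (hc : ∀ n ∈ S, ∀ m ∈ S, |Real.log n - Real.log m| ≤ 1 / 2) :
    Pool.Agent.Var35.Sep S (fun n : ℕ => Real.log n) (1 / (2 * x)) := by
  intro n hn m hm hnm j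
  have hx0 : 0 < x := by linarith
  have h12 : 1 / (2 * x) ≤ 1 / 2 := by
    apply one_div_le_one_div_of_le (by norm_num)
    linarith
  have hc1 := hc n hn m hm
  by_cases hj : j = 0
  · subst hj
    have h1x : 1 / (2 * x) ≤ 1 / x := one_div_le_one_div_of_le hx0 (by linarith)
    simp only [Int.cast_zero, sub_zero]
    rcases lt_or_gt_of_ne hnm with h | h
    · have := lsg_log (hS n hn).1 h (hS m hm).2
      rw [abs_sub_comm]
      exact h1x.trans (this.trans (le_abs_self _))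
    · have := lsg_log (hS m hm).1 h (hS n hn).2
      exact h1x.trans (this.trans (le_abs_self _))
  · have h1 : (1 : ℝ) ≤ |(j : ℝ)| := by
      have : (1 : ℤ) ≤ |j| := Int.one_le_abs hj
      exact_mod_cast this
    have h2 : |(j : ℝ)| - |Real.log n - Real.log m| ≤ |Real.log n - Real.log m - j| := by
      rw [abs_sub_comm (Real.log n - Real.log m) (j : ℝ)]
      exact abs_sub_abs_le_abs_sub _ _
    show 1 / (2 * x) ≤ |Real.log n - Real.log m - j|
    linarith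

/-- the frequencies as a shifted range -/
theorem lsg_sum {K : ℝ} (hK : 0 ≤ K) (f : ℤ → ℝ) :
    ∑ k ∈ Ks K, f k = ∑ m ∈ Finset.range (2 * ⌊K⌋₊ + 1), f ((m : ℤ) - (⌊K⌋₊ : ℤ)) := by
  have hz : ⌊K⌋ = (⌊K⌋₊ : ℤ) := (Int.natCast_floor_eq_floor hK).symm
  unfold Ks
  rw [hz]
  refine Finset.sum_bij' (fun k _ => (k + (⌊K⌋₊ : ℤ)).toNat)
    (fun m _ => (m : ℤ) - (⌊K⌋₊ : ℤ)) ?_ ?_ ?_ ?_ ?_
  · intro k hk
    rw [Finset.mem_Icc] at hk
    rw [Finset.mem_range]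
    omega
  · intro m hm
    rw [Finset.mem_range] at hm
    rw [Finset.mem_Icc]
    omega
  · intro k hk
    rw [Finset.mem_Icc] at hk
    omega
  · intro m hm
    omega
  · intro k hk
    rw [Finset.mem_Icc] at hk
    congr 1
    omega

/-- one short window -/
theorem lsg_one {K x : ℝ} (hK : 0 ≤ K) (hx : 1 ≤ x) (S : Finset ℕ)
    (hS : ∀ n ∈ S, 1 ≤ n ∧ (n : ℝ) ≤ x)
    (hc : ∀ n ∈ S, ∀ m ∈ S, |Real.log n - Real.log m| ≤ 1 / 2) (c : ℕ → ℂ) :
    ∑ k ∈ Ks K, ‖∑ n ∈ S, c n * ang k n‖ ^ 2 ≤ 66 * (K + x) * ∑ n ∈ S, ‖c n‖ ^ 2 := by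
  have hx0 : 0 < x := by linarith
  have hδ : 0 < 1 / (2 * x) := by positivity
  have hδ1 : 1 / (2 * x) ≤ 1 := by
    rw [div_le_one (by positivity)]
    linarith
  have h1 := Pool.Agent.Var35.dual_ls S (fun n : ℕ => Real.log n) _ hδ hδ1 (lsg_sep hx S hS hc)
    (fun n => c n * Pool.Agent.Var35.e (-((⌊K⌋₊ : ℝ) * Real.log n))) (2 * ⌊K⌋₊ + 1)
  have h2 : ∑ n ∈ S, ‖c n * Pool.Agent.Var35.e (-((⌊K⌋₊ : ℝ) * Real.log n))‖ ^ 2 =
      ∑ n ∈ S, ‖c n‖ ^ 2 := by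
    refine Finset.sum_congr rfl fun z _ => ?_
    rw [norm_mul, Pool.Agent.Var35.norm_e, mul_one]
  rw [h2] at h1
  have hfl : (⌊K⌋₊ : ℝ) ≤ K := Nat.floor_le hK
  have hC : 22 * (((2 * ⌊K⌋₊ + 1 : ℕ) : ℝ) + 1 / (1 / (2 * x))) ≤ 66 * (K + x) := by
    rw [one_div_one_div]
    push_cast
    nlinarith
  rw [lsg_sum hK]
  refine (le_of_eq ?_).trans (h1.trans (mul_le_mul_of_nonneg_right hC
    (Finset.sum_nonneg fun _ _ => by positivity)))
  refine Finset.sum_congr rfl fun m _ => ?_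
  congr 2
  refine Finset.sum_congr rfl fun n hn => ?_
  rw [lsg_ang _ (hS n hn).1, mul_assoc, ← Pool.Agent.Var35.e_add]
  congr 2
  push_cast
  ring

theorem large_sieve_w_pr : ∃ C : ℝ, 1 ≤ C ∧ ∀ (K x w : ℝ) (S : Finset ℕ), 0 ≤ K → 1 ≤ x → 1 ≤ w →
    (∀ n ∈ S, 1 ≤ n ∧ x / Real.exp w < (n : ℝ) ∧ (n : ℝ) ≤ x) → ∀ c : ℕ → ℂ,
    ∑ k ∈ Ks K, ‖∑ n ∈ S, c n * ang k n‖ ^ 2 ≤ C * w * (K + x) * ∑ n ∈ S, ‖c n‖ ^ 2 := by
  classical
  refine ⟨198, by norm_num, ?_⟩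
  intro K x w S hK hx hw hS c
  have hx0 : 0 < x := by linarith
  set J : ℕ → ℕ := fun n => ⌊2 * Real.log (x / n)⌋₊ with hJ
  set N : ℕ := ⌊2 * w⌋₊ + 1 with hN
  have hNw : (N : ℝ) ≤ 3 * w := by
    rw [hN]
    push_cast
    have := Nat.floor_le (show 0 ≤ 2 * w by linarith)
    linarith
  have hpos : ∀ n ∈ S, 0 ≤ 2 * Real.log (x / n) := by
    intro n hn
    obtain ⟨h1, h2, h3⟩ := hS n hn
    have hn0 : (0 : ℝ) < n := by exact_mod_cast h1
    have : 0 ≤ Real.log (x / n) := Real.log_nonneg (by rw [le_div_iff₀ hn0]; linarith)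
    linarith
  have hJN : ∀ n ∈ S, J n ∈ Finset.range N := by
    intro n hn
    obtain ⟨h1, h2, h3⟩ := hS n hn
    have hn0 : (0 : ℝ) < n := by exact_mod_cast h1
    rw [Finset.mem_range, hN, hJ]
    have h4 : Real.log (x / n) ≤ w := by
      have h5 : x / n ≤ Real.exp w := by
        rw [div_lt_iff₀ (Real.exp_pos w)] at h2
        rw [div_le_iff₀ hn0]
        linarith
      calc Real.log (x / n) ≤ Real.log (Real.exp w) := Real.log_le_log (by positivity) h5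
        _ = w := Real.log_exp w
    have h6 : ⌊2 * Real.log (x / n)⌋₊ ≤ ⌊2 * w⌋₊ := Nat.floor_le_floor (by linarith)
    simp only
    omega
  have hsplit : ∀ f : ℕ → ℂ, ∑ n ∈ S, f n =
      ∑ j ∈ Finset.range N, ∑ n ∈ S.filter (fun n => J n = j), f n := fun f =>
    (Finset.sum_fiberwise_of_maps_to hJN f).symm
  have hsplit' : ∀ f : ℕ → ℝ, ∑ n ∈ S, f n =
      ∑ j ∈ Finset.range N, ∑ n ∈ S.filter (fun n => J n = j), f n := fun f =>
    (Finset.sum_fiberwise_of_maps_to hJN f).symm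
  have hone : ∀ j ∈ Finset.range N,
      ∑ k ∈ Ks K, ‖∑ n ∈ S.filter (fun n => J n = j), c n * ang k n‖ ^ 2 ≤
        66 * (K + x) * ∑ n ∈ S.filter (fun n => J n = j), ‖c n‖ ^ 2 := by
    intro j _
    refine lsg_one hK hx _ ?_ ?_ c
    · intro n hn
      obtain ⟨h1, h2, h3⟩ := hS n (Finset.mem_filter.1 hn).1
      exact ⟨h1, h3⟩
    · intro n hn m hm
      obtain ⟨hn1, hn2⟩ := Finset.mem_filter.1 hn
      obtain ⟨hm1, hm2⟩ := Finset.mem_filter.1 hm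
      have hn0 : (0 : ℝ) < n := by exact_mod_cast (hS n hn1).1
      have hm0 : (0 : ℝ) < m := by exact_mod_cast (hS m hm1).1
      have a1 := Nat.floor_le (hpos n hn1)
      have a2 := Nat.lt_floor_add_one (2 * Real.log (x / n))
      have b1 := Nat.floor_le (hpos m hm1)
      have b2 := Nat.lt_floor_add_one (2 * Real.log (x / m))
      simp only [hJ] at hn2 hm2
      rw [hn2] at a1 a2
      rw [hm2] at b1 b2
      rw [Real.log_div hx0.ne' hn0.ne'] at a1 a2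
      rw [Real.log_div hx0.ne' hm0.ne'] at b1 b2
      rw [abs_le]
      constructor
      · linarith
      · linarith
  calc ∑ k ∈ Ks K, ‖∑ n ∈ S, c n * ang k n‖ ^ 2
      ≤ ∑ k ∈ Ks K, (N : ℝ) * ∑ j ∈ Finset.range N,
          ‖∑ n ∈ S.filter (fun n => J n = j), c n * ang k n‖ ^ 2 := by
        refine Finset.sum_le_sum fun k _ => ?_
        rw [hsplit]
        have h1 := norm_sum_le (Finset.range N)
          (fun j => ∑ n ∈ S.filter (fun n => J n = j), c n * ang k n)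
        have h2 := sq_sum_le_card_mul_sum_sq (s := Finset.range N)
          (f := fun j => ‖∑ n ∈ S.filter (fun n => J n = j), c n * ang k n‖)
        rw [Finset.card_range] at h2
        exact (pow_le_pow_left₀ (norm_nonneg _) h1 2).trans h2
    _ = (N : ℝ) * ∑ j ∈ Finset.range N, ∑ k ∈ Ks K,
          ‖∑ n ∈ S.filter (fun n => J n = j), c n * ang k n‖ ^ 2 := by
        rw [← Finset.mul_sum, Finset.sum_comm]
    _ ≤ (N : ℝ) * ∑ j ∈ Finset.range N,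
          66 * (K + x) * ∑ n ∈ S.filter (fun n => J n = j), ‖c n‖ ^ 2 :=
        mul_le_mul_of_nonneg_left (Finset.sum_le_sum hone) (Nat.cast_nonneg _)
    _ = (N : ℝ) * (66 * (K + x) * ∑ n ∈ S, ‖c n‖ ^ 2) := by
        rw [← Finset.mul_sum, ← hsplit']
    _ ≤ (3 * w) * (66 * (K + x) * ∑ n ∈ S, ‖c n‖ ^ 2) := by
        have : 0 ≤ 66 * (K + x) * ∑ n ∈ S, ‖c n‖ ^ 2 := by positivity
        exact mul_le_mul_of_nonneg_right hNw this
    _ = 198 * w * (K + x) * ∑ n ∈ S, ‖c n‖ ^ 2 := by ring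

theorem large_sieve_pr : ∃ C : ℝ, 1 ≤ C ∧ ∀ K x : ℝ, 0 ≤ K → 1 ≤ x → ∀ c : ℕ → ℂ,
    ∑ k ∈ Ks K, ‖∑ z ∈ PB x, c z * ang k z‖ ^ 2 ≤ C * (K + x) * ∑ z ∈ PB x, ‖c z‖ ^ 2 := by
  obtain ⟨C, hC, h⟩ := large_sieve_w_pr
  refine ⟨C, hC, fun K x hK hx c => ?_⟩
  have := h K x 1 (PB x) hK hx le_rfl (fun n hn => ?_) c
  · rwa [mul_one] at this
  · obtain ⟨h1, h2, h3⟩ := mem_PB.1 hn
    exact ⟨h1, h3, h2⟩

theorem large_sieve_E_pr : ∃ C : ℝ, 1 ≤ C ∧ ∀ K x : ℝ, 0 ≤ K → 1 ≤ x → ∀ c : ℕ → ℂ,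
    ∑ k ∈ Ks K, ‖∑ z ∈ EB x, c z * ang k z‖ ^ 2 ≤ C * (K + x) * ∑ z ∈ EB x, ‖c z‖ ^ 2 := by
  obtain ⟨C, hC, h⟩ := large_sieve_w_pr
  refine ⟨C * 2, by linarith, fun K x hK hx c => ?_⟩
  refine h K x 2 (EB x) hK hx (by norm_num) (fun n hn => ?_) c
  obtain ⟨h1, h2, h3⟩ := mem_EB.1 hn
  refine ⟨h1, lt_of_le_of_lt ?_ h3, h2⟩
  have he : (6 : ℝ) ≤ Real.exp 2 := by
    have h1 : Real.exp 2 = Real.exp 1 * Real.exp 1 := by rw [← Real.exp_add]; norm_num
    have h2 := Real.exp_one_gt_d9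
    rw [h1]
    nlinarith
  exact div_le_div_of_nonneg_left (by linarith) (by norm_num) he


end Pool.Agent.PS

end LSG

namespace Pool.Agent.PS

theorem large_sieve_w : type_of% @large_sieve_w_pr := @large_sieve_w_pr

theorem large_sieve : type_of% @large_sieve_pr := @large_sieve_pr

theorem large_sieve_E : type_of% @large_sieve_E_pr := @large_sieve_E_pr

end Pool.Agent.PS

/-! ### Block MOM -/

section MOM
/-! PS, block MOM: the moment_pr inequality -/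

namespace Pool.Agent.PS

open Finset

/-- the basic alternative -/
theorem mom_cases {p : ℕ} (hp : p.Prime) {l l' : ℕ} {q : Fin l → ℕ}
    {q' : Fin l' → ℕ} (hq' : ∀ i, (q' i).Prime)
    {w w' : ℕ} (h : p * ((∏ i, q i) * w) = (∏ i, q' i) * w') :
    (∃ j, q' j = p) ∨ p ∣ w' := by
  have h1 : p ∣ (∏ i, q' i) * w' := h ▸ dvd_mul_right _ _
  rcases hp.dvd_mul.1 h1 with h2 | h2
  · left
    obtain ⟨j, _, hj⟩ := (Prime.dvd_finsetProd_iff hp.prime _).1 h2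
    exact ⟨j, ((Nat.prime_dvd_prime_iff_eq hp (hq' j)).1 hj).symm⟩
  · right; exact h2

open Classical in
/-- the pairs with the same product -/
noncomputable def momD (B : Finset ℕ) (l l' : ℕ) (x x' : ℝ) :
    Finset (((Fin l → ℕ) × ℕ) × ((Fin l' → ℕ) × ℕ)) :=
  ((Fintype.piFinset (fun _ : Fin l => B) ×ˢ PB x) ×ˢ
    (Fintype.piFinset (fun _ : Fin l' => B) ×ˢ PB x')).filter (fun t =>
      (∏ i, t.1.1 i) * t.1.2 = (∏ i, t.2.1 i) * t.2.2)

theorem mem_momD {B : Finset ℕ} {l l' : ℕ} {x x' : ℝ} {t : ((Fin l → ℕ) × ℕ) × ((Fin l' → ℕ) × ℕ)} :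
    t ∈ momD B l l' x x' ↔ ((∀ i, t.1.1 i ∈ B) ∧ t.1.2 ∈ PB x) ∧ ((∀ i, t.2.1 i ∈ B) ∧ t.2.2 ∈ PB x') ∧
      (∏ i, t.1.1 i) * t.1.2 = (∏ i, t.2.1 i) * t.2.2 := by
  unfold momD
  simp only [mem_filter, mem_product, Fintype.mem_piFinset]
  tauto

theorem momD_swap (B : Finset ℕ) (l l' : ℕ) (x x' : ℝ) :
    (momD B l l' x x').card = (momD B l' l x' x).card := by
  apply Finset.card_bij (fun t _ => (t.2, t.1))
  · intro t ht
    rw [mem_momD] at ht ⊢
    exact ⟨ht.2.1, ht.1, ht.2.2.symm⟩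
  · intro t _ t' _ h
    simp only [Prod.mk.injEq] at h
    exact Prod.ext h.2 h.1
  · intro t ht
    refine ⟨(t.2, t.1), ?_, rfl⟩
    rw [mem_momD] at ht ⊢
    exact ⟨ht.2.1, ht.1, ht.2.2.symm⟩

/-- division by a prime, in a window -/
theorem mom_PB_div {p : ℕ} (hp : p.Prime) {w v : ℕ} (hw : w = p * v) {x : ℝ}
    (h : w ∈ PB x) : v ∈ PB (x / p) := by
  rw [mem_PB] at h ⊢
  have hp0 : (0 : ℝ) < p := by exact_mod_cast hp.pos
  have hwv : (w : ℝ) = p * v := by rw [hw]; push_cast; ring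
  refine ⟨?_, ?_, ?_⟩
  · rcases Nat.eq_zero_or_pos v with h0 | h0
    · rw [h0, mul_zero] at hw; omega
    · exact h0
  · rw [le_div_iff₀ hp0]
    linarith [h.2.1]
  · rw [div_right_comm, div_lt_iff₀ hp0]
    linarith [h.2.2]

/-- the recurrence, second index zero -/
theorem momD_rec_zero {B : Finset ℕ} (hB : Pset B) (l : ℕ) (x x' : ℝ) :
    (momD B (l + 1) 0 x x').card ≤ ∑ p ∈ B, (momD B l 0 x (x' / p)).card := by
  classical
  have hcov : momD B (l + 1) 0 x x' ⊆ B.biUnion (fun p =>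
      (momD B l 0 x (x' / p)).image (fun t =>
        ((Fin.cons p t.1.1, t.1.2), (t.2.1, p * t.2.2)))) := by
    rintro ⟨⟨q, w⟩, ⟨q', w'⟩⟩ ht
    rw [mem_momD] at ht
    obtain ⟨⟨hq, hw⟩, ⟨hq', hw'⟩, hsim⟩ := ht
    simp only at hq hw hq' hw' hsim
    have hp := hB _ (hq 0)
    rw [Fin.prod_univ_succ, mul_assoc] at hsim
    rw [mem_biUnion]
    refine ⟨q 0, hq 0, ?_⟩
    rw [mem_image]
    rcases mom_cases hp (fun i => hB _ (hq' i)) hsim with h | h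
    · obtain ⟨j, _⟩ := h
      exact j.elim0
    · obtain ⟨v, hv⟩ := h
      refine ⟨((fun i => q i.succ, w), (q', v)), ?_, ?_⟩
      · rw [mem_momD]
        refine ⟨⟨fun i => hq _, hw⟩, ⟨hq', mom_PB_div hp hv hw'⟩, ?_⟩
        apply Nat.eq_of_mul_eq_mul_left hp.pos
        have e : q 0 * ((∏ i, q' i) * v) = (∏ i, q' i) * w' := by
          rw [hv]; ring
        simp only
        rw [e]; exact hsim
      · simp only [Prod.mk.injEq, true_and, and_true]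
        exact ⟨Fin.cons_self_tail q, hv.symm⟩
  refine (card_le_card hcov).trans (card_biUnion_le.trans (sum_le_sum fun p _ => ?_))
  exact card_image_le

/-- the recurrence -/
theorem momD_rec {B : Finset ℕ} (hB : Pset B) (l l' : ℕ) (x x' : ℝ) :
    (momD B (l + 1) (l' + 1) x x').card ≤ ∑ p ∈ B,
      ((l' + 1) * (momD B l l' x x').card + (momD B l (l' + 1) x (x' / p)).card) := by
  classical
  have hcov : momD B (l + 1) (l' + 1) x x' ⊆ B.biUnion (fun p =>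
      ((univ : Finset (Fin (l' + 1))).biUnion (fun j => (momD B l l' x x').image (fun t =>
        ((Fin.cons p t.1.1, t.1.2), (j.insertNth p t.2.1, t.2.2)))) ∪
      (momD B l (l' + 1) x (x' / p)).image (fun t =>
        ((Fin.cons p t.1.1, t.1.2), (t.2.1, p * t.2.2))))) := by
    rintro ⟨⟨q, w⟩, ⟨q', w'⟩⟩ ht
    rw [mem_momD] at ht
    obtain ⟨⟨hq, hw⟩, ⟨hq', hw'⟩, hsim⟩ := ht
    simp only at hq hw hq' hw' hsim
    have hp := hB _ (hq 0)
    rw [Fin.prod_univ_succ, mul_assoc] at hsim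
    rw [mem_biUnion]
    refine ⟨q 0, hq 0, ?_⟩
    rw [mem_union, mem_image, mem_biUnion]
    rcases mom_cases hp (fun i => hB _ (hq' i)) hsim with h | h
    · left
      obtain ⟨j, hj⟩ := h
      refine ⟨j, mem_univ _, ?_⟩
      rw [mem_image]
      refine ⟨((fun i => q i.succ, w), (fun i => q' (j.succAbove i), w')), ?_, ?_⟩
      · rw [mem_momD]
        refine ⟨⟨fun i => hq _, hw⟩, ⟨fun i => hq' _, hw'⟩, ?_⟩
        apply Nat.eq_of_mul_eq_mul_left hp.pos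
        have e : q 0 * ((∏ i, q' (j.succAbove i)) * w') = (∏ i, q' i) * w' := by
          rw [Fin.prod_univ_succAbove _ j, hj]; ring
        simp only
        rw [e]; exact hsim
      · simp only [Prod.mk.injEq, and_true]
        refine ⟨Fin.cons_self_tail q, ?_⟩
        rw [← hj]
        exact Fin.insertNth_self_removeNth j q'
    · right
      obtain ⟨v, hv⟩ := h
      refine ⟨((fun i => q i.succ, w), (q', v)), ?_, ?_⟩
      · rw [mem_momD]
        refine ⟨⟨fun i => hq _, hw⟩, ⟨hq', mom_PB_div hp hv hw'⟩, ?_⟩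
        apply Nat.eq_of_mul_eq_mul_left hp.pos
        have e : q 0 * ((∏ i, q' i) * v) = (∏ i, q' i) * w' := by
          rw [hv]; ring
        simp only
        rw [e]; exact hsim
      · simp only [Prod.mk.injEq, true_and, and_true]
        exact ⟨Fin.cons_self_tail q, hv.symm⟩
  refine (card_le_card hcov).trans (card_biUnion_le.trans (sum_le_sum fun p _ => ?_))
  refine (card_union_le _ _).trans (add_le_add ?_ card_image_le)
  refine card_biUnion_le.trans ?_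
  refine (sum_le_card_nsmul _ _ _ (fun j _ => card_image_le)).trans ?_
  simp

theorem mom_card_le {M : ℝ} {B : Finset ℕ} (hM : 1 ≤ M) (hB : Pset B)
    (h : ∀ p ∈ B, M < (p : ℝ) ∧ (p : ℝ) ≤ 2 * M) : (B.card : ℝ) ≤ 2 * M := by
  have h1 : B ⊆ Bl (2 * M) := by
    intro p hp
    rw [mem_Bl]
    exact ⟨(hB p hp).one_le, (h p hp).2⟩
  exact le_trans (by exact_mod_cast card_le_card h1) (Bl_card (by linarith))

/-- the base case -/
theorem momD_base (B : Finset ℕ) {x x' : ℝ} (hx : 0 ≤ x) (hx' : 0 ≤ x') :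
    ((momD B 0 0 x x').card : ℝ) ≤ Real.sqrt (x * x') := by
  classical
  have h1 : (momD B 0 0 x x').card ≤ (Bl (min x x')).card := by
    apply Finset.card_le_card_of_injOn (fun t => t.1.2)
    · intro t ht
      have ht' := mem_momD.1 (Finset.mem_coe.1 ht)
      obtain ⟨⟨_, hw⟩, ⟨_, hw'⟩, hs⟩ := ht'
      simp only [univ_eq_empty, prod_empty, one_mul] at hs
      rw [mem_PB] at hw hw'
      rw [Finset.mem_coe, mem_Bl]
      refine ⟨hw.1, le_min hw.2.1 ?_⟩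
      show ((t.1.2 : ℕ) : ℝ) ≤ x'
      rw [hs]; exact hw'.2.1
    · intro t ht t' ht' he
      have h2 := mem_momD.1 (Finset.mem_coe.1 ht)
      have h3 := mem_momD.1 (Finset.mem_coe.1 ht')
      obtain ⟨⟨_, hw⟩, ⟨_, hw'⟩, hs⟩ := h2
      obtain ⟨⟨_, hv⟩, ⟨_, hv'⟩, hs'⟩ := h3
      simp only [univ_eq_empty, prod_empty, one_mul] at hs hs'
      simp only at he
      apply Prod.ext
      · exact Prod.ext (Subsingleton.elim _ _) he
      · exact Prod.ext (Subsingleton.elim _ _) (by rw [← hs, ← hs', he])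
  have h2 := Bl_card (x := min x x') (le_min hx hx')
  have h3 : min x x' ≤ Real.sqrt (x * x') := by
    apply Real.le_sqrt_of_sq_le
    rw [sq]
    exact mul_le_mul (min_le_left _ _) (min_le_right _ _) (le_min hx hx') hx
  calc ((momD B 0 0 x x').card : ℝ) ≤ ((Bl (min x x')).card : ℝ) := by exact_mod_cast h1
    _ ≤ min x x' := h2
    _ ≤ Real.sqrt (x * x') := h3

theorem mom_sqrt_div {M : ℝ} (hM : 1 ≤ M) {p : ℕ} (hp : M < (p : ℝ)) {y : ℝ} (hy : 0 ≤ y) :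
    Real.sqrt (y / p) ≤ Real.sqrt 2 * Real.sqrt y / Real.sqrt (2 * M) := by
  rw [← Real.sqrt_mul (by norm_num : (0:ℝ) ≤ 2), ← Real.sqrt_div (by positivity)]
  apply Real.sqrt_le_sqrt
  rw [mul_div_mul_left _ _ (by norm_num : (2:ℝ) ≠ 0)]
  exact div_le_div_of_nonneg_left hy (by linarith) hp.le

theorem mom_sqrt2 : Real.sqrt 2 ≤ 3 / 2 := by
  rw [Real.sqrt_le_left (by norm_num)]; norm_num

/-- the sum over `p` of a bound with `√(y/p)` -/
theorem mom_sum_p {M : ℝ} (hM : 1 ≤ M) {B : Finset ℕ} (hB : Pset B)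
    (h : ∀ p ∈ B, M < (p : ℝ) ∧ (p : ℝ) ≤ 2 * M) {y : ℝ} (hy : 0 ≤ y) :
    ∑ p ∈ B, Real.sqrt (y / p) ≤ 3 / 2 * Real.sqrt (2 * M) * Real.sqrt y := by
  have hs : 0 < Real.sqrt (2 * M) := Real.sqrt_pos.2 (by linarith)
  have hss : Real.sqrt (2 * M) * Real.sqrt (2 * M) = 2 * M := Real.mul_self_sqrt (by linarith)
  calc ∑ p ∈ B, Real.sqrt (y / p)
      ≤ ∑ p ∈ B, Real.sqrt 2 * Real.sqrt y / Real.sqrt (2 * M) :=
        sum_le_sum fun p hp => mom_sqrt_div hM (h p hp).1 hy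
    _ = B.card * (Real.sqrt 2 * Real.sqrt y / Real.sqrt (2 * M)) := by
        rw [sum_const, nsmul_eq_mul]
    _ ≤ (2 * M) * (Real.sqrt 2 * Real.sqrt y / Real.sqrt (2 * M)) :=
        mul_le_mul_of_nonneg_right (mom_card_le hM hB h) (by positivity)
    _ = Real.sqrt 2 * Real.sqrt (2 * M) * Real.sqrt y := by
        have e : (2 * M) * (Real.sqrt 2 * Real.sqrt y / Real.sqrt (2 * M)) =
            (Real.sqrt (2 * M) * Real.sqrt (2 * M)) *
              (Real.sqrt 2 * Real.sqrt y / Real.sqrt (2 * M)) := by rw [hss]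
        rw [e]
        generalize Real.sqrt (2 * M) = S at hs
        field_simp
    _ ≤ 3 / 2 * Real.sqrt (2 * M) * Real.sqrt y := by
        gcongr
        exact mom_sqrt2

theorem momD_zero {M : ℝ} (hM : 1 ≤ M) {B : Finset ℕ} (hB : Pset B)
    (h : ∀ p ∈ B, M < (p : ℝ) ∧ (p : ℝ) ≤ 2 * M) (l : ℕ) : ∀ {x x' : ℝ}, 0 ≤ x → 0 ≤ x' →
    ((momD B l 0 x x').card : ℝ) ≤ Real.sqrt (x * x') * (4 * Real.sqrt (2 * M)) ^ l := by
  induction l with
  | zero =>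
    intro x x' hx hx'
    simpa using momD_base B hx hx'
  | succ l ih =>
    intro x x' hx hx'
    have h1 : ((momD B (l + 1) 0 x x').card : ℝ) ≤ ∑ p ∈ B,
      ((momD B l 0 x (x' / p)).card : ℝ) := by
      exact_mod_cast momD_rec_zero hB l x x'
    have hs : 0 < Real.sqrt (2 * M) := Real.sqrt_pos.2 (by linarith)
    have h2 : ∀ p ∈ B, ((momD B l 0 x (x' / p)).card : ℝ) ≤
        ((4 * Real.sqrt (2 * M)) ^ l) * Real.sqrt (x * x' / p) := by
      intro p _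
      have h4 := ih (x := x) (x' := x' / p) hx (by positivity)
      have e4 : x * (x' / p) = x * x' / p := by ring
      rw [e4] at h4
      linarith
    have h5 := mom_sum_p hM hB h (y := x * x') (by positivity)
    calc ((momD B (l + 1) 0 x x').card : ℝ)
        ≤ ∑ p ∈ B, ((4 * Real.sqrt (2 * M)) ^ l) * Real.sqrt (x * x' / p) :=
          h1.trans (sum_le_sum h2)
      _ = ((4 * Real.sqrt (2 * M)) ^ l) * ∑ p ∈ B, Real.sqrt (x * x' / p) := by
          rw [mul_sum]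
      _ ≤ ((4 * Real.sqrt (2 * M)) ^ l) * (3 / 2 * Real.sqrt (2 * M) * Real.sqrt (x * x')) :=
          mul_le_mul_of_nonneg_left h5 (by positivity)
      _ ≤ Real.sqrt (x * x') * (4 * Real.sqrt (2 * M)) ^ (l + 1) := by
          rw [pow_succ]
          have h6 : 0 ≤ (4 * Real.sqrt (2 * M)) ^ l * Real.sqrt (x * x') * Real.sqrt (2 * M) := by
            positivity
          nlinarith

theorem momD_le {M : ℝ} (hM : 1 ≤ M) {B : Finset ℕ} (hB : Pset B)
    (h : ∀ p ∈ B, M < (p : ℝ) ∧ (p : ℝ) ≤ 2 * M) (l : ℕ) : ∀ (l' : ℕ) {x x' : ℝ}, 0 ≤ x →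
    0 ≤ x' → ((momD B l l' x x').card : ℝ) ≤
      Real.sqrt (x * x') * (4 * Real.sqrt (2 * M)) ^ (l + l') * l'.factorial := by
  have hs : 0 < Real.sqrt (2 * M) := Real.sqrt_pos.2 (by linarith)
  have hss : Real.sqrt (2 * M) * Real.sqrt (2 * M) = 2 * M := Real.mul_self_sqrt (by linarith)
  induction l with
  | zero =>
    intro l' x x' hx hx'
    rw [momD_swap]
    have h1 := momD_zero hM hB h l' hx' hx
    rw [mul_comm x' x] at h1
    rw [zero_add]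
    have h2 : (1 : ℝ) ≤ l'.factorial := by exact_mod_cast Nat.succ_le_of_lt (Nat.factorial_pos l')
    have h3 : 0 ≤ Real.sqrt (x * x') * (4 * Real.sqrt (2 * M)) ^ l' := by positivity
    exact h1.trans (le_mul_of_one_le_right h3 h2)
  | succ l ih =>
    intro l' x x' hx hx'
    rcases Nat.eq_zero_or_pos l' with h0 | h0
    · subst h0
      have h1 := momD_zero hM hB h (l + 1) hx hx'
      simpa using h1
    obtain ⟨l', rfl⟩ : ∃ k, l' = k + 1 := ⟨l' - 1, by omega⟩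
    have h1 : ((momD B (l + 1) (l' + 1) x x').card : ℝ) ≤
      ∑ p ∈ B, (((l' : ℝ) + 1) * ((momD B l l' x x').card : ℝ) +
          ((momD B l (l' + 1) x (x' / p)).card : ℝ)) := by
      exact_mod_cast momD_rec hB l l' x x'
    set F : ℝ := ((l' + 1).factorial : ℝ) with hF
    have hF' : F = ((l' : ℝ) + 1) * (l'.factorial : ℝ) := by
      rw [hF, Nat.factorial_succ]; push_cast; ring
    have hF0 : 0 ≤ F := by positivity
    have h2 : ∀ p ∈ B, (((l' : ℝ) + 1) * ((momD B l l' x x').card : ℝ) +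
          ((momD B l (l' + 1) x (x' / p)).card : ℝ)) ≤
        ((4 * Real.sqrt (2 * M)) ^ (l + l' + 1) * F) * Real.sqrt (x * x' / p) +
          Real.sqrt (x * x') * (4 * Real.sqrt (2 * M)) ^ (l + l') * F := by
      intro p _
      have h4 := ih (l' + 1) (x := x) (x' := x' / p) hx (by positivity)
      have h5 := ih l' hx hx'
      have e4 : x * (x' / p) = x * x' / p := by ring
      rw [e4] at h4
      rw [← hF, ← add_assoc] at h4
      have h6 : ((l' : ℝ) + 1) * ((momD B l l' x x').card : ℝ) ≤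
          Real.sqrt (x * x') * (4 * Real.sqrt (2 * M)) ^ (l + l') * F := by
        rw [hF']
        have := mul_le_mul_of_nonneg_left h5 (by positivity : (0:ℝ) ≤ (l' : ℝ) + 1)
        linarith
      linarith
    have h5 := mom_sum_p hM hB h (y := x * x') (by positivity)
    have h7 := mom_card_le hM hB h
    calc ((momD B (l + 1) (l' + 1) x x').card : ℝ)
        ≤ ∑ p ∈ B, (((4 * Real.sqrt (2 * M)) ^ (l + l' + 1) * F) * Real.sqrt (x * x' / p) +
          Real.sqrt (x * x') * (4 * Real.sqrt (2 * M)) ^ (l + l') * F) :=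
          h1.trans (sum_le_sum h2)
      _ = ((4 * Real.sqrt (2 * M)) ^ (l + l' + 1) * F) * ∑ p ∈ B, Real.sqrt (x * x' / p) +
          B.card * (Real.sqrt (x * x') * (4 * Real.sqrt (2 * M)) ^ (l + l') * F) := by
          rw [sum_add_distrib, mul_sum, sum_const, nsmul_eq_mul]
      _ ≤ ((4 * Real.sqrt (2 * M)) ^ (l + l' + 1) * F) *
            (3 / 2 * Real.sqrt (2 * M) * Real.sqrt (x * x')) +
          (Real.sqrt (2 * M) * Real.sqrt (2 * M)) *
            (Real.sqrt (x * x') * (4 * Real.sqrt (2 * M)) ^ (l + l') * F) := by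
          rw [hss]
          exact add_le_add (mul_le_mul_of_nonneg_left h5 (by positivity))
            (mul_le_mul_of_nonneg_right h7 (by positivity))
      _ ≤ Real.sqrt (x * x') * (4 * Real.sqrt (2 * M)) ^ (l + 1 + (l' + 1)) * F := by
          have e : l + 1 + (l' + 1) = (l + l') + 2 := by ring
          rw [e, pow_add _ (l + l') 2, pow_add _ (l + l') 1]
          have h6 : 0 ≤ (4 * Real.sqrt (2 * M)) ^ (l + l') * Real.sqrt (x * x') *
            (Real.sqrt (2 * M) * Real.sqrt (2 * M)) * F := by positivity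
          nlinarith

theorem momD_diag {M : ℝ} (hM : 1 ≤ M) {B : Finset ℕ} (hB : Pset B)
    (h : ∀ p ∈ B, M < (p : ℝ) ∧ (p : ℝ) ≤ 2 * M) (l : ℕ) {x : ℝ} (hx : 0 ≤ x) :
    ((momD B l l x x).card : ℝ) ≤ (x * (2 * M) ^ l) * 16 ^ l * l.factorial := by
  have h1 := momD_le hM hB h l l hx hx
  rw [Real.sqrt_mul_self hx, ← two_mul, pow_mul, mul_pow 4, Real.sq_sqrt (by linarith)] at h1
  rw [mul_pow] at h1
  norm_num at h1 ⊢
  linarith

/-- the expansion -/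
theorem mom_expand (k : ℤ) (B : Finset ℕ) (b : ℕ → ℂ) (a : ℕ → ℂ) (l : ℕ) (x : ℝ) :
    (∑ p ∈ B, b p * ang k p) ^ l * ∑ z ∈ PB x, a z * ang k z =
      ∑ t ∈ Fintype.piFinset (fun _ : Fin l => B) ×ˢ PB x,
        ((∏ i, b (t.1 i)) * a t.2) * ang k ((∏ i, t.1 i) * t.2) := by
  classical
  have hprod : ∀ q : Fin l → ℕ, ang k (∏ i, q i) = ∏ i, ang k (q i) := by
    intro q
    have : ∀ s : Finset (Fin l), ang k (∏ i ∈ s, q i) = ∏ i ∈ s, ang k (q i) := by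
      intro s
      induction s using Finset.induction_on with
      | empty => simpa using ang_one k
      | insert a s ha ih => rw [prod_insert ha, prod_insert ha, ang_mul, ih]
    exact this univ
  have h1 : (∑ p ∈ B, b p * ang k p) ^ l =
      ∑ q ∈ Fintype.piFinset (fun _ : Fin l => B), ∏ i, (b (q i) * ang k (q i)) := by
    rw [← Finset.prod_univ_sum (fun _ : Fin l => B) (fun _ p => b p * ang k p)]
    simp
  rw [h1, sum_mul_sum, sum_product]
  refine sum_congr rfl fun q _ => sum_congr rfl fun w _ => ?_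
  rw [ang_mul, hprod, prod_mul_distrib]
  ring

theorem mom_exp_w {M x : ℝ} (l : ℕ) :
    x * (2 * M) ^ l / Real.exp (1 + l * Real.log 2) = M ^ l * (x / Real.exp 1) := by
  have h1 : Real.exp (1 + l * Real.log 2) = Real.exp 1 * 2 ^ l := by
    rw [Real.exp_add, mul_comm (l : ℝ), Real.exp_mul, Real.exp_log (by norm_num),
      Real.rpow_natCast]
  rw [h1, mul_pow]
  have h2 : Real.exp 1 ≠ 0 := Real.exp_ne_zero 1
  field_simp

/-- sum over fibres -/
theorem mom_fibre {M : ℝ} {B : Finset ℕ} (hM : 1 ≤ M) (hB : Pset B)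
    (h : ∀ p ∈ B, M < (p : ℝ) ∧ (p : ℝ) ≤ 2 * M) (l : ℕ) (x : ℝ)
    (β : ((Fin l → ℕ) × ℕ) → ℂ) (hβ : ∀ t, ‖β t‖ ≤ 1) :
    ∃ (S : Finset ℕ) (c : ℕ → ℂ),
      (∀ n ∈ S, 1 ≤ n ∧ x * (2 * M) ^ l / Real.exp (1 + l * Real.log 2) < (n : ℝ) ∧
        (n : ℝ) ≤ x * (2 * M) ^ l) ∧
      (∀ k : ℤ, ∑ t ∈ Fintype.piFinset (fun _ : Fin l => B) ×ˢ PB x,
        β t * ang k ((∏ i, t.1 i) * t.2) = ∑ z ∈ S, c z * ang k z) ∧
      ∑ z ∈ S, ‖c z‖ ^ 2 ≤ ((momD B l l x x).card : ℝ) := by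
  classical
  set T := Fintype.piFinset (fun _ : Fin l => B) ×ˢ PB x with hT
  let U : ((Fin l → ℕ) × ℕ) → ℕ := fun t => (∏ i, t.1 i) * t.2
  have hmem : ∀ t ∈ T, (∀ i, t.1 i ∈ B) ∧ t.2 ∈ PB x := by
    intro t ht
    rw [hT, mem_product, Fintype.mem_piFinset] at ht
    exact ht
  refine ⟨T.image U, fun z => ∑ t ∈ T.filter (fun t => U t = z), β t, ?_, ?_, ?_⟩
  · intro n hn
    rw [mem_image] at hn
    obtain ⟨t, ht, rfl⟩ := hn
    obtain ⟨h1, h2⟩ := hmem t ht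
    rw [mem_PB] at h2
    have hM0 : 0 ≤ M := by linarith
    have e : ((U t : ℕ) : ℝ) = (∏ i, (t.1 i : ℝ)) * (t.2 : ℝ) := by
      show (((∏ i, t.1 i) * t.2 : ℕ) : ℝ) = _
      push_cast; ring
    have hlo : M ^ l ≤ ∏ i, (t.1 i : ℝ) := by
      calc M ^ l = ∏ _i : Fin l, M := by simp
        _ ≤ ∏ i, (t.1 i : ℝ) := prod_le_prod (fun i _ => hM0) (fun i _ => (h _ (h1 i)).1.le)
    have hup : ∏ i, (t.1 i : ℝ) ≤ (2 * M) ^ l := by
      calc ∏ i, (t.1 i : ℝ) ≤ ∏ _i : Fin l, (2 * M) :=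
            prod_le_prod (fun i _ => Nat.cast_nonneg _) (fun i _ => (h _ (h1 i)).2)
        _ = (2 * M) ^ l := by simp
    have hpos : 0 < M ^ l := by positivity
    refine ⟨?_, ?_, ?_⟩
    · show 1 ≤ (∏ i, t.1 i) * t.2
      have h3 : 0 < ∏ i, t.1 i := prod_pos fun i _ => (hB _ (h1 i)).pos
      exact Nat.mul_pos h3 h2.1
    · rw [mom_exp_w, e]
      have h4 : M ^ l * (x / Real.exp 1) < M ^ l * (t.2 : ℝ) :=
        mul_lt_mul_of_pos_left h2.2.2 hpos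
      exact h4.trans_le (mul_le_mul_of_nonneg_right hlo (Nat.cast_nonneg _))
    · rw [e, mul_comm x]
      exact mul_le_mul hup h2.2.1 (Nat.cast_nonneg _) (by positivity)
  · intro k
    calc ∑ t ∈ T, β t * ang k (U t)
        = ∑ z ∈ T.image U, ∑ t ∈ T.filter (fun t => U t = z), β t * ang k (U t) :=
          (sum_fiberwise_of_maps_to (fun t ht => mem_image_of_mem U ht) _).symm
      _ = ∑ z ∈ T.image U, (∑ t ∈ T.filter (fun t => U t = z), β t) * ang k z := by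
          refine sum_congr rfl fun z _ => ?_
          rw [sum_mul]
          refine sum_congr rfl fun t ht => ?_
          rw [(mem_filter.1 ht).2]
  · have h1 : ∀ z ∈ T.image U, ‖∑ t ∈ T.filter (fun t => U t = z), β t‖ ^ 2 ≤
        (((T ×ˢ T).filter (fun s => U s.1 = z ∧ U s.2 = z)).card : ℝ) := by
      intro z _
      have h2 : ‖∑ t ∈ T.filter (fun t => U t = z), β t‖ ≤
          ((T.filter (fun t => U t = z)).card : ℝ) := by
        calc ‖∑ t ∈ T.filter (fun t => U t = z), β t‖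
            ≤ ∑ t ∈ T.filter (fun t => U t = z), ‖β t‖ := norm_sum_le _ _
          _ ≤ ∑ t ∈ T.filter (fun t => U t = z), (1 : ℝ) := sum_le_sum fun t _ => hβ t
          _ = _ := by simp
      have h3 : (T ×ˢ T).filter (fun s => U s.1 = z ∧ U s.2 = z) =
          T.filter (fun t => U t = z) ×ˢ T.filter (fun t => U t = z) := by
        ext s
        simp only [mem_filter, mem_product]
        tauto
      rw [h3, card_product]
      push_cast
      rw [sq]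
      exact mul_le_mul h2 h2 (norm_nonneg _) (Nat.cast_nonneg _)
    refine (sum_le_sum h1).trans ?_
    have h4 : ∑ z ∈ T.image U, ((T ×ˢ T).filter (fun s => U s.1 = z ∧ U s.2 = z)).card ≤
        (momD B l l x x).card := by
      rw [← card_biUnion]
      · apply card_le_card
        intro s hs
        rw [mem_biUnion] at hs
        obtain ⟨z, _, hs⟩ := hs
        rw [mem_filter, mem_product] at hs
        obtain ⟨⟨hs1, hs2⟩, hz1, hz2⟩ := hs
        rw [mem_momD]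
        exact ⟨hmem _ hs1, hmem _ hs2, hz1.trans hz2.symm⟩
      · intro z _ z' _ hzz
        rw [Function.onFun, disjoint_left]
        intro s hs hs'
        rw [mem_filter] at hs hs'
        exact hzz (hs.2.1.symm.trans hs'.2.1)
    exact_mod_cast h4

theorem mom_w_le (l : ℕ) : 1 + (l : ℝ) * Real.log 2 ≤ 2 ^ l := by
  have h1 : Real.log 2 ≤ 1 := by
    have := Real.log_two_lt_d9
    linarith
  have h2 : (l : ℝ) * Real.log 2 ≤ l := by
    have : (0 : ℝ) ≤ l := Nat.cast_nonneg _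
    nlinarith
  have h3 : (l : ℝ) + 1 ≤ 2 ^ l := by
    have : l + 1 ≤ 2 ^ l := Nat.lt_two_pow_self
    exact_mod_cast this
  linarith

theorem moment_pr : ∃ C : ℝ, 1 ≤ C ∧ ∀ (K x M : ℝ) (B : Finset ℕ) (b : ℕ → ℂ) (a : ℕ → ℂ) (l : ℕ),
    0 ≤ K → 1 ≤ x → 1 ≤ M → Pset B → (∀ p ∈ B, M < (p : ℝ) ∧ (p : ℝ) ≤ 2 * M) →
    (∀ p, ‖b p‖ ≤ 1) → (∀ z, ‖a z‖ ≤ 1) →
      ∑ k ∈ Ks K, ‖(∑ p ∈ B, b p * ang k p) ^ l * ∑ z ∈ PB x, a z * ang k z‖ ^ 2 ≤
        C * (K + x * (2 * M) ^ l) * (x * (2 * M) ^ l) * C ^ l * l.factorial := by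
  obtain ⟨C₁, hC₁, hls⟩ := large_sieve_w
  refine ⟨max C₁ 32, le_max_of_le_left hC₁, ?_⟩
  intro K x M B b a l hK hx hM hB h hb ha
  have hN1 : 1 ≤ x * (2 * M) ^ l :=
    one_le_mul_of_one_le_of_one_le hx (one_le_pow₀ (by linarith))
  have hβ : ∀ t : (Fin l → ℕ) × ℕ, ‖(∏ i, b (t.1 i)) * a t.2‖ ≤ 1 := by
    intro t
    rw [norm_mul, norm_prod]
    have h1 : ∏ i, ‖b (t.1 i)‖ ≤ 1 := prod_le_one (fun i _ => norm_nonneg _) (fun i _ => hb _)
    exact mul_le_one₀ h1 (norm_nonneg _) (ha _)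
  obtain ⟨S, c, hS, hc1, hc2⟩ := mom_fibre hM hB h l x _ hβ
  have h1 : ∑ k ∈ Ks K, ‖(∑ p ∈ B, b p * ang k p) ^ l * ∑ z ∈ PB x, a z * ang k z‖ ^ 2 =
      ∑ k ∈ Ks K, ‖∑ z ∈ S, c z * ang k z‖ ^ 2 := by
    refine sum_congr rfl fun k _ => ?_
    rw [mom_expand, hc1]
  rw [h1]
  have hw1 : 1 ≤ 1 + (l : ℝ) * Real.log 2 := by
    have := Real.log_nonneg (by norm_num : (1 : ℝ) ≤ 2)
    have h0 : (0 : ℝ) ≤ l := Nat.cast_nonneg _
    nlinarith
  have h2 := hls K (x * (2 * M) ^ l) (1 + l * Real.log 2) S hK hN1 hw1 hS c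
  have h3 := momD_diag hM hB h l (x := x) (by linarith)
  refine h2.trans ?_
  have hw2 := mom_w_le l
  have hKN : 0 ≤ K + x * (2 * M) ^ l := by positivity
  have hC0 : 0 ≤ C₁ := by linarith
  have h4 : 0 ≤ C₁ * (1 + l * Real.log 2) * (K + x * (2 * M) ^ l) := by positivity
  refine (mul_le_mul_of_nonneg_left (hc2.trans h3) h4).trans ?_
  have h5 : (32 : ℝ) ^ l ≤ (max C₁ 32) ^ l := pow_le_pow_left₀ (by norm_num) (le_max_right _ _) l
  have h6 : C₁ ≤ max C₁ 32 := le_max_left _ _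
  calc C₁ * (1 + l * Real.log 2) * (K + x * (2 * M) ^ l) *
        (x * (2 * M) ^ l * 16 ^ l * l.factorial)
      ≤ C₁ * 2 ^ l * (K + x * (2 * M) ^ l) * (x * (2 * M) ^ l * 16 ^ l * l.factorial) := by
        gcongr
    _ = C₁ * (K + x * (2 * M) ^ l) * (x * (2 * M) ^ l) * 32 ^ l * l.factorial := by
        have e : (32 : ℝ) ^ l = 2 ^ l * 16 ^ l := by rw [← mul_pow]; norm_num
        rw [e]; ring
    _ ≤ max C₁ 32 * (K + x * (2 * M) ^ l) * (x * (2 * M) ^ l) * (max C₁ 32) ^ l * l.factorial := by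
        gcongr

end Pool.Agent.PS

end MOM

namespace Pool.Agent.PS

theorem moment : type_of% @moment_pr := @moment_pr

end Pool.Agent.PS

/-! ### Block UTJ -/

section UTJ
/-! PS, block UTJ: few_large_pr, level_one_pr, level_step_pr (ports of T2F/UCD, TJA, TJB) -/

namespace Pool.Agent.PS

open Filter Topology MeasureTheory



theorem utj_u_one_mem : (1 : ℕ) ∈ PB 1 := by
  rw [mem_PB]
  refine ⟨le_rfl, by simp, ?_⟩
  have h1 : (1 : ℝ) < Real.exp 1 := by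
    have := Real.add_one_lt_exp (show (1 : ℝ) ≠ 0 by norm_num)
    linarith
  rw [Nat.cast_one, div_lt_one (Real.exp_pos 1)]
  exact h1

open Classical in
theorem few_large_pr : ∃ C : ℝ, 1 ≤ C ∧ ∀ (m : ℕ) (χ : DirichletCharacter ℂ m) (X M α : ℝ) (B : Finset ℕ) (l : ℕ),
    1 ≤ X → 1 ≤ M → 0 < α → α ≤ 1 / 4 → Pset B → (∀ p ∈ B, M < (p : ℝ) ∧ (p : ℝ) ≤ 2 * M) →
    X ≤ M ^ l → M ^ l ≤ X * M →
      (((Ks X).filter (fun k => M ^ (1 - α) < ‖Qs χ k B‖)).card : ℝ) ≤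
        C * (X * M) ^ (2 * α) * C ^ l * l.factorial := by
  obtain ⟨C, hC, hmom⟩ := moment
  refine ⟨4 * C, by linarith, ?_⟩
  intro m χ X M α B l hX hM hα hα1 hB hBM hXl hlX
  have h := hmom X 1 M B (fun p => χ p) (fun z => if z = 1 then 1 else 0) l
    (by linarith) le_rfl hM hB hBM (fun p => chi_le χ _) (fun z => by split_ifs <;> simp)
  have hin : ∀ k : ℤ, ∑ z ∈ PB 1, (if z = (1 : ℕ) then (1 : ℂ) else 0) * ang k z = 1 := by
    intro k
    rw [Finset.sum_eq_single (1 : ℕ)]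
    · simp [ang_one]
    · intro b _ hb; simp [hb]
    · intro h; exact absurd utj_u_one_mem h
  have hQ : ∀ k : ℤ, ∑ p ∈ B, χ p * ang k p = Qs χ k B := fun k => rfl
  simp only [hin, mul_one, hQ, one_mul] at h
  set T := (Ks X).filter (fun k => M ^ (1 - α) < ‖Qs χ k B‖) with hT
  have hM0 : (0 : ℝ) < M := by linarith
  have hMl : (1 : ℝ) ≤ M ^ l := one_le_pow₀ hM
  -- lower bound
  have hlow : (T.card : ℝ) * ((M ^ (1 - α)) ^ l) ^ 2 ≤ ∑ k ∈ Ks X, ‖Qs χ k B ^ l‖ ^ 2 := by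
    calc (T.card : ℝ) * ((M ^ (1 - α)) ^ l) ^ 2 = ∑ k ∈ T, ((M ^ (1 - α)) ^ l) ^ 2 := by
          rw [Finset.sum_const, nsmul_eq_mul]
      _ ≤ ∑ k ∈ T, ‖Qs χ k B ^ l‖ ^ 2 := by
          apply Finset.sum_le_sum
          intro k hk
          have hk' := (Finset.mem_filter.mp hk).2
          rw [norm_pow]
          have h0 : (0 : ℝ) ≤ M ^ (1 - α) := Real.rpow_nonneg hM0.le _
          gcongr
      _ ≤ ∑ k ∈ Ks X, ‖Qs χ k B ^ l‖ ^ 2 :=
          Finset.sum_le_sum_of_subset_of_nonneg (Finset.filter_subset _ _)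
            (fun _ _ _ => by positivity)
  have hup : ∑ k ∈ Ks X, ‖Qs χ k B ^ l‖ ^ 2 ≤ 4 * C * (M ^ l) ^ 2 * (4 * C) ^ l * l.factorial := by
    refine le_trans h ?_
    have h1 : X + (2 * M) ^ l ≤ 2 * (2 * M) ^ l := by
      have : X ≤ (2 * M) ^ l := by
        refine le_trans hXl ?_
        exact pow_le_pow_left₀ hM0.le (by linarith) l
      linarith
    calc C * (X + (2 * M) ^ l) * ((2 * M) ^ l) * C ^ l * l.factorial
        ≤ C * (2 * (2 * M) ^ l) * ((2 * M) ^ l) * C ^ l * l.factorial := by gcongr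
      _ = 2 * C * (M ^ l) ^ 2 * (4 * C) ^ l * l.factorial := by
          rw [mul_pow, mul_pow, show (4 : ℝ) = 2 * 2 by norm_num, mul_pow]; ring
      _ ≤ 4 * C * (M ^ l) ^ 2 * (4 * C) ^ l * l.factorial := by
          gcongr
          linarith
  have hpow : ((M ^ (1 - α)) ^ l) ^ 2 * (M ^ l) ^ (2 * α) = (M ^ l) ^ 2 := by
    rw [← Real.rpow_natCast (M ^ (1 - α)) l, ← Real.rpow_mul hM0.le,
      ← Real.rpow_natCast M l, ← Real.rpow_mul hM0.le, ← Real.rpow_natCast _ 2,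
      ← Real.rpow_natCast _ 2, ← Real.rpow_mul hM0.le, ← Real.rpow_mul hM0.le,
      ← Real.rpow_add hM0]
    congr 1
    push_cast
    ring
  have hpos : (0 : ℝ) < ((M ^ (1 - α)) ^ l) ^ 2 := by positivity
  have hfin : (T.card : ℝ) * ((M ^ (1 - α)) ^ l) ^ 2 ≤
      (4 * C * (M ^ l) ^ (2 * α) * (4 * C) ^ l * l.factorial) * ((M ^ (1 - α)) ^ l) ^ 2 := by
    refine le_trans (le_trans hlow hup) (le_of_eq ?_)
    rw [← hpow]; ring
  have hcard := le_of_mul_le_mul_right hfin hpos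
  refine le_trans hcard ?_
  have h2 : (M ^ l) ^ (2 * α) ≤ (X * M) ^ (2 * α) :=
    Real.rpow_le_rpow (by positivity) hlX (by linarith)
  gcongr



theorem utj_a_Sm : ∃ C : ℝ, 1 ≤ C ∧ ∀ (m : ℕ) (χ : DirichletCharacter ℂ m) (K x : ℝ), 0 ≤ K → K ≤ x → 1 ≤ x →
    ∑ k ∈ Ks K, ‖Sm χ k x‖ ^ 2 ≤ C * x ^ 2 := by
  obtain ⟨C₁, hC₁, h₁⟩ := large_sieve
  obtain ⟨C₂, hC₂, h₂⟩ : ∃ C : ℝ, 1 ≤ C ∧ ∀ x : ℝ, 0 ≤ x → ((Bl x).card : ℝ) ≤ C * x :=
    ⟨1, le_rfl, fun x hx => by rw [one_mul]; exact Bl_card hx⟩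
  refine ⟨2 * C₁ * C₂, by nlinarith, ?_⟩
  intro m χ K x hK hKx hx
  have h := h₁ K x hK hx (fun z => (lam z : ℂ) * χ z)
  have e : ∀ k, Sm χ k x = ∑ z ∈ PB x, ((lam z : ℂ) * χ z) * ang k z := by
    intro k
    unfold Sm xi
    exact Finset.sum_congr rfl fun z _ => by ring
  simp only [e]
  refine h.trans ?_
  have hc : ∑ z ∈ PB x, ‖(lam z : ℂ) * χ z‖ ^ 2 ≤ C₂ * x := by
    calc ∑ z ∈ PB x, ‖(lam z : ℂ) * χ z‖ ^ 2 ≤ ∑ z ∈ PB x, (1 : ℝ) := by
          refine Finset.sum_le_sum fun z _ => ?_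
          have h1 : ‖(lam z : ℂ)‖ ≤ 1 := by
            rw [Complex.norm_real]; exact lam_abs z
          have h2 := chi_le χ z
          rw [norm_mul]
          have h3 := mul_le_mul h1 h2 (norm_nonneg _) zero_le_one
          rw [one_mul] at h3
          exact pow_le_one₀ (by positivity) h3
      _ = ((PB x).card : ℝ) := by simp
      _ ≤ ((Bl x).card : ℝ) := by
          exact_mod_cast Finset.card_le_card (PB_sub_Bl x)
      _ ≤ C₂ * x := h₂ x (by linarith)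
  have h0 : 0 ≤ C₁ * (K + x) := by
    have : 0 ≤ K + x := by linarith
    positivity
  calc C₁ * (K + x) * ∑ z ∈ PB x, ‖(lam z : ℂ) * χ z‖ ^ 2 ≤ C₁ * (K + x) * (C₂ * x) :=
        mul_le_mul_of_nonneg_left hc h0
    _ ≤ C₁ * (x + x) * (C₂ * x) := by
        have h1 : C₁ * (K + x) ≤ C₁ * (x + x) :=
          mul_le_mul_of_nonneg_left (by linarith) (by linarith)
        have h2 : 0 ≤ C₂ * x := by positivity
        exact mul_le_mul_of_nonneg_right h1 h2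
    _ = 2 * C₁ * C₂ * x ^ 2 := by ring

/-- the geometric sum -/
theorem utj_a_geom {ρ α P : ℝ} (hρ : 1 < ρ) (hρ2 : ρ ≤ 2) (hα : 0 < α) (hα1 : α ≤ 1 / 4)
    (hP : 2 ≤ P) (V : ℕ) (S : Finset ℕ) (hS : ∀ v ∈ S, v < V ∧ P / 2 ≤ ρ ^ v) :
    ∑ v ∈ S, (ρ ^ v : ℝ) ^ (-α) ≤ 8 * (P ^ (-α) / (α * (ρ - 1))) := by
  have hρ0 : (0 : ℝ) < ρ := by linarith
  have hP0 : (0 : ℝ) < P := by linarith
  rcases S.eq_empty_or_nonempty with h0 | hne
  · subst h0
    have h1 : 0 ≤ P ^ (-α) / (α * (ρ - 1)) :=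
      div_nonneg (Real.rpow_nonneg hP0.le _) (mul_nonneg hα.le (by linarith))
    simpa using h1
  · set q : ℝ := ρ ^ (-α) with hq
    have hq0 : 0 < q := Real.rpow_pos_of_pos hρ0 _
    have hq1 : q < 1 := Real.rpow_lt_one_of_one_lt_of_neg hρ (by linarith)
    have hqv : ∀ v : ℕ, (ρ ^ v : ℝ) ^ (-α) = q ^ v := by
      intro v
      rw [hq, ← Real.rpow_natCast, ← Real.rpow_mul hρ0.le, ← Real.rpow_natCast,
        ← Real.rpow_mul hρ0.le, mul_comm]
    set v₀ := S.min' hne with hv₀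
    have hv₀S : v₀ ∈ S := S.min'_mem hne
    have hsub : S ⊆ Finset.Ico v₀ V := by
      intro v hv
      rw [Finset.mem_Ico]
      exact ⟨S.min'_le v hv, (hS v hv).1⟩
    -- lower bound for `1 - q`
    have hlog : (ρ - 1) / 2 ≤ Real.log ρ := by
      have h1 : 1 - ρ⁻¹ ≤ Real.log ρ := Real.one_sub_inv_le_log_of_pos hρ0
      have h2 : 1 - ρ⁻¹ = (ρ - 1) / ρ := by field_simp
      have h3 : (ρ - 1) / 2 ≤ (ρ - 1) / ρ :=
        div_le_div_of_nonneg_left (by linarith) hρ0 hρ2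
      linarith
    have hlog0 : 0 < Real.log ρ := Real.log_pos hρ
    have hlog1 : Real.log ρ ≤ 1 := by
      have := Real.log_le_sub_one_of_pos hρ0
      linarith
    have h1q : α * (ρ - 1) / 4 ≤ 1 - q := by
      have hqe : q = Real.exp (-(α * Real.log ρ)) := by
        rw [hq, Real.rpow_def_of_pos hρ0]; congr 1; ring
      have ht0 : 0 ≤ α * Real.log ρ := by positivity
      have ht1 : α * Real.log ρ ≤ 1 := by nlinarith
      have hexp : Real.exp (-(α * Real.log ρ)) ≤ 1 - α * Real.log ρ / 2 := by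
        have h5 : 1 + α * Real.log ρ ≤ Real.exp (α * Real.log ρ) := by
          have := Real.add_one_le_exp (α * Real.log ρ); linarith
        rw [Real.exp_neg]
        have h6 : (Real.exp (α * Real.log ρ))⁻¹ ≤ (1 + α * Real.log ρ)⁻¹ :=
          inv_anti₀ (by linarith) h5
        have h7 : (1 + α * Real.log ρ)⁻¹ ≤ 1 - α * Real.log ρ / 2 := by
          rw [inv_le_iff_one_le_mul₀ (by linarith)]
          nlinarith
        linarith
      have h8 : α * ((ρ - 1) / 2) ≤ α * Real.log ρ := mul_le_mul_of_nonneg_left hlog hα.le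
      rw [hqe]
      linarith
    have hpos : 0 < α * (ρ - 1) / 4 := by
      have : 0 < ρ - 1 := by linarith
      positivity
    have hqv0 : q ^ v₀ ≤ 2 * P ^ (-α) := by
      rw [← hqv]
      have h1 : (ρ ^ v₀ : ℝ) ^ (-α) ≤ (P / 2) ^ (-α) :=
        Real.rpow_le_rpow_of_nonpos (by linarith) (hS v₀ hv₀S).2 (by linarith)
      have h2 : (P / 2) ^ (-α) = P ^ (-α) * 2 ^ α := by
        rw [Real.div_rpow hP0.le (by norm_num), Real.rpow_neg (by norm_num : (0 : ℝ) ≤ 2),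
          div_inv_eq_mul]
      have h3 : (2 : ℝ) ^ α ≤ 2 := by
        calc (2 : ℝ) ^ α ≤ 2 ^ (1 : ℝ) :=
              Real.rpow_le_rpow_of_exponent_le (by norm_num) (by linarith)
          _ = 2 := by simp
      have h4 : 0 ≤ P ^ (-α) := Real.rpow_nonneg hP0.le _
      calc (ρ ^ v₀ : ℝ) ^ (-α) ≤ P ^ (-α) * 2 ^ α := by rw [← h2]; exact h1
        _ ≤ P ^ (-α) * 2 := mul_le_mul_of_nonneg_left h3 h4
        _ = 2 * P ^ (-α) := by ring
    calc ∑ v ∈ S, (ρ ^ v : ℝ) ^ (-α) = ∑ v ∈ S, q ^ v := Finset.sum_congr rfl fun v _ => hqv v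
      _ ≤ ∑ v ∈ Finset.Ico v₀ V, q ^ v :=
          Finset.sum_le_sum_of_subset_of_nonneg hsub fun v _ _ => by positivity
      _ ≤ q ^ v₀ / (1 - q) := geom_sum_Ico_le_of_lt_one hq0.le hq1
      _ ≤ (2 * P ^ (-α)) / (α * (ρ - 1) / 4) := by
          have h4 : 0 ≤ 2 * P ^ (-α) := by
            have := Real.rpow_nonneg hP0.le (-α)
            positivity
          exact div_le_div₀ h4 hqv0 hpos h1q
      _ = 8 * (P ^ (-α) / (α * (ρ - 1))) := by
          have : ρ - 1 ≠ 0 := by linarith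
          field_simp
          ring

theorem level_one_pr : ∃ C : ℝ, 1 ≤ C ∧ ∀ (m : ℕ) (χ : DirichletCharacter ℂ m) (Y H ρ P Q α : ℝ) (B : Finset ℕ)
    (V : ℕ) (T : Finset ℤ), 1 ≤ Y → 1 < ρ → ρ ≤ 2 → 0 < α → α ≤ 1 / 4 → 2 ≤ P → Q ≤ H → H ≤ Y →
    Pset B → (∀ p ∈ B, P < (p : ℝ) ∧ (p : ℝ) ≤ Q ∧ (p : ℝ) ≤ ρ ^ V) → T ⊆ Ks (Y / H) →
    (∀ k ∈ T, ∀ v < V, ‖Qs χ k (blk ρ v B)‖ ≤ (ρ ^ v) ^ (1 - α)) →
      ∑ k ∈ T, ‖∑ v ∈ Finset.range V, Qs χ k (blk ρ v B) * Sm χ k (Y / ρ ^ v)‖ ^ 2 ≤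
        C * Y ^ 2 * (P ^ (-α) / (α * (ρ - 1))) ^ 2 := by
  classical
  obtain ⟨C₁, hC₁, h₁⟩ := utj_a_Sm
  refine ⟨64 * C₁, by linarith, ?_⟩
  intro m χ Y H ρ P Q α B V T hY hρ hρ2 hα hα1 hP hQH hHY _hB hBp hT hTk
  have hρ0 : (0 : ℝ) < ρ := by linarith
  set S : Finset ℕ := (Finset.range V).filter (fun v => (blk ρ v B).Nonempty) with hSdef
  -- the facts on nonempty blocks
  have hS : ∀ v ∈ S, v < V ∧ P / 2 ≤ ρ ^ v ∧ 0 < H ∧ (ρ ^ v : ℝ) ≤ H := by
    intro v hv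
    rw [hSdef, Finset.mem_filter, Finset.mem_range] at hv
    obtain ⟨hvV, p, hp⟩ := hv
    unfold blk at hp
    rw [Finset.mem_filter] at hp
    obtain ⟨hpB, hp1, hp2⟩ := hp
    obtain ⟨hpP, hpQ, _⟩ := hBp p hpB
    have h2 : (ρ ^ (v + 1) : ℝ) ≤ 2 * ρ ^ v := by
      rw [pow_succ]
      have : (0 : ℝ) < ρ ^ v := by positivity
      nlinarith
    refine ⟨hvV, by linarith, by linarith, by linarith⟩
  have hSum : ∀ k ∈ T, ‖∑ v ∈ Finset.range V, Qs χ k (blk ρ v B) * Sm χ k (Y / ρ ^ v)‖ ^ 2 ≤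
      (∑ v ∈ S, (ρ ^ v : ℝ) ^ (-α)) *
        ∑ v ∈ S, (ρ ^ v : ℝ) ^ (2 - α) * ‖Sm χ k (Y / ρ ^ v)‖ ^ 2 := by
    intro k hk
    have e1 : ∑ v ∈ Finset.range V, Qs χ k (blk ρ v B) * Sm χ k (Y / ρ ^ v) =
        ∑ v ∈ S, Qs χ k (blk ρ v B) * Sm χ k (Y / ρ ^ v) := by
      rw [hSdef, Finset.sum_filter]
      refine Finset.sum_congr rfl fun v _ => ?_
      split_ifs with h
      · rfl
      · rw [Finset.not_nonempty_iff_eq_empty] at h
        rw [h]
        simp [Qs]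
    rw [e1]
    have e2 : ‖∑ v ∈ S, Qs χ k (blk ρ v B) * Sm χ k (Y / ρ ^ v)‖ ≤
        ∑ v ∈ S, (ρ ^ v : ℝ) ^ (1 - α) * ‖Sm χ k (Y / ρ ^ v)‖ := by
      refine (norm_sum_le _ _).trans (Finset.sum_le_sum fun v hv => ?_)
      rw [norm_mul]
      exact mul_le_mul_of_nonneg_right (hTk k hk v (hS v hv).1) (norm_nonneg _)
    refine (pow_le_pow_left₀ (norm_nonneg _) e2 2).trans ?_
    refine Finset.sum_sq_le_sum_mul_sum_of_sq_le_mul S (fun v _ => by positivity)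
      (fun v _ => by positivity) (fun v _ => le_of_eq ?_)
    have hpv : (0 : ℝ) < ρ ^ v := by positivity
    have e3 : (ρ ^ v : ℝ) ^ (-α) * (ρ ^ v : ℝ) ^ (2 - α) = ((ρ ^ v : ℝ) ^ (1 - α)) ^ 2 := by
      rw [← Real.rpow_add hpv, ← Real.rpow_natCast ((ρ ^ v : ℝ) ^ (1 - α)) 2,
        ← Real.rpow_mul hpv.le]
      congr 1
      push_cast
      ring
    rw [mul_pow, ← e3]
    ring
  set W : ℝ := ∑ v ∈ S, (ρ ^ v : ℝ) ^ (-α) with hW
  have hW0 : 0 ≤ W := Finset.sum_nonneg fun v _ => by positivity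
  have hWle : W ≤ 8 * (P ^ (-α) / (α * (ρ - 1))) :=
    utj_a_geom hρ hρ2 hα hα1 hP V S fun v hv => ⟨(hS v hv).1, (hS v hv).2.1⟩
  have hv2 : ∀ v ∈ S, (ρ ^ v : ℝ) ^ (2 - α) * ∑ k ∈ T, ‖Sm χ k (Y / ρ ^ v)‖ ^ 2 ≤
      C₁ * Y ^ 2 * (ρ ^ v : ℝ) ^ (-α) := by
    intro v hv
    obtain ⟨_, _, hH0, hvH⟩ := hS v hv
    have hpv : (0 : ℝ) < ρ ^ v := by positivity
    have hY0 : (0 : ℝ) < Y := by linarith
    have h1 : ∑ k ∈ T, ‖Sm χ k (Y / ρ ^ v)‖ ^ 2 ≤ C₁ * (Y / ρ ^ v) ^ 2 := by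
      refine (Finset.sum_le_sum_of_subset_of_nonneg hT fun k _ _ => by positivity).trans ?_
      refine h₁ m χ (Y / H) (Y / ρ ^ v) (by positivity) ?_ ?_
      · exact div_le_div_of_nonneg_left hY0.le hpv hvH
      · rw [le_div_iff₀ hpv]; linarith
    have e3 : (ρ ^ v : ℝ) ^ (2 - α) = (ρ ^ v : ℝ) ^ (-α) * (ρ ^ v) ^ 2 := by
      rw [← Real.rpow_natCast (ρ ^ v) 2, ← Real.rpow_add hpv]
      congr 1
      push_cast
      ring
    calc (ρ ^ v : ℝ) ^ (2 - α) * ∑ k ∈ T, ‖Sm χ k (Y / ρ ^ v)‖ ^ 2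
        ≤ (ρ ^ v : ℝ) ^ (2 - α) * (C₁ * (Y / ρ ^ v) ^ 2) :=
          mul_le_mul_of_nonneg_left h1 (by positivity)
      _ = C₁ * Y ^ 2 * (ρ ^ v : ℝ) ^ (-α) := by
          rw [e3]
          field_simp
  calc ∑ k ∈ T, ‖∑ v ∈ Finset.range V, Qs χ k (blk ρ v B) * Sm χ k (Y / ρ ^ v)‖ ^ 2
      ≤ ∑ k ∈ T, W * ∑ v ∈ S, (ρ ^ v : ℝ) ^ (2 - α) * ‖Sm χ k (Y / ρ ^ v)‖ ^ 2 :=
        Finset.sum_le_sum hSum
    _ = W * ∑ v ∈ S, (ρ ^ v : ℝ) ^ (2 - α) * ∑ k ∈ T, ‖Sm χ k (Y / ρ ^ v)‖ ^ 2 := by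
        rw [← Finset.mul_sum, Finset.sum_comm]
        congr 1
        exact Finset.sum_congr rfl fun v _ => by rw [Finset.mul_sum]
    _ ≤ W * ∑ v ∈ S, C₁ * Y ^ 2 * (ρ ^ v : ℝ) ^ (-α) :=
        mul_le_mul_of_nonneg_left (Finset.sum_le_sum hv2) hW0
    _ = C₁ * Y ^ 2 * W ^ 2 := by
        rw [← Finset.mul_sum, ← hW]
        ring
    _ ≤ C₁ * Y ^ 2 * (8 * (P ^ (-α) / (α * (ρ - 1)))) ^ 2 := by
        refine mul_le_mul_of_nonneg_left (pow_le_pow_left₀ hW0 hWle 2) ?_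
        have : 0 ≤ C₁ := by linarith
        positivity
    _ = 64 * C₁ * Y ^ 2 * (P ^ (-α) / (α * (ρ - 1))) ^ 2 := by ring



theorem level_step_pr : ∃ C : ℝ, 1 ≤ C ∧ ∀ (m : ℕ) (χ : DirichletCharacter ℂ m) (Y K M M' α α' : ℝ)
    (B B' : Finset ℕ) (l : ℕ) (T : Finset ℤ), 1 ≤ M → M ≤ Y → 1 ≤ M' → 0 ≤ K → K ≤ Y →
    0 < α' → α' ≤ α → α ≤ 1 / 4 → Pset B' → (∀ p ∈ B', M' < (p : ℝ) ∧ (p : ℝ) ≤ 2 * M') →
    M ≤ M' ^ l → M' ^ l ≤ M * M' → T ⊆ Ks K → (∀ k ∈ T, ‖Qs χ k B‖ ≤ M ^ (1 - α)) →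
    (∀ k ∈ T, M' ^ (1 - α') ≤ ‖Qs χ k B'‖) →
      ∑ k ∈ T, ‖Qs χ k B * Sm χ k (Y / M)‖ ^ 2 ≤
        C * Y ^ 2 * M ^ (-(2 * (α - α'))) * M' ^ (2 * α') * C ^ l * l.factorial := by
  obtain ⟨C, hC1, hmom⟩ := moment
  refine ⟨4 * C, by linarith, ?_⟩
  intro m χ Y K M M' α α' B B' l T hM hMY hM' hK hKY hα' hαα hα hB' hB'r hMl hMl' hT hTB hTB'
  have hM0 : 0 < M := by linarith
  have hM'0 : 0 < M' := by linarith
  have hY0 : 0 < Y := by linarith
  have hC0 : 0 < C := by linarith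
  -- pointwise
  set W : ℝ := M ^ (2 * (1 - α)) * (M' ^ (-(2 * (1 - α')))) ^ l with hW
  have hW0 : 0 ≤ W := by positivity
  have hx1 : 1 ≤ Y / M := by rwa [le_div_iff₀ hM0, one_mul]
  have hpt : ∀ k ∈ T, ‖Qs χ k B * Sm χ k (Y / M)‖ ^ 2 ≤
      W * ‖(Qs χ k B') ^ l * Sm χ k (Y / M)‖ ^ 2 := by
    intro k hk
    have h1 : ‖Qs χ k B‖ ^ 2 ≤ M ^ (2 * (1 - α)) := by
      have h := pow_le_pow_left₀ (norm_nonneg _) (hTB k hk) 2
      refine h.trans (le_of_eq ?_)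
      rw [← Real.rpow_natCast, ← Real.rpow_mul hM0.le]
      congr 1
      push_cast
      ring
    have h2 : 1 ≤ (M' ^ (-(2 * (1 - α')))) ^ l * ‖(Qs χ k B') ^ l‖ ^ 2 := by
      have h3 : 1 ≤ M' ^ (-(2 * (1 - α'))) * ‖Qs χ k B'‖ ^ 2 := by
        have h := pow_le_pow_left₀ (by positivity) (hTB' k hk) 2
        have h4 : (M' ^ (1 - α')) ^ 2 = M' ^ (2 * (1 - α')) := by
          rw [← Real.rpow_natCast, ← Real.rpow_mul hM'0.le]
          congr 1
          push_cast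
          ring
        rw [h4] at h
        calc (1 : ℝ) = M' ^ (-(2 * (1 - α'))) * M' ^ (2 * (1 - α')) := by
              rw [← Real.rpow_add hM'0]
              simp
          _ ≤ _ := mul_le_mul_of_nonneg_left h (by positivity)
      rw [norm_pow, ← pow_mul, mul_comm l 2, pow_mul, ← mul_pow]
      exact one_le_pow₀ h3
    rw [norm_mul, norm_mul, mul_pow, mul_pow]
    calc ‖Qs χ k B‖ ^ 2 * ‖Sm χ k (Y / M)‖ ^ 2
        ≤ M ^ (2 * (1 - α)) * ‖Sm χ k (Y / M)‖ ^ 2 :=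
          mul_le_mul_of_nonneg_right h1 (by positivity)
      _ = (M ^ (2 * (1 - α)) * ‖Sm χ k (Y / M)‖ ^ 2) * 1 := by ring
      _ ≤ (M ^ (2 * (1 - α)) * ‖Sm χ k (Y / M)‖ ^ 2) *
          ((M' ^ (-(2 * (1 - α')))) ^ l * ‖(Qs χ k B') ^ l‖ ^ 2) :=
          mul_le_mul_of_nonneg_left h2 (by positivity)
      _ = _ := by rw [hW]; ring
  -- the moment
  have hm := hmom K (Y / M) M' B' (fun p => χ p) (fun z => (lam z : ℂ) * χ z) l
    hK hx1 hM' hB' hB'r (fun p => chi_le χ _) (by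
      intro z
      rw [norm_mul, Complex.norm_real, Real.norm_eq_abs]
      calc |lam z| * ‖χ z‖ ≤ 1 * 1 :=
            mul_le_mul (lam_abs z) (chi_le χ z) (norm_nonneg _) zero_le_one
        _ = 1 := by ring)
  have hrw : ∀ k : ℤ, (∑ p ∈ B', χ p * ang k p) ^ l *
      ∑ z ∈ PB (Y / M), ((lam z : ℂ) * χ z) * ang k z =
      (Qs χ k B') ^ l * Sm χ k (Y / M) := by
    intro k
    unfold Qs Sm xi
    congr 1
    refine Finset.sum_congr rfl (fun z _ => ?_)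
    ring
  simp only [hrw] at hm
  set N : ℝ := Y / M * (2 * M') ^ l with hN
  have hNY : Y ≤ N := by
    have h1 : M ≤ (2 * M') ^ l := by
      refine hMl.trans (pow_le_pow_left₀ hM'0.le (by linarith) l)
    calc Y = Y / M * M := by field_simp
      _ ≤ Y / M * (2 * M') ^ l := mul_le_mul_of_nonneg_left h1 (by positivity)
  have hN0 : 0 < N := by linarith
  have hsum : ∑ k ∈ T, ‖Qs χ k B * Sm χ k (Y / M)‖ ^ 2 ≤
      W * (2 * C * N ^ 2 * C ^ l * l.factorial) := by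
    calc ∑ k ∈ T, ‖Qs χ k B * Sm χ k (Y / M)‖ ^ 2
        ≤ ∑ k ∈ T, W * ‖(Qs χ k B') ^ l * Sm χ k (Y / M)‖ ^ 2 := Finset.sum_le_sum hpt
      _ ≤ ∑ k ∈ Ks K, W * ‖(Qs χ k B') ^ l * Sm χ k (Y / M)‖ ^ 2 :=
          Finset.sum_le_sum_of_subset_of_nonneg hT (fun k _ _ => by positivity)
      _ = W * ∑ k ∈ Ks K, ‖(Qs χ k B') ^ l * Sm χ k (Y / M)‖ ^ 2 := by
          rw [Finset.mul_sum]
      _ ≤ W * (C * (K + N) * N * C ^ l * l.factorial) :=
          mul_le_mul_of_nonneg_left hm hW0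
      _ ≤ W * (2 * C * N ^ 2 * C ^ l * l.factorial) := by
          refine mul_le_mul_of_nonneg_left ?_ hW0
          have h1 : C * (K + N) * N ≤ 2 * C * N ^ 2 := by
            have : K + N ≤ 2 * N := by linarith
            calc C * (K + N) * N ≤ C * (2 * N) * N := by
                  refine mul_le_mul_of_nonneg_right ?_ hN0.le
                  exact mul_le_mul_of_nonneg_left this hC0.le
              _ = _ := by ring
          refine mul_le_mul_of_nonneg_right ?_ (by positivity)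
          exact mul_le_mul_of_nonneg_right h1 (by positivity)
  -- the exponents
  have hWN : W * N ^ 2 ≤ Y ^ 2 * M ^ (-(2 * (α - α'))) * M' ^ (2 * α') * 4 ^ l := by
    have e1 : M ^ (2 * (1 - α)) = M ^ 2 * M ^ (-(2 * α)) := by
      rw [← Real.rpow_natCast, ← Real.rpow_add hM0]
      congr 1
      push_cast
      ring
    have e2 : (M' ^ (-(2 * (1 - α')))) ^ l * (M' ^ l) ^ 2 = (M' ^ l) ^ (2 * α') := by
      have : (M' ^ (-(2 * (1 - α')))) ^ l = (M' ^ l) ^ (-(2 * (1 - α'))) := by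
        rw [← Real.rpow_natCast, ← Real.rpow_mul hM'0.le, ← Real.rpow_natCast M' l,
          ← Real.rpow_mul hM'0.le, mul_comm]
      rw [this, ← Real.rpow_natCast (M' ^ l) 2, ← Real.rpow_add (by positivity)]
      congr 1
      push_cast
      ring
    have e3 : (M' ^ l) ^ (2 * α') ≤ M ^ (2 * α') * M' ^ (2 * α') := by
      rw [← Real.mul_rpow hM0.le hM'0.le]
      exact Real.rpow_le_rpow (by positivity) hMl' (by positivity)
    have e4 : M ^ (-(2 * (α - α'))) = M ^ (-(2 * α)) * M ^ (2 * α') := by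
      rw [← Real.rpow_add hM0]
      congr 1
      ring
    have e5 : W * N ^ 2 = Y ^ 2 * M ^ (-(2 * α)) * ((M' ^ (-(2 * (1 - α')))) ^ l * (M' ^ l) ^ 2) *
        4 ^ l := by
      rw [hW, hN, e1, mul_pow, mul_pow, div_pow]
      have : ((2 : ℝ) ^ l) ^ 2 = 4 ^ l := by
        rw [← pow_mul, mul_comm, pow_mul]
        norm_num
      rw [mul_pow, this]
      field_simp
    rw [e5, e2, e4]
    have h5 : Y ^ 2 * M ^ (-(2 * α)) * (M' ^ l) ^ (2 * α') * 4 ^ l ≤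
        Y ^ 2 * M ^ (-(2 * α)) * (M ^ (2 * α') * M' ^ (2 * α')) * 4 ^ l := by
      refine mul_le_mul_of_nonneg_right ?_ (by positivity)
      exact mul_le_mul_of_nonneg_left e3 (by positivity)
    refine h5.trans (le_of_eq ?_)
    ring
  refine hsum.trans ?_
  calc W * (2 * C * N ^ 2 * C ^ l * l.factorial)
      = (W * N ^ 2) * (2 * C * C ^ l * l.factorial) := by ring
    _ ≤ (Y ^ 2 * M ^ (-(2 * (α - α'))) * M' ^ (2 * α') * 4 ^ l) *
        (2 * C * C ^ l * l.factorial) := mul_le_mul_of_nonneg_right hWN (by positivity)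
    _ ≤ (Y ^ 2 * M ^ (-(2 * (α - α'))) * M' ^ (2 * α') * 4 ^ l) *
        (4 * C * C ^ l * l.factorial) := by
        refine mul_le_mul_of_nonneg_left ?_ (by positivity)
        refine mul_le_mul_of_nonneg_right ?_ (by positivity)
        refine mul_le_mul_of_nonneg_right ?_ (by positivity)
        linarith
    _ = _ := by
        rw [mul_pow]
        ring




end Pool.Agent.PS

end UTJ

namespace Pool.Agent.PS

theorem few_large : type_of% @few_large_pr := @few_large_pr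

theorem level_one : type_of% @level_one_pr := @level_one_pr

theorem level_step : type_of% @level_step_pr := @level_step_pr

end Pool.Agent.PS
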