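import Mathlib
import Pool.Agent.Lib_helper1.PS.Defs
import Pool.Agent.Lib_helper1.PS.Base
import Pool.Agent.Lib_helper10.T2F.MER

/-! ### Block MER -/

section MER
/-! PS, block MER: sums over primes. -/

namespace Pool.Agent.PS

open Filter Topology MeasureTheory

theorem block_le_pr : ∃ C : ℝ, 1 ≤ C ∧ ∀ (M : ℝ) (B : Finset ℕ), 2 ≤ M → Pset B →
    (∀ p ∈ B, M < (p : ℝ) ∧ (p : ℝ) ≤ 2 * M) → (B.card : ℝ) ≤ C * M / Real.log M := by
  refine ⟨3, by norm_num, fun M B hM hB hp => ?_⟩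
  have hM0 : 0 < M := by linarith
  have hlog : 0 < Real.log M := Real.log_pos (by linarith)
  rw [le_div_iff₀ hlog]
  have h1 : (B.card : ℝ) * Real.log M ≤ ∑ p ∈ B, Real.log p := by
    rw [← nsmul_eq_mul]
    apply Finset.card_nsmul_le_sum
    intro p hpB
    exact Real.log_le_log hM0 (hp p hpB).1.le
  have h2 : ∑ p ∈ B, Real.log p ≤ Chebyshev.theta (2 * M) := by
    unfold Chebyshev.theta
    apply Finset.sum_le_sum_of_subset_of_nonneg
    · intro p hpB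
      rw [Finset.mem_filter, Finset.mem_Ioc]
      exact ⟨⟨(hB p hpB).pos, Nat.le_floor (hp p hpB).2⟩, hB p hpB⟩
    · intro p hp' _
      rw [Finset.mem_filter] at hp'
      exact Real.log_nonneg (by exact_mod_cast hp'.2.one_lt.le)
  have h3 := Chebyshev.theta_le_log4_mul_x (x := 2 * M) (by linarith)
  have h4 : Real.log 4 = 2 * Real.log 2 := by
    rw [show (4 : ℝ) = 2 ^ 2 by norm_num, Real.log_pow]; norm_num
  have h5 := Real.log_two_lt_d9
  nlinarith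

theorem mer_mem {P Q : ℝ} {p : ℕ} : p ∈ pr1 P Q ↔
    p.Prime ∧ P < (p : ℝ) ∧ (p : ℝ) ≤ Q := by
  classical
  unfold pr1
  rw [Finset.mem_filter, Finset.mem_range]
  constructor
  · rintro ⟨-, h⟩; exact h
  · intro h
    refine ⟨?_, h⟩
    rw [Nat.lt_succ_iff]
    exact Nat.le_floor h.2.2

theorem mer_pset (P Q : ℝ) : Pset (pr1 P Q) := by
  intro p hp
  rw [mer_mem] at hp
  exact hp.1

theorem mer_disj {i j : ℕ} (hij : i ≠ j) :
    Disjoint (pr1 (2 ^ i) (2 ^ (i + 1))) (pr1 (2 ^ j) (2 ^ (j + 1))) := by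
  rw [Finset.disjoint_left]
  intro p hp hp'
  rw [mer_mem] at hp hp'
  rcases lt_or_gt_of_ne hij with h | h
  · have h1 : (2 : ℝ) ^ (i + 1) ≤ 2 ^ j := pow_le_pow_right₀ (by norm_num) h
    linarith [hp.2.2, hp'.2.1]
  · have h1 : (2 : ℝ) ^ (j + 1) ≤ 2 ^ i := pow_le_pow_right₀ (by norm_num) h
    linarith [hp.2.1, hp'.2.2]

/-- the reciprocal sum over a dyadic block, upper bound -/
theorem mer_dy_upper : ∃ C : ℝ, 1 ≤ C ∧ ∀ j : ℕ, 1 ≤ j →
    rs (pr1 (2 ^ j) (2 ^ (j + 1))) ≤ C / j := by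
  obtain ⟨C, hC, h⟩ := block_le_pr
  refine ⟨2 * C, by linarith, fun j hj => ?_⟩
  have hj0 : (0 : ℝ) < j := by exact_mod_cast hj
  have h2 : (2 : ℝ) ≤ 2 ^ j := by
    calc (2 : ℝ) = 2 ^ 1 := by norm_num
      _ ≤ 2 ^ j := pow_le_pow_right₀ (by norm_num) hj
  have hp0 : (0 : ℝ) < 2 ^ j := by positivity
  have hcard := h (2 ^ j) (pr1 (2 ^ j) (2 ^ (j + 1))) h2 (mer_pset _ _) (fun p hp => by
    rw [mer_mem] at hp
    refine ⟨hp.2.1, ?_⟩
    rw [pow_succ] at hp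
    linarith [hp.2.2])
  have h1 : rs (pr1 (2 ^ j) (2 ^ (j + 1))) ≤
      ((pr1 (2 ^ j) (2 ^ (j + 1))).card : ℝ) * (1 / 2 ^ j) := by
    unfold rs
    rw [← nsmul_eq_mul]
    apply Finset.sum_le_card_nsmul
    intro p hp
    rw [mer_mem] at hp
    exact one_div_le_one_div_of_le hp0 hp.2.1.le
  have hl : Real.log (2 ^ j) = j * Real.log 2 := by rw [Real.log_pow]
  have hl2 : (1 / 2 : ℝ) < Real.log 2 := by linarith [Real.log_two_gt_d9]
  calc rs (pr1 (2 ^ j) (2 ^ (j + 1))) ≤ (C * 2 ^ j / Real.log (2 ^ j)) * (1 / 2 ^ j) := by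
        refine h1.trans (mul_le_mul_of_nonneg_right hcard (by positivity))
    _ = C / (j * Real.log 2) := by
        rw [hl]; field_simp
    _ ≤ 2 * C / j := by
        rw [div_le_div_iff₀ (by positivity) hj0]
        nlinarith [mul_pos hj0 (show (0:ℝ) < C by linarith)]

theorem mer_upper_pr : ∃ C : ℝ, 1 ≤ C ∧ ∀ P Q : ℝ, 2 ≤ P → P ≤ Q →
    rs (pr1 P Q) ≤ C * (1 + Real.log (Real.log Q / Real.log P)) := by
  obtain ⟨C, hC, h⟩ := mer_dy_upper
  refine ⟨3 * C, by linarith, fun P Q hP hPQ => ?_⟩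
  have hl2 : 0 < Real.log 2 := Real.log_pos (by norm_num)
  have hlP : Real.log 2 ≤ Real.log P := Real.log_le_log (by norm_num) hP
  have hlQ : Real.log P ≤ Real.log Q := Real.log_le_log (by linarith) hPQ
  set a := ⌊Real.log P / Real.log 2⌋₊ with ha
  set b := ⌊Real.log Q / Real.log 2⌋₊ with hb
  have ha1 : 1 ≤ a := by
    apply Nat.le_floor
    rw [Nat.cast_one, one_le_div hl2]
    exact hlP
  have hab : a ≤ b := Nat.floor_le_floor (by gcongr)
  have hsub : pr1 P Q ⊆ (Finset.Icc a b).biUnion (fun j => pr1 (2 ^ j) (2 ^ (j + 1))) := by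
    classical
    intro p hp
    rw [mer_mem] at hp
    rw [Finset.mem_biUnion]
    obtain ⟨hpp, hPp, hpQ⟩ := hp
    have hp2 : 2 ≤ p := hpp.two_le
    obtain ⟨j, hj⟩ : ∃ j : ℕ, 2 ^ j < p ∧ p ≤ 2 ^ (j + 1) := by
      refine ⟨Nat.log 2 (p - 1), ?_, ?_⟩
      · have := Nat.pow_log_le_self 2 (x := p - 1) (by omega)
        omega
      · have := Nat.lt_pow_succ_log_self (b := 2) (by norm_num) (p - 1)
        omega
    have hj1 : ((2 : ℝ) ^ j) < p := by exact_mod_cast hj.1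
    have hj2 : (p : ℝ) ≤ 2 ^ (j + 1) := by exact_mod_cast hj.2
    refine ⟨j, ?_, ?_⟩
    · rw [Finset.mem_Icc]
      constructor
      · have h1 : Real.log P < (j + 1 : ℕ) * Real.log 2 := by
          rw [← Real.log_pow]
          exact Real.log_lt_log (by linarith) (by linarith)
        have h2 : Real.log P / Real.log 2 < (j + 1 : ℕ) := by
          rw [div_lt_iff₀ hl2]; exact h1
        have h3 : a < j + 1 := (Nat.floor_lt (div_nonneg (by linarith) hl2.le)).2 h2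
        omega
      · have h1 : (j : ℕ) * Real.log 2 ≤ Real.log Q := by
          rw [← Real.log_pow]
          exact Real.log_le_log (by positivity) (by linarith)
        apply Nat.le_floor
        rw [le_div_iff₀ hl2]
        exact h1
    · rw [mer_mem]
      exact ⟨hpp, hj1, hj2⟩
  have h1 : rs (pr1 P Q) ≤ ∑ j ∈ Finset.Icc a b, rs (pr1 (2 ^ j) (2 ^ (j + 1))) := by
    classical
    unfold rs
    refine (Finset.sum_le_sum_of_subset_of_nonneg hsub (fun p _ _ => by positivity)).trans ?_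
    rw [Finset.sum_biUnion]
    intro i _ j _ hij
    exact mer_disj hij
  have h2 : ∑ j ∈ Finset.Icc a b, rs (pr1 (2 ^ j) (2 ^ (j + 1))) ≤
      ∑ j ∈ Finset.Icc a b, C * ((1 : ℝ) / j) := by
    apply Finset.sum_le_sum
    intro j hj
    rw [Finset.mem_Icc] at hj
    refine (h j (by omega)).trans (le_of_eq (by ring))
  rw [← Finset.mul_sum] at h2
  have h3 := Pool.Agent.T2.mer_harm a b ha1 hab
  have ha0 : (1 : ℝ) ≤ a := by exact_mod_cast ha1
  have hblt : (b : ℝ) ≤ Real.log Q / Real.log 2 := Nat.floor_le (div_nonneg (by linarith) hl2.le)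
  have hagt : Real.log P / Real.log 2 < (a : ℝ) + 1 := Nat.lt_floor_add_one _
  have hb0 : (0 : ℝ) < b := by
    have : (a : ℝ) ≤ b := by exact_mod_cast hab
    linarith
  have h4 : (b : ℝ) / a ≤ 2 * (Real.log Q / Real.log P) := by
    have h5 : Real.log P / Real.log 2 ≤ 2 * (a : ℝ) := by linarith
    rw [div_le_iff₀ (by linarith)]
    have hP0 : 0 < Real.log P := by linarith
    rw [div_le_iff₀ hl2] at h5
    calc (b : ℝ) ≤ Real.log Q / Real.log 2 := hblt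
      _ ≤ 2 * (Real.log Q / Real.log P) * a := by
        rw [div_le_iff₀ hl2]
        calc Real.log Q = (Real.log Q / Real.log P) * Real.log P := by field_simp
          _ ≤ (Real.log Q / Real.log P) * (2 * a * Real.log 2) :=
            mul_le_mul_of_nonneg_left h5 (div_nonneg (by linarith) hP0.le)
          _ = _ := by ring
  have hP0 : 0 < Real.log P := by linarith
  have hratio : 1 ≤ Real.log Q / Real.log P := by rw [one_le_div hP0]; exact hlQ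
  have h6 : Real.log ((b : ℝ) / a) ≤ 1 + Real.log (Real.log Q / Real.log P) := by
    calc Real.log ((b : ℝ) / a) ≤ Real.log (2 * (Real.log Q / Real.log P)) :=
          Real.log_le_log (by positivity) h4
      _ = Real.log 2 + Real.log (Real.log Q / Real.log P) :=
          Real.log_mul (by norm_num) (by linarith)
      _ ≤ _ := by linarith [Real.log_two_lt_d9]
  have h7 : 0 ≤ Real.log (Real.log Q / Real.log P) := Real.log_nonneg hratio
  calc rs (pr1 P Q) ≤ C * ∑ j ∈ Finset.Icc a b, (1 : ℝ) / j := h1.trans h2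
    _ ≤ C * (2 + Real.log (Real.log Q / Real.log P)) :=
        mul_le_mul_of_nonneg_left (by linarith) (by linarith)
    _ ≤ 3 * C * (1 + Real.log (Real.log Q / Real.log P)) := by nlinarith

theorem mer_lower_pr : ∃ C : ℝ, 1 ≤ C ∧ ∀ P Q : ℝ, 2 ≤ P → P ≤ Q →
    (1 / 4) * Real.log (Real.log Q / Real.log P) - C ≤ rs (pr1 P Q) := by
  obtain ⟨C, hC, h⟩ := Pool.Agent.T2.mer_lower_pr
  refine ⟨C, hC, fun P Q hP hPQ => (h P Q hP hPQ).trans ?_⟩
  unfold rs Pool.Agent.T2.rs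
  apply Finset.sum_le_sum_of_subset_of_nonneg
  · intro p hp
    rw [Pool.Agent.T2.mer_mem] at hp
    rw [mer_mem]
    exact ⟨hp.1, hp.2.2.1, hp.2.2.2⟩
  · intro p _ _
    positivity

end Pool.Agent.PS

end MER

namespace Pool.Agent.PS

theorem block_le : type_of% @block_le_pr := @block_le_pr

theorem mer_upper : type_of% @mer_upper_pr := @mer_upper_pr

theorem mer_lower : type_of% @mer_lower_pr := @mer_lower_pr

end Pool.Agent.PS

/-! ### Block TKV -/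

section TKV
/-! PS, block TKV: the inequality of Turan and Kubilius. -/

namespace Pool.Agent.PS

open Filter Topology MeasureTheory

open Classical in
/-- the inequality for every set with regular counts of multiples -/
theorem tkv_gen (S : Finset ℕ) (y : ℝ)
    (hS : ∀ d : ℕ, 1 ≤ d → |((S.filter (fun z => d ∣ z)).card : ℝ) - y / d| ≤ 1)
    (B : Finset ℕ) (hB : Pset B) :
    ∑ z ∈ S, (om B z - rs B) ^ 2 ≤ y * rs B + B.card + (B.card + rs B) ^ 2 := by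
  set R := rs B with hRdef
  have hR0 : 0 ≤ R := by
    rw [hRdef]; unfold rs; positivity
  have hom : ∀ z : ℕ, om B z = ∑ p ∈ B, (if p ∣ z then (1 : ℝ) else 0) := by
    intro z
    unfold om
    rw [Finset.card_filter]
    push_cast
    rfl
  have hM1 : ∑ z ∈ S, om B z = ∑ p ∈ B, ((S.filter (fun z => p ∣ z)).card : ℝ) := by
    simp_rw [hom]
    rw [Finset.sum_comm]
    apply Finset.sum_congr rfl
    intro p _
    rw [Finset.card_filter]
    push_cast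
    rfl
  have hM2 : ∑ z ∈ S, om B z ^ 2 = ∑ p ∈ B, ∑ q ∈ B,
      ((S.filter (fun z => p ∣ z ∧ q ∣ z)).card : ℝ) := by
    simp_rw [hom, sq, Finset.sum_mul_sum]
    rw [Finset.sum_comm]
    apply Finset.sum_congr rfl
    intro p _
    rw [Finset.sum_comm]
    apply Finset.sum_congr rfl
    intro q _
    rw [Finset.card_filter]
    push_cast
    apply Finset.sum_congr rfl
    intro z _
    by_cases h1 : p ∣ z <;> by_cases h2 : q ∣ z <;> simp [h1, h2]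
  have hN : ((S.card : ℕ) : ℝ) ≤ y + 1 := by
    have h := hS 1 le_rfl
    have h2 : S.filter (fun z => 1 ∣ z) = S := by
      apply Finset.filter_true_of_mem
      intro z _
      exact one_dvd z
    rw [h2] at h
    have := (abs_le.mp h).2
    simp only [Nat.cast_one, div_one] at this
    linarith
  have hR : ∑ p ∈ B, y / (p : ℝ) = y * R := by
    rw [hRdef]; unfold rs
    rw [Finset.mul_sum]
    apply Finset.sum_congr rfl
    intro p _; ring
  have hM1_low : y * R - B.card ≤ ∑ z ∈ S, om B z := by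
    rw [hM1]
    have h1 : ∀ p ∈ B, y / (p : ℝ) - 1 ≤ ((S.filter (fun z => p ∣ z)).card : ℝ) := by
      intro p hp
      have := (abs_le.mp (hS p (hB p hp).one_le)).1
      linarith
    have h2 := Finset.sum_le_sum h1
    rw [Finset.sum_sub_distrib, hR] at h2
    simpa using h2
  have hM2_up : ∑ z ∈ S, om B z ^ 2 ≤ y * R + B.card + (y * R ^ 2 + (B.card : ℝ) ^ 2) -
      ∑ p ∈ B, (y / (p * p) + 1) := by
    rw [hM2]
    have h1 : ∀ p ∈ B, ∑ q ∈ B, ((S.filter (fun z => p ∣ z ∧ q ∣ z)).card : ℝ) ≤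
        (y / p + 1) + (y / p * R + B.card) - (y / (p * p) + 1) := by
      intro p hp
      rw [← Finset.add_sum_erase B _ hp]
      have h2 : ((S.filter (fun z => p ∣ z ∧ p ∣ z)).card : ℝ) ≤ y / p + 1 := by
        simp only [and_self]
        have := (abs_le.mp (hS p (hB p hp).one_le)).2
        linarith
      have h3 : ∑ q ∈ B.erase p, ((S.filter (fun z => p ∣ z ∧ q ∣ z)).card : ℝ) ≤
          ∑ q ∈ B.erase p, (y / (p * q) + 1) := by
        apply Finset.sum_le_sum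
        intro q hq
        rw [Finset.mem_erase] at hq
        have hpq : p.Coprime q := (Nat.coprime_primes (hB p hp) (hB q hq.2)).mpr (Ne.symm hq.1)
        have h4 : S.filter (fun z => p ∣ z ∧ q ∣ z) = S.filter (fun z => p * q ∣ z) := by
          apply Finset.filter_congr
          intro z _
          constructor
          · rintro ⟨h5, h6⟩
            exact hpq.mul_dvd_of_dvd_of_dvd h5 h6
          · intro h5
            exact ⟨(dvd_mul_right p q).trans h5, (dvd_mul_left q p).trans h5⟩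
        rw [h4]
        have h5 := hS (p * q) (Nat.mul_pos (hB p hp).pos (hB q hq.2).pos)
        have := (abs_le.mp h5).2
        push_cast at this
        linarith
      have h4 : ∑ q ∈ B.erase p, (y / ((p : ℝ) * q) + 1) =
          ∑ q ∈ B, (y / ((p : ℝ) * q) + 1) - (y / (p * p) + 1) := by
        rw [← Finset.add_sum_erase B _ hp]
        ring
      have h5 : ∑ q ∈ B, (y / ((p : ℝ) * q) + 1) = y / p * R + B.card := by
        rw [Finset.sum_add_distrib]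
        congr 1
        · rw [hRdef]; unfold rs
          rw [Finset.mul_sum]
          apply Finset.sum_congr rfl
          intro q _
          rw [div_mul_div_comm, mul_one]
        · simp
      linarith
    have h2 := Finset.sum_le_sum h1
    rw [Finset.sum_sub_distrib, Finset.sum_add_distrib, Finset.sum_add_distrib,
      Finset.sum_add_distrib, ← Finset.sum_mul, hR] at h2
    simp only [Finset.sum_const, nsmul_eq_mul, mul_one] at h2
    calc _ ≤ _ := h2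
      _ = _ := by ring
  have hdrop : 0 ≤ y + 1 → (0 : ℝ) ≤ ∑ p ∈ B, (y / (p * p) + 1) := by
    intro hy
    apply Finset.sum_nonneg
    intro p hp
    have h2 : (2 : ℝ) ≤ p := by exact_mod_cast (hB p hp).two_le
    have h4 : (1 : ℝ) ≤ (p : ℝ) * p := by nlinarith
    have h5 : -1 / ((p : ℝ) * p) ≤ y / (p * p) := by
      apply div_le_div_of_nonneg_right _ (by linarith)
      linarith
    have h6 : -1 ≤ -1 / ((p : ℝ) * p) := by
      rw [neg_div, neg_le_neg_iff, div_le_one (by linarith)]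
      exact h4
    linarith
  have hy1 : 0 ≤ y + 1 := le_trans (Nat.cast_nonneg _) hN
  have hd := hdrop hy1
  have hexp : ∑ z ∈ S, (om B z - R) ^ 2 =
      ∑ z ∈ S, om B z ^ 2 - 2 * R * ∑ z ∈ S, om B z + R ^ 2 * S.card := by
    have : ∀ z ∈ S, (om B z - R) ^ 2 = om B z ^ 2 - 2 * R * om B z + R ^ 2 := by
      intro z _; ring
    rw [Finset.sum_congr rfl this, Finset.sum_add_distrib, Finset.sum_sub_distrib,
      ← Finset.mul_sum, Finset.sum_const, nsmul_eq_mul]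
    ring
  rw [hexp]
  have h5 : 2 * R * (y * R - B.card) ≤ 2 * R * ∑ z ∈ S, om B z := by gcongr
  have h6 : R ^ 2 * (S.card : ℝ) ≤ R ^ 2 * (y + 1) := by gcongr
  nlinarith

/-- multiples in an interval -/
theorem tkv_ioc (a b d : ℕ) (hab : a ≤ b) :
    (((Finset.Ioc a b).filter (fun z => d ∣ z)).card : ℝ) = ((b / d : ℕ) : ℝ) - ((a / d : ℕ) : ℝ) := by
  have h1 := Nat.Ioc_filter_dvd_card_eq_div b d
  have h2 := Nat.Ioc_filter_dvd_card_eq_div a d
  have h3 : (Finset.Ioc 0 b).filter (fun z => d ∣ z) =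
      (Finset.Ioc 0 a).filter (fun z => d ∣ z) ∪ (Finset.Ioc a b).filter (fun z => d ∣ z) := by
    rw [← Finset.filter_union, Finset.Ioc_union_Ioc_eq_Ioc (Nat.zero_le a) hab]
  have h4 : Disjoint ((Finset.Ioc 0 a).filter (fun z => d ∣ z))
      ((Finset.Ioc a b).filter (fun z => d ∣ z)) := by
    apply Finset.disjoint_filter_filter
    rw [Finset.disjoint_left]
    intro z hz hz'
    rw [Finset.mem_Ioc] at hz hz'
    omega
  rw [h3, Finset.card_union_of_disjoint h4, h2] at h1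
  rw [← h1]
  push_cast
  ring

open Classical in
theorem tkv_cnt (x : ℝ) (hx : 0 ≤ x) (d : ℕ) (hd : 1 ≤ d) :
    |(((PB x).filter (fun z => d ∣ z)).card : ℝ) - ((1 - 1 / Real.exp 1) * x) / d| ≤ 1 := by
  have he : 1 ≤ Real.exp 1 := Real.one_le_exp (by norm_num)
  have hxe : 0 ≤ x / Real.exp 1 := by positivity
  have hle : x / Real.exp 1 ≤ x := div_le_self hx he
  have h1 : PB x = Finset.Ioc ⌊x / Real.exp 1⌋₊ ⌊x⌋₊ := by
    ext z
    rw [mem_PB, Finset.mem_Ioc, Nat.floor_lt hxe, Nat.le_floor_iff hx]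
    constructor
    · rintro ⟨_, h2, h3⟩
      exact ⟨h3, h2⟩
    · rintro ⟨h2, h3⟩
      refine ⟨?_, h3, h2⟩
      have : (0 : ℝ) < z := lt_of_le_of_lt hxe h2
      exact_mod_cast this
  have h2 : (((PB x).filter (fun z => d ∣ z)).card : ℝ) =
      ((⌊x⌋₊ / d : ℕ) : ℝ) - ((⌊x / Real.exp 1⌋₊ / d : ℕ) : ℝ) := by
    rw [h1, ← tkv_ioc _ _ d (Nat.floor_le_floor hle)]
  rw [h2, ← Nat.floor_div_natCast, ← Nat.floor_div_natCast]
  have hd0 : (0 : ℝ) < d := by exact_mod_cast hd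
  have ha1 := Nat.floor_le (show 0 ≤ x / d by positivity)
  have ha2 := Nat.lt_floor_add_one (x / d)
  have hb1 := Nat.floor_le (show 0 ≤ x / Real.exp 1 / d by positivity)
  have hb2 := Nat.lt_floor_add_one (x / Real.exp 1 / d)
  have h3 : ((1 - 1 / Real.exp 1) * x) / d = x / d - x / Real.exp 1 / d := by
    have := Real.exp_pos 1
    field_simp
  rw [h3, abs_le]
  constructor <;> linarith

theorem tkv_card (x : ℝ) (hx : 1 ≤ x) (B : Finset ℕ) (hB : Pset B)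
    (hb : ∀ p ∈ B, (p : ℝ) ≤ x ^ (1 / 4 : ℝ)) : (B.card : ℝ) ≤ x ^ (1 / 4 : ℝ) := by
  have h1 : B ⊆ Finset.Icc 1 ⌊x ^ (1 / 4 : ℝ)⌋₊ := by
    intro p hp
    rw [Finset.mem_Icc]
    exact ⟨(hB p hp).one_le, Nat.le_floor (hb p hp)⟩
  have h2 := Finset.card_le_card h1
  rw [Nat.card_Icc, Nat.add_sub_cancel] at h2
  calc (B.card : ℝ) ≤ (⌊x ^ (1 / 4 : ℝ)⌋₊ : ℝ) := by exact_mod_cast h2
    _ ≤ _ := Nat.floor_le (by positivity)

theorem tkv_rs_le (B : Finset ℕ) (hB : Pset B) : rs B ≤ B.card := by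
  unfold rs
  calc ∑ p ∈ B, 1 / (p : ℝ) ≤ ∑ p ∈ B, (1 : ℝ) := by
        apply Finset.sum_le_sum
        intro p hp
        have h2 : (1 : ℝ) ≤ p := by exact_mod_cast (hB p hp).one_le
        rw [div_le_one (by linarith)]
        exact h2
    _ = B.card := by simp

theorem tk_var_pr : ∃ C : ℝ, 1 ≤ C ∧ ∀ (x : ℝ) (B : Finset ℕ), 1 ≤ x → Pset B →
    (∀ p ∈ B, (p : ℝ) ≤ x ^ (1 / 4 : ℝ)) → 1 ≤ rs B →
      ∑ z ∈ PB x, (om B z - rs B) ^ 2 ≤ C * x * rs B := by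
  refine ⟨6, by norm_num, ?_⟩
  intro x B hx hB hb hR
  have hx0 : 0 < x := by linarith
  have h1 := tkv_gen (PB x) ((1 - 1 / Real.exp 1) * x) (fun d hd => tkv_cnt x hx0.le d hd) B hB
  have h2 := tkv_card x hx B hB hb
  have h3 := tkv_rs_le B hB
  set b : ℝ := (B.card : ℝ)
  set R := rs B
  set t := x ^ (1 / 4 : ℝ) with ht
  have ht1 : 1 ≤ t := Real.one_le_rpow hx (by norm_num)
  have ht2 : t ^ 2 ≤ x := by
    have h4 : t ^ 2 = x ^ (1 / 2 : ℝ) := by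
      rw [ht, ← Real.rpow_natCast, ← Real.rpow_mul hx0.le]; norm_num
    rw [h4]
    calc x ^ (1 / 2 : ℝ) ≤ x ^ (1 : ℝ) := Real.rpow_le_rpow_of_exponent_le hx (by norm_num)
      _ = x := Real.rpow_one x
  have h5 : (1 - 1 / Real.exp 1) * x * R ≤ x * R := by
    have h6 : 0 ≤ 1 / Real.exp 1 := by positivity
    have h7 : 0 ≤ x * R := by nlinarith
    nlinarith
  have hb0 : 0 ≤ b := Nat.cast_nonneg _
  have h8 : (b + R) ^ 2 ≤ (2 * t) ^ 2 := by
    apply pow_le_pow_left₀ (by linarith)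
    linarith
  have h9 : b ≤ x := by nlinarith
  have h10 : x ≤ x * R := by nlinarith
  nlinarith

theorem tk_fix_pr (B : Finset ℕ) (hB : Pset B) (hB1 : 1 ≤ rs B) : ∃ X₀ : ℕ, ∀ X : ℕ, X₀ ≤ X →
    ∑ n ∈ Finset.Icc 1 X, (om B n - rs B) ^ 2 ≤ 2 * X * rs B := by
  classical
  obtain ⟨X₀, hX₀⟩ := exists_nat_ge ((B.card : ℝ) + (B.card + rs B) ^ 2)
  refine ⟨X₀, ?_⟩
  intro X hX
  have hcnt : ∀ d : ℕ, 1 ≤ d →
      |(((Finset.Icc 1 X).filter (fun z => d ∣ z)).card : ℝ) - (X : ℝ) / d| ≤ 1 := by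
    intro d hd
    have h1 : Finset.Icc 1 X = Finset.Ioc 0 X := by
      ext z; rw [Finset.mem_Icc, Finset.mem_Ioc]; omega
    have h2 := tkv_ioc 0 X d (Nat.zero_le _)
    have h3 : (((Finset.Icc 1 X).filter (fun z => d ∣ z)).card : ℝ) = ((X / d : ℕ) : ℝ) := by
      rw [h1]
      simpa using h2
    rw [h3]
    have hd0 : (0 : ℝ) < d := by exact_mod_cast hd
    have h4 : ((X / d : ℕ) : ℝ) ≤ (X : ℝ) / d := Nat.cast_div_le
    have h5 : (X : ℝ) / d ≤ ((X / d : ℕ) : ℝ) + 1 := by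
      rw [div_le_iff₀ hd0]
      have := Nat.lt_mul_div_succ X (show 0 < d by omega)
      have h6 : (X : ℝ) < d * (((X / d : ℕ) : ℝ) + 1) := by exact_mod_cast this
      linarith
    rw [abs_le]
    constructor <;> linarith
  have h1 := tkv_gen (Finset.Icc 1 X) X hcnt B hB
  have h2 : (X₀ : ℝ) ≤ X := by exact_mod_cast hX
  have h3 : (X : ℝ) ≤ X * rs B := by
    have : (0 : ℝ) ≤ X := Nat.cast_nonneg _
    nlinarith
  linarith

end Pool.Agent.PS

end TKV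

namespace Pool.Agent.PS

theorem tk_var : type_of% @tk_var_pr := @tk_var_pr

theorem tk_fix : type_of% @tk_fix_pr := @tk_fix_pr

end Pool.Agent.PS

/-! ### Block TKA -/

section TKA
/-!
# PS block TKA: prime divisors of the integers of a short annulus
-/

namespace Pool.Agent.PS

open Filter Topology MeasureTheory

theorem tka_cnt {x ρ : ℝ} (hx : 1 ≤ x) (hρ : 1 < ρ) {d : ℕ} (hd : 1 ≤ d) :
    (((Bl (ρ * x)).filter (fun z : ℕ => x < (z : ℝ) ∧ d ∣ z)).card : ℝ) ≤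
      (ρ - 1) * x / d + 1 := by
  have hd0 : (0 : ℝ) < d := by exact_mod_cast hd
  have hsub : (Bl (ρ * x)).filter (fun z : ℕ => x < (z : ℝ) ∧ d ∣ z) ⊆
      (Finset.Ioc ⌊x / d⌋₊ ⌊ρ * x / d⌋₊).image (fun m => d * m) := by
    intro z hz
    rw [Finset.mem_filter, mem_Bl] at hz
    obtain ⟨⟨_, hz2⟩, hz3, m, rfl⟩ := hz
    rw [Finset.mem_image]
    refine ⟨m, ?_, rfl⟩
    push_cast at hz2 hz3
    rw [Finset.mem_Ioc]
    constructor
    · rw [Nat.floor_lt (by positivity), div_lt_iff₀ hd0]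
      linarith
    · apply Nat.le_floor
      rw [le_div_iff₀ hd0]
      linarith
  have h1 : (((Bl (ρ * x)).filter (fun z : ℕ => x < (z : ℝ) ∧ d ∣ z)).card : ℝ) ≤
      ((⌊ρ * x / d⌋₊ - ⌊x / d⌋₊ : ℕ) : ℝ) := by
    have := (Finset.card_le_card hsub).trans Finset.card_image_le
    rw [Nat.card_Ioc] at this
    exact_mod_cast this
  have h2 : ⌊x / d⌋₊ ≤ ⌊ρ * x / d⌋₊ := by
    apply Nat.floor_le_floor
    gcongr
    nlinarith
  rw [Nat.cast_sub h2] at h1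
  have h3 : (⌊ρ * x / d⌋₊ : ℝ) ≤ ρ * x / d := Nat.floor_le (by positivity)
  have h4 : x / d < ⌊x / d⌋₊ + 1 := Nat.lt_floor_add_one _
  have h5 : (ρ - 1) * x / d = ρ * x / d - x / d := by ring
  linarith

theorem tka_om (B : Finset ℕ) (z : ℕ) :
    om B z = ∑ p ∈ B, if p ∣ z then (1 : ℝ) else 0 := by
  classical
  unfold om
  rw [Finset.sum_boole]

theorem tka_card {x : ℝ} (hx : 1 ≤ x) {B : Finset ℕ} (hB : Pset B)
    (hB1 : ∀ p ∈ B, (p : ℝ) ≤ 2 * x ^ (1 / 4 : ℝ)) : (B.card : ℝ) ≤ 2 * x ^ (1 / 4 : ℝ) := by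
  have hsub : B ⊆ Finset.Ioc 0 ⌊2 * x ^ (1 / 4 : ℝ)⌋₊ := by
    intro p hp
    rw [Finset.mem_Ioc]
    exact ⟨(hB p hp).pos, Nat.le_floor (hB1 p hp)⟩
  have h := Finset.card_le_card hsub
  rw [Nat.card_Ioc, Nat.sub_zero] at h
  calc (B.card : ℝ) ≤ ⌊2 * x ^ (1 / 4 : ℝ)⌋₊ := by exact_mod_cast h
    _ ≤ _ := Nat.floor_le (by positivity)

theorem tka_pair {x ρ : ℝ} (hx : 1 ≤ x) (hρ : 1 < ρ) {p q : ℕ} (hp : p.Prime) (hq : q.Prime) :
    (((Bl (ρ * x)).filter (fun z : ℕ => x < (z : ℝ) ∧ (p ∣ z ∧ q ∣ z))).card : ℝ) ≤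
      (ρ - 1) * x * (1 / p * (1 / q)) + 1 + if p = q then (ρ - 1) * x * (1 / p) else 0 := by
  have h0 : 0 ≤ (ρ - 1) * x := mul_nonneg (by linarith) (by linarith)
  have hp0 : (0 : ℝ) < p := by exact_mod_cast hp.pos
  have hq0 : (0 : ℝ) < q := by exact_mod_cast hq.pos
  by_cases hpq : p = q
  · subst hpq
    rw [if_pos rfl]
    have h := tka_cnt hx hρ hp.one_le
    have he : (Bl (ρ * x)).filter (fun z : ℕ => x < (z : ℝ) ∧ (p ∣ z ∧ p ∣ z)) =
        (Bl (ρ * x)).filter (fun z : ℕ => x < (z : ℝ) ∧ p ∣ z) := by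
      apply Finset.filter_congr
      intro z _
      rw [and_self]
    rw [he]
    have h2 : 0 ≤ (ρ - 1) * x * (1 / (p : ℝ) * (1 / p)) := by positivity
    have h3 : (ρ - 1) * x / p = (ρ - 1) * x * (1 / p) := by ring
    linarith
  · rw [if_neg hpq]
    have h := tka_cnt hx hρ (d := p * q) (Nat.mul_pos hp.pos hq.pos)
    have he : (Bl (ρ * x)).filter (fun z : ℕ => x < (z : ℝ) ∧ (p ∣ z ∧ q ∣ z)) =
        (Bl (ρ * x)).filter (fun z : ℕ => x < (z : ℝ) ∧ p * q ∣ z) := by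
      apply Finset.filter_congr
      intro z _
      have hc : Nat.Coprime p q := (Nat.coprime_primes hp hq).2 hpq
      constructor
      · rintro ⟨a, b, c⟩
        exact ⟨a, hc.mul_dvd_of_dvd_of_dvd b c⟩
      · rintro ⟨a, b⟩
        exact ⟨a, (dvd_mul_right p q).trans b, (dvd_mul_left q p).trans b⟩
    rw [he, add_zero]
    push_cast at h
    have h3 : (ρ - 1) * x / ((p : ℝ) * q) = (ρ - 1) * x * (1 / p * (1 / q)) := by
      field_simp
    linarith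

theorem tk_ann_pr : ∃ C : ℝ, 1 ≤ C ∧ ∀ (x ρ : ℝ) (B : Finset ℕ), 1 ≤ x → 1 < ρ → ρ ≤ 2 →
    x ^ (-(1 / 16) : ℝ) ≤ 2 * (ρ - 1) → Pset B → (∀ p ∈ B, (p : ℝ) ≤ 2 * x ^ (1 / 4 : ℝ)) →
      ∑ z ∈ (Bl (ρ * x)).filter (fun z : ℕ => x < (z : ℝ)), om B z ^ 2 ≤
        C * (ρ - 1) * x * (rs B + 1) ^ 2 := by
  refine ⟨8, by norm_num, ?_⟩
  intro x ρ B hx hρ hρ2 hxρ hB hB1
  have h0 : 0 ≤ (ρ - 1) * x := mul_nonneg (by linarith) (by linarith)
  have hrs : 0 ≤ rs B := by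
    unfold rs
    positivity
  -- open the square
  have h1 : ∑ z ∈ (Bl (ρ * x)).filter (fun z : ℕ => x < (z : ℝ)), om B z ^ 2 =
      ∑ p ∈ B, ∑ q ∈ B,
        (((Bl (ρ * x)).filter (fun z : ℕ => x < (z : ℝ) ∧ (p ∣ z ∧ q ∣ z))).card : ℝ) := by
    have e1 : ∀ z : ℕ, om B z ^ 2 =
        ∑ p ∈ B, ∑ q ∈ B, if p ∣ z ∧ q ∣ z then (1 : ℝ) else 0 := by
      intro z
      rw [tka_om, sq, Finset.sum_mul_sum]
      refine Finset.sum_congr rfl fun p _ => Finset.sum_congr rfl fun q _ => ?_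
      by_cases a : p ∣ z <;> by_cases b : q ∣ z <;> simp [a, b]
    simp_rw [e1]
    rw [Finset.sum_comm]
    refine Finset.sum_congr rfl fun p _ => ?_
    rw [Finset.sum_comm]
    refine Finset.sum_congr rfl fun q _ => ?_
    rw [Finset.sum_boole, Finset.filter_filter]
  rw [h1]
  have h2 : ∑ p ∈ B, ∑ q ∈ B,
        (((Bl (ρ * x)).filter (fun z : ℕ => x < (z : ℝ) ∧ (p ∣ z ∧ q ∣ z))).card : ℝ) ≤
      ∑ p ∈ B, ∑ q ∈ B, ((ρ - 1) * x * (1 / (p : ℝ) * (1 / q)) + 1 +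
        if p = q then (ρ - 1) * x * (1 / p) else 0) :=
    Finset.sum_le_sum fun p hp => Finset.sum_le_sum fun q hq => tka_pair hx hρ (hB p hp) (hB q hq)
  refine h2.trans ?_
  have h3 : ∑ p ∈ B, ∑ q ∈ B, ((ρ - 1) * x * (1 / (p : ℝ) * (1 / q)) + 1 +
        if p = q then (ρ - 1) * x * (1 / p) else 0) =
      (ρ - 1) * x * rs B ^ 2 + (B.card : ℝ) ^ 2 + (ρ - 1) * x * rs B := by
    simp_rw [Finset.sum_add_distrib]
    congr 1
    · congr 1
      · simp_rw [← Finset.mul_sum]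
        unfold rs
        rw [sq, Finset.sum_mul]
      · simp [sq]
    · rw [rs, Finset.mul_sum]
      refine Finset.sum_congr rfl fun p hp => ?_
      rw [Finset.sum_ite_eq B p, if_pos hp]
  rw [h3]
  -- the cardinality
  have h4 : (B.card : ℝ) ^ 2 ≤ 8 * ((ρ - 1) * x) := by
    have hc := tka_card hx hB hB1
    have hx0 : 0 < x := by linarith
    have hc2 : (B.card : ℝ) ^ 2 ≤ (2 * x ^ (1 / 4 : ℝ)) ^ 2 :=
      pow_le_pow_left₀ (Nat.cast_nonneg _) hc 2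
    have e : (2 * x ^ (1 / 4 : ℝ)) ^ 2 = 4 * x ^ (1 / 2 : ℝ) := by
      have e0 : (x ^ (1 / 4 : ℝ)) ^ 2 = x ^ (1 / 2 : ℝ) := by
        rw [← Real.rpow_natCast, ← Real.rpow_mul hx0.le]
        norm_num
      rw [mul_pow, e0]
      norm_num
    have e2 : x ^ (1 / 2 : ℝ) ≤ x * x ^ (-(1 / 16) : ℝ) := by
      nth_rw 2 [← Real.rpow_one x]
      rw [← Real.rpow_add hx0]
      exact Real.rpow_le_rpow_of_exponent_le hx (by norm_num)
    have e3 : x * x ^ (-(1 / 16) : ℝ) ≤ x * (2 * (ρ - 1)) :=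
      mul_le_mul_of_nonneg_left hxρ hx0.le
    linarith
  nlinarith [mul_nonneg h0 hrs, mul_nonneg h0 (sq_nonneg (rs B))]


end Pool.Agent.PS

end TKA

namespace Pool.Agent.PS

theorem tk_ann : type_of% @tk_ann_pr := @tk_ann_pr

end Pool.Agent.PS

/-! ### Block TKR -/

section TKR
/-! PS, block TKR -/

namespace Pool.Agent.PS

open Filter Topology MeasureTheory

/-- the block of `p` -/
theorem tkr_block {ρ : ℝ} (hρ : 1 < ρ) {V : ℕ} {B : Finset ℕ}
    (hB : ∀ p ∈ B, 1 < (p : ℝ) ∧ (p : ℝ) ≤ ρ ^ V) :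
    ∃ b : ℕ → ℕ, (∀ p ∈ B, b p ∈ Finset.range V) ∧
      (∀ p ∈ B, ρ ^ (b p) < (p : ℝ) ∧ (p : ℝ) ≤ ρ ^ (b p + 1)) ∧
      ∀ v : ℕ, blk ρ v B = B.filter (fun p => b p = v) := by
  classical
  have hex : ∀ p ∈ B, ∃ v : ℕ, v < V ∧ ρ ^ v < (p : ℝ) ∧ (p : ℝ) ≤ ρ ^ (v + 1) := by
    intro p hp
    obtain ⟨h1, h2⟩ := hB p hp
    have hV : V ≠ 0 := by
      rintro rfl
      rw [pow_zero] at h2
      linarith
    have hne : ∃ v : ℕ, (p : ℝ) ≤ ρ ^ (v + 1) := by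
      refine ⟨V - 1, ?_⟩
      have : V - 1 + 1 = V := by omega
      rw [this]
      exact h2
    refine ⟨Nat.find hne, ?_, ?_, Nat.find_spec hne⟩
    · have h3 : Nat.find hne ≤ V - 1 := by
        apply Nat.find_min'
        have : V - 1 + 1 = V := by omega
        rw [this]
        exact h2
      omega
    · by_cases h0 : Nat.find hne = 0
      · rw [h0, pow_zero]
        exact h1
      · have h4 := Nat.find_min hne (m := Nat.find hne - 1) (by omega)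
        have h5 : Nat.find hne - 1 + 1 = Nat.find hne := by omega
        rw [h5, not_le] at h4
        exact h4
  refine ⟨fun p => if hp : p ∈ B then (hex p hp).choose else 0, ?_, ?_, ?_⟩
  · intro p hp
    simp only [dif_pos hp]
    exact Finset.mem_range.mpr (hex p hp).choose_spec.1
  · intro p hp
    simp only [dif_pos hp]
    exact (hex p hp).choose_spec.2
  · intro v
    rw [blk]
    apply Finset.filter_congr
    intro p hp
    simp only [dif_pos hp]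
    obtain ⟨h1, h2, h3⟩ := (hex p hp).choose_spec
    constructor
    · rintro ⟨h4, h5⟩
      have h6 : (hex p hp).choose < v + 1 := (pow_lt_pow_iff_right₀ hρ).mp (lt_of_lt_of_le h2 h5)
      have h7 : v < (hex p hp).choose + 1 := (pow_lt_pow_iff_right₀ hρ).mp (lt_of_lt_of_le h4 h3)
      omega
    · intro h
      rw [← h]
      exact ⟨h2, h3⟩

/-- sums over multiples of a fixed positive integer -/
theorem tkr_mul_sum {p : ℕ} (hp : 0 < p) {S T : Finset ℕ}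
    (h1 : ∀ w ∈ S, p * w ∈ T) (h2 : ∀ z ∈ T, ∃ w ∈ S, z = p * w) (F : ℕ → ℂ) :
    ∑ z ∈ T, F z = ∑ w ∈ S, F (p * w) := by
  symm
  apply Finset.sum_bij (fun w _ => p * w)
  · exact h1
  · intro a _ b _ h
    exact Nat.eq_of_mul_eq_mul_left hp h
  · intro z hz
    obtain ⟨w, hw, e⟩ := h2 z hz
    exact ⟨w, hw, e.symm⟩
  · intro _ _
    rfl

/-- the multiples of `p` that come from the window of `Y / ρ ^ b` -/
theorem tkr_shift {Y y r : ℝ} {p : ℕ} (hr : 0 < r) (hp : 0 < p)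
    (hy : y = Y / Real.exp 1) (hy3 : Y / 3 < y) (hrp : r < (p : ℝ))
    (hpr : (p : ℝ) ≤ 2 * r) (F : ℕ → ℂ) :
    ∑ w ∈ PB (Y / r), F (p * w) = ∑ z ∈ (EB (2 * Y)).filter (fun z : ℕ => p ∣ z ∧
      (z : ℝ) * r ≤ p * Y ∧ p * y < (z : ℝ) * r), F z := by
  classical
  have hp0 : (0 : ℝ) < p := by exact_mod_cast hp
  symm
  apply tkr_mul_sum hp
  · intro w hw
    rw [mem_PB] at hw
    obtain ⟨h1, h2, h3⟩ := hw
    rw [le_div_iff₀ hr] at h2
    rw [div_div, mul_comm r, ← div_div, ← hy, div_lt_iff₀ hr] at h3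
    have h1' : (1 : ℝ) ≤ w := by exact_mod_cast h1
    rw [Finset.mem_filter, mem_EB]
    push_cast
    refine ⟨⟨Nat.mul_pos hp h1, ?_, ?_⟩, dvd_mul_right _ _, ?_, ?_⟩
    · calc (p : ℝ) * w ≤ 2 * r * w := mul_le_mul_of_nonneg_right hpr (by linarith)
        _ ≤ 2 * Y := by linarith
    · have h4 : (w : ℝ) * r ≤ p * w := by
        rw [mul_comm]
        exact mul_le_mul_of_nonneg_right hrp.le (by linarith)
      linarith
    · have := mul_le_mul_of_nonneg_left h2 hp0.le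
      linarith
    · have := mul_lt_mul_of_pos_left h3 hp0
      linarith
  · intro z hz
    rw [Finset.mem_filter, mem_EB] at hz
    obtain ⟨⟨h1, _, _⟩, ⟨w, rfl⟩, h4, h5⟩ := hz
    push_cast at h4 h5
    refine ⟨w, ?_, rfl⟩
    rw [mem_PB, le_div_iff₀ hr, div_div, mul_comm r, ← div_div, ← hy, div_lt_iff₀ hr]
    refine ⟨?_, ?_, ?_⟩
    · rcases Nat.eq_zero_or_pos w with h | h
      · rw [h, mul_zero] at h1
        omega
      · exact h
    · have : (p : ℝ) * (w * r) ≤ p * Y := by linarith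
      exact le_of_mul_le_mul_left this hp0
    · have : (p : ℝ) * y < p * (w * r) := by linarith
      exact lt_of_mul_lt_mul_left this hp0.le

open Classical in
/-- the identity for one prime -/
theorem tkr_prime {m : ℕ} (χ : DirichletCharacter ℂ m) (k : ℤ) {Y ρ : ℝ} {p b : ℕ}
    (hY : 1 ≤ Y) (hρ : 1 < ρ) (hρ2 : ρ ≤ 2) (hp : p.Prime)
    (hb1 : ρ ^ b < (p : ℝ)) (hb2 : (p : ℝ) ≤ ρ ^ (b + 1)) :
    xi χ k p * Sm χ k (Y / ρ ^ b) =
      ∑ z ∈ (EB (2 * Y)).filter (fun z : ℕ => p ∣ z ∧ Y / Real.exp 1 < (z : ℝ) ∧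
          (z : ℝ) * ρ ^ b ≤ p * (Y / Real.exp 1)), (lam z : ℂ) * xi χ k z
      - ∑ z ∈ (EB (2 * Y)).filter (fun z : ℕ => p ∣ z ∧ Y < (z : ℝ) ∧
          (z : ℝ) * ρ ^ b ≤ p * Y), (lam z : ℂ) * xi χ k z
      - ∑ z ∈ (PB Y).filter (fun z => p ∣ z), (lam z : ℂ) * xi χ k z := by
  have he0 := Real.exp_pos 1
  have he3 : Real.exp 1 < 3 := by
    have := Real.exp_one_lt_d9
    linarith
  have hp0 : (0 : ℝ) < p := by exact_mod_cast hp.pos
  have hρ0 : 0 < ρ := by linarith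
  have hY0 : 0 < Y := by linarith
  obtain ⟨r, hr⟩ : ∃ r : ℝ, r = ρ ^ b := ⟨_, rfl⟩
  have hr0 : 0 < r := by rw [hr]; positivity
  rw [pow_succ] at hb2
  rw [← hr] at hb1 hb2 ⊢
  have hpr : (p : ℝ) ≤ 2 * r := by nlinarith
  obtain ⟨y, hy⟩ : ∃ y : ℝ, y = Y / Real.exp 1 := ⟨_, rfl⟩
  rw [← hy]
  have hy3 : Y / 3 < y := by
    rw [hy]
    exact div_lt_div_of_pos_left hY0 he0 he3
  have hyY : y ≤ Y := by
    rw [hy]
    exact div_le_self hY0.le (Real.one_le_exp zero_le_one)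
  have h1 : xi χ k p * Sm χ k (Y / r) =
      -∑ w ∈ PB (Y / r), (fun n : ℕ => (lam n : ℂ) * xi χ k n) (p * w) := by
    rw [Sm, Finset.mul_sum, ← Finset.sum_neg_distrib]
    apply Finset.sum_congr rfl
    intro w _
    simp only
    rw [lam_mul, lam_prime hp, xi_mul]
    push_cast
    ring
  have h2 := tkr_shift hr0 hp.pos hy hy3 hb1 hpr (fun n : ℕ => (lam n : ℂ) * xi χ k n)
  rw [h1, h2]
  have hPB : (PB Y).filter (fun z => p ∣ z) = (EB (2 * Y)).filter (fun z : ℕ =>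
      ((z : ℝ) ≤ Y ∧ y < (z : ℝ)) ∧ p ∣ z) := by
    ext z
    rw [Finset.mem_filter, Finset.mem_filter, mem_PB, mem_EB, ← hy]
    constructor
    · rintro ⟨⟨h2, h3, h4⟩, h5⟩
      exact ⟨⟨h2, by linarith, by linarith⟩, ⟨h3, h4⟩, h5⟩
    · rintro ⟨⟨h2, _, _⟩, ⟨h3, h4⟩, h5⟩
      exact ⟨⟨h2, h3, h4⟩, h5⟩
  rw [hPB]
  simp only [Finset.sum_filter]
  have hz : ∀ z : ℕ, z ∈ EB (2 * Y) →
      (if p ∣ z ∧ (z : ℝ) * r ≤ p * Y ∧ p * y < (z : ℝ) * r then (lam z : ℂ) * xi χ k z else 0) +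
      (if p ∣ z ∧ y < (z : ℝ) ∧ (z : ℝ) * r ≤ p * y then (lam z : ℂ) * xi χ k z else 0) =
      (if p ∣ z ∧ Y < (z : ℝ) ∧ (z : ℝ) * r ≤ p * Y then (lam z : ℂ) * xi χ k z else 0) +
      (if ((z : ℝ) ≤ Y ∧ y < (z : ℝ)) ∧ p ∣ z then (lam z : ℂ) * xi χ k z else 0) := by
    intro z _
    by_cases hd : p ∣ z
    swap
    · simp [hd]
    have hz0 : (0 : ℝ) ≤ z := Nat.cast_nonneg _
    -- the two implications
    have i1 : (z : ℝ) ≤ Y → (z : ℝ) * r ≤ p * Y := by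
      intro h
      calc (z : ℝ) * r ≤ Y * p := mul_le_mul h hb1.le hr0.le hY0.le
        _ = p * Y := mul_comm _ _
    have i2 : p * y < (z : ℝ) * r → y < z := by
      intro h
      by_contra hcon
      push Not at hcon
      have : (z : ℝ) * r ≤ y * p := mul_le_mul hcon hb1.le hr0.le (hz0.trans hcon)
      linarith
    have i3 : (z : ℝ) * r ≤ p * y → (z : ℝ) * r ≤ p * Y := by
      intro h
      refine h.trans ?_
      exact mul_le_mul_of_nonneg_left hyY hp0.le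
    have i4 : y < (z : ℝ) → (z : ℝ) * r ≤ p * y → (z : ℝ) ≤ Y := by
      intro _ h
      have h5 : (z : ℝ) * r ≤ (2 * y) * r := by
        refine h.trans ?_
        have hy0 : 0 ≤ y := by linarith
        have := mul_le_mul_of_nonneg_right hpr hy0
        linarith
      have h6 : (z : ℝ) ≤ 2 * y := le_of_mul_le_mul_right h5 hr0
      have h7 : 2 * y ≤ Y := by
        rw [hy]
        have he2 : (2 : ℝ) ≤ Real.exp 1 := by
          have := Real.exp_one_gt_d9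
          linarith
        rw [mul_div_assoc', div_le_iff₀ he0]
        nlinarith
      linarith
    by_cases c1 : (z : ℝ) ≤ Y
    · have n1 : ¬ Y < (z : ℝ) := not_lt.mpr c1
      by_cases c2 : y < (z : ℝ)
      · by_cases c3 : (z : ℝ) * r ≤ p * y
        · have n3 : ¬ p * y < (z : ℝ) * r := not_lt.mpr c3
          simp [hd, c1, n1, c2, c3, n3]
        · have n3 : p * y < (z : ℝ) * r := not_le.mp c3
          simp [hd, c1, n1, c2, c3, n3, i1 c1]
      · have n3 : ¬ p * y < (z : ℝ) * r := fun h => c2 (i2 h)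
        simp [n1, c2, n3]
    · have n1 : Y < (z : ℝ) := not_le.mp c1
      have c2 : y < (z : ℝ) := by linarith
      have c3 : ¬ (z : ℝ) * r ≤ p * y := fun h => c1 (i4 c2 h)
      have n3 : p * y < (z : ℝ) * r := not_le.mp c3
      by_cases c4 : (z : ℝ) * r ≤ p * Y
      · simp [hd, c1, n1, c2, c3, n3, c4]
      · simp [c1, c3, c4]
  have hs := Finset.sum_congr (rfl : EB (2 * Y) = EB (2 * Y)) hz
  rw [Finset.sum_add_distrib, Finset.sum_add_distrib] at hs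
  linear_combination -hs

theorem tkr_three (a b c : ℂ) : ‖a + b + c‖ ^ 2 ≤ 3 * (‖a‖ ^ 2 + ‖b‖ ^ 2 + ‖c‖ ^ 2) := by
  have h := norm_add_le (a + b) c
  have h2 := norm_add_le a b
  have h3 : ‖a + b + c‖ ≤ ‖a‖ + ‖b‖ + ‖c‖ := by linarith
  have h4 : ‖a + b + c‖ ^ 2 ≤ (‖a‖ + ‖b‖ + ‖c‖) ^ 2 := pow_le_pow_left₀ (norm_nonneg _) h3 2
  nlinarith [sq_nonneg (‖a‖ - ‖b‖), sq_nonneg (‖b‖ - ‖c‖), sq_nonneg (‖a‖ - ‖c‖)]

open Classical in
/-- the multiples counted in an annulus -/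
theorem tkr_ann {C₂ : ℝ} {x Y ρ : ℝ} {B : Finset ℕ} {b : ℕ → ℕ} (hx0 : 0 < x) (hxY : x ≤ Y)
    (hx3 : Y / 3 < x) (hρ : 1 < ρ) (hρ2 : ρ ≤ 2) (hC₂ : 1 ≤ C₂) (hrs : 1 ≤ rs B)
    (hb : ∀ p ∈ B, ρ ^ (b p) < (p : ℝ) ∧ (p : ℝ) ≤ ρ ^ (b p + 1))
    (hA : ∑ z ∈ (Bl (ρ * x)).filter (fun z : ℕ => x < (z : ℝ)), om B z ^ 2 ≤
        C₂ * (ρ - 1) * x * (rs B + 1) ^ 2) :
    ∑ z ∈ EB (2 * Y), (1 / rs B * ((B.filter (fun p => p ∣ z ∧ x < (z : ℝ) ∧
      (z : ℝ) * ρ ^ (b p) ≤ p * x)).card : ℝ)) ^ 2 ≤ 4 * C₂ * ((ρ - 1) * Y) := by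
  obtain ⟨Ω, hΩ⟩ : ∃ Ω : ℝ, Ω = rs B := ⟨_, rfl⟩
  rw [← hΩ] at hrs hA ⊢
  have hΩ0 : 0 < Ω := by linarith
  have hY0 : 0 < Y := by linarith
  have hsub : (Bl (ρ * x)).filter (fun z : ℕ => x < (z : ℝ)) ⊆ EB (2 * Y) := by
    intro z hz
    rw [Finset.mem_filter, mem_Bl] at hz
    rw [mem_EB]
    refine ⟨hz.1.1, ?_, by linarith [hz.2]⟩
    calc (z : ℝ) ≤ ρ * x := hz.1.2
      _ ≤ 2 * Y := mul_le_mul hρ2 hxY hx0.le (by norm_num)
  have hzero : ∀ z ∈ EB (2 * Y), z ∉ (Bl (ρ * x)).filter (fun z : ℕ => x < (z : ℝ)) →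
      (1 / Ω * ((B.filter (fun p => p ∣ z ∧ x < (z : ℝ) ∧
      (z : ℝ) * ρ ^ (b p) ≤ p * x)).card : ℝ)) ^ 2 = 0 := by
    intro z hz hz2
    rw [mem_EB] at hz
    have hem : B.filter (fun p => p ∣ z ∧ x < (z : ℝ) ∧ (z : ℝ) * ρ ^ (b p) ≤ p * x) = ∅ := by
      rw [Finset.filter_eq_empty_iff]
      rintro p hp ⟨_, h2, h3⟩
      apply hz2
      rw [Finset.mem_filter, mem_Bl]
      refine ⟨⟨hz.1, ?_⟩, h2⟩
      have hρb : 0 < ρ ^ (b p) := by positivity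
      have h4 : (z : ℝ) * ρ ^ (b p) ≤ (ρ * x) * ρ ^ (b p) := by
        refine le_trans h3 ?_
        have h5 := (hb p hp).2
        rw [pow_succ] at h5
        calc (p : ℝ) * x ≤ (ρ ^ (b p) * ρ) * x := mul_le_mul_of_nonneg_right h5 hx0.le
          _ = _ := by ring
      exact le_of_mul_le_mul_right h4 hρb
    rw [hem, Finset.card_empty]
    norm_num
  rw [← Finset.sum_subset hsub hzero]
  have hom : ∀ z : ℕ, (1 / Ω * ((B.filter (fun p => p ∣ z ∧ x < (z : ℝ) ∧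
      (z : ℝ) * ρ ^ (b p) ≤ p * x)).card : ℝ)) ^ 2 ≤ (1 / Ω) ^ 2 * om B z ^ 2 := by
    intro z
    rw [← mul_pow]
    apply pow_le_pow_left₀ (by positivity)
    apply mul_le_mul_of_nonneg_left _ (by positivity)
    rw [om]
    simp only [Nat.cast_le]
    apply Finset.card_le_card
    intro p hp
    rw [Finset.mem_filter] at hp ⊢
    exact ⟨hp.1, hp.2.1⟩
  have hρ1 : 0 ≤ ρ - 1 := by linarith
  calc ∑ z ∈ (Bl (ρ * x)).filter (fun z : ℕ => x < (z : ℝ)), (1 / Ω * ((B.filter (fun p =>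
        p ∣ z ∧ x < (z : ℝ) ∧ (z : ℝ) * ρ ^ (b p) ≤ p * x)).card : ℝ)) ^ 2 ≤
      ∑ z ∈ (Bl (ρ * x)).filter (fun z : ℕ => x < (z : ℝ)), (1 / Ω) ^ 2 * om B z ^ 2 :=
        Finset.sum_le_sum (fun z _ => hom z)
    _ = (1 / Ω) ^ 2 * ∑ z ∈ (Bl (ρ * x)).filter (fun z : ℕ => x < (z : ℝ)), om B z ^ 2 := by
        rw [Finset.mul_sum]
    _ ≤ (1 / Ω) ^ 2 * (C₂ * (ρ - 1) * x * (Ω + 1) ^ 2) :=
        mul_le_mul_of_nonneg_left hA (by positivity)
    _ ≤ (1 / Ω) ^ 2 * (C₂ * (ρ - 1) * Y * (2 * Ω) ^ 2) := by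
        apply mul_le_mul_of_nonneg_left _ (by positivity)
        have h1 : 0 ≤ C₂ * (ρ - 1) := by positivity
        apply mul_le_mul (mul_le_mul_of_nonneg_left hxY h1) _ (by positivity) (by positivity)
        apply pow_le_pow_left₀ (by linarith)
        linarith
    _ = 4 * C₂ * ((ρ - 1) * Y) := by
        field_simp
        ring

theorem tk_rep_pr : ∃ C : ℝ, 1 ≤ C ∧ ∀ (m : ℕ) (χ : DirichletCharacter ℂ m) (Y ρ : ℝ)
    (B : Finset ℕ) (V : ℕ),
    1 ≤ Y → 1 < ρ → ρ ≤ 2 → Y ^ (-(1 / 16) : ℝ) ≤ ρ - 1 → Pset B →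
    (∀ p ∈ B, (p : ℝ) ≤ Y ^ (1 / 4 : ℝ) ∧ (p : ℝ) ≤ ρ ^ V) → 1 ≤ rs B →
    ∃ c : ℕ → ℂ, ∑ z ∈ EB (2 * Y), ‖c z‖ ^ 2 ≤ C * Y * (1 / rs B + (ρ - 1)) ∧
      ∀ k : ℤ, Sm χ k Y + (1 / (rs B : ℂ)) * ∑ v ∈ Finset.range V,
        Qs χ k (blk ρ v B) * Sm χ k (Y / ρ ^ v) = ∑ z ∈ EB (2 * Y), c z * ang k z := by
  classical
  obtain ⟨C₁, hC₁, hvar⟩ := tk_var
  obtain ⟨C₂, hC₂, hann⟩ := tk_ann
  refine ⟨3 * (C₁ + 4 * C₂ + 4 * C₂), by linarith, ?_⟩
  intro m χ Y ρ B V hY hρ hρ2 hYρ hPs hB hrs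
  obtain ⟨b, hbV, hb, hblk⟩ := tkr_block hρ (V := V) (B := B)
    (fun p hp => ⟨by exact_mod_cast (hPs p hp).one_lt, (hB p hp).2⟩)
  have hY0 : 0 < Y := by linarith
  -- the size of `Y`
  have he0 := Real.exp_pos 1
  have he3 : Real.exp 1 < 3 := by
    have := Real.exp_one_lt_d9
    linarith
  have he1 : 1 ≤ Real.exp 1 := Real.one_le_exp zero_le_one
  have hY16 : 16 ≤ Y := by
    have hne : B.Nonempty := by
      rw [Finset.nonempty_iff_ne_empty]
      rintro rfl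
      rw [rs, Finset.sum_empty] at hrs
      linarith
    obtain ⟨p, hp⟩ := hne
    have h1 : (2 : ℝ) ≤ Y ^ (1 / 4 : ℝ) := by
      refine le_trans ?_ (hB p hp).1
      exact_mod_cast (hPs p hp).two_le
    have h2 : (2 : ℝ) ^ (4 : ℕ) ≤ (Y ^ (1 / 4 : ℝ)) ^ (4 : ℕ) :=
      pow_le_pow_left₀ (by norm_num) h1 4
    rw [← Real.rpow_natCast (Y ^ (1 / 4 : ℝ)), ← Real.rpow_mul hY0.le] at h2
    norm_num at h2
    exact h2
  obtain ⟨y, hy⟩ : ∃ y : ℝ, y = Y / Real.exp 1 := ⟨_, rfl⟩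
  have hy3 : Y / 3 < y := by
    rw [hy]
    exact div_lt_div_of_pos_left hY0 he0 he3
  have hyY : y ≤ Y := by
    rw [hy]
    exact div_le_self hY0.le he1
  have hy1 : 1 ≤ y := by linarith
  have hy0 : 0 < y := by linarith
  have hYe : Y = Real.exp 1 * y := by
    rw [hy]
    field_simp
  have hyρ : y ^ (-(1 / 16) : ℝ) ≤ 2 * (ρ - 1) := by
    have h1 : y ^ (-(1 / 16) : ℝ) = Real.exp (1 / 16) * Y ^ (-(1 / 16) : ℝ) := by
      rw [hYe, Real.mul_rpow he0.le hy0.le, ← Real.exp_mul, ← mul_assoc, ← Real.exp_add]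
      norm_num
    have h2 : Real.exp (1 / 16) ≤ 2 := by
      have h3 : Real.exp (1 / 16) ^ (16 : ℕ) ≤ (2 : ℝ) ^ (16 : ℕ) := by
        rw [← Real.exp_nat_mul]
        norm_num
        linarith
      exact le_of_pow_le_pow_left₀ (by norm_num) (by norm_num) h3
    rw [h1]
    exact mul_le_mul h2 hYρ (by positivity) (by norm_num)
  have hyp : ∀ p ∈ B, (p : ℝ) ≤ 2 * y ^ (1 / 4 : ℝ) := by
    intro p hp
    refine (hB p hp).1.trans ?_
    rw [hYe, Real.mul_rpow he0.le hy0.le, ← Real.exp_mul]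
    apply mul_le_mul_of_nonneg_right _ (by positivity)
    have h3 : Real.exp (1 * (1 / 4)) ^ (4 : ℕ) ≤ (2 : ℝ) ^ (4 : ℕ) := by
      rw [← Real.exp_nat_mul]
      norm_num
      linarith
    exact le_of_pow_le_pow_left₀ (by norm_num) (by norm_num) h3
  have hYp : ∀ p ∈ B, (p : ℝ) ≤ 2 * Y ^ (1 / 4 : ℝ) := by
    intro p hp
    have h1 := (hB p hp).1
    have h2 : 0 ≤ Y ^ (1 / 4 : ℝ) := by positivity
    linarith
  have hb₁ := tkr_ann hY0 le_rfl (by linarith) hρ hρ2 hC₂ hrs hb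
    (hann Y ρ B hY hρ hρ2 (by linarith) hPs hYp)
  have hb₂ := tkr_ann hy0 hyY hy3 hρ hρ2 hC₂ hrs hb (hann y ρ B hy1 hρ hρ2 hyρ hPs hyp)
  have hV := hvar Y B hY hPs (fun p hp => (hB p hp).1) hrs
  obtain ⟨Ω, hΩ⟩ : ∃ Ω : ℝ, Ω = rs B := ⟨_, rfl⟩
  rw [← hΩ] at hrs hb₁ hb₂ hV
  simp only [← hΩ]
  have hΩ0 : 0 < Ω := by linarith
  have hΩc : (Ω : ℂ) ≠ 0 := by exact_mod_cast hΩ0.ne'
  -- the coefficients
  obtain ⟨N₁, hN₁⟩ : ∃ N₁ : ℕ → Finset ℕ, N₁ = fun z : ℕ => B.filter (fun p => p ∣ z ∧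
    Y < (z : ℝ) ∧ (z : ℝ) * ρ ^ (b p) ≤ p * Y) := ⟨_, rfl⟩
  obtain ⟨N₂, hN₂⟩ : ∃ N₂ : ℕ → Finset ℕ, N₂ = fun z : ℕ => B.filter (fun p => p ∣ z ∧
    y < (z : ℝ) ∧ (z : ℝ) * ρ ^ (b p) ≤ p * y) := ⟨_, rfl⟩
  obtain ⟨c₁, hc₁⟩ : ∃ c₁ : ℕ → ℂ, c₁ = fun z : ℕ => -(1 / (Ω : ℂ)) * ((lam z : ℂ) * χ z *
    ((N₁ z).card : ℂ)) := ⟨_, rfl⟩
  obtain ⟨c₂, hc₂⟩ : ∃ c₂ : ℕ → ℂ, c₂ = fun z : ℕ => (1 / (Ω : ℂ)) * ((lam z : ℂ) * χ z *
    ((N₂ z).card : ℂ)) := ⟨_, rfl⟩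
  obtain ⟨c₃, hc₃⟩ : ∃ c₃ : ℕ → ℂ, c₃ = fun z : ℕ => if (z : ℝ) ≤ Y ∧ y < (z : ℝ) then
    (1 - (om B z : ℂ) / (Ω : ℂ)) * ((lam z : ℂ) * χ z) else 0 := ⟨_, rfl⟩
  have hgχ : ∀ z : ℕ, ‖(lam z : ℂ) * χ z‖ ≤ 1 := by
    intro z
    rw [norm_mul]
    exact mul_le_one₀ (lam_norm z) (norm_nonneg _) (chi_le χ z)
  have hnΩ : ‖(1 / (Ω : ℂ))‖ = 1 / Ω := by
    rw [norm_div, norm_one, Complex.norm_real, Real.norm_eq_abs, abs_of_pos hΩ0]
  have hle₁ : ∀ z, ‖c₁ z‖ ^ 2 ≤ (1 / Ω * ((N₁ z).card : ℝ)) ^ 2 := by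
    intro z
    apply pow_le_pow_left₀ (norm_nonneg _)
    rw [hc₁]
    simp only
    rw [norm_mul, norm_neg, hnΩ, norm_mul, Complex.norm_natCast]
    apply mul_le_mul_of_nonneg_left _ (by positivity)
    calc ‖(lam z : ℂ) * χ z‖ * ((N₁ z).card : ℝ) ≤ 1 * ((N₁ z).card : ℝ) :=
          mul_le_mul_of_nonneg_right (hgχ z) (Nat.cast_nonneg _)
      _ = _ := one_mul _
  have hle₂ : ∀ z, ‖c₂ z‖ ^ 2 ≤ (1 / Ω * ((N₂ z).card : ℝ)) ^ 2 := by
    intro z
    apply pow_le_pow_left₀ (norm_nonneg _)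
    rw [hc₂]
    simp only
    rw [norm_mul, hnΩ, norm_mul, Complex.norm_natCast]
    apply mul_le_mul_of_nonneg_left _ (by positivity)
    calc ‖(lam z : ℂ) * χ z‖ * ((N₂ z).card : ℝ) ≤ 1 * ((N₂ z).card : ℝ) :=
          mul_le_mul_of_nonneg_right (hgχ z) (Nat.cast_nonneg _)
      _ = _ := one_mul _
  have hB₁ : ∑ z ∈ EB (2 * Y), ‖c₁ z‖ ^ 2 ≤ 4 * C₂ * ((ρ - 1) * Y) := by
    refine (Finset.sum_le_sum (fun z _ => hle₁ z)).trans ?_
    rw [hN₁]
    exact hb₁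
  have hB₂ : ∑ z ∈ EB (2 * Y), ‖c₂ z‖ ^ 2 ≤ 4 * C₂ * ((ρ - 1) * Y) := by
    refine (Finset.sum_le_sum (fun z _ => hle₂ z)).trans ?_
    rw [hN₂]
    exact hb₂
  have hPBY : PB Y = (EB (2 * Y)).filter (fun z : ℕ => (z : ℝ) ≤ Y ∧ y < (z : ℝ)) := by
    ext z
    rw [Finset.mem_filter, mem_PB, mem_EB, ← hy]
    constructor
    · rintro ⟨h1, h2, h3⟩
      exact ⟨⟨h1, by linarith, by linarith⟩, h2, h3⟩
    · rintro ⟨⟨h1, _⟩, h2, h3⟩
      exact ⟨h1, h2, h3⟩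
  -- bound for `c₃`
  have hB₃ : ∑ z ∈ EB (2 * Y), ‖c₃ z‖ ^ 2 ≤ C₁ * (Y * (1 / Ω)) := by
    have hsub : PB Y ⊆ EB (2 * Y) := by
      rw [hPBY]
      exact Finset.filter_subset _ _
    have hzero : ∀ z ∈ EB (2 * Y), z ∉ PB Y → ‖c₃ z‖ ^ 2 = 0 := by
      intro z hz hz2
      rw [hPBY, Finset.mem_filter, not_and] at hz2
      rw [hc₃]
      simp only [if_neg (hz2 hz), norm_zero]
      norm_num
    rw [← Finset.sum_subset hsub hzero]
    have hle : ∀ z ∈ PB Y, ‖c₃ z‖ ^ 2 ≤ (1 / Ω) ^ 2 * (om B z - Ω) ^ 2 := by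
      intro z hz
      rw [hPBY, Finset.mem_filter] at hz
      rw [hc₃]
      simp only [if_pos hz.2]
      rw [← mul_pow, ← sq_abs (1 / Ω * (om B z - Ω))]
      apply pow_le_pow_left₀ (norm_nonneg _)
      rw [norm_mul]
      have h1 : ‖(1 - (om B z : ℂ) / (Ω : ℂ))‖ = |1 / Ω * (om B z - Ω)| := by
        have : (1 - (om B z : ℂ) / (Ω : ℂ)) = ((-(1 / Ω * (om B z - Ω)) : ℝ) : ℂ) := by
          push_cast
          field_simp
          ring
        rw [this, Complex.norm_real, Real.norm_eq_abs, abs_neg]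
      rw [h1]
      calc |1 / Ω * (om B z - Ω)| * ‖(lam z : ℂ) * χ z‖ ≤ |1 / Ω * (om B z - Ω)| * 1 :=
            mul_le_mul_of_nonneg_left (hgχ z) (abs_nonneg _)
        _ = _ := mul_one _
    calc ∑ z ∈ PB Y, ‖c₃ z‖ ^ 2 ≤ ∑ z ∈ PB Y, (1 / Ω) ^ 2 * (om B z - Ω) ^ 2 :=
          Finset.sum_le_sum hle
      _ = (1 / Ω) ^ 2 * ∑ z ∈ PB Y, (om B z - Ω) ^ 2 := by rw [Finset.mul_sum]
      _ ≤ (1 / Ω) ^ 2 * (C₁ * Y * Ω) := mul_le_mul_of_nonneg_left hV (by positivity)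
      _ = C₁ * (Y * (1 / Ω)) := by
          field_simp
  refine ⟨fun z => c₁ z + c₂ z + c₃ z, ?_, ?_⟩
  · calc ∑ z ∈ EB (2 * Y), ‖c₁ z + c₂ z + c₃ z‖ ^ 2 ≤
        ∑ z ∈ EB (2 * Y), 3 * (‖c₁ z‖ ^ 2 + ‖c₂ z‖ ^ 2 + ‖c₃ z‖ ^ 2) :=
          Finset.sum_le_sum (fun z _ => tkr_three _ _ _)
      _ = 3 * (∑ z ∈ EB (2 * Y), ‖c₁ z‖ ^ 2 + ∑ z ∈ EB (2 * Y), ‖c₂ z‖ ^ 2 +
          ∑ z ∈ EB (2 * Y), ‖c₃ z‖ ^ 2) := by
          rw [← Finset.mul_sum, Finset.sum_add_distrib, Finset.sum_add_distrib]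
      _ ≤ 3 * (4 * C₂ * ((ρ - 1) * Y) + 4 * C₂ * ((ρ - 1) * Y) +
          C₁ * (Y * (1 / Ω))) := by linarith
      _ ≤ 3 * (C₁ + 4 * C₂ + 4 * C₂) * Y * (1 / Ω + (ρ - 1)) := by
          have h1 : 0 ≤ (ρ - 1) * Y := mul_nonneg (by linarith) hY0.le
          have h3 : 0 ≤ Y * (1 / Ω) := by positivity
          have h4 : 3 * (C₁ + 4 * C₂ + 4 * C₂) * Y * (1 / Ω + (ρ - 1)) =
            3 * ((C₁ + 4 * C₂ + 4 * C₂) * ((ρ - 1) * Y) +
              (C₁ + 4 * C₂ + 4 * C₂) * (Y * (1 / Ω))) := by ring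
          rw [h4]
          have h5 := mul_le_mul_of_nonneg_right
            (show 4 * C₂ + 4 * C₂ ≤ C₁ + 4 * C₂ + 4 * C₂ by linarith) h1
          have h7 := mul_le_mul_of_nonneg_right
            (show C₁ ≤ C₁ + 4 * C₂ + 4 * C₂ by linarith) h3
          linarith
  · intro k
    have hQ : ∑ v ∈ Finset.range V, Qs χ k (blk ρ v B) * Sm χ k (Y / ρ ^ v) =
        ∑ p ∈ B, xi χ k p * Sm χ k (Y / ρ ^ (b p)) := by
      rw [← Finset.sum_fiberwise_of_maps_to hbV]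
      apply Finset.sum_congr rfl
      intro v _
      rw [hblk v, Qs, Finset.sum_mul]
      apply Finset.sum_congr rfl
      intro p hp
      rw [Finset.mem_filter] at hp
      rw [hp.2]
    have hprime : ∀ p ∈ B, xi χ k p * Sm χ k (Y / ρ ^ (b p)) =
        ∑ z ∈ (EB (2 * Y)).filter (fun z : ℕ => p ∣ z ∧ y < (z : ℝ) ∧
          (z : ℝ) * ρ ^ (b p) ≤ p * y), (lam z : ℂ) * xi χ k z
        - ∑ z ∈ (EB (2 * Y)).filter (fun z : ℕ => p ∣ z ∧ Y < (z : ℝ) ∧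
          (z : ℝ) * ρ ^ (b p) ≤ p * Y), (lam z : ℂ) * xi χ k z
        - ∑ z ∈ (PB Y).filter (fun z => p ∣ z), (lam z : ℂ) * xi χ k z := by
      intro p hp
      rw [hy]
      exact tkr_prime χ k hY hρ hρ2 (hPs p hp) (hb p hp).1 (hb p hp).2
    rw [hQ, Finset.sum_congr rfl hprime, Finset.sum_sub_distrib, Finset.sum_sub_distrib]
    -- exchange the sums
    have s2 : ∑ p ∈ B, ∑ z ∈ (EB (2 * Y)).filter (fun z : ℕ => p ∣ z ∧ y < (z : ℝ) ∧
          (z : ℝ) * ρ ^ (b p) ≤ p * y), (lam z : ℂ) * xi χ k z =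
        ∑ z ∈ EB (2 * Y), ((N₂ z).card : ℂ) * ((lam z : ℂ) * xi χ k z) := by
      simp only [hN₂, Finset.card_filter, Finset.sum_filter]
      rw [Finset.sum_comm]
      apply Finset.sum_congr rfl
      intro z _
      rw [Nat.cast_sum, Finset.sum_mul]
      apply Finset.sum_congr rfl
      intro p _
      split_ifs <;> simp
    have s1 : ∑ p ∈ B, ∑ z ∈ (EB (2 * Y)).filter (fun z : ℕ => p ∣ z ∧ Y < (z : ℝ) ∧
          (z : ℝ) * ρ ^ (b p) ≤ p * Y), (lam z : ℂ) * xi χ k z =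
        ∑ z ∈ EB (2 * Y), ((N₁ z).card : ℂ) * ((lam z : ℂ) * xi χ k z) := by
      simp only [hN₁, Finset.card_filter, Finset.sum_filter]
      rw [Finset.sum_comm]
      apply Finset.sum_congr rfl
      intro z _
      rw [Nat.cast_sum, Finset.sum_mul]
      apply Finset.sum_congr rfl
      intro p _
      split_ifs <;> simp
    have s3 : ∑ p ∈ B, ∑ z ∈ (PB Y).filter (fun z => p ∣ z), (lam z : ℂ) * xi χ k z =
        ∑ z ∈ PB Y, (om B z : ℂ) * ((lam z : ℂ) * xi χ k z) := by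
      simp only [om, Finset.card_filter, Finset.sum_filter]
      rw [Finset.sum_comm]
      apply Finset.sum_congr rfl
      intro z _
      push_cast
      rw [Finset.sum_mul]
      apply Finset.sum_congr rfl
      intro p _
      split_ifs <;> simp
    have f3 : ∑ z ∈ EB (2 * Y), c₃ z * ang k z = Sm χ k Y -
        (1 / (Ω : ℂ)) * ∑ z ∈ PB Y, (om B z : ℂ) * ((lam z : ℂ) * xi χ k z) := by
      rw [Sm, Finset.mul_sum, ← Finset.sum_sub_distrib, hPBY, Finset.sum_filter]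
      apply Finset.sum_congr rfl
      intro z _
      rw [hc₃]
      simp only
      split_ifs
      · rw [xi]
        ring
      · rw [zero_mul]
    have f1 : ∑ z ∈ EB (2 * Y), c₁ z * ang k z = -((1 / (Ω : ℂ)) * ∑ z ∈ EB (2 * Y),
        ((N₁ z).card : ℂ) * ((lam z : ℂ) * xi χ k z)) := by
      rw [Finset.mul_sum, ← Finset.sum_neg_distrib]
      apply Finset.sum_congr rfl
      intro z _
      rw [hc₁]
      simp only
      rw [xi]
      ring
    have f2 : ∑ z ∈ EB (2 * Y), c₂ z * ang k z = (1 / (Ω : ℂ)) * ∑ z ∈ EB (2 * Y),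
        ((N₂ z).card : ℂ) * ((lam z : ℂ) * xi χ k z) := by
      rw [Finset.mul_sum]
      apply Finset.sum_congr rfl
      intro z _
      rw [hc₂]
      simp only
      rw [xi]
      ring
    rw [s1, s2, s3]
    simp only [add_mul, Finset.sum_add_distrib]
    rw [f1, f2, f3]
    ring

end Pool.Agent.PS

end TKR

namespace Pool.Agent.PS

theorem tk_rep : type_of% @tk_rep_pr := @tk_rep_pr

end Pool.Agent.PS
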