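import Mathlib
import Pool.Agent.Lib_helper1.PSF.M2
import Pool.Agent.Lib_helper2.PSP.P3

/-! ### Block HMO -/

section HMO
/-! PS, block HMO: the inequality of Halasz and Montgomery (helper69; port of T2F/HMO) -/

namespace Pool.Agent.PS

open Filter Topology MeasureTheory

/-- duality -/
theorem hmo_dual {ι κ : Type*} (U : Finset ι) (S : Finset κ) (a : ι → κ → ℂ) (Δ : ℝ) (hΔ : 0 ≤ Δ)
    (h : ∀ b : ι → ℂ, ∑ z ∈ S, ‖∑ k ∈ U, b k * a k z‖ ^ 2 ≤ Δ * ∑ k ∈ U, ‖b k‖ ^ 2)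
    (c : κ → ℂ) :
    ∑ k ∈ U, ‖∑ z ∈ S, c z * a k z‖ ^ 2 ≤ Δ * ∑ z ∈ S, ‖c z‖ ^ 2 := by
  classical
  set T : ι → ℂ := fun k => ∑ z ∈ S, c z * a k z with hT
  set A : ℝ := ∑ k ∈ U, ‖T k‖ ^ 2 with hA
  have hA0 : 0 ≤ A := Finset.sum_nonneg fun k _ => by positivity
  set W : κ → ℂ := fun z => ∑ k ∈ U, (starRingEnd ℂ) (T k) * a k z with hW
  have h1 : (A : ℂ) = ∑ z ∈ S, c z * W z := by
    have e1 : (A : ℂ) = ∑ k ∈ U, (starRingEnd ℂ) (T k) * T k := by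
      rw [hA, Complex.ofReal_sum]
      refine Finset.sum_congr rfl fun k _ => ?_
      rw [← Complex.normSq_eq_conj_mul_self, Complex.normSq_eq_norm_sq]
    rw [e1]
    simp only [hT, hW, Finset.mul_sum]
    rw [Finset.sum_comm]
    refine Finset.sum_congr rfl fun z _ => Finset.sum_congr rfl fun k _ => by ring
  have h2 : A ≤ ∑ z ∈ S, ‖c z‖ * ‖W z‖ := by
    have e1 : A = ‖(A : ℂ)‖ := by rw [Complex.norm_real, Real.norm_of_nonneg hA0]
    rw [e1, h1]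
    refine (norm_sum_le _ _).trans (Finset.sum_le_sum fun z _ => ?_)
    rw [norm_mul]
  have h3 : A ^ 2 ≤ (∑ z ∈ S, ‖c z‖ ^ 2) * ∑ z ∈ S, ‖W z‖ ^ 2 :=
    (pow_le_pow_left₀ hA0 h2 2).trans (Finset.sum_mul_sq_le_sq_mul_sq _ _ _)
  have h4 : ∑ z ∈ S, ‖W z‖ ^ 2 ≤ Δ * A := by
    refine (h fun k => (starRingEnd ℂ) (T k)).trans (le_of_eq ?_)
    simp [hA]
  rcases hA0.eq_or_lt with h0 | h0
  · rw [← h0]
    exact mul_nonneg hΔ (Finset.sum_nonneg fun z _ => by positivity)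
  · have h5 : A * A ≤ A * (Δ * ∑ z ∈ S, ‖c z‖ ^ 2) := by
      have hc0 : 0 ≤ ∑ z ∈ S, ‖c z‖ ^ 2 := Finset.sum_nonneg fun z _ => by positivity
      nlinarith [mul_le_mul_of_nonneg_left h4 hc0]
    exact le_of_mul_le_mul_left h5 h0

/-- the Gram matrix bound -/
theorem hmo_gram {ι κ : Type*} [DecidableEq ι] (U : Finset ι) (S : Finset κ) (w : κ → ℝ)
    (a : ι → κ → ℂ) (D E : ℝ)
    (hD : ∀ k ∈ U, ‖∑ z ∈ S, (w z : ℂ) * (a k z * (starRingEnd ℂ) (a k z))‖ ≤ D)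
    (hE : ∀ k ∈ U, ∀ l ∈ U, k ≠ l →
      ‖∑ z ∈ S, (w z : ℂ) * (a k z * (starRingEnd ℂ) (a l z))‖ ≤ E) (hE0 : 0 ≤ E)
    (b : ι → ℂ) :
    ∑ z ∈ S, w z * ‖∑ k ∈ U, b k * a k z‖ ^ 2 ≤ (D + E * U.card) * ∑ k ∈ U, ‖b k‖ ^ 2 := by
  set G : ι → ι → ℂ := fun k l => ∑ z ∈ S, (w z : ℂ) * (a k z * (starRingEnd ℂ) (a l z)) with hG
  set L : ℝ := ∑ z ∈ S, w z * ‖∑ k ∈ U, b k * a k z‖ ^ 2 with hL
  have h1 : (L : ℂ) = ∑ k ∈ U, ∑ l ∈ U, b k * (starRingEnd ℂ) (b l) * G k l := by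
    have e1 : (L : ℂ) = ∑ z ∈ S, (w z : ℂ) *
        ((∑ k ∈ U, b k * a k z) * (starRingEnd ℂ) (∑ l ∈ U, b l * a l z)) := by
      rw [hL, Complex.ofReal_sum]
      refine Finset.sum_congr rfl fun z _ => ?_
      rw [Complex.mul_conj, Complex.normSq_eq_norm_sq]
      push_cast
      ring
    have e2 : ∀ z ∈ S, (w z : ℂ) *
        ((∑ k ∈ U, b k * a k z) * (starRingEnd ℂ) (∑ l ∈ U, b l * a l z)) =
        ∑ k ∈ U, ∑ l ∈ U, b k * (starRingEnd ℂ) (b l) *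
          ((w z : ℂ) * (a k z * (starRingEnd ℂ) (a l z))) := by
      intro z _
      rw [map_sum, Finset.sum_mul_sum, Finset.mul_sum]
      refine Finset.sum_congr rfl fun k _ => ?_
      rw [Finset.mul_sum]
      refine Finset.sum_congr rfl fun l _ => ?_
      rw [map_mul]
      ring
    rw [e1, Finset.sum_congr rfl e2, Finset.sum_comm]
    refine Finset.sum_congr rfl fun k _ => ?_
    rw [Finset.sum_comm]
    refine Finset.sum_congr rfl fun l _ => ?_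
    rw [hG, Finset.mul_sum]
  have h2 : L ≤ ∑ k ∈ U, ∑ l ∈ U, ‖b k‖ * ‖b l‖ * ‖G k l‖ := by
    refine (le_abs_self L).trans ?_
    rw [← Complex.norm_real L |>.trans (Real.norm_eq_abs L), h1]
    refine (norm_sum_le _ _).trans (Finset.sum_le_sum fun k _ => ?_)
    refine (norm_sum_le _ _).trans (Finset.sum_le_sum fun l _ => ?_)
    rw [norm_mul, norm_mul, RCLike.norm_conj]
  refine h2.trans ?_
  have h3 : ∀ k ∈ U, ∀ l ∈ U, ‖b k‖ * ‖b l‖ * ‖G k l‖ ≤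
      (if k = l then D * ‖b k‖ ^ 2 else 0) + E * ((‖b k‖ ^ 2 + ‖b l‖ ^ 2) / 2) := by
    intro k hk l hl
    have hbk := norm_nonneg (b k)
    have hbl := norm_nonneg (b l)
    by_cases hkl : k = l
    · subst hkl
      simp only [if_true]
      have := hD k hk
      have e : ‖b k‖ * ‖b k‖ * ‖G k k‖ ≤ D * ‖b k‖ ^ 2 := by
        calc ‖b k‖ * ‖b k‖ * ‖G k k‖ ≤ ‖b k‖ * ‖b k‖ * D :=
              mul_le_mul_of_nonneg_left this (by positivity)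
          _ = D * ‖b k‖ ^ 2 := by ring
      have e2 : 0 ≤ E * ((‖b k‖ ^ 2 + ‖b k‖ ^ 2) / 2) := by positivity
      linarith
    · simp only [if_neg hkl, zero_add]
      have e1 := hE k hk l hl hkl
      have e2 : ‖b k‖ * ‖b l‖ ≤ (‖b k‖ ^ 2 + ‖b l‖ ^ 2) / 2 := by nlinarith [sq_nonneg (‖b k‖ - ‖b l‖)]
      calc ‖b k‖ * ‖b l‖ * ‖G k l‖ ≤ (‖b k‖ ^ 2 + ‖b l‖ ^ 2) / 2 * E :=
            mul_le_mul e2 e1 (norm_nonneg _) (by positivity)
        _ = _ := by ring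
  refine (Finset.sum_le_sum fun k hk => Finset.sum_le_sum fun l hl => h3 k hk l hl).trans
    (le_of_eq ?_)
  have h4 : ∀ k ∈ U, ∑ l ∈ U, ((if k = l then D * ‖b k‖ ^ 2 else 0) +
      E * ((‖b k‖ ^ 2 + ‖b l‖ ^ 2) / 2)) =
      D * ‖b k‖ ^ 2 + E / 2 * (U.card * ‖b k‖ ^ 2 + ∑ l ∈ U, ‖b l‖ ^ 2) := by
    intro k hk
    rw [Finset.sum_add_distrib, Finset.sum_ite_eq, if_pos hk, ← Finset.mul_sum,
      ← Finset.sum_div, Finset.sum_add_distrib, Finset.sum_const, nsmul_eq_mul]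
    ring
  rw [Finset.sum_congr rfl h4, Finset.sum_add_distrib, ← Finset.mul_sum, ← Finset.mul_sum,
    Finset.sum_add_distrib, Finset.sum_const, nsmul_eq_mul, ← Finset.mul_sum]
  ring

/-- one window -/
theorem hmo_win (y Q E : ℝ) (hy : 0 < y) (U : Finset ℤ) (hE0 : 0 ≤ E)
    (hE : ∀ k ∈ U, ∀ l ∈ U, k ≠ l → ‖∑ n ∈ PB y, ang (k - l) n / n‖ ≤ E)
    (hQ : y * E * U.card ≤ Q * y) (b : ℤ → ℂ) :
    ∑ z ∈ PB y, ‖∑ k ∈ U, b k * ang k z‖ ^ 2 ≤ (3 + Q) * y * ∑ k ∈ U, ‖b k‖ ^ 2 := by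
  have he0 := Real.exp_pos 1
  have he := Real.exp_one_lt_d9
  have hgr : ∀ k l : ℤ, ∀ z ∈ PB y, ang k z * (starRingEnd ℂ) (ang l z) = ang (k - l) z := by
    intro k l z hz
    rw [ang_conj l (mem_PB.1 hz).1, ← ang_add _ _ (mem_PB.1 hz).1, sub_eq_add_neg]
  have hb0 : 0 ≤ ∑ k ∈ U, ‖b k‖ ^ 2 := Finset.sum_nonneg fun k _ => by positivity
  have h := hmo_gram U (PB y) (fun z => y / z) (fun k z => ang k z) (3 * y) (y * E) ?_ ?_
    (by positivity) b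
  · calc ∑ z ∈ PB y, ‖∑ k ∈ U, b k * ang k z‖ ^ 2 ≤
        ∑ z ∈ PB y, (y / z) * ‖∑ k ∈ U, b k * ang k z‖ ^ 2 := by
          refine Finset.sum_le_sum fun z hz => ?_
          obtain ⟨h1, h2, h3⟩ := mem_PB.1 hz
          have hz0 : (0 : ℝ) < z := by exact_mod_cast h1
          have h4 : 1 ≤ y / z := by rw [le_div_iff₀ hz0]; linarith
          exact le_mul_of_one_le_left (by positivity) h4
      _ ≤ _ := h
      _ ≤ (3 + Q) * y * ∑ k ∈ U, ‖b k‖ ^ 2 := by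
          refine mul_le_mul_of_nonneg_right ?_ hb0
          linarith
  · intro k _
    have : ∀ z ∈ PB y, ‖((y / (z : ℝ) : ℝ) : ℂ) * (ang k z * (starRingEnd ℂ) (ang k z))‖ ≤ 3 := by
      intro z hz
      rw [hgr k k z hz, sub_self, ang_zero', mul_one, Complex.norm_real, Real.norm_eq_abs]
      obtain ⟨h1, h2, h3⟩ := mem_PB.1 hz
      have hz0 : (0 : ℝ) < z := by exact_mod_cast h1
      rw [abs_of_nonneg (by positivity), div_le_iff₀ hz0]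
      rw [div_lt_iff₀ he0] at h3
      nlinarith
    refine (norm_sum_le_of_le _ this).trans ?_
    rw [Finset.sum_const, nsmul_eq_mul, mul_comm]
    exact mul_le_mul_of_nonneg_left (PB_card hy.le) (by norm_num)
  · intro k hk l hl hkl
    have e1 : ∑ z ∈ PB y, ((y / (z : ℝ) : ℝ) : ℂ) * (ang k z * (starRingEnd ℂ) (ang l z)) =
        (y : ℂ) * ∑ z ∈ PB y, ang (k - l) z / z := by
      rw [Finset.mul_sum]
      refine Finset.sum_congr rfl fun z hz => ?_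
      rw [hgr k l z hz]
      push_cast
      ring
    rw [e1, norm_mul, Complex.norm_real, Real.norm_eq_abs, abs_of_pos hy]
    exact mul_le_mul_of_nonneg_left (hE k hk l hl hkl) hy.le

theorem hmo_cover {x : ℝ} {n : ℕ} (hn : n ∈ EB x) : n ∈ PB x ∨ n ∈ PB (x / Real.exp 1) := by
  rw [mem_EB] at hn
  obtain ⟨h1, h2, h3⟩ := hn
  have he0 := Real.exp_pos 1
  have he : 2.7182818283 < Real.exp 1 := Real.exp_one_gt_d9
  by_cases h : x / Real.exp 1 < (n : ℝ)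
  · left
    rw [mem_PB]
    exact ⟨h1, h2, h⟩
  · right
    rw [mem_PB]
    push Not at h
    refine ⟨h1, h, lt_of_le_of_lt ?_ h3⟩
    have hx : 0 ≤ x := le_trans (Nat.cast_nonneg _) h2
    rw [div_div]
    apply div_le_div_of_nonneg_left hx (by norm_num)
    nlinarith

theorem hmo_two (x D : ℝ) (g : ℕ → ℝ) (hg : ∀ n, 0 ≤ g n)
    (h1 : ∑ z ∈ PB x, g z ≤ D) (h2 : ∑ z ∈ PB (x / Real.exp 1), g z ≤ D) :
    ∑ z ∈ EB x, g z ≤ 2 * D := by
  classical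
  have hsub : EB x ⊆ PB x ∪ PB (x / Real.exp 1) := by
    intro n hn
    rw [Finset.mem_union]
    exact hmo_cover hn
  calc ∑ z ∈ EB x, g z ≤ ∑ z ∈ PB x ∪ PB (x / Real.exp 1), g z :=
        Finset.sum_le_sum_of_subset_of_nonneg hsub fun n _ _ => hg n
    _ ≤ ∑ z ∈ PB x, g z + ∑ z ∈ PB (x / Real.exp 1), g z := by
        rw [← Finset.sum_union_inter]
        exact le_add_of_nonneg_right (Finset.sum_nonneg fun n _ => hg n)
    _ ≤ 2 * D := by linarith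

/-- trivial bound -/
theorem hmo_triv (x N₀ : ℝ) (hx : 0 ≤ x) (U : Finset ℤ) (hU : (U.card : ℝ) ≤ N₀) (c : ℕ → ℂ) :
    ∑ k ∈ U, ‖∑ z ∈ EB x, c z * ang k z‖ ^ 2 ≤ N₀ * x * ∑ z ∈ EB x, ‖c z‖ ^ 2 := by
  have hc0 : 0 ≤ ∑ z ∈ EB x, ‖c z‖ ^ 2 := Finset.sum_nonneg fun z _ => by positivity
  have h1 : ∀ k ∈ U, ‖∑ z ∈ EB x, c z * ang k z‖ ^ 2 ≤ x * ∑ z ∈ EB x, ‖c z‖ ^ 2 := by
    intro k _
    have e1 : ‖∑ z ∈ EB x, c z * ang k z‖ ≤ ∑ z ∈ EB x, 1 * ‖c z‖ := by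
      refine norm_sum_le_of_le _ fun z _ => ?_
      rw [norm_mul, mul_comm]
      exact mul_le_mul_of_nonneg_right (ang_le k z) (norm_nonneg _)
    refine (pow_le_pow_left₀ (norm_nonneg _) e1 2).trans ?_
    refine (Finset.sum_mul_sq_le_sq_mul_sq _ _ _).trans ?_
    refine mul_le_mul_of_nonneg_right ?_ hc0
    have := EB_card hx
    simpa using this
  refine (Finset.sum_le_sum h1).trans ?_
  rw [Finset.sum_const, nsmul_eq_mul, ← mul_assoc]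
  refine mul_le_mul_of_nonneg_right ?_ hc0
  exact mul_le_mul_of_nonneg_right hU hx

theorem hal_mon_pr (δ : ℝ) (hδ : 0 < δ) (hδ1 : δ ≤ 1) : ∃ α C : ℝ, 0 < α ∧ 1 ≤ C ∧
    ∀ X : ℝ, 1 ≤ X → ∀ U : Finset ℤ, U ⊆ Ks X → (U.card : ℝ) ≤ X ^ α →
    ∀ x : ℝ, X ^ δ ≤ x → ∀ c : ℕ → ℂ,
      ∑ k ∈ U, ‖∑ z ∈ EB x, c z * ang k z‖ ^ 2 ≤ C * x * ∑ z ∈ EB x, ‖c z‖ ^ 2 := by
  have hA : 1 ≤ 2 / δ + 1 := by
    have : 0 < 2 / δ := by positivity
    linarith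
  obtain ⟨κ, C₁, hκ, hκ1, hC₁, hexp⟩ := exp_win (2 / δ + 1) hA
  obtain ⟨N₀, hN₀⟩ : ∃ N₀ : ℝ, N₀ = 2 * (8 : ℝ) ^ (1 / δ) + 1 := ⟨_, rfl⟩
  have hN₀1 : 1 ≤ N₀ := by
    have : (0:ℝ) < (8 : ℝ) ^ (1 / δ) := by positivity
    linarith
  refine ⟨δ * κ / 2, 2 * (3 + C₁) + N₀, by positivity, by linarith, ?_⟩
  intro X hX U hU hUc x hx c
  have hX0 : 0 < X := by linarith
  have hx1 : 1 ≤ x := (Real.one_le_rpow hX hδ.le).trans hx
  have hx0 : 0 < x := by linarith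
  have hc0 : 0 ≤ ∑ z ∈ EB x, ‖c z‖ ^ 2 := Finset.sum_nonneg fun z _ => by positivity
  have hX2 : X ≤ x ^ (1 / δ) := by
    have h1 : (X ^ δ) ^ (1 / δ) ≤ x ^ (1 / δ) :=
      Real.rpow_le_rpow (by positivity) hx (by positivity)
    rwa [← Real.rpow_mul hX0.le, mul_one_div, div_self hδ.ne', Real.rpow_one] at h1
  rcases lt_or_ge x 8 with h8 | h8
  · -- small x
    have e1 : (U.card : ℝ) ≤ N₀ := by
      have e2 : (U.card : ℝ) ≤ (Ks X).card := by exact_mod_cast Finset.card_le_card hU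
      have e3 := Ks_card hX0.le
      have e4 : x ^ (1 / δ) ≤ (8 : ℝ) ^ (1 / δ) :=
        Real.rpow_le_rpow hx0.le h8.le (by positivity)
      linarith
    refine (hmo_triv x N₀ hx0.le U e1 c).trans ?_
    refine mul_le_mul_of_nonneg_right (mul_le_mul_of_nonneg_right ?_ hx0.le) hc0
    linarith
  · have he0 := Real.exp_pos 1
    have heu := Real.exp_one_lt_d9
    have hel : 2.7182818283 < Real.exp 1 := Real.exp_one_gt_d9
    -- the two windows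
    have hwin : ∀ y : ℝ, x / Real.exp 1 ≤ y → y ≤ x → ∀ b : ℤ → ℂ,
        ∑ z ∈ PB y, ‖∑ k ∈ U, b k * ang k z‖ ^ 2 ≤ (3 + C₁) * x * ∑ k ∈ U, ‖b k‖ ^ 2 := by
      intro y hy1 hy2 b
      have hb0 : 0 ≤ ∑ k ∈ U, ‖b k‖ ^ 2 := Finset.sum_nonneg fun k _ => by positivity
      have hy3 : x ≤ y ^ 2 := by
        rw [div_le_iff₀ he0] at hy1
        have a1 : x ^ 2 ≤ (y * Real.exp 1) ^ 2 := pow_le_pow_left₀ hx0.le hy1 2
        have a2 : Real.exp 1 ^ 2 ≤ 8 := by nlinarith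
        have a3 : y ^ 2 * Real.exp 1 ^ 2 ≤ y ^ 2 * 8 :=
          mul_le_mul_of_nonneg_left a2 (by positivity)
        have a4 : 8 * x ≤ x ^ 2 := by nlinarith
        rw [mul_pow] at a1
        linarith
      have hy4 : 2 ≤ y := by
        rw [div_le_iff₀ he0] at hy1
        nlinarith
      have hy0 : 0 < y := by linarith
      have hXy : X ≤ y ^ (2 / δ) := by
        calc X ≤ x ^ (1 / δ) := hX2
          _ ≤ (y ^ 2) ^ (1 / δ) := Real.rpow_le_rpow hx0.le hy3 (by positivity)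
          _ = y ^ (2 / δ) := by
              rw [← Real.rpow_natCast, ← Real.rpow_mul hy0.le]
              congr 1
              push_cast
              ring
      have hUy : (U.card : ℝ) ≤ y ^ κ := by
        calc (U.card : ℝ) ≤ X ^ (δ * κ / 2) := hUc
          _ ≤ (y ^ (2 / δ)) ^ (δ * κ / 2) := Real.rpow_le_rpow hX0.le hXy (by positivity)
          _ = y ^ κ := by
              rw [← Real.rpow_mul hy0.le]
              congr 1
              field_simp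
      have h := hmo_win y C₁ (C₁ * y ^ (-κ)) hy0 U (by positivity) ?_ ?_ b
      · refine h.trans (mul_le_mul_of_nonneg_right ?_ hb0)
        exact mul_le_mul_of_nonneg_left hy2 (by linarith)
      · intro k hk l hl hkl
        refine hexp y (by linarith) (k - l) (sub_ne_zero.2 hkl) ?_
        have hk' := mem_Ks.1 (hU hk)
        have hl' := mem_Ks.1 (hU hl)
        have e2 : |((k - l : ℤ) : ℝ)| ≤ 2 * X := by
          push_cast
          calc |(k : ℝ) - l| ≤ |(k : ℝ)| + |(l : ℝ)| := abs_sub _ _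
            _ ≤ 2 * X := by linarith
        refine e2.trans ?_
        rw [Real.rpow_add hy0, Real.rpow_one, mul_comm]
        exact mul_le_mul hXy hy4 (by norm_num) (by positivity)
      · calc y * (C₁ * y ^ (-κ)) * U.card ≤ y * (C₁ * y ^ (-κ)) * y ^ κ :=
              mul_le_mul_of_nonneg_left hUy (by positivity)
          _ = C₁ * y * (y ^ (-κ) * y ^ κ) := by ring
          _ = C₁ * y := by
              rw [← Real.rpow_add hy0]; simp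
    have key : ∀ b : ℤ → ℂ, ∑ z ∈ EB x, ‖∑ k ∈ U, b k * ang k z‖ ^ 2 ≤
        2 * (3 + C₁) * x * ∑ k ∈ U, ‖b k‖ ^ 2 := by
      intro b
      have hxe : x / Real.exp 1 ≤ x := by
        rw [div_le_iff₀ he0]; nlinarith
      refine (hmo_two x _ (fun z => ‖∑ k ∈ U, b k * ang k z‖ ^ 2) (fun n => by positivity)
        (hwin x hxe le_rfl b) (hwin (x / Real.exp 1) le_rfl hxe b)).trans (le_of_eq (by ring))
    have hfin := hmo_dual U (EB x) (fun k z => ang k z) (2 * (3 + C₁) * x)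
      (by positivity) key c
    refine hfin.trans (mul_le_mul_of_nonneg_right ?_ hc0)
    refine mul_le_mul_of_nonneg_right ?_ hx0.le
    linarith

end Pool.Agent.PS

end HMO

namespace Pool.Agent.PS

theorem hal_mon : type_of% @hal_mon_pr := @hal_mon_pr

end Pool.Agent.PS

/-! ### Block SPA -/

section SPA
/-! PS, block SPA (helper97; port of `Lib_helper10/T2F/SPA.lean` of helper75): sparse sets of
frequencies. -/

namespace Pool.Agent.PS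

open Filter Topology MeasureTheory

theorem spa_Qs {m : ℕ} (χ : DirichletCharacter ℂ m) (k : ℤ) (B : Finset ℕ) :
    Qs χ k B = ∑ p ∈ B, χ (p : ZMod m) * ang k p := rfl

theorem spa_Sm {m : ℕ} (χ : DirichletCharacter ℂ m) (k : ℤ) (x : ℝ) :
    Sm χ k x = ∑ z ∈ PB x, ((lam z : ℂ) * χ (z : ZMod m)) * ang k z := by
  unfold Sm xi
  apply Finset.sum_congr rfl
  intro z _
  ring

theorem spa_coef {m : ℕ} (χ : DirichletCharacter ℂ m) (z : ℕ) :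
    ‖(lam z : ℂ) * χ (z : ZMod m)‖ ≤ 1 := by
  rw [norm_mul]
  exact mul_le_one₀ (lam_norm z) (norm_nonneg _) (chi_le χ z)

open Classical in
/-- from the windows `EB x` to the windows `PB x` -/
theorem spa_win {C x : ℝ} {U : Finset ℤ}
    (hh : ∀ c : ℕ → ℂ, ∑ k ∈ U, ‖∑ z ∈ EB x, c z * ang k z‖ ^ 2 ≤
      C * x * ∑ z ∈ EB x, ‖c z‖ ^ 2) (c : ℕ → ℂ) :
    ∑ k ∈ U, ‖∑ z ∈ PB x, c z * ang k z‖ ^ 2 ≤ C * x * ∑ z ∈ PB x, ‖c z‖ ^ 2 := by
  have h1 := hh (fun z => if z ∈ PB x then c z else 0)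
  have h2 : ∀ k : ℤ, ∑ z ∈ EB x, (if z ∈ PB x then c z else 0) * ang k z =
      ∑ z ∈ PB x, c z * ang k z := by
    intro k
    rw [← Finset.sum_subset (PB_sub_EB x) (f := fun z => (if z ∈ PB x then c z else 0) * ang k z)]
    · apply Finset.sum_congr rfl
      intro z hz
      rw [if_pos hz]
    · intro z _ hz
      rw [if_neg hz, zero_mul]
  have h3 : ∑ z ∈ EB x, ‖(if z ∈ PB x then c z else 0 : ℂ)‖ ^ 2 = ∑ z ∈ PB x, ‖c z‖ ^ 2 := by
    rw [← Finset.sum_subset (PB_sub_EB x) (f := fun z => ‖(if z ∈ PB x then c z else 0 : ℂ)‖ ^ 2)]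
    · apply Finset.sum_congr rfl
      intro z hz
      rw [if_pos hz]
    · intro z _ hz
      rw [if_neg hz, norm_zero]
      norm_num
  simp only [h2] at h1
  rw [h3] at h1
  exact h1

/-- the sum of `Sm` over a sparse set -/
theorem spa_hm {m : ℕ} (χ : DirichletCharacter ℂ m) {Ch x : ℝ} {U : Finset ℤ} (hCh : 0 ≤ Ch)
    (hx : 0 ≤ x)
    (hh : ∀ c : ℕ → ℂ, ∑ k ∈ U, ‖∑ z ∈ PB x, c z * ang k z‖ ^ 2 ≤ Ch * x * ∑ z ∈ PB x, ‖c z‖ ^ 2) :
    ∑ k ∈ U, ‖Sm χ k x‖ ^ 2 ≤ Ch * x ^ 2 := by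
  have h1 := hh (fun z => (lam z : ℂ) * χ (z : ZMod m))
  have h2 : ∑ z ∈ PB x, ‖(lam z : ℂ) * χ (z : ZMod m)‖ ^ 2 ≤ x := by
    calc ∑ z ∈ PB x, ‖(lam z : ℂ) * χ (z : ZMod m)‖ ^ 2 ≤ ∑ z ∈ PB x, (1 : ℝ) := by
          apply Finset.sum_le_sum
          intro z _
          exact pow_le_one₀ (norm_nonneg _) (spa_coef χ z)
      _ = ((PB x).card : ℝ) := by rw [Finset.sum_const, nsmul_eq_mul, mul_one]
      _ ≤ x := PB_card hx
  calc ∑ k ∈ U, ‖Sm χ k x‖ ^ 2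
      = ∑ k ∈ U, ‖∑ z ∈ PB x, ((lam z : ℂ) * χ (z : ZMod m)) * ang k z‖ ^ 2 := by
        simp_rw [spa_Sm]
    _ ≤ Ch * x * ∑ z ∈ PB x, ‖(lam z : ℂ) * χ (z : ZMod m)‖ ^ 2 := h1
    _ ≤ Ch * x * x := mul_le_mul_of_nonneg_left h2 (by positivity)
    _ = Ch * x ^ 2 := by ring

open Classical in
/-- the nonempty blocks -/
noncomputable def spa_W (ρ : ℝ) (B : Finset ℕ) (V : ℕ) : Finset ℕ :=
  (Finset.range V).filter (fun v => (blk ρ v B).Nonempty)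

/-- facts about the nonempty blocks -/
theorem spa_facts {X a b ρ : ℝ} (hX : 0 < X) (ha2 : 2 ≤ a * Real.log X) (hρ : 1 < ρ)
    (hρ2 : ρ ≤ 2) {v : ℕ} (hv : (blk ρ v (pr1 (X ^ a) (X ^ b))).Nonempty) :
    a * Real.log X / 2 ≤ v * Real.log ρ ∧ v * Real.log ρ ≤ b * Real.log X ∧
    X ^ (a / 2) ≤ ρ ^ v ∧ ρ ^ v ≤ X ^ b := by
  obtain ⟨p, hp⟩ := hv
  unfold blk pr1 at hp
  simp only [Finset.mem_filter, Finset.mem_range] at hp
  obtain ⟨⟨-, -, h1, h2⟩, h3, h4⟩ := hp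
  have hρ0 : 0 < ρ := by linarith
  have hlρ : 0 < Real.log ρ := Real.log_pos hρ
  have hlρ1 : Real.log ρ ≤ 1 := by
    have h5 : Real.log ρ ≤ Real.log 2 := Real.log_le_log hρ0 hρ2
    have h6 := Real.log_two_lt_d9
    linarith
  have hp0 : (0 : ℝ) < p := lt_trans (Real.rpow_pos_of_pos hX a) h1
  have e1 : a * Real.log X ≤ Real.log p := by
    rw [← Real.log_rpow hX]
    exact Real.log_le_log (Real.rpow_pos_of_pos hX a) h1.le
  have e4 : Real.log p ≤ (v + 1) * Real.log ρ := by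
    have := Real.log_le_log hp0 h4
    rw [Real.log_pow] at this
    push_cast at this
    exact this
  have h5 : ρ ^ v ≤ X ^ b := h3.le.trans h2
  have e5 : v * Real.log ρ ≤ b * Real.log X := by
    have := Real.log_le_log (pow_pos hρ0 v) h5
    rw [Real.log_pow, Real.log_rpow hX] at this
    exact this
  have e6 : a * Real.log X / 2 ≤ v * Real.log ρ := by linarith
  refine ⟨e6, e5, ?_, h5⟩
  rw [← Real.log_le_log_iff (Real.rpow_pos_of_pos hX _) (pow_pos hρ0 v), Real.log_rpow hX,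
    Real.log_pow]
  linarith

theorem spa_sum {X a b ρ : ℝ} (hX : 0 < X) (ha : 0 < a) (hab : a ≤ b) (ha2 : 2 ≤ a * Real.log X)
    (hρ : 1 < ρ) (hρ2 : ρ ≤ 2) (V : ℕ) :
    ∑ v ∈ spa_W ρ (pr1 (X ^ a) (X ^ b)) V, 1 / (v : ℝ) ≤ 4 * b / a := by
  have hρ0 : 0 < ρ := by linarith
  have hlρ : 0 < Real.log ρ := Real.log_pos hρ
  have hlρ1 : Real.log ρ ≤ 1 := by
    have h5 : Real.log ρ ≤ Real.log 2 := Real.log_le_log hρ0 hρ2
    have h6 := Real.log_two_lt_d9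
    linarith
  have hlX : 0 < Real.log X := by
    by_contra hc
    rw [not_lt] at hc
    nlinarith
  set L := Real.log X / Real.log ρ with hL
  have hL0 : 0 < L := by positivity
  have haL : 2 ≤ a * L := by
    rw [hL, mul_div_assoc', le_div_iff₀ hlρ]
    nlinarith
  have hbL : 2 ≤ b * L := le_trans haL (mul_le_mul_of_nonneg_right hab hL0.le)
  have hv1 : ∀ v ∈ spa_W ρ (pr1 (X ^ a) (X ^ b)) V, a * L / 2 ≤ v ∧ (v : ℝ) ≤ b * L := by
    intro v hv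
    rw [spa_W, Finset.mem_filter] at hv
    obtain ⟨h1, h2, -, -⟩ := spa_facts hX ha2 hρ hρ2 hv.2
    constructor
    · rw [hL]
      rw [show a * (Real.log X / Real.log ρ) / 2 = (a * Real.log X / 2) / Real.log ρ by ring,
        div_le_iff₀ hlρ]
      exact h1
    · rw [hL, mul_div_assoc', le_div_iff₀ hlρ]
      exact h2
  have hcard : ((spa_W ρ (pr1 (X ^ a) (X ^ b)) V).card : ℝ) ≤ b * L + 1 := by
    have hsub : spa_W ρ (pr1 (X ^ a) (X ^ b)) V ⊆ Finset.range (⌊b * L⌋₊ + 1) := by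
      intro v hv
      rw [Finset.mem_range]
      have := Nat.le_floor (hv1 v hv).2
      omega
    have h1 := Finset.card_le_card hsub
    rw [Finset.card_range] at h1
    have h2 : ((spa_W ρ (pr1 (X ^ a) (X ^ b)) V).card : ℝ) ≤ (⌊b * L⌋₊ : ℝ) + 1 := by
      exact_mod_cast h1
    have h3 := Nat.floor_le (show 0 ≤ b * L by positivity)
    linarith
  calc ∑ v ∈ spa_W ρ (pr1 (X ^ a) (X ^ b)) V, 1 / (v : ℝ)
      ≤ ∑ v ∈ spa_W ρ (pr1 (X ^ a) (X ^ b)) V, 2 / (a * L) := by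
        apply Finset.sum_le_sum
        intro v hv
        have h1 := (hv1 v hv).1
        have hv0 : (0 : ℝ) < v := by linarith
        rw [div_le_div_iff₀ hv0 (by linarith)]
        linarith
    _ = ((spa_W ρ (pr1 (X ^ a) (X ^ b)) V).card : ℝ) * (2 / (a * L)) := by
        rw [Finset.sum_const, nsmul_eq_mul]
    _ ≤ (b * L + 1) * (2 / (a * L)) := mul_le_mul_of_nonneg_right hcard (by positivity)
    _ ≤ (2 * (b * L)) * (2 / (a * L)) := mul_le_mul_of_nonneg_right (by linarith) (by positivity)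
    _ = 4 * b / a := by
        field_simp
        ring

theorem spa_v_pos {X a b ρ : ℝ} (hX : 0 < X) (ha2 : 2 ≤ a * Real.log X)
    (hρ : 1 < ρ) (hρ2 : ρ ≤ 2) {V v : ℕ} (hv : v ∈ spa_W ρ (pr1 (X ^ a) (X ^ b)) V) :
    (0 : ℝ) < v := by
  rw [spa_W, Finset.mem_filter] at hv
  obtain ⟨h1, -, -, -⟩ := spa_facts hX ha2 hρ hρ2 hv.2
  have hlρ : 0 < Real.log ρ := Real.log_pos hρ
  by_contra hc
  rw [not_lt] at hc
  have h0 : (v : ℝ) * Real.log ρ ≤ 0 := mul_nonpos_of_nonpos_of_nonneg hc hlρ.le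
  linarith

/-- the weighted sum of squares -/
noncomputable def spa_S2 {m : ℕ} (χ : DirichletCharacter ℂ m) (ρ : ℝ) (B : Finset ℕ) (V : ℕ) (k : ℤ) : ℝ :=
  ∑ v ∈ spa_W ρ B V, (v : ℝ) / (ρ ^ v) ^ 2 * ‖Qs χ k (blk ρ v B)‖ ^ 2

theorem spa_S2_nonneg {m : ℕ} (χ : DirichletCharacter ℂ m) {ρ : ℝ} (hρ : 0 < ρ) (B : Finset ℕ) (V : ℕ) (k : ℤ) :
    0 ≤ spa_S2 χ ρ B V k := by
  apply Finset.sum_nonneg
  intro v _
  positivity

/-- the main part -/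
theorem spa_main {m : ℕ} (χ : DirichletCharacter ℂ m) {ρ ε₂ D κ Y : ℝ} {B : Finset ℕ} {V : ℕ} {U : Finset ℤ}
    (hρ : 0 < ρ) (hε₂ : 0 ≤ ε₂) (hD : 0 ≤ D)
    (hv : ∀ v ∈ spa_W ρ B V, (0 : ℝ) < v)
    (hS2 : ∀ k ∈ U, spa_S2 χ ρ B V k ≤ ε₂)
    (hhm : ∀ v ∈ spa_W ρ B V, ∑ k ∈ U, ‖Sm χ k (Y / ρ ^ v)‖ ^ 2 ≤ D * (Y / ρ ^ v) ^ 2)
    (hsum : ∑ v ∈ spa_W ρ B V, 1 / (v : ℝ) ≤ κ) :
    ∑ k ∈ U, ‖∑ v ∈ Finset.range V, Qs χ k (blk ρ v B) * Sm χ k (Y / ρ ^ v)‖ ^ 2 ≤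
      ε₂ * D * κ * Y ^ 2 := by
  have hk : ∀ k ∈ U, ‖∑ v ∈ Finset.range V, Qs χ k (blk ρ v B) * Sm χ k (Y / ρ ^ v)‖ ^ 2 ≤
      ε₂ * ∑ v ∈ spa_W ρ B V, (ρ ^ v) ^ 2 / (v : ℝ) * ‖Sm χ k (Y / ρ ^ v)‖ ^ 2 := by
    intro k hkU
    have h1 : ∑ v ∈ Finset.range V, Qs χ k (blk ρ v B) * Sm χ k (Y / ρ ^ v)
        = ∑ v ∈ spa_W ρ B V, Qs χ k (blk ρ v B) * Sm χ k (Y / ρ ^ v) := by
      symm
      apply Finset.sum_subset (Finset.filter_subset _ _)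
      intro v hvV hvW
      have hemp : blk ρ v B = ∅ := by
        by_contra hc
        exact hvW (Finset.mem_filter.mpr ⟨hvV, Finset.nonempty_iff_ne_empty.mpr hc⟩)
      rw [hemp]
      simp [Qs]
    rw [h1]
    have h2 : ‖∑ v ∈ spa_W ρ B V, Qs χ k (blk ρ v B) * Sm χ k (Y / ρ ^ v)‖ ≤
        ∑ v ∈ spa_W ρ B V, ‖Qs χ k (blk ρ v B)‖ * ‖Sm χ k (Y / ρ ^ v)‖ := by
      refine (norm_sum_le _ _).trans (le_of_eq ?_)
      apply Finset.sum_congr rfl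
      intro v _
      rw [norm_mul]
    have h3 : (∑ v ∈ spa_W ρ B V, ‖Qs χ k (blk ρ v B)‖ * ‖Sm χ k (Y / ρ ^ v)‖) ^ 2 ≤
        (∑ v ∈ spa_W ρ B V, (v : ℝ) / (ρ ^ v) ^ 2 * ‖Qs χ k (blk ρ v B)‖ ^ 2) *
        ∑ v ∈ spa_W ρ B V, (ρ ^ v) ^ 2 / (v : ℝ) * ‖Sm χ k (Y / ρ ^ v)‖ ^ 2 := by
      apply Finset.sum_sq_le_sum_mul_sum_of_sq_le_mul
      · intro v _
        positivity
      · intro v _
        positivity
      · intro v hvW
        have h4 := hv v hvW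
        have h5 : 0 < ρ ^ v := pow_pos hρ v
        apply le_of_eq
        field_simp
    calc ‖∑ v ∈ spa_W ρ B V, Qs χ k (blk ρ v B) * Sm χ k (Y / ρ ^ v)‖ ^ 2
        ≤ (∑ v ∈ spa_W ρ B V, ‖Qs χ k (blk ρ v B)‖ * ‖Sm χ k (Y / ρ ^ v)‖) ^ 2 :=
          pow_le_pow_left₀ (norm_nonneg _) h2 2
      _ ≤ _ := h3
      _ ≤ ε₂ * ∑ v ∈ spa_W ρ B V, (ρ ^ v) ^ 2 / (v : ℝ) * ‖Sm χ k (Y / ρ ^ v)‖ ^ 2 := by
          apply mul_le_mul_of_nonneg_right (hS2 k hkU)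
          apply Finset.sum_nonneg
          intro v _
          positivity
  calc ∑ k ∈ U, ‖∑ v ∈ Finset.range V, Qs χ k (blk ρ v B) * Sm χ k (Y / ρ ^ v)‖ ^ 2
      ≤ ∑ k ∈ U, ε₂ * ∑ v ∈ spa_W ρ B V, (ρ ^ v) ^ 2 / (v : ℝ) * ‖Sm χ k (Y / ρ ^ v)‖ ^ 2 :=
        Finset.sum_le_sum hk
    _ = ε₂ * ∑ v ∈ spa_W ρ B V, (ρ ^ v) ^ 2 / (v : ℝ) * ∑ k ∈ U, ‖Sm χ k (Y / ρ ^ v)‖ ^ 2 := by
        rw [← Finset.mul_sum, Finset.sum_comm]
        congr 1
        apply Finset.sum_congr rfl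
        intro v _
        rw [Finset.mul_sum]
    _ ≤ ε₂ * ∑ v ∈ spa_W ρ B V, (ρ ^ v) ^ 2 / (v : ℝ) * (D * (Y / ρ ^ v) ^ 2) := by
        apply mul_le_mul_of_nonneg_left _ hε₂
        apply Finset.sum_le_sum
        intro v hvW
        have h4 := hv v hvW
        exact mul_le_mul_of_nonneg_left (hhm v hvW) (by positivity)
    _ = ε₂ * ((D * Y ^ 2) * ∑ v ∈ spa_W ρ B V, 1 / (v : ℝ)) := by
        congr 1
        rw [Finset.mul_sum]
        apply Finset.sum_congr rfl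
        intro v hvW
        have h4 := hv v hvW
        have h5 : 0 < ρ ^ v := pow_pos hρ v
        field_simp
    _ ≤ ε₂ * ((D * Y ^ 2) * κ) := by
        apply mul_le_mul_of_nonneg_left _ hε₂
        exact mul_le_mul_of_nonneg_left hsum (by positivity)
    _ = ε₂ * D * κ * Y ^ 2 := by ring

/-- the total of the weighted sums of squares -/
theorem spa_total {m : ℕ} (χ : DirichletCharacter ℂ m) {ρ κ E : ℝ} {B : Finset ℕ} {V : ℕ} {U : Finset ℤ}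
    (hρ : 1 < ρ) (hE : 0 ≤ E) (hv : ∀ v ∈ spa_W ρ B V, (0 : ℝ) < v)
    (hh : ∀ v ∈ spa_W ρ B V, ∑ k ∈ U, ‖Qs χ k (blk ρ v B)‖ ^ 2 ≤
      E * (ρ ^ v / Real.log (ρ ^ v)) ^ 2)
    (hsum : ∑ v ∈ spa_W ρ B V, 1 / (v : ℝ) ≤ κ) :
    ∑ k ∈ U, spa_S2 χ ρ B V k ≤ E / (Real.log ρ) ^ 2 * κ := by
  have hlρ : 0 < Real.log ρ := Real.log_pos hρ
  unfold spa_S2
  rw [Finset.sum_comm]
  calc ∑ v ∈ spa_W ρ B V, ∑ k ∈ U, (v : ℝ) / (ρ ^ v) ^ 2 * ‖Qs χ k (blk ρ v B)‖ ^ 2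
      ≤ ∑ v ∈ spa_W ρ B V, E / (Real.log ρ) ^ 2 * (1 / (v : ℝ)) := by
        apply Finset.sum_le_sum
        intro v hvW
        have h4 := hv v hvW
        have h5 : 0 < ρ ^ v := pow_pos (by linarith) v
        rw [← Finset.mul_sum]
        calc (v : ℝ) / (ρ ^ v) ^ 2 * ∑ k ∈ U, ‖Qs χ k (blk ρ v B)‖ ^ 2
            ≤ (v : ℝ) / (ρ ^ v) ^ 2 * (E * (ρ ^ v / Real.log (ρ ^ v)) ^ 2) :=
              mul_le_mul_of_nonneg_left (hh v hvW) (by positivity)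
          _ = E / (Real.log ρ) ^ 2 * (1 / (v : ℝ)) := by
              rw [Real.log_pow]
              field_simp
    _ = E / (Real.log ρ) ^ 2 * ∑ v ∈ spa_W ρ B V, 1 / (v : ℝ) := by rw [Finset.mul_sum]
    _ ≤ E / (Real.log ρ) ^ 2 * κ := mul_le_mul_of_nonneg_left hsum (by positivity)

theorem spa_card {f : ℤ → ℝ} {U : Finset ℤ} (hf : ∀ k ∈ U, 0 ≤ f k) {ε₂ T : ℝ} (hε₂ : 0 < ε₂)
    (hT : ∑ k ∈ U, f k ≤ T) : ((U.filter (fun k => ε₂ < f k)).card : ℝ) ≤ T / ε₂ := by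
  rw [le_div_iff₀ hε₂]
  calc ((U.filter (fun k => ε₂ < f k)).card : ℝ) * ε₂
      = ∑ k ∈ U.filter (fun k => ε₂ < f k), ε₂ := by rw [Finset.sum_const, nsmul_eq_mul]
    _ ≤ ∑ k ∈ U.filter (fun k => ε₂ < f k), f k := by
        apply Finset.sum_le_sum
        intro k hk
        exact (Finset.mem_filter.mp hk).2.le
    _ ≤ ∑ k ∈ U, f k := Finset.sum_le_sum_of_subset_of_nonneg (Finset.filter_subset _ _)
        (fun k hk _ => hf k hk)
    _ ≤ T := hT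

/-- the eventual conditions on `X` -/
theorem spa_large {a δ ρ X₁ : ℝ} (ha : 0 < a) (hδ : 0 < δ) (hρ : 1 < ρ) : ∃ X₀ : ℝ, ∀ X : ℝ,
    X₀ ≤ X → 1 ≤ X ∧ X₁ ≤ X ∧ 2 ≤ a * Real.log X ∧ X ^ (-(δ / 16)) ≤ ρ - 1 := by
  have h1 : ∀ᶠ X : ℝ in atTop, 1 ≤ X := eventually_ge_atTop 1
  have h2 : ∀ᶠ X : ℝ in atTop, X₁ ≤ X := eventually_ge_atTop X₁
  have h3 : ∀ᶠ X : ℝ in atTop, 2 ≤ a * Real.log X := by
    have : Tendsto (fun X : ℝ => a * Real.log X) atTop atTop :=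
      Real.tendsto_log_atTop.const_mul_atTop ha
    exact this.eventually_ge_atTop 2
  have h4 : ∀ᶠ X : ℝ in atTop, X ^ (-(δ / 16)) ≤ ρ - 1 := by
    have : Tendsto (fun X : ℝ => X ^ (-(δ / 16))) atTop (𝓝 0) :=
      tendsto_rpow_neg_atTop (by positivity)
    exact (this.eventually (gt_mem_nhds (show (0 : ℝ) < ρ - 1 by linarith))).mono
      (fun X hX => le_of_lt hX)
  obtain ⟨X₀, hX₀⟩ := Filter.eventually_atTop.mp (h1.and (h2.and (h3.and h4)))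
  exact ⟨X₀, fun X hX => hX₀ X hX⟩

theorem spa_pr1 {P Q : ℝ} {p : ℕ} (hp : p ∈ pr1 P Q) :
    p.Prime ∧ P < (p : ℝ) ∧ (p : ℝ) ≤ Q := by
  unfold pr1 at hp
  exact (Finset.mem_filter.mp hp).2

theorem mr_sparse_pr {m : ℕ} (χ : DirichletCharacter ℂ m) (δ ε : ℝ) (hδ : 0 < δ) (hδ1 : δ ≤ 1)
    (hε : 0 < ε) : ∃ (α X₀ : ℝ) (N : ℕ), 0 < α ∧ α ≤ 1 ∧ ∀ X : ℝ, X₀ ≤ X → ∀ U : Finset ℤ,
    U ⊆ Ks X → (U.card : ℝ) ≤ X ^ α → ∃ U' : Finset ℤ, U' ⊆ U ∧ U'.card ≤ N ∧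
      ∀ Y : ℝ, X ^ δ ≤ Y → Y ≤ X → ∑ k ∈ U \ U', ‖Sm χ k Y‖ ^ 2 ≤ ε * Y ^ 2 := by
  classical
  obtain ⟨Ct, hCt, htk⟩ := tk_rep
  obtain ⟨Cm, hCm, hmer⟩ := mer_lower
  obtain ⟨Ck, hCk, hblk⟩ := block_le
  obtain ⟨α₁, Ch, hα₁, hCh, hhal⟩ := hal_mon (δ / 2) (by positivity) (by linarith)
  have hCt0 : 0 < Ct := by linarith
  have hCh0 : 0 < Ch := by linarith
  have hCk0 : 0 < Ck := by linarith
  -- parameters
  set η := ε / (16 * (Ch * Ct)) with hη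
  have hη0 : 0 < η := by positivity
  set ρ := 1 + min 1 η with hρd
  have hρ : 1 < ρ := by
    have : 0 < min 1 η := lt_min one_pos hη0
    linarith
  have hρ2 : ρ ≤ 2 := by
    have : min 1 η ≤ 1 := min_le_left _ _
    linarith
  have hρη : ρ - 1 ≤ η := by
    have : min 1 η ≤ η := min_le_right _ _
    linarith
  set r₀ := max 1 (2 / η) with hr₀
  have hr1 : 1 ≤ r₀ := le_max_left _ _
  have hr2 : 2 / η ≤ r₀ := le_max_right _ _
  set b := δ / 4 with hb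
  have hb0 : 0 < b := by positivity
  set a := b * Real.exp (-(4 * (r₀ + Cm))) with had
  have ha0 : 0 < a := by positivity
  have hab : a ≤ b := by
    rw [had]
    have : Real.exp (-(4 * (r₀ + Cm))) ≤ 1 := by
      rw [Real.exp_le_one_iff]
      have : 0 ≤ r₀ + Cm := by linarith
      linarith
    calc b * Real.exp (-(4 * (r₀ + Cm))) ≤ b * 1 := mul_le_mul_of_nonneg_left this hb0.le
      _ = b := mul_one b
  have ha1 : a ≤ 1 := by linarith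
  obtain ⟨α₂, Cp, X₁, hα₂, hCp, hphm⟩ := prime_hm (a / 2) (by positivity) (by linarith)
  have hCp0 : 0 < Cp := by linarith
  set κ := 4 * b / a with hκ
  have hκ0 : 0 < κ := by positivity
  set ε₂ := ε / (4 * (Ch * κ)) with hε₂d
  have hε₂ : 0 < ε₂ := by positivity
  have hlρ : 0 < Real.log ρ := Real.log_pos hρ
  set T := (Cp * Ck) / (Real.log ρ) ^ 2 * κ with hT
  obtain ⟨X₀, hX₀⟩ := spa_large (X₁ := X₁) ha0 hδ hρ
  refine ⟨min 1 (min α₁ α₂), X₀, ⌈T / ε₂⌉₊, lt_min one_pos (lt_min hα₁ hα₂), min_le_left _ _, ?_⟩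
  intro X hX U hU hUc
  obtain ⟨hX1, hXX₁, haX, hXρ⟩ := hX₀ X hX
  have hX0 : 0 < X := by linarith
  have hUc1 : (U.card : ℝ) ≤ X ^ α₁ := hUc.trans (Real.rpow_le_rpow_of_exponent_le hX1
    ((min_le_right _ _).trans (min_le_left _ _)))
  have hUc2 : (U.card : ℝ) ≤ X ^ α₂ := hUc.trans (Real.rpow_le_rpow_of_exponent_le hX1
    ((min_le_right _ _).trans (min_le_right _ _)))
  set B := pr1 (X ^ a) (X ^ b) with hB
  have hPset : Pset B := fun p hp => (spa_pr1 hp).1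
  set V := ⌈b * Real.log X / Real.log ρ⌉₊ with hV
  have hρ0 : 0 < ρ := by linarith
  have hρV : X ^ b ≤ ρ ^ V := by
    rw [← Real.log_le_log_iff (Real.rpow_pos_of_pos hX0 _) (pow_pos hρ0 V), Real.log_rpow hX0,
      Real.log_pow]
    have := Nat.le_ceil (b * Real.log X / Real.log ρ)
    rw [div_le_iff₀ hlρ] at this
    exact this
  have hlogX : 0 ≤ Real.log X := Real.log_nonneg hX1
  have hexp : Real.exp 1 ≤ X ^ (a / 2) := by
    rw [Real.rpow_def_of_pos hX0, Real.exp_le_exp]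
    linarith
  have he2 : (2 : ℝ) ≤ Real.exp 1 := by
    have := Real.exp_one_gt_d9
    linarith
  have hXa2 : 2 ≤ X ^ (a / 2) := he2.trans hexp
  have hXa : X ^ (a / 2) ≤ X ^ a := Real.rpow_le_rpow_of_exponent_le hX1 (by linarith)
  have hP2 : 2 ≤ X ^ a := hXa2.trans hXa
  have hlogP : Real.log (X ^ a) = a * Real.log X := Real.log_rpow hX0 a
  have hlogP1 : 1 ≤ Real.log (X ^ a) := by rw [hlogP]; linarith
  -- the mass
  have hrs : r₀ ≤ rs B := by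
    have h1 := hmer (X ^ a) (X ^ b) hP2 (Real.rpow_le_rpow_of_exponent_le hX1 hab)
    have h2 : Real.log (X ^ b) / Real.log (X ^ a) = Real.exp (4 * (r₀ + Cm)) := by
      rw [Real.log_rpow hX0, Real.log_rpow hX0, had]
      have hl : Real.log X ≠ 0 := by
        intro h0
        rw [h0] at haX
        linarith
      rw [Real.exp_neg]
      field_simp
    rw [h2, Real.log_exp] at h1
    linarith
  have hrs1 : 1 ≤ rs B := hr1.trans hrs
  have hrs0 : 0 < rs B := by linarith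
  have hWv : ∀ v ∈ spa_W ρ B V, (0 : ℝ) < v := fun v hv => spa_v_pos hX0 haX hρ hρ2 hv
  have hWs : ∑ v ∈ spa_W ρ B V, 1 / (v : ℝ) ≤ κ := spa_sum hX0 ha0 hab haX hρ hρ2 V
  -- the exceptional set
  refine ⟨U.filter (fun k => ε₂ < spa_S2 χ ρ B V k), Finset.filter_subset _ _, ?_, ?_⟩
  · have htot : ∑ k ∈ U, spa_S2 χ ρ B V k ≤ T := by
      apply spa_total χ hρ (by positivity) hWv _ hWs
      intro v hv
      have hv' := hv
      rw [spa_W, Finset.mem_filter] at hv'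
      obtain ⟨-, -, f3, -⟩ := spa_facts hX0 haX hρ hρ2 hv'.2
      have hM2 : 2 ≤ ρ ^ v := hXa2.trans f3
      have hsub : ∀ p ∈ blk ρ v B, ρ ^ v < (p : ℝ) ∧ (p : ℝ) ≤ 2 * ρ ^ v := by
        intro p hp
        unfold blk at hp
        obtain ⟨-, h1, h2⟩ := Finset.mem_filter.mp hp
        refine ⟨h1, h2.trans ?_⟩
        rw [pow_succ]
        have := pow_pos hρ0 v
        nlinarith
      have hPs : Pset (blk ρ v B) := by
        intro p hp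
        unfold blk at hp
        exact hPset p (Finset.mem_filter.mp hp).1
      have h1 := hphm X hXX₁ U hU hUc2 (ρ ^ v) f3 (blk ρ v B) hPs hsub (fun p => χ (p : ZMod m))
        (fun p => chi_le χ p)
      have h2 := hblk (ρ ^ v) (blk ρ v B) hM2 hPs hsub
      have hlM : 0 < Real.log (ρ ^ v) := Real.log_pos (by linarith)
      calc ∑ k ∈ U, ‖Qs χ k (blk ρ v B)‖ ^ 2
          = ∑ k ∈ U, ‖∑ p ∈ blk ρ v B, χ (p : ZMod m) * ang k p‖ ^ 2 := by simp_rw [spa_Qs]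
        _ ≤ Cp * (ρ ^ v / Real.log (ρ ^ v)) * (blk ρ v B).card := h1
        _ ≤ Cp * (ρ ^ v / Real.log (ρ ^ v)) * (Ck * ρ ^ v / Real.log (ρ ^ v)) :=
            mul_le_mul_of_nonneg_left h2 (by positivity)
        _ = Cp * Ck * (ρ ^ v / Real.log (ρ ^ v)) ^ 2 := by ring
    have hc := spa_card (f := spa_S2 χ ρ B V) (U := U)
      (fun k _ => spa_S2_nonneg χ hρ0 B V k) hε₂ htot
    have hc2 := hc.trans (Nat.le_ceil (T / ε₂))
    exact_mod_cast hc2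
  · intro Y hY1 hY2
    have hXδ1 : 1 ≤ X ^ δ := Real.one_le_rpow hX1 hδ.le
    have hY : 1 ≤ Y := hXδ1.trans hY1
    have hY0 : 0 < Y := by linarith
    set U₂ := U \ U.filter (fun k => ε₂ < spa_S2 χ ρ B V k) with hU₂
    have hU₂U : U₂ ⊆ U := Finset.sdiff_subset
    have hS2 : ∀ k ∈ U₂, spa_S2 χ ρ B V k ≤ ε₂ := by
      intro k hk
      rw [hU₂, Finset.mem_sdiff, Finset.mem_filter] at hk
      by_contra hc
      rw [not_le] at hc
      exact hk.2 ⟨hk.1, hc⟩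
    have hU₂K : U₂ ⊆ Ks X := hU₂U.trans hU
    have hU₂c : (U₂.card : ℝ) ≤ X ^ α₁ := by
      refine le_trans ?_ hUc1
      exact_mod_cast Finset.card_le_card hU₂U
    -- conditions of `tk_rep`
    have hYρ : Y ^ (-(1 / 16) : ℝ) ≤ ρ - 1 := by
      refine le_trans ?_ hXρ
      calc Y ^ (-(1 / 16) : ℝ) ≤ (X ^ δ) ^ (-(1 / 16) : ℝ) :=
            Real.rpow_le_rpow_of_nonpos (by positivity) hY1 (by norm_num)
        _ = X ^ (-(δ / 16)) := by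
            rw [← Real.rpow_mul hX0.le]
            congr 1
            ring
    have hp : ∀ p ∈ B, (p : ℝ) ≤ Y ^ (1 / 4 : ℝ) ∧ (p : ℝ) ≤ ρ ^ V := by
      intro p hpB
      obtain ⟨-, h3, h4⟩ := spa_pr1 hpB
      refine ⟨h4.trans ?_, h4.trans hρV⟩
      calc X ^ b = (X ^ δ) ^ (1 / 4 : ℝ) := by
            rw [← Real.rpow_mul hX0.le, hb]
            congr 1
            ring
        _ ≤ Y ^ (1 / 4 : ℝ) := Real.rpow_le_rpow (by positivity) hY1 (by norm_num)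
    obtain ⟨c, hc1, hc2⟩ := htk m χ Y ρ B V hY hρ hρ2 hYρ hPset hp hrs1
    -- the error
    have hXδ2 : X ^ (δ / 2) ≤ X ^ δ := Real.rpow_le_rpow_of_exponent_le hX1 (by linarith)
    have hErr : ∑ k ∈ U₂, ‖∑ z ∈ EB (2 * Y), c z * ang k z‖ ^ 2 ≤ ε / 4 * Y ^ 2 := by
      have h1 := hhal X hX1 U₂ hU₂K hU₂c (2 * Y) (by linarith) c
      have h2 : 1 / rs B + (ρ - 1) ≤ 2 * η := by
        have g1 : 1 / rs B ≤ η / 2 := by
          rw [div_le_iff₀ hrs0]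
          have : 2 / η ≤ rs B := hr2.trans hrs
          rw [div_le_iff₀ hη0] at this
          linarith
        linarith
      calc _ ≤ Ch * (2 * Y) * ∑ z ∈ EB (2 * Y), ‖c z‖ ^ 2 := h1
        _ ≤ Ch * (2 * Y) * (Ct * Y * (1 / rs B + (ρ - 1))) :=
            mul_le_mul_of_nonneg_left hc1 (by positivity)
        _ ≤ Ch * (2 * Y) * (Ct * Y * (2 * η)) := by
            apply mul_le_mul_of_nonneg_left _ (by positivity)
            exact mul_le_mul_of_nonneg_left h2 (by positivity)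
        _ = ε / 4 * Y ^ 2 := by
            rw [hη]
            field_simp
            ring
    -- the main part
    have hMain : ∑ k ∈ U₂, ‖∑ v ∈ Finset.range V, Qs χ k (blk ρ v B) * Sm χ k (Y / ρ ^ v)‖ ^ 2 ≤
        ε / 4 * Y ^ 2 := by
      have h1 := spa_main χ (ρ := ρ) (ε₂ := ε₂) (D := Ch) (κ := κ) (Y := Y) (B := B) (V := V)
        (U := U₂) hρ0 hε₂.le hCh0.le hWv hS2 (fun v hv => by
          have hv' := hv
          rw [spa_W, Finset.mem_filter] at hv'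
          obtain ⟨-, -, -, f4⟩ := spa_facts hX0 haX hρ hρ2 hv'.2
          have h5 : 0 < ρ ^ v := pow_pos hρ0 v
          have hx : X ^ (δ / 2) ≤ Y / ρ ^ v := by
            rw [le_div_iff₀ h5]
            calc X ^ (δ / 2) * ρ ^ v ≤ X ^ (δ / 2) * X ^ b :=
                  mul_le_mul_of_nonneg_left f4 (by positivity)
              _ = X ^ (δ / 2 + b) := by rw [← Real.rpow_add hX0]
              _ ≤ X ^ δ := Real.rpow_le_rpow_of_exponent_le hX1 (by rw [hb]; linarith)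
              _ ≤ Y := hY1
          exact spa_hm χ hCh0.le (by positivity)
            (spa_win (fun c' => hhal X hX1 U₂ hU₂K hU₂c (Y / ρ ^ v) hx c'))) hWs
      calc _ ≤ ε₂ * Ch * κ * Y ^ 2 := h1
        _ = ε / 4 * Y ^ 2 := by
            rw [hε₂d]
            field_simp
    -- conclusion
    have hk : ∀ k ∈ U₂, ‖Sm χ k Y‖ ^ 2 ≤
        2 * ‖∑ v ∈ Finset.range V, Qs χ k (blk ρ v B) * Sm χ k (Y / ρ ^ v)‖ ^ 2
        + 2 * ‖∑ z ∈ EB (2 * Y), c z * ang k z‖ ^ 2 := by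
      intro k _
      have h1 := hc2 k
      set A := ∑ v ∈ Finset.range V, Qs χ k (blk ρ v B) * Sm χ k (Y / ρ ^ v) with hA
      set E := ∑ z ∈ EB (2 * Y), c z * ang k z with hE
      have h2 : Sm χ k Y = E - (1 / (rs B : ℂ)) * A := by
        rw [← h1]
        ring
      have h3 : ‖(1 / (rs B : ℂ)) * A‖ ≤ ‖A‖ := by
        rw [norm_mul, norm_div, norm_one, Complex.norm_real, Real.norm_of_nonneg hrs0.le]
        calc 1 / rs B * ‖A‖ ≤ 1 * ‖A‖ := by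
              apply mul_le_mul_of_nonneg_right _ (norm_nonneg _)
              rw [div_le_one hrs0]
              exact hrs1
          _ = ‖A‖ := one_mul _
      have h4 : ‖Sm χ k Y‖ ≤ ‖E‖ + ‖A‖ := by
        rw [h2]
        exact (norm_sub_le _ _).trans (by linarith)
      have h5 : ‖Sm χ k Y‖ ^ 2 ≤ (‖E‖ + ‖A‖) ^ 2 := pow_le_pow_left₀ (norm_nonneg _) h4 2
      have h6 : 0 ≤ (‖E‖ - ‖A‖) ^ 2 := sq_nonneg _
      linarith [h5, h6]
    calc ∑ k ∈ U₂, ‖Sm χ k Y‖ ^ 2 ≤ ∑ k ∈ U₂,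
          (2 * ‖∑ v ∈ Finset.range V, Qs χ k (blk ρ v B) * Sm χ k (Y / ρ ^ v)‖ ^ 2
          + 2 * ‖∑ z ∈ EB (2 * Y), c z * ang k z‖ ^ 2) := Finset.sum_le_sum hk
      _ = 2 * ∑ k ∈ U₂, ‖∑ v ∈ Finset.range V, Qs χ k (blk ρ v B) * Sm χ k (Y / ρ ^ v)‖ ^ 2
          + 2 * ∑ k ∈ U₂, ‖∑ z ∈ EB (2 * Y), c z * ang k z‖ ^ 2 := by
          rw [Finset.sum_add_distrib, Finset.mul_sum, Finset.mul_sum]
      _ ≤ 2 * (ε / 4 * Y ^ 2) + 2 * (ε / 4 * Y ^ 2) := by linarith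
      _ = ε * Y ^ 2 := by ring

end Pool.Agent.PS

end SPA

namespace Pool.Agent.PS

theorem mr_sparse : type_of% @mr_sparse_pr := @mr_sparse_pr

end Pool.Agent.PS
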