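import Mathlib
import Pool.Agent.Lib_helper1.PSF.M3
import Pool.Agent.Lib_helper1.PSF.M4
import Pool.Agent.Lib_helper2.PSP.P3

/-! ### Block MRN -/

section MRN
/-! PS, block MRN: all frequencies at the natural scale -/

namespace Pool.Agent.PS

open Filter Topology MeasureTheory

theorem mrn_window {m : ℕ} (χ : DirichletCharacter ℂ m) (k : ℤ) {Y : ℝ} (hY : 0 ≤ Y) :
    Sm χ k Y = Sf χ (2 * Real.pi * k) Y - Sf χ (2 * Real.pi * k) (Y / Real.exp 1) := by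
  classical
  have he : 0 < Real.exp 1 := Real.exp_pos 1
  have hle : Y / Real.exp 1 ≤ Y := div_le_self hY (Real.one_le_exp zero_le_one)
  have hdis : Disjoint (PB Y) (Bl (Y / Real.exp 1)) := by
    rw [Finset.disjoint_left]
    intro n hn hn'
    rw [mem_PB] at hn
    rw [mem_Bl] at hn'
    exact absurd hn'.2 (not_le.2 hn.2.2)
  have hun : Bl Y = PB Y ∪ Bl (Y / Real.exp 1) := by
    ext n
    rw [Finset.mem_union, mem_Bl, mem_PB, mem_Bl]
    constructor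
    · rintro ⟨h1, h2⟩
      rcases lt_or_ge (Y / Real.exp 1) (n : ℝ) with h | h
      · exact Or.inl ⟨h1, h2, h⟩
      · exact Or.inr ⟨h1, h⟩
    · rintro (⟨h1, h2, _⟩ | ⟨h1, h2⟩)
      · exact ⟨h1, h2⟩
      · exact ⟨h1, h2.trans hle⟩
  have h1 : Sf χ (2 * Real.pi * k) Y = ∑ n ∈ PB Y, (lam n : ℂ) * (χ n * tw (2 * Real.pi * k) n) +
      Sf χ (2 * Real.pi * k) (Y / Real.exp 1) := by
    unfold Sf
    rw [hun, Finset.sum_union hdis]
  rw [h1, add_sub_cancel_right]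
  rfl

theorem mr_nat_pr {m : ℕ} [NeZero m] (χ : DirichletCharacter ℂ m) (ε : ℝ) (hε : 0 < ε) :
    ∃ H Y₀ : ℝ, 1 ≤ H ∧ ∀ Y : ℝ, Y₀ ≤ Y → ∑ k ∈ Ks (Y / H), ‖Sm χ k Y‖ ^ 2 ≤ ε * Y ^ 2 := by
  classical
  obtain ⟨α, X₁, N, hα, hα1, hsp⟩ := mr_sparse χ 1 (ε / 4) one_pos le_rfl (by positivity)
  obtain ⟨H, X₂, hH, hty⟩ := mr_typical χ 1 α (ε / 4) one_pos le_rfl hα hα1 (by positivity)
  have hN0 : (0 : ℝ) < 8 * ((N : ℝ) + 1) := by positivity
  obtain ⟨X₃, hpt⟩ := point χ (Real.sqrt (ε / (8 * ((N : ℝ) + 1)))) (Real.sqrt_pos.2 (by positivity))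
  set ε' : ℝ := Real.sqrt (ε / (8 * ((N : ℝ) + 1))) with hε'
  have hε'0 : 0 ≤ ε' := Real.sqrt_nonneg _
  have hε'2 : ε' ^ 2 = ε / (8 * ((N : ℝ) + 1)) := Real.sq_sqrt (by positivity)
  have he : 0 < Real.exp 1 := Real.exp_pos 1
  have he1 : 1 ≤ Real.exp 1 := Real.one_le_exp zero_le_one
  refine ⟨H, max X₁ (max X₂ (max X₃ (max (Real.exp 1 * X₃)
    (2 * Real.pi * Real.exp 1 ^ 2 + 1)))), hH, ?_⟩
  intro Y hY
  simp only [max_le_iff] at hY
  obtain ⟨hY1, hY2, hY3, hY4, hY5⟩ := hY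
  have hpe : 0 < 2 * Real.pi * Real.exp 1 ^ 2 := by positivity
  have hYge1 : 1 ≤ Y := by linarith
  have hY0 : 0 < Y := by linarith
  have hrp : Y ^ (1 : ℝ) = Y := Real.rpow_one Y
  obtain ⟨U, hU, hUc, hUty⟩ := hty Y hY2
  obtain ⟨U', hU', hU'c, hUsp⟩ := hsp Y hY1 U hU hUc
  have h1 := hUty Y hrp.le le_rfl
  have h2 := hUsp Y hrp.le le_rfl
  -- the exceptional frequencies
  have h3 : ∀ k ∈ U', ‖Sm χ k Y‖ ^ 2 ≤ 4 * (ε / (8 * ((N : ℝ) + 1))) * Y ^ 2 := by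
    intro k hk
    have hkY : |(k : ℝ)| ≤ Y := mem_Ks.1 (hU (hU' hk))
    have habs : |2 * Real.pi * (k : ℝ)| ≤ 2 * Real.pi * Y := by
      rw [abs_mul, abs_of_pos (by positivity : (0 : ℝ) < 2 * Real.pi)]
      gcongr
    have hk1 : |2 * Real.pi * (k : ℝ)| ≤ (Y / Real.exp 1) ^ 2 := by
      refine habs.trans ?_
      rw [div_pow, le_div_iff₀ (by positivity)]
      nlinarith
    have hk2 : |2 * Real.pi * (k : ℝ)| ≤ Y ^ 2 := by
      refine hk1.trans ?_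
      gcongr
      exact div_le_self hY0.le he1
    have e1 := hpt Y hY3 _ hk2
    have e2 := hpt (Y / Real.exp 1) (by rw [le_div_iff₀ he]; linarith) _ hk1
    have e3 : ‖Sm χ k Y‖ ≤ 2 * ε' * Y := by
      rw [mrn_window χ k hY0.le]
      calc ‖Sf χ (2 * Real.pi * k) Y - Sf χ (2 * Real.pi * k) (Y / Real.exp 1)‖
          ≤ ‖Sf χ (2 * Real.pi * k) Y‖ + ‖Sf χ (2 * Real.pi * k) (Y / Real.exp 1)‖ :=
            norm_sub_le _ _
        _ ≤ ε' * Y + ε' * (Y / Real.exp 1) := add_le_add e1 e2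
        _ ≤ ε' * Y + ε' * Y := by
            gcongr
            exact div_le_self hY0.le he1
        _ = 2 * ε' * Y := by ring
    calc ‖Sm χ k Y‖ ^ 2 ≤ (2 * ε' * Y) ^ 2 := by gcongr
      _ = 4 * ε' ^ 2 * Y ^ 2 := by ring
      _ = _ := by rw [hε'2]
  have h4 : ∑ k ∈ U', ‖Sm χ k Y‖ ^ 2 ≤ ε / 2 * Y ^ 2 := by
    calc ∑ k ∈ U', ‖Sm χ k Y‖ ^ 2 ≤ ∑ k ∈ U', 4 * (ε / (8 * ((N : ℝ) + 1))) * Y ^ 2 :=
          Finset.sum_le_sum h3
      _ = (U'.card : ℝ) * (4 * (ε / (8 * ((N : ℝ) + 1))) * Y ^ 2) := by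
          rw [Finset.sum_const, nsmul_eq_mul]
      _ ≤ (N : ℝ) * (4 * (ε / (8 * ((N : ℝ) + 1))) * Y ^ 2) := by
          gcongr
      _ = ((N : ℝ) * (4 * (ε / (8 * ((N : ℝ) + 1))))) * Y ^ 2 := by ring
      _ ≤ ε / 2 * Y ^ 2 := by
          gcongr
          rw [mul_div_assoc', mul_div_assoc', div_le_iff₀ hN0]
          nlinarith [Nat.cast_nonneg (α := ℝ) N]
  have h5 : ∑ k ∈ Ks (Y / H), ‖Sm χ k Y‖ ^ 2 ≤
      ∑ k ∈ Ks (Y / H) \ U, ‖Sm χ k Y‖ ^ 2 + (∑ k ∈ U \ U', ‖Sm χ k Y‖ ^ 2 +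
      ∑ k ∈ U', ‖Sm χ k Y‖ ^ 2) := by
    rw [Finset.sum_sdiff hU']
    calc ∑ k ∈ Ks (Y / H), ‖Sm χ k Y‖ ^ 2
        ≤ ∑ k ∈ (Ks (Y / H) \ U) ∪ U, ‖Sm χ k Y‖ ^ 2 := by
          apply Finset.sum_le_sum_of_subset_of_nonneg
          · intro k hk
            rw [Finset.mem_union, Finset.mem_sdiff]
            tauto
          · intro _ _ _; positivity
      _ = _ := Finset.sum_union Finset.sdiff_disjoint
  linarith

end Pool.Agent.PS

end MRN

namespace Pool.Agent.PS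

theorem mr_nat : type_of% @mr_nat_pr := @mr_nat_pr

end Pool.Agent.PS

/-! ### Block KER -/

section KER
namespace Pool.Agent.PS

open Filter Topology MeasureTheory

/-- the indicator of `fract u < η` -/
noncomputable def ker_ch (η u : ℝ) : ℂ := if Int.fract u < η then 1 else 0

/-- the sum over one short interval, made periodic -/
noncomputable def ker_G (Y η : ℝ) (a : ℕ → ℂ) (v : ℝ) : ℂ :=
  ∑ n ∈ PB Y, a n * ker_ch η (Real.log n - v)

/-- the Fourier coefficients of the indicator -/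
noncomputable def ker_phi (η : ℝ) (k : ℤ) : ℂ :=
  ∫ u in (0 : ℝ)..1, Complex.exp (2 * Real.pi * Complex.I * k * u) * ker_ch η u

/-- the twisted sum -/
noncomputable def ker_S (Y : ℝ) (a : ℕ → ℂ) (k : ℤ) : ℂ := ∑ n ∈ PB Y, a n * ang k n

theorem ker_ch_meas (η : ℝ) : Measurable (ker_ch η) :=
  Measurable.ite (measurableSet_lt measurable_fract measurable_const) measurable_const
    measurable_const

theorem ker_ch_le (η u : ℝ) : ‖ker_ch η u‖ ≤ 1 := by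
  unfold ker_ch
  split_ifs <;> simp

theorem ker_ch_add (η u : ℝ) : ker_ch η (u + 1) = ker_ch η u := by
  unfold ker_ch; rw [Int.fract_add_one]

theorem ker_ch_sub (η u : ℝ) : ker_ch η (u - 1) = ker_ch η u := by
  unfold ker_ch; rw [Int.fract_sub_one]

theorem ker_G_meas (Y η : ℝ) (a : ℕ → ℂ) : Measurable (ker_G Y η a) := by
  unfold ker_G
  apply Finset.measurable_sum
  intro n _
  exact ((ker_ch_meas η).comp (measurable_const.sub measurable_id)).const_mul (a n)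

theorem ker_G_per (Y η : ℝ) (a : ℕ → ℂ) : Function.Periodic (ker_G Y η a) 1 := by
  intro v
  unfold ker_G
  apply Finset.sum_congr rfl
  intro n _
  rw [show Real.log n - (v + 1) = Real.log n - v - 1 by ring, ker_ch_sub]

theorem ker_G_le {Y η : ℝ} {a : ℕ → ℂ} (ha : ∀ n, ‖a n‖ ≤ 1) (v : ℝ) :
    ‖ker_G Y η a v‖ ≤ (PB Y).card := by
  unfold ker_G
  calc ‖∑ n ∈ PB Y, a n * ker_ch η (Real.log n - v)‖ ≤ ∑ n ∈ PB Y, (1 : ℝ) := by
        apply norm_sum_le_of_le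
        intro n _
        rw [norm_mul]
        exact mul_le_one₀ (ha n) (norm_nonneg _) (ker_ch_le _ _)
    _ = (PB Y).card := by simp

theorem ker_ii {E : Type*} [NormedAddCommGroup E] [MeasurableSpace E] [BorelSpace E]
    [SecondCountableTopology E] {f : ℝ → E} (hf : Measurable f) {M : ℝ} (h : ∀ x, ‖f x‖ ≤ M)
    (a b : ℝ) : IntervalIntegrable f volume a b := by
  rw [intervalIntegrable_iff]
  apply Measure.integrableOn_of_bounded (M := M)
  · rw [Set.uIoc]; exact (measure_Ioc_lt_top).ne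
  · exact hf.aestronglyMeasurable
  · exact Eventually.of_forall h

theorem ker_exp_norm (k : ℤ) (u : ℝ) : ‖Complex.exp (2 * Real.pi * Complex.I * k * u)‖ = 1 := by
  rw [show (2 * Real.pi * Complex.I * k * u : ℂ) = ((2 * Real.pi * k * u : ℝ) : ℂ) * Complex.I by
    push_cast; ring]
  exact Complex.norm_exp_ofReal_mul_I _

theorem ker_phi_eq {η : ℝ} (h0 : 0 ≤ η) (h1 : η ≤ 1) (k : ℤ) :
    ker_phi η k = ∫ u in (0 : ℝ)..η, Complex.exp (2 * Real.pi * Complex.I * k * u) := by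
  unfold ker_phi
  rw [intervalIntegral.integral_of_le zero_le_one, integral_Ioc_eq_integral_Ioo,
    intervalIntegral.integral_of_le h0, integral_Ioc_eq_integral_Ioo]
  have h2 : ∫ u in Set.Ioo (0 : ℝ) 1, Complex.exp (2 * Real.pi * Complex.I * k * u) * ker_ch η u =
      ∫ u in Set.Ioo (0 : ℝ) 1, (Set.Iio η).indicator
        (fun u : ℝ => Complex.exp (2 * Real.pi * Complex.I * k * u)) u := by
    apply setIntegral_congr_fun measurableSet_Ioo
    intro u hu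
    have hf : Int.fract u = u := Int.fract_eq_self.mpr ⟨hu.1.le, hu.2⟩
    simp only [ker_ch, hf, Set.indicator, Set.mem_Iio]
    split_ifs <;> simp
  rw [h2, setIntegral_indicator measurableSet_Iio]
  congr 2
  ext u
  simp only [Set.mem_inter_iff, Set.mem_Ioo, Set.mem_Iio]
  constructor
  · rintro ⟨⟨h3, _⟩, h4⟩; exact ⟨h3, h4⟩
  · rintro ⟨h3, h4⟩; exact ⟨⟨h3, by linarith⟩, h4⟩

theorem ker_phi_le1 {η : ℝ} (h0 : 0 ≤ η) (h1 : η ≤ 1) (k : ℤ) : ‖ker_phi η k‖ ≤ η := by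
  rw [ker_phi_eq h0 h1]
  have := intervalIntegral.norm_integral_le_of_norm_le_const (a := 0) (b := η) (C := 1)
    (f := fun u : ℝ => Complex.exp (2 * Real.pi * Complex.I * k * u))
    (fun u _ => (ker_exp_norm k u).le)
  rwa [one_mul, sub_zero, abs_of_nonneg h0] at this

theorem ker_phi_le2 {η : ℝ} (h0 : 0 ≤ η) (h1 : η ≤ 1) {k : ℤ} (hk : k ≠ 0) :
    ‖ker_phi η k‖ ≤ 1 / (Real.pi * |(k : ℝ)|) := by
  rw [ker_phi_eq h0 h1]
  have hk' : (k : ℂ) ≠ 0 := by exact_mod_cast hk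
  have hpi : (Real.pi : ℂ) ≠ 0 := by exact_mod_cast Real.pi_ne_zero
  have hc : (2 * Real.pi * Complex.I * k : ℂ) ≠ 0 := by
    simp [hk, Real.pi_ne_zero, Complex.I_ne_zero]
  rw [integral_exp_mul_complex hc, norm_div]
  have e1 : ‖Complex.exp (2 * Real.pi * Complex.I * k * (η : ℂ)) -
      Complex.exp (2 * Real.pi * Complex.I * k * ((0 : ℝ) : ℂ))‖ ≤ 2 := by
    refine (norm_sub_le _ _).trans ?_
    rw [ker_exp_norm, ker_exp_norm]
    norm_num
  have e2 : ‖(2 * Real.pi * Complex.I * k : ℂ)‖ = 2 * (Real.pi * |(k : ℝ)|) := by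
    rw [norm_mul, norm_mul, norm_mul, Complex.norm_I, Complex.norm_real, Complex.norm_intCast,
      Real.norm_of_nonneg Real.pi_pos.le]
    norm_num
    ring
  rw [e2]
  have hp : 0 < Real.pi * |(k : ℝ)| := by
    have : (k : ℝ) ≠ 0 := by exact_mod_cast hk
    have := abs_pos.mpr this
    have := Real.pi_pos
    positivity
  rw [div_le_div_iff₀ (by positivity) hp]
  nlinarith

theorem ker_shift (η b : ℝ) (k : ℤ) :
    ∫ x in (0 : ℝ)..1, Complex.exp (2 * Real.pi * Complex.I * (-k : ℤ) * x) * ker_ch η (b - x) =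
      Complex.exp (2 * Real.pi * Complex.I * (-k : ℤ) * b) * ker_phi η k := by
  set F : ℝ → ℂ := fun u => Complex.exp (2 * Real.pi * Complex.I * (-k : ℤ) * ((b - u : ℝ) : ℂ)) *
    ker_ch η u with hF
  have h1 : (fun x : ℝ => Complex.exp (2 * Real.pi * Complex.I * (-k : ℤ) * x) *
      ker_ch η (b - x)) = fun x => F (b - x) := by
    funext x
    simp only [hF]
    congr 3
    push_cast
    ring
  have hper : Function.Periodic F 1 := by
    intro u
    simp only [hF]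
    rw [ker_ch_add]
    congr 1
    rw [Complex.exp_eq_exp_iff_exists_int]
    exact ⟨k, by push_cast; ring⟩
  rw [h1, intervalIntegral.integral_comp_sub_left F b, sub_zero]
  have h2 := hper.intervalIntegral_add_eq (b - 1) 0
  rw [sub_add_cancel, zero_add] at h2
  rw [h2, ker_phi, ← intervalIntegral.integral_const_mul]
  apply intervalIntegral.integral_congr
  intro u _
  simp only [hF]
  rw [← mul_assoc, ← Complex.exp_add]
  congr 2
  push_cast
  ring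

theorem ker_coeff (Y η : ℝ) (a : ℕ → ℂ) (k : ℤ) :
    fourierCoeffOn (zero_lt_one' ℝ) (ker_G Y η a) k = ker_phi η k * ker_S Y a (-k) := by
  rw [fourierCoeffOn_eq_integral]
  have h1 : ∀ x : ℝ, fourier (-k) (x : AddCircle ((1 : ℝ) - 0)) • ker_G Y η a x =
      ∑ n ∈ PB Y, a n * (Complex.exp (2 * Real.pi * Complex.I * (-k : ℤ) * x) *
        ker_ch η (Real.log n - x)) := by
    intro x
    rw [fourier_coe_apply, ker_G, smul_eq_mul, Finset.mul_sum]
    apply Finset.sum_congr rfl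
    intro n _
    push_cast
    rw [sub_zero, div_one]
    ring
  simp only [h1]
  rw [intervalIntegral.integral_finsetSum]
  · have h2 : ∀ n ∈ PB Y, ∫ x in (0 : ℝ)..1, a n *
        (Complex.exp (2 * Real.pi * Complex.I * (-k : ℤ) * x) * ker_ch η (Real.log n - x)) =
        ker_phi η k * (a n * ang (-k) n) := by
      intro n hn
      rw [intervalIntegral.integral_const_mul, ker_shift, ang_exp _ (mem_PB.mp hn).1]
      have e : (2 * Real.pi * Complex.I * (-k : ℤ) * (Real.log n : ℝ) : ℂ) =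
        ((2 * Real.pi * ((-k : ℤ) : ℝ) * Real.log n : ℝ) : ℂ) * Complex.I := by
        push_cast; ring
      rw [e]
      ring
    rw [Finset.sum_congr rfl h2, ← Finset.mul_sum, ker_S]
    norm_num
  · intro n _
    have hm : Measurable (fun x : ℝ => a n *
        (Complex.exp (2 * Real.pi * Complex.I * (-k : ℤ) * x) * ker_ch η (Real.log n - x))) := by
      apply Measurable.const_mul
      apply Measurable.mul
      · exact (Complex.measurable_exp.comp (Complex.measurable_ofReal.const_mul _))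
      · exact (ker_ch_meas η).comp (measurable_const.sub measurable_id)
    apply ker_ii hm (M := ‖a n‖)
    intro x
    rw [norm_mul, norm_mul, ker_exp_norm, one_mul]
    exact mul_le_of_le_one_right (norm_nonneg _) (ker_ch_le _ _)

theorem ker_parseval {Y η : ℝ} {a : ℕ → ℂ} (ha : ∀ n, ‖a n‖ ≤ 1) :
    HasSum (fun k : ℤ => ‖ker_phi η k * ker_S Y a (-k)‖ ^ 2)
      (∫ v in (0 : ℝ)..1, ‖ker_G Y η a v‖ ^ 2) := by
  have hL2 : MemLp (ker_G Y η a) 2 (volume.restrict (Set.Ioc (0 : ℝ) 1)) :=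
    MemLp.of_bound (ker_G_meas Y η a).aestronglyMeasurable _
      (Eventually.of_forall (ker_G_le ha))
  have := hasSum_sq_fourierCoeffOn (zero_lt_one' ℝ) hL2
  simp only [ker_coeff] at this
  simpa using this


theorem ker_sum_neg (K : ℝ) (f : ℤ → ℝ) : ∑ k ∈ Ks K, f (-k) = ∑ k ∈ Ks K, f k := by
  apply Finset.sum_nbij' (fun k => -k) (fun k => -k)
  · intro k hk
    rw [mem_Ks] at hk ⊢
    push_cast
    rwa [abs_neg]
  · intro k hk
    rw [mem_Ks] at hk ⊢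
    push_cast
    rwa [abs_neg]
  · intro k _; ring
  · intro k _; ring
  · intro k _; rfl

/-- the energy over a dyadic range of frequencies -/
theorem ker_dyad {C₁ : ℝ} (hC₁ : 1 ≤ C₁)
    (hLS : ∀ K x : ℝ, 0 ≤ K → 1 ≤ x → ∀ c : ℕ → ℂ,
      ∑ k ∈ Ks K, ‖∑ z ∈ PB x, c z * ang k z‖ ^ 2 ≤ C₁ * (K + x) * ∑ z ∈ PB x, ‖c z‖ ^ 2)
    {Y η K : ℝ} {a : ℕ → ℂ} (hY : 1 ≤ Y) (h0 : 0 < η) (h1 : η ≤ 1 / 2) (hK : 1 ≤ K)
    (ha : ∀ n, ‖a n‖ ≤ 1) (J : ℕ) :
    ∑ k ∈ Ks (2 ^ J * K), ‖ker_phi η k * ker_S Y a (-k)‖ ^ 2 ≤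
      η ^ 2 * ∑ k ∈ Ks K, ‖ker_S Y a k‖ ^ 2 + C₁ * (Y / K) * (1 - (1 / 2) ^ J) +
        C₁ * (Y ^ 2 / K ^ 2) * (1 - (1 / 4) ^ J) := by
  have hK0 : 0 < K := by linarith
  have hY0 : 0 < Y := by linarith
  have hη1 : η ≤ 1 := by linarith
  have hpi := Real.pi_gt_three
  induction J with
  | zero =>
    simp only [pow_zero, one_mul, sub_self, mul_zero, add_zero]
    rw [Finset.mul_sum, ← ker_sum_neg K (fun k => η ^ 2 * ‖ker_S Y a k‖ ^ 2)]
    apply Finset.sum_le_sum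
    intro k _
    rw [norm_mul, mul_pow]
    apply mul_le_mul_of_nonneg_right _ (by positivity)
    exact pow_le_pow_left₀ (norm_nonneg _) (ker_phi_le1 h0.le hη1 k) 2
  | succ J ih =>
    have h2J : (0 : ℝ) < 2 ^ J := by positivity
    have hL : 0 < 2 ^ J * K := by positivity
    have hsub : Ks (2 ^ J * K) ⊆ Ks (2 ^ (J + 1) * K) := by
      apply Ks_mono
      rw [pow_succ]
      nlinarith
    rw [← Finset.sum_sdiff hsub]
    have hcard : ∑ z ∈ PB Y, ‖a z‖ ^ 2 ≤ Y := by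
      calc ∑ z ∈ PB Y, ‖a z‖ ^ 2 ≤ ∑ z ∈ PB Y, (1 : ℝ) := by
            apply Finset.sum_le_sum
            intro z _
            exact pow_le_one₀ (norm_nonneg _) (ha z)
        _ = (PB Y).card := by simp
        _ ≤ Y := PB_card (by linarith)
    have hS : ∑ k ∈ Ks (2 ^ (J + 1) * K), ‖ker_S Y a k‖ ^ 2 ≤
        C₁ * (2 ^ (J + 1) * K + Y) * Y := by
      refine (hLS (2 ^ (J + 1) * K) Y (by positivity) hY a).trans ?_
      apply mul_le_mul_of_nonneg_left hcard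
      positivity
    have hstep : ∑ k ∈ Ks (2 ^ (J + 1) * K) \ Ks (2 ^ J * K),
        ‖ker_phi η k * ker_S Y a (-k)‖ ^ 2 ≤
        (1 / (3 * (2 ^ J * K))) ^ 2 * (C₁ * (2 ^ (J + 1) * K + Y) * Y) := by
      calc ∑ k ∈ Ks (2 ^ (J + 1) * K) \ Ks (2 ^ J * K), ‖ker_phi η k * ker_S Y a (-k)‖ ^ 2
          ≤ ∑ k ∈ Ks (2 ^ (J + 1) * K) \ Ks (2 ^ J * K),
            (1 / (3 * (2 ^ J * K))) ^ 2 * ‖ker_S Y a (-k)‖ ^ 2 := by
            apply Finset.sum_le_sum
            intro k hk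
            rw [Finset.mem_sdiff, mem_Ks, mem_Ks, not_le] at hk
            have hk0 : k ≠ 0 := by
              intro h
              rw [h] at hk
              simp only [Int.cast_zero, abs_zero] at hk
              linarith [hk.2]
            rw [norm_mul, mul_pow]
            apply mul_le_mul_of_nonneg_right _ (by positivity)
            apply pow_le_pow_left₀ (norm_nonneg _)
            refine (ker_phi_le2 h0.le hη1 hk0).trans ?_
            apply one_div_le_one_div_of_le (by positivity)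
            exact mul_le_mul hpi.le hk.2.le hL.le Real.pi_pos.le
        _ ≤ ∑ k ∈ Ks (2 ^ (J + 1) * K),
            (1 / (3 * (2 ^ J * K))) ^ 2 * ‖ker_S Y a (-k)‖ ^ 2 :=
            Finset.sum_le_sum_of_subset_of_nonneg Finset.sdiff_subset
              (fun k _ _ => by positivity)
        _ = (1 / (3 * (2 ^ J * K))) ^ 2 * ∑ k ∈ Ks (2 ^ (J + 1) * K), ‖ker_S Y a k‖ ^ 2 := by
            rw [← Finset.mul_sum, ker_sum_neg _ (fun k => ‖ker_S Y a k‖ ^ 2)]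
        _ ≤ _ := mul_le_mul_of_nonneg_left hS (by positivity)
    have hval : (1 / (3 * (2 ^ J * K))) ^ 2 * (C₁ * (2 ^ (J + 1) * K + Y) * Y) =
        C₁ * (Y / K) * (2 / 9 * (1 / 2) ^ J) + C₁ * (Y ^ 2 / K ^ 2) * (1 / 9 * (1 / 4) ^ J) := by
      have e4 : (4 : ℝ) ^ J = 2 ^ J * 2 ^ J := by
        rw [← mul_pow]; norm_num
      rw [one_div_pow 2, one_div_pow 4, e4, pow_succ]
      field_simp
      ring
    have hu : 0 ≤ C₁ * (Y / K) * (1 / 2) ^ J := by positivity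
    have hw : 0 ≤ C₁ * (Y ^ 2 / K ^ 2) * (1 / 4) ^ J := by positivity
    rw [hval] at hstep
    rw [pow_succ (1 / 2 : ℝ) J, pow_succ (1 / 4 : ℝ) J]
    have e1 : C₁ * (Y / K) * (2 / 9 * (1 / 2) ^ J) = 2 / 9 * (C₁ * (Y / K) * (1 / 2) ^ J) := by
      ring
    have e2 : C₁ * (Y ^ 2 / K ^ 2) * (1 / 9 * (1 / 4) ^ J) =
        1 / 9 * (C₁ * (Y ^ 2 / K ^ 2) * (1 / 4) ^ J) := by ring
    have e3 : C₁ * (Y / K) * (1 - (1 / 2) ^ J * (1 / 2)) =
        C₁ * (Y / K) * (1 - (1 / 2) ^ J) + 1 / 2 * (C₁ * (Y / K) * (1 / 2) ^ J) := by ring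
    have e4 : C₁ * (Y ^ 2 / K ^ 2) * (1 - (1 / 4) ^ J * (1 / 4)) =
        C₁ * (Y ^ 2 / K ^ 2) * (1 - (1 / 4) ^ J) +
          3 / 4 * (C₁ * (Y ^ 2 / K ^ 2) * (1 / 4) ^ J) := by ring
    rw [e3, e4]
    rw [e1, e2] at hstep
    linarith

theorem ker_energy : ∃ C : ℝ, 1 ≤ C ∧ ∀ (Y η K : ℝ) (a : ℕ → ℂ), 1 ≤ Y → 0 < η → η ≤ 1 / 2 →
    1 ≤ K → (∀ n, ‖a n‖ ≤ 1) →
    ∫ v in (0 : ℝ)..1, ‖ker_G Y η a v‖ ^ 2 ≤
      η ^ 2 * ∑ k ∈ Ks K, ‖ker_S Y a k‖ ^ 2 + C * (Y / K) + C * (Y ^ 2 / K ^ 2) := by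
  obtain ⟨C₁, hC₁, hLS⟩ := large_sieve
  refine ⟨C₁, hC₁, ?_⟩
  intro Y η K a hY h0 h1 hK ha
  have hK0 : 0 < K := by linarith
  have hY0 : 0 < Y := by linarith
  apply hasSum_le_of_sum_le (ker_parseval ha)
  intro F
  obtain ⟨J, hJ⟩ : ∃ J : ℕ, F ⊆ Ks (2 ^ J * K) := by
    obtain ⟨M, hM⟩ : ∃ M : ℝ, ∀ k ∈ F, |(k : ℝ)| ≤ M := by
      refine ⟨∑ k ∈ F, |(k : ℝ)|, ?_⟩
      intro k hk
      exact Finset.single_le_sum (f := fun k : ℤ => |(k : ℝ)|) (fun i _ => abs_nonneg _) hk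
    obtain ⟨J, hJ⟩ := pow_unbounded_of_one_lt M (one_lt_two)
    refine ⟨J, ?_⟩
    intro k hk
    rw [mem_Ks]
    have h2 : (0 : ℝ) < 2 ^ J := by positivity
    have := hM k hk
    nlinarith
  refine (Finset.sum_le_sum_of_subset_of_nonneg hJ (fun k _ _ => by positivity)).trans ?_
  refine (ker_dyad hC₁ hLS hY h0 h1 hK ha J).trans ?_
  have a1 : C₁ * (Y / K) * (1 - (1 / 2) ^ J) ≤ C₁ * (Y / K) := by
    apply mul_le_of_le_one_right (by positivity)
    have : (0 : ℝ) ≤ (1 / 2) ^ J := by positivity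
    linarith
  have a2 : C₁ * (Y ^ 2 / K ^ 2) * (1 - (1 / 4) ^ J) ≤ C₁ * (Y ^ 2 / K ^ 2) := by
    apply mul_le_of_le_one_right (by positivity)
    have : (0 : ℝ) ≤ (1 / 4) ^ J := by positivity
    linarith
  linarith


theorem ker_sub_le {s t : Finset ℕ} {a : ℕ → ℂ} (ha : ∀ n, ‖a n‖ ≤ 1) :
    ‖∑ n ∈ s, a n - ∑ n ∈ t, a n‖ ≤ (s \ t).card + (t \ s).card := by
  rw [← Finset.sum_sdiff_sub_sum_sdiff]
  refine (norm_sub_le _ _).trans ?_
  apply add_le_add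
  · calc ‖∑ n ∈ s \ t, a n‖ ≤ ∑ n ∈ s \ t, (1 : ℝ) := norm_sum_le_of_le _ (fun n _ => ha n)
      _ = _ := by simp
  · calc ‖∑ n ∈ t \ s, a n‖ ≤ ∑ n ∈ t \ s, (1 : ℝ) := norm_sum_le_of_le _ (fun n _ => ha n)
      _ = _ := by simp

/-- the sum over `(A, A e^η]` is the value of `G` up to five terms -/
theorem ker_near {Y η : ℝ} {a : ℕ → ℂ} (hY : 6 ≤ Y) (h0 : 0 < η) (h1 : η ≤ 1 / 2)
    (ha : ∀ n, ‖a n‖ ≤ 1) {A : ℕ} (hA : A ∈ PB Y) (hAη : (A : ℝ) * Real.exp η ≤ Y) {v : ℝ}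
    (hv : Real.log A ≤ v) (hv' : v < Real.log (A + 1)) :
    ‖∑ n ∈ Finset.Ioc A ⌊(A : ℝ) * Real.exp η⌋₊, a n‖ ≤ ‖ker_G Y η a v‖ + 5 := by
  classical
  rw [mem_PB] at hA
  obtain ⟨hA1, hAY, hYA⟩ := hA
  have hY0 : 0 < Y := by linarith
  have hA0 : (0 : ℝ) < A := by exact_mod_cast hA1
  have hA1' : (1 : ℝ) ≤ A := by exact_mod_cast hA1
  set B := (A : ℝ) * Real.exp η with hB
  have hB0 : 0 < B := by positivity
  have he2 : Real.exp η ≤ 2 := by
    have h2 : Real.exp η ≤ Real.exp (1 / 2) := Real.exp_le_exp.mpr h1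
    have h3 : Real.exp (1 / 2) * Real.exp (1 / 2) = Real.exp 1 := by
      rw [← Real.exp_add]; norm_num
    have h4 := Real.exp_one_lt_d9
    have h5 := Real.exp_pos (1 / 2)
    nlinarith
  have hlogB : Real.log B = Real.log A + η := by
    rw [hB, Real.log_mul hA0.ne' (Real.exp_pos _).ne', Real.log_exp]
  have hlogYA : Real.log Y - 1 < Real.log A := by
    have := Real.log_lt_log (by positivity) hYA
    rwa [Real.log_div hY0.ne' (Real.exp_pos _).ne', Real.log_exp] at this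
  have hlogA1 : Real.log (A + 1) ≤ Real.log Y + 1 / 6 := by
    have h2 : (A : ℝ) + 1 ≤ Y * (1 + 1 / 6) := by nlinarith
    have h3 : Real.log (A + 1) ≤ Real.log (Y * (1 + 1 / 6)) :=
      Real.log_le_log (by linarith) h2
    rw [Real.log_mul hY0.ne' (by norm_num)] at h3
    have h4 := Real.log_le_sub_one_of_pos (show (0 : ℝ) < 1 + 1 / 6 by norm_num)
    linarith
  have hG : ker_G Y η a v = ∑ n ∈ (PB Y).filter (fun n : ℕ => Int.fract (Real.log n - v) < η), a n := by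
    unfold ker_G ker_ch
    rw [Finset.sum_filter]
    apply Finset.sum_congr rfl
    intro n _
    split_ifs <;> simp
  set T := (PB Y).filter (fun n : ℕ => Int.fract (Real.log n - v) < η) with hT
  set S := Finset.Ioc A ⌊B⌋₊ with hS
  have hST : S \ T ⊆ {⌊B⌋₊} := by
    intro n hn
    rw [Finset.mem_sdiff, hS, Finset.mem_Ioc, hT, Finset.mem_filter] at hn
    obtain ⟨⟨h2, h3⟩, h4⟩ := hn
    have hn1 : (A : ℝ) + 1 ≤ n := by exact_mod_cast h2
    have hn2 : (n : ℝ) ≤ B := (Nat.le_floor_iff hB0.le).mp h3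
    have hn0 : (0 : ℝ) < n := by linarith
    have hPB : n ∈ PB Y := by
      rw [mem_PB]
      refine ⟨by omega, by linarith, by linarith⟩
    have hl1 : v < Real.log n := lt_of_lt_of_le hv' (Real.log_le_log (by linarith) hn1)
    have hl2 : Real.log n ≤ Real.log A + η := by
      rw [← hlogB]; exact Real.log_le_log hn0 hn2
    have hfr : Int.fract (Real.log n - v) = Real.log n - v :=
      Int.fract_eq_self.mpr ⟨by linarith, by linarith⟩
    have hge : η ≤ Real.log n - v := by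
      by_contra hlt
      push Not at hlt
      exact h4 ⟨hPB, by rw [hfr]; exact hlt⟩
    have heq : Real.log n = Real.log B := by rw [hlogB]; linarith
    have hnB : (n : ℝ) = B := Real.log_injOn_pos (Set.mem_Ioi.mpr hn0) (Set.mem_Ioi.mpr hB0) heq
    rw [Finset.mem_singleton, ← hnB, Nat.floor_natCast]
  have hTS : T \ S ⊆ {A, ⌊B⌋₊ + 1, ⌊B⌋₊ + 2, ⌊Y / Real.exp 1⌋₊ + 1} := by
    intro n hn
    rw [Finset.mem_sdiff, hS, Finset.mem_Ioc, hT, Finset.mem_filter, mem_PB] at hn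
    obtain ⟨⟨⟨h2, h3, h4⟩, h5⟩, h6⟩ := hn
    have hn0 : (0 : ℝ) < n := by exact_mod_cast h2
    have hlY : Real.log n ≤ Real.log Y := Real.log_le_log hn0 h3
    have hlY' : Real.log Y - 1 < Real.log n := by
      have := Real.log_lt_log (by positivity) h4
      rwa [Real.log_div hY0.ne' (Real.exp_pos _).ne', Real.log_exp] at this
    simp only [Finset.mem_insert, Finset.mem_singleton]
    rcases le_or_gt n A with hnA | hnA
    · -- below
      have hlA : Real.log n ≤ Real.log A := Real.log_le_log hn0 (by exact_mod_cast hnA)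
      rcases hlA.eq_or_lt with heq | hlt
      · left
        have : (n : ℝ) = A := Real.log_injOn_pos (Set.mem_Ioi.mpr hn0) (Set.mem_Ioi.mpr hA0) heq
        exact_mod_cast this
      · right; right; right
        have hneg : Real.log n - v < 0 := by linarith
        rcases le_or_gt (-1) (Real.log n - v) with hm | hm
        · have hfr : Int.fract (Real.log n - v) = Real.log n - v + 1 := by
            rw [← Int.fract_add_one, Int.fract_eq_self]
            exact ⟨by linarith, by linarith⟩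
          rw [hfr] at h5
          have hl : Real.log n < Real.log (A + 1) + η - 1 := by linarith
          have hlt2 : (n : ℝ) < (A + 1) * Real.exp η / Real.exp 1 := by
            rw [← Real.log_lt_log_iff hn0 (by positivity), Real.log_div (by positivity)
              (Real.exp_pos _).ne', Real.log_mul (by positivity) (Real.exp_pos _).ne',
              Real.log_exp, Real.log_exp]
            exact hl
          have he1 : Real.exp η / Real.exp 1 ≤ 1 := by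
            rw [div_le_one (Real.exp_pos _)]
            exact Real.exp_le_exp.mpr (by linarith)
          have hlt3 : (n : ℝ) < Y / Real.exp 1 + 1 := by
            calc (n : ℝ) < (A + 1) * Real.exp η / Real.exp 1 := hlt2
              _ = B / Real.exp 1 + Real.exp η / Real.exp 1 := by rw [hB]; ring
              _ ≤ Y / Real.exp 1 + 1 := by
                apply add_le_add _ he1
                exact div_le_div_of_nonneg_right hAη (Real.exp_pos _).le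
          have hf1 : ⌊Y / Real.exp 1⌋₊ < n := (Nat.floor_lt (by positivity)).mpr h4
          have hf2 : n ≤ ⌊Y / Real.exp 1⌋₊ + 1 := by
            have := Nat.lt_floor_add_one (Y / Real.exp 1)
            have h7 : (n : ℝ) < (⌊Y / Real.exp 1⌋₊ : ℝ) + 1 + 1 := by linarith
            have h8 : n < ⌊Y / Real.exp 1⌋₊ + 1 + 1 := by exact_mod_cast h7
            omega
          omega
        · exfalso
          have hfr : Int.fract (Real.log n - v) = Real.log n - v + 1 + 1 := by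
            rw [← Int.fract_add_one, ← Int.fract_add_one, Int.fract_eq_self]
            exact ⟨by linarith, by linarith⟩
          rw [hfr] at h5
          linarith
    · -- above
      have hnB : ⌊B⌋₊ < n := by
        by_contra hle
        push Not at hle
        exact h6 ⟨hnA, hle⟩
      have hn1 : (A : ℝ) + 1 ≤ n := by exact_mod_cast hnA
      have hl1 : v < Real.log n := lt_of_lt_of_le hv' (Real.log_le_log (by linarith) hn1)
      have hfr : Int.fract (Real.log n - v) = Real.log n - v :=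
        Int.fract_eq_self.mpr ⟨by linarith, by linarith⟩
      rw [hfr] at h5
      have hl : Real.log n < Real.log (A + 1) + η := by linarith
      have hlt2 : (n : ℝ) < (A + 1) * Real.exp η := by
        rw [← Real.log_lt_log_iff hn0 (by positivity), Real.log_mul (by positivity)
          (Real.exp_pos _).ne', Real.log_exp]
        exact hl
      have hlt3 : (n : ℝ) < B + 2 := by
        calc (n : ℝ) < (A + 1) * Real.exp η := hlt2
          _ = B + Real.exp η := by rw [hB]; ring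
          _ ≤ B + 2 := by linarith
      have h7 : n < ⌊B⌋₊ + 1 + 2 := by
        have := Nat.lt_floor_add_one B
        have h8 : (n : ℝ) < (⌊B⌋₊ : ℝ) + 1 + 2 := by linarith
        exact_mod_cast h8
      omega
  have hc1 : (S \ T).card ≤ 1 := (Finset.card_le_card hST).trans (by simp)
  have hc2 : (T \ S).card ≤ 4 := (Finset.card_le_card hTS).trans Finset.card_le_four
  have hd := ker_sub_le (s := S) (t := T) ha
  rw [← hG] at hd
  have hc1' : ((S \ T).card : ℝ) ≤ 1 := by exact_mod_cast hc1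
  have hc2' : ((T \ S).card : ℝ) ≤ 4 := by exact_mod_cast hc2
  have htri := norm_le_norm_add_norm_sub' (∑ n ∈ S, a n) (ker_G Y η a v)
  linarith


theorem ker_short {Y η : ℝ} {a : ℕ → ℂ} (hY : 6 ≤ Y) (h0 : 0 < η) (h1 : η ≤ 1 / 2)
    (ha : ∀ n, ‖a n‖ ≤ 1) :
    ∑ A ∈ (PB Y).filter (fun A : ℕ => (A : ℝ) * Real.exp η ≤ Y),
      ‖∑ n ∈ Finset.Ioc A ⌊(A : ℝ) * Real.exp η⌋₊, a n‖ ^ 2 ≤
      2 * Y * (4 * (∫ v in (0 : ℝ)..1, ‖ker_G Y η a v‖ ^ 2) + 100) := by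
  classical
  have hY0 : 0 < Y := by linarith
  set h : ℝ → ℝ := fun v => 2 * ‖ker_G Y η a v‖ ^ 2 + 50 with hh
  have hmeas : Measurable h :=
    (((ker_G_meas Y η a).norm.pow_const 2).const_mul 2).add_const 50
  have hbd : ∀ v, ‖h v‖ ≤ 2 * ((PB Y).card : ℝ) ^ 2 + 50 := by
    intro v
    have h2 : 0 ≤ h v := by simp only [hh]; positivity
    rw [Real.norm_of_nonneg h2]
    simp only [hh]
    have := pow_le_pow_left₀ (norm_nonneg _) (ker_G_le (Y := Y) (η := η) ha v) 2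
    linarith
  have hii : ∀ c d : ℝ, IntervalIntegrable h volume c d := fun c d => ker_ii hmeas hbd c d
  have hnn : ∀ v, 0 ≤ h v := fun v => by simp only [hh]; positivity
  have hper : Function.Periodic h 1 := by
    intro v
    simp only [hh]
    rw [ker_G_per Y η a v]
  -- one interval
  have hone : ∀ A ∈ (PB Y).filter (fun A : ℕ => (A : ℝ) * Real.exp η ≤ Y),
      ‖∑ n ∈ Finset.Ioc A ⌊(A : ℝ) * Real.exp η⌋₊, a n‖ ^ 2 ≤
      2 * Y * ∫ v in (Real.log A)..(Real.log ((A + 1 : ℕ) : ℝ)), h v := by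
    intro A hA
    rw [Finset.mem_filter] at hA
    obtain ⟨hA, hAη⟩ := hA
    have hA' := mem_PB.mp hA
    have hA0 : (0 : ℝ) < A := by exact_mod_cast hA'.1
    have hA1 : (1 : ℝ) ≤ A := by exact_mod_cast hA'.1
    have hle : Real.log A ≤ Real.log ((A + 1 : ℕ) : ℝ) := by
      apply Real.log_le_log hA0; push_cast; linarith
    have hlen : 1 / (2 * Y) ≤ Real.log ((A + 1 : ℕ) : ℝ) - Real.log A := by
      rw [← Real.log_div (by positivity) hA0.ne']
      have h2 := Real.one_sub_inv_le_log_of_pos (show (0 : ℝ) < ((A + 1 : ℕ) : ℝ) / A by positivity)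
      refine le_trans ?_ h2
      push_cast
      rw [inv_div, show 1 - (A : ℝ) / (A + 1) = 1 / (A + 1) by field_simp; ring]
      apply one_div_le_one_div_of_le (by positivity)
      linarith
    set s := ‖∑ n ∈ Finset.Ioc A ⌊(A : ℝ) * Real.exp η⌋₊, a n‖ with hs
    have hint : s ^ 2 * (Real.log ((A + 1 : ℕ) : ℝ) - Real.log A) ≤
        ∫ v in (Real.log A)..(Real.log ((A + 1 : ℕ) : ℝ)), h v := by
      have h3 : ∫ v in (Real.log A)..(Real.log ((A + 1 : ℕ) : ℝ)), (s ^ 2 : ℝ) =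
          s ^ 2 * (Real.log ((A + 1 : ℕ) : ℝ) - Real.log A) := by
        rw [intervalIntegral.integral_const, smul_eq_mul, mul_comm]
      rw [← h3]
      apply intervalIntegral.integral_mono_on_of_le_Ioo hle
        (intervalIntegrable_const) (hii _ _)
      intro v hv
      have h4 : s ≤ ‖ker_G Y η a v‖ + 5 := by
        apply ker_near hY h0 h1 ha hA hAη hv.1.le
        have := hv.2
        push_cast at this
        exact this
      have hs0 : 0 ≤ s := norm_nonneg _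
      have hg0 : 0 ≤ ‖ker_G Y η a v‖ := norm_nonneg _
      simp only [hh]
      nlinarith [sq_nonneg (‖ker_G Y η a v‖ - 5)]
    have h5 : s ^ 2 * (1 / (2 * Y)) ≤ s ^ 2 * (Real.log ((A + 1 : ℕ) : ℝ) - Real.log A) :=
      mul_le_mul_of_nonneg_left hlen (by positivity)
    have h6 : s ^ 2 * (1 / (2 * Y)) ≤
        ∫ v in (Real.log A)..(Real.log ((A + 1 : ℕ) : ℝ)), h v := h5.trans hint
    rw [mul_one_div, div_le_iff₀ (by positivity)] at h6
    linarith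
  refine (Finset.sum_le_sum hone).trans ?_
  rw [← Finset.mul_sum]
  apply mul_le_mul_of_nonneg_left _ (by linarith)
  -- the union of the intervals
  set a₀ := ⌊Y / Real.exp 1⌋₊ + 1 with ha₀
  set b₀ := ⌊Y⌋₊ + 1 with hb₀
  have hYe : 0 < Y / Real.exp 1 := by positivity
  have ha₀1 : Y / Real.exp 1 ≤ (a₀ : ℝ) := by
    rw [ha₀]; push_cast; exact (Nat.lt_floor_add_one _).le
  have hab : a₀ ≤ b₀ := by
    rw [ha₀, hb₀]
    apply Nat.add_le_add_right
    apply Nat.floor_le_floor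
    apply div_le_self hY0.le
    exact Real.one_le_exp zero_le_one
  have hsub : (PB Y).filter (fun A : ℕ => (A : ℝ) * Real.exp η ≤ Y) ⊆ Finset.Ico a₀ b₀ := by
    intro A hA
    rw [Finset.mem_filter, mem_PB] at hA
    obtain ⟨⟨h2, h3, h4⟩, _⟩ := hA
    rw [Finset.mem_Ico, ha₀, hb₀]
    have h5 : ⌊Y / Real.exp 1⌋₊ < A := (Nat.floor_lt hYe.le).mpr h4
    have h6 : A ≤ ⌊Y⌋₊ := Nat.le_floor h3
    omega
  have hnonneg : ∀ A ∈ Finset.Ico a₀ b₀, 0 ≤
      ∫ v in (Real.log (A : ℕ))..(Real.log ((A + 1 : ℕ) : ℝ)), h v := by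
    intro A hA
    rw [Finset.mem_Ico] at hA
    have hA0 : (0 : ℝ) < A := by
      have : 1 ≤ A := by omega
      exact_mod_cast this
    apply intervalIntegral.integral_nonneg
    · apply Real.log_le_log hA0; push_cast; linarith
    · intro v _; exact hnn v
  have hsum : ∑ A ∈ (PB Y).filter (fun A : ℕ => (A : ℝ) * Real.exp η ≤ Y),
      ∫ v in (Real.log (A : ℕ))..(Real.log ((A + 1 : ℕ) : ℝ)), h v ≤
      ∑ A ∈ Finset.Ico a₀ b₀, ∫ v in (Real.log (A : ℕ))..(Real.log ((A + 1 : ℕ) : ℝ)), h v :=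
    Finset.sum_le_sum_of_subset_of_nonneg hsub (fun A hA _ => hnonneg A hA)
  refine hsum.trans ?_
  rw [intervalIntegral.sum_integral_adjacent_intervals_Ico (a := fun n : ℕ => Real.log (n : ℝ))
    hab (fun k _ => hii _ _)]
  have hlo : Real.log Y - 1 ≤ Real.log (a₀ : ℝ) := by
    have := Real.log_le_log hYe ha₀1
    rwa [Real.log_div hY0.ne' (Real.exp_pos _).ne', Real.log_exp] at this
  have hhi : Real.log (b₀ : ℝ) ≤ Real.log Y - 1 + 1 + 1 := by
    have h2 : (b₀ : ℝ) ≤ Y * 2 := by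
      rw [hb₀]; push_cast
      have := Nat.floor_le hY0.le
      linarith
    have h3 := Real.log_le_log (by positivity) h2
    rw [Real.log_mul hY0.ne' (by norm_num)] at h3
    have h4 := Real.log_two_lt_d9
    linarith
  have hmid : Real.log (a₀ : ℝ) ≤ Real.log (b₀ : ℝ) :=
    Real.log_le_log (by positivity) (by exact_mod_cast hab)
  have hbig : ∫ v in (Real.log (a₀ : ℝ))..(Real.log (b₀ : ℝ)), h v ≤
      ∫ v in (Real.log Y - 1)..(Real.log Y - 1 + 1 + 1), h v :=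
    intervalIntegral.integral_mono_interval hlo hmid hhi
      (Eventually.of_forall hnn) (hii _ _)
  refine hbig.trans ?_
  rw [← intervalIntegral.integral_add_adjacent_intervals (hii (Real.log Y - 1)
    (Real.log Y - 1 + 1)) (hii (Real.log Y - 1 + 1) (Real.log Y - 1 + 1 + 1)),
    hper.intervalIntegral_add_eq (Real.log Y - 1) 0,
    hper.intervalIntegral_add_eq (Real.log Y - 1 + 1) 0, zero_add]
  have hG2 : IntervalIntegrable (fun v => ‖ker_G Y η a v‖ ^ 2) volume 0 1 := by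
    apply ker_ii ((ker_G_meas Y η a).norm.pow_const 2) (M := ((PB Y).card : ℝ) ^ 2)
    intro v
    rw [Real.norm_of_nonneg (by positivity)]
    exact pow_le_pow_left₀ (norm_nonneg _) (ker_G_le ha v) 2
  have hval : ∫ v in (0 : ℝ)..1, h v = 2 * (∫ v in (0 : ℝ)..1, ‖ker_G Y η a v‖ ^ 2) + 50 := by
    simp only [hh]
    rw [intervalIntegral.integral_add (hG2.const_mul 2) intervalIntegrable_const,
      intervalIntegral.integral_const_mul, intervalIntegral.integral_const]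
    simp
  rw [hval]
  linarith

theorem ker_pr : ∃ C : ℝ, 1 ≤ C ∧ ∀ (Y η K : ℝ) (a : ℕ → ℂ), 1 ≤ Y → 0 < η → η ≤ 1 / 2 → 1 ≤ K →
    (∀ n, ‖a n‖ ≤ 1) →
    ∑ A ∈ (PB Y).filter (fun A : ℕ => (A : ℝ) * Real.exp η ≤ Y),
      ‖∑ n ∈ Finset.Ioc A ⌊(A : ℝ) * Real.exp η⌋₊, a n‖ ^ 2 ≤
      C * Y * (η ^ 2 * ∑ k ∈ Ks K, ‖∑ n ∈ PB Y, a n * ang k n‖ ^ 2 + Y / K + Y ^ 2 / K ^ 2 + 1) := by
  classical
  obtain ⟨C₁, hC₁, hE⟩ := ker_energy
  refine ⟨8 * C₁ + 200, by linarith, ?_⟩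
  intro Y η K a hY h0 h1 hK ha
  have hY0 : 0 < Y := by linarith
  have hK0 : 0 < K := by linarith
  set E := ∑ k ∈ Ks K, ‖∑ n ∈ PB Y, a n * ang k n‖ ^ 2 with hEd
  have hE0 : 0 ≤ E := Finset.sum_nonneg (fun k _ => by positivity)
  rcases le_or_gt 6 Y with h6 | h6
  · refine (ker_short h6 h0 h1 ha).trans ?_
    have h2 := hE Y η K a hY h0 h1 hK ha
    have h3 : (∑ k ∈ Ks K, ‖ker_S Y a k‖ ^ 2) = E := rfl
    rw [h3] at h2
    have h4 : 0 ≤ η ^ 2 * E := by positivity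
    have h5 : 0 ≤ Y / K := by positivity
    have h7 : 0 ≤ Y ^ 2 / K ^ 2 := by positivity
    have h8 : 2 * (4 * (∫ v in (0 : ℝ)..1, ‖ker_G Y η a v‖ ^ 2) + 100) ≤
        (8 * C₁ + 200) * (η ^ 2 * E + Y / K + Y ^ 2 / K ^ 2 + 1) := by
      nlinarith [mul_nonneg (by linarith : (0 : ℝ) ≤ C₁) h4]
    calc 2 * Y * (4 * (∫ v in (0 : ℝ)..1, ‖ker_G Y η a v‖ ^ 2) + 100)
        = Y * (2 * (4 * (∫ v in (0 : ℝ)..1, ‖ker_G Y η a v‖ ^ 2) + 100)) := by ring
      _ ≤ Y * ((8 * C₁ + 200) * (η ^ 2 * E + Y / K + Y ^ 2 / K ^ 2 + 1)) :=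
          mul_le_mul_of_nonneg_left h8 hY0.le
      _ = _ := by ring
  · have hterm : ∀ A ∈ (PB Y).filter (fun A : ℕ => (A : ℝ) * Real.exp η ≤ Y),
        ‖∑ n ∈ Finset.Ioc A ⌊(A : ℝ) * Real.exp η⌋₊, a n‖ ^ 2 ≤ 36 := by
      intro A hA
      rw [Finset.mem_filter] at hA
      have h2 : ‖∑ n ∈ Finset.Ioc A ⌊(A : ℝ) * Real.exp η⌋₊, a n‖ ≤ 6 := by
        calc ‖∑ n ∈ Finset.Ioc A ⌊(A : ℝ) * Real.exp η⌋₊, a n‖
            ≤ ∑ n ∈ Finset.Ioc A ⌊(A : ℝ) * Real.exp η⌋₊, (1 : ℝ) :=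
              norm_sum_le_of_le _ (fun n _ => ha n)
          _ = ((⌊(A : ℝ) * Real.exp η⌋₊ - A : ℕ) : ℝ) := by simp
          _ ≤ (⌊(A : ℝ) * Real.exp η⌋₊ : ℝ) := by exact_mod_cast Nat.sub_le _ _
          _ ≤ (A : ℝ) * Real.exp η := Nat.floor_le (by positivity)
          _ ≤ 6 := by linarith [hA.2]
      calc ‖∑ n ∈ Finset.Ioc A ⌊(A : ℝ) * Real.exp η⌋₊, a n‖ ^ 2 ≤ 6 ^ 2 :=
            pow_le_pow_left₀ (norm_nonneg _) h2 2
        _ = 36 := by norm_num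
    calc ∑ A ∈ (PB Y).filter (fun A : ℕ => (A : ℝ) * Real.exp η ≤ Y),
          ‖∑ n ∈ Finset.Ioc A ⌊(A : ℝ) * Real.exp η⌋₊, a n‖ ^ 2
        ≤ ∑ A ∈ (PB Y).filter (fun A : ℕ => (A : ℝ) * Real.exp η ≤ Y), (36 : ℝ) :=
          Finset.sum_le_sum hterm
      _ = (((PB Y).filter (fun A : ℕ => (A : ℝ) * Real.exp η ≤ Y)).card : ℝ) * 36 := by simp
      _ ≤ Y * 36 := by
          apply mul_le_mul_of_nonneg_right _ (by norm_num)
          exact le_trans (by exact_mod_cast Finset.card_filter_le _ _) (PB_card hY0.le)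
      _ ≤ Y * ((8 * C₁ + 200) * (η ^ 2 * E + Y / K + Y ^ 2 / K ^ 2 + 1)) := by
          apply mul_le_mul_of_nonneg_left _ hY0.le
          have h4 : 0 ≤ η ^ 2 * E := by positivity
          have h5 : 0 ≤ Y / K := by positivity
          have h7 : 0 ≤ Y ^ 2 / K ^ 2 := by positivity
          have h9 : (0 : ℝ) ≤ 8 * C₁ + 200 := by linarith
          nlinarith [mul_nonneg h9 (add_nonneg (add_nonneg h4 h5) h7)]
      _ = _ := by ring

end Pool.Agent.PS

end KER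

namespace Pool.Agent.PS

theorem ker : type_of% @ker_pr := @ker_pr

end Pool.Agent.PS

/-! ### Block SHO -/

section SHO
namespace Pool.Agent.PS

open Filter Topology MeasureTheory

/-- the integers in `(z₁, z₂]` -/
noncomputable def sho_I (z₁ z₂ : ℝ) : Finset ℕ :=
  open Classical in (Finset.range (⌊z₂⌋₊ + 1)).filter (fun B : ℕ => z₁ < (B : ℝ) ∧ (B : ℝ) ≤ z₂)

theorem sho_mem {z₁ z₂ : ℝ} {B : ℕ} : B ∈ sho_I z₁ z₂ ↔ z₁ < (B : ℝ) ∧ (B : ℝ) ≤ z₂ := by
  classical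
  unfold sho_I
  rw [Finset.mem_filter, Finset.mem_range]
  constructor
  · exact fun h => h.2
  · intro h
    exact ⟨Nat.lt_succ_of_le (Nat.le_floor h.2), h⟩

theorem sho_card {z₁ z₂ : ℝ} (h1 : 0 ≤ z₁) (h2 : z₁ ≤ z₂) :
    ((sho_I z₁ z₂).card : ℝ) ≤ z₂ - z₁ + 1 := by
  have hsub : sho_I z₁ z₂ ⊆ Finset.Ioc ⌊z₁⌋₊ ⌊z₂⌋₊ := by
    intro B hB
    rw [sho_mem] at hB
    rw [Finset.mem_Ioc]
    exact ⟨(Nat.floor_lt h1).mpr hB.1, Nat.le_floor hB.2⟩
  have hc := Finset.card_le_card hsub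
  rw [Nat.card_Ioc] at hc
  have hle : ⌊z₁⌋₊ ≤ ⌊z₂⌋₊ := Nat.floor_le_floor h2
  have hc' : ((sho_I z₁ z₂).card : ℝ) ≤ ((⌊z₂⌋₊ - ⌊z₁⌋₊ : ℕ) : ℝ) := by exact_mod_cast hc
  rw [Nat.cast_sub hle] at hc'
  have h3 := Nat.floor_le (h1.trans h2)
  have h4 := Nat.lt_floor_add_one z₁
  linarith

/-- the coefficients -/
noncomputable def sho_a {m : ℕ} (χ : DirichletCharacter ℂ m) (n : ℕ) : ℂ :=
  (lam n : ℂ) * χ (n : ZMod m)

theorem sho_a_le {m : ℕ} (χ : DirichletCharacter ℂ m) (n : ℕ) : ‖sho_a χ n‖ ≤ 1 := by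
  unfold sho_a
  rw [norm_mul]
  exact mul_le_one₀ (lam_norm n) (norm_nonneg _) (chi_le χ n)

theorem sho_sum_le {m : ℕ} (χ : DirichletCharacter ℂ m) (s : Finset ℕ) :
    ‖∑ n ∈ s, sho_a χ n‖ ≤ s.card := by
  calc ‖∑ n ∈ s, sho_a χ n‖ ≤ ∑ n ∈ s, (1 : ℝ) := norm_sum_le_of_le _ (fun n _ => sho_a_le χ n)
    _ = s.card := by simp

/-- one short sum, compared with the multiplicative interval -/
theorem sho_one {m : ℕ} (χ : DirichletCharacter ℂ m) {L A : ℕ} {Z κ : ℝ} (hL : 1 ≤ L)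
    (hκ : 0 ≤ κ) (hZ : 0 < Z) (hA1 : Real.exp (-κ) * Z < A) (hA2 : (A : ℝ) ≤ Z) :
    ‖∑ n ∈ Finset.Ioc A (A + L), sho_a χ n‖ ^ 2 ≤
      2 * ‖∑ n ∈ Finset.Ioc A ⌊(A : ℝ) * ((Z + L) / Z)⌋₊, sho_a χ n‖ ^ 2 +
        2 * (κ * L + 1) ^ 2 := by
  have hL0 : (0 : ℝ) < L := by exact_mod_cast hL
  have hA0 : (0 : ℝ) < A := lt_trans (by positivity) hA1
  set B := ⌊(A : ℝ) * ((Z + L) / Z)⌋₊ with hB
  have hval : (A : ℝ) * ((Z + L) / Z) = A + A * L / Z := by field_simp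
  have hup : (A : ℝ) * ((Z + L) / Z) ≤ ((A + L : ℕ) : ℝ) := by
    rw [hval]; push_cast
    have : (A : ℝ) * L / Z ≤ L := by
      rw [div_le_iff₀ hZ]; nlinarith
    linarith
  have hlo : (A : ℝ) + L - κ * L ≤ (A : ℝ) * ((Z + L) / Z) := by
    rw [hval]
    have h1 : Real.exp (-κ) * L ≤ (A : ℝ) * L / Z := by
      rw [le_div_iff₀ hZ]
      nlinarith
    have h2 : 1 - κ ≤ Real.exp (-κ) := by
      have := Real.add_one_le_exp (-κ); linarith
    nlinarith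
  have hBle : B ≤ A + L := by
    rw [hB]
    have := Nat.floor_le_floor hup
    rwa [Nat.floor_natCast] at this
  have hAB : A ≤ B := by
    rw [hB]
    apply Nat.le_floor
    rw [hval]
    have : 0 ≤ (A : ℝ) * L / Z := by positivity
    linarith
  have hBlo : (A : ℝ) + L - κ * L - 1 ≤ B := by
    have := Nat.lt_floor_add_one ((A : ℝ) * ((Z + L) / Z))
    rw [← hB] at this
    linarith
  have hsplit : ∑ n ∈ Finset.Ioc A (A + L), sho_a χ n =
      ∑ n ∈ Finset.Ioc A B, sho_a χ n + ∑ n ∈ Finset.Ioc B (A + L), sho_a χ n :=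
    (Finset.sum_Ioc_consecutive _ hAB hBle).symm
  have hrest : ‖∑ n ∈ Finset.Ioc B (A + L), sho_a χ n‖ ≤ κ * L + 1 := by
    refine (sho_sum_le χ _).trans ?_
    rw [Nat.card_Ioc, Nat.cast_sub hBle]
    push_cast
    linarith
  rw [hsplit]
  have h1 := norm_add_le (∑ n ∈ Finset.Ioc A B, sho_a χ n)
    (∑ n ∈ Finset.Ioc B (A + L), sho_a χ n)
  have h2 : 0 ≤ ‖∑ n ∈ Finset.Ioc A B, sho_a χ n‖ := norm_nonneg _
  have h3 : 0 ≤ κ * L + 1 := by positivity
  have h4 : ‖∑ n ∈ Finset.Ioc A B, sho_a χ n + ∑ n ∈ Finset.Ioc B (A + L), sho_a χ n‖ ≤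
      ‖∑ n ∈ Finset.Ioc A B, sho_a χ n‖ + (κ * L + 1) := by linarith
  have h5 := pow_le_pow_left₀ (norm_nonneg _) h4 2
  nlinarith [sq_nonneg (‖∑ n ∈ Finset.Ioc A B, sho_a χ n‖ - (κ * L + 1))]

theorem sho_num {Y Z η H ε' S : ℝ} {L : ℕ} (hZ : 0 < Z) (hY : 0 < Y) (hY2 : Y ≤ 2 * Z)
    (hη0 : 0 ≤ η) (hηL : η ≤ L / Z) (hH : 1 ≤ H) (hε' : 0 < ε') (hS0 : 0 ≤ S)
    (hS : S ≤ ε' * Y ^ 2) (hLε : 3 * H ^ 2 ≤ 4 * ε' * (L : ℝ) ^ 2) :
    η ^ 2 * S + Y / (Y / H) + Y ^ 2 / (Y / H) ^ 2 + 1 ≤ 8 * ε' * (L : ℝ) ^ 2 := by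
  have hH0 : 0 < H := by linarith
  have h1 : η ^ 2 * S ≤ (L / Z) ^ 2 * (ε' * Y ^ 2) :=
    mul_le_mul (pow_le_pow_left₀ hη0 hηL 2) hS hS0 (by positivity)
  have h2 : (L / Z) ^ 2 * (ε' * Y ^ 2) = ε' * (L : ℝ) ^ 2 * (Y / Z) ^ 2 := by
    field_simp
  have h3 : (Y / Z) ^ 2 ≤ 2 ^ 2 := by
    apply pow_le_pow_left₀ (by positivity)
    rw [div_le_iff₀ hZ]; linarith
  have h4 : ε' * (L : ℝ) ^ 2 * (Y / Z) ^ 2 ≤ ε' * (L : ℝ) ^ 2 * 2 ^ 2 :=
    mul_le_mul_of_nonneg_left h3 (by positivity)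
  have h5 : Y / (Y / H) = H := by field_simp
  have h6 : Y ^ 2 / (Y / H) ^ 2 = H ^ 2 := by field_simp
  rw [h5, h6]
  have h7 : H ≤ H ^ 2 := by
    rw [pow_two]; exact le_mul_of_one_le_left hH0.le hH
  linarith

theorem sho_exp {κ : ℝ} (hκ : 0 ≤ κ) (hκ1 : κ ≤ 1) : 1 - κ ≤ Real.exp (-κ) ∧
    Real.exp (-κ) ≤ 1 - κ / 2 := by
  have h0 := Real.add_one_le_exp (-κ)
  have h1 := Real.add_one_le_exp κ
  have h2 : Real.exp (-κ) * Real.exp κ = 1 := by rw [← Real.exp_add]; simp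
  have h3 := Real.exp_pos (-κ)
  have h4 : Real.exp (-κ) * (κ + 1) ≤ 1 :=
    (mul_le_mul_of_nonneg_left h1 h3.le).trans h2.le
  refine ⟨by linarith, ?_⟩
  have h5 : 1 ≤ (1 - κ / 2) * (κ + 1) := by nlinarith
  have h6 : Real.exp (-κ) * (κ + 1) ≤ (1 - κ / 2) * (κ + 1) := h4.trans h5
  exact le_of_mul_le_mul_right h6 (by linarith)

/-- one scale, multiplicative intervals -/
theorem sho_mult {m : ℕ} (χ : DirichletCharacter ℂ m) {C H ε' κ Y₀ Z : ℝ} {L : ℕ} (hC : 1 ≤ C)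
    (hker : ∀ (Y η K : ℝ) (a : ℕ → ℂ), 1 ≤ Y → 0 < η → η ≤ 1 / 2 → 1 ≤ K →
      (∀ n, ‖a n‖ ≤ 1) →
      ∑ A ∈ (PB Y).filter (fun A : ℕ => (A : ℝ) * Real.exp η ≤ Y),
        ‖∑ n ∈ Finset.Ioc A ⌊(A : ℝ) * Real.exp η⌋₊, a n‖ ^ 2 ≤
        C * Y * (η ^ 2 * ∑ k ∈ Ks K, ‖∑ n ∈ PB Y, a n * ang k n‖ ^ 2 + Y / K + Y ^ 2 / K ^ 2 + 1))
    (hH : 1 ≤ H) (hε' : 0 < ε')
    (hnat : ∀ Y : ℝ, Y₀ ≤ Y → ∑ k ∈ Ks (Y / H), ‖Sm χ k Y‖ ^ 2 ≤ ε' * Y ^ 2)
    (hκ : 0 < κ) (hκ1 : κ ≤ 1 / 4) (hL1 : 1 ≤ L) (hLε : 3 * H ^ 2 ≤ 4 * ε' * (L : ℝ) ^ 2)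
    (hZY : Y₀ ≤ Z) (hZH : H ≤ Z) (hZL : 4 * (L : ℝ) ≤ Z) :
    ∑ A ∈ sho_I (Real.exp (-κ) * Z) Z,
      ‖∑ n ∈ Finset.Ioc A ⌊(A : ℝ) * ((Z + L) / Z)⌋₊, sho_a χ n‖ ^ 2 ≤
      C * (2 * Z) * (8 * ε' * (L : ℝ) ^ 2) := by
  classical
  have hC0 : 0 < C := by linarith
  have hH0 : 0 < H := by linarith
  have hZ0 : 0 < Z := by linarith
  have hL0 : (0 : ℝ) < L := by exact_mod_cast hL1
  set Y := Z + L with hY
  have hY0 : 0 < Y := by linarith
  set η := Real.log (Y / Z) with hη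
  have hYZ : 1 < Y / Z := by rw [lt_div_iff₀ hZ0]; linarith
  have hexp : Real.exp η = Y / Z := Real.exp_log (by positivity)
  have hη0 : 0 < η := Real.log_pos hYZ
  have hηL : η ≤ L / Z := by
    have h1 := Real.log_le_sub_one_of_pos (show 0 < Y / Z by positivity)
    have h2 : Y / Z - 1 = L / Z := by rw [hY]; field_simp; ring
    rw [← h2]; exact h1
  have hLZ : L / Z ≤ 1 / 4 := by
    rw [div_le_div_iff₀ hZ0 (by norm_num)]; linarith
  have hη1 : η ≤ 1 / 2 := by linarith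
  have hYH : 1 ≤ Y / H := by rw [le_div_iff₀ hH0]; linarith
  have hk := hker Y η (Y / H) (sho_a χ) (by linarith) hη0 hη1 hYH (sho_a_le χ)
  have hSm : ∑ k ∈ Ks (Y / H), ‖∑ n ∈ PB Y, sho_a χ n * ang k n‖ ^ 2 ≤ ε' * Y ^ 2 := by
    have h1 := hnat Y (by linarith)
    refine le_trans (le_of_eq ?_) h1
    apply Finset.sum_congr rfl
    intro k _
    congr 2
    unfold Sm
    apply Finset.sum_congr rfl
    intro n _
    unfold sho_a xi
    ring
  have hbound := sho_num hZ0 hY0 (by linarith) hη0.le hηL hH hε'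
    (Finset.sum_nonneg (fun k _ => by positivity)) hSm hLε
  have hk2 : ∑ A ∈ (PB Y).filter (fun A : ℕ => (A : ℝ) * Real.exp η ≤ Y),
      ‖∑ n ∈ Finset.Ioc A ⌊(A : ℝ) * Real.exp η⌋₊, sho_a χ n‖ ^ 2 ≤
      C * (2 * Z) * (8 * ε' * (L : ℝ) ^ 2) := by
    refine hk.trans ?_
    refine le_trans (mul_le_mul_of_nonneg_left hbound (by positivity)) ?_
    apply mul_le_mul_of_nonneg_right _ (by positivity)
    apply mul_le_mul_of_nonneg_left _ hC0.le
    linarith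
  have hsub : sho_I (Real.exp (-κ) * Z) Z ⊆
      (PB Y).filter (fun A : ℕ => (A : ℝ) * Real.exp η ≤ Y) := by
    intro A hA
    rw [sho_mem] at hA
    obtain ⟨hA1, hA2⟩ := hA
    have hA0 : (0 : ℝ) < A := lt_trans (by positivity) hA1
    rw [Finset.mem_filter, mem_PB, hexp]
    refine ⟨⟨by exact_mod_cast hA0, by linarith, ?_⟩, ?_⟩
    · refine lt_of_le_of_lt ?_ hA1
      have h1 : 3 / 4 ≤ Real.exp (-κ) := by
        have := (sho_exp hκ.le (by linarith)).1; linarith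
      have h2 : (2.7 : ℝ) ≤ Real.exp 1 := by
        have := Real.exp_one_gt_d9; linarith
      have h3 : Y / Real.exp 1 ≤ Y / 2.7 := by
        apply div_le_div_of_nonneg_left hY0.le (by norm_num) h2
      have h4 : Y / 2.7 ≤ 3 / 4 * Z := by
        rw [div_le_iff₀ (by norm_num)]; linarith
      have h5 : 3 / 4 * Z ≤ Real.exp (-κ) * Z := mul_le_mul_of_nonneg_right h1 hZ0.le
      linarith
    · calc (A : ℝ) * (Y / Z) ≤ Z * (Y / Z) := mul_le_mul_of_nonneg_right hA2 (by positivity)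
        _ = Y := by field_simp
  rw [hexp] at hk2
  rw [hexp] at hsub
  exact (Finset.sum_le_sum_of_subset_of_nonneg hsub (fun A _ _ => by positivity)).trans hk2

/-- one scale -/
theorem sho_scale {m : ℕ} [NeZero m] (χ : DirichletCharacter ℂ m) {ε κ : ℝ} (hε : 0 < ε)
    (hκ : 0 < κ) (hκ1 : κ ≤ 1 / 4) (hκε : 64 * κ ^ 2 ≤ ε) :
    ∃ L₀ : ℕ, 1 ≤ L₀ ∧ ∀ L : ℕ, L₀ ≤ L → ∃ Z₀ : ℝ, 1 ≤ Z₀ ∧ ∀ Z : ℝ, Z₀ ≤ Z →
      ∑ A ∈ sho_I (Real.exp (-κ) * Z) Z, ‖∑ n ∈ Finset.Ioc A (A + L), sho_a χ n‖ ^ 2 ≤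
        ε * L ^ 2 * (Z - Real.exp (-κ) * Z) := by
  classical
  obtain ⟨C, hC, hker⟩ := ker
  have hC0 : 0 < C := by linarith
  set ε' := ε * κ / (128 * C) with hε'
  have hε'0 : 0 < ε' := by positivity
  obtain ⟨H, Y₀, hH, hnat⟩ := mr_nat χ ε' hε'0
  refine ⟨⌈2 * H / ε' + 2 * H + 1 / κ⌉₊ + 1, by omega, ?_⟩
  intro L hL
  have hLr : 2 * H / ε' + 2 * H + 1 / κ ≤ L := by
    have h1 := Nat.le_ceil (2 * H / ε' + 2 * H + 1 / κ)
    have h2 : ((⌈2 * H / ε' + 2 * H + 1 / κ⌉₊ + 1 : ℕ) : ℝ) ≤ L := by exact_mod_cast hL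
    push_cast at h2
    linarith
  have hH0 : 0 < H := by linarith
  have hq1 : 0 < 2 * H / ε' := by positivity
  have hq2 : 0 < 1 / κ := by positivity
  have hLκ : 1 ≤ κ * L := by
    have h1 : 1 / κ ≤ L := by linarith
    rw [div_le_iff₀ hκ] at h1
    linarith
  have hLH : 2 * H ≤ L := by linarith
  have hL0 : (0 : ℝ) < L := by linarith
  have hL1 : 1 ≤ L := by
    have : (0 : ℝ) < L := hL0
    exact_mod_cast this
  have hLε : 3 * H ^ 2 ≤ 4 * ε' * (L : ℝ) ^ 2 := by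
    have h1 : 2 * H / ε' ≤ L := by linarith
    rw [div_le_iff₀ hε'0] at h1
    have h2 : 2 * H * (2 * H) ≤ L * ε' * L := mul_le_mul h1 hLH (by linarith) (by positivity)
    have h3 : 0 ≤ H ^ 2 := sq_nonneg H
    have h4 : 0 ≤ ε' * (L : ℝ) ^ 2 := by positivity
    have e1 : 2 * H * (2 * H) = 4 * H ^ 2 := by ring
    have e2 : (L : ℝ) * ε' * L = ε' * (L : ℝ) ^ 2 := by ring
    rw [e1, e2] at h2
    linarith
  refine ⟨max 1 (max Y₀ (max H (max (4 * L) (1 / κ)))), le_max_left _ _, ?_⟩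
  intro Z hZ
  have hZ1 : 1 ≤ Z := (le_max_left _ _).trans hZ
  have hZ' := (le_max_right _ _).trans hZ
  have hZY : Y₀ ≤ Z := (le_max_left _ _).trans hZ'
  have hZ'' := (le_max_right _ _).trans hZ'
  have hZH : H ≤ Z := (le_max_left _ _).trans hZ''
  have hZ3 := (le_max_right _ _).trans hZ''
  have hZL : 4 * (L : ℝ) ≤ Z := (le_max_left _ _).trans hZ3
  have hZκ : 1 / κ ≤ Z := (le_max_right _ _).trans hZ3
  have hZ0 : 0 < Z := by linarith
  have hsum1 := sho_mult χ hC hker hH hε'0 hnat hκ hκ1 hL1 hLε hZY hZH hZL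
  obtain ⟨hexpκ, hexpκ2⟩ := sho_exp hκ.le (show κ ≤ 1 by linarith)
  have hZe : κ / 2 * Z ≤ Z - Real.exp (-κ) * Z := by
    have := mul_le_mul_of_nonneg_right hexpκ2 hZ0.le
    linarith
  have hZe2 : Z - Real.exp (-κ) * Z ≤ κ * Z := by
    have := mul_le_mul_of_nonneg_right hexpκ hZ0.le
    linarith
  have hZe3 : 0 ≤ κ / 2 * Z := by positivity
  have hcard : ((sho_I (Real.exp (-κ) * Z) Z).card : ℝ) ≤ 2 * κ * Z := by
    refine (sho_card (by positivity) (by linarith)).trans ?_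
    have h1 : 1 ≤ κ * Z := by
      rw [div_le_iff₀ hκ] at hZκ; linarith
    linarith
  calc ∑ A ∈ sho_I (Real.exp (-κ) * Z) Z, ‖∑ n ∈ Finset.Ioc A (A + L), sho_a χ n‖ ^ 2
      ≤ ∑ A ∈ sho_I (Real.exp (-κ) * Z) Z,
        (2 * ‖∑ n ∈ Finset.Ioc A ⌊(A : ℝ) * ((Z + L) / Z)⌋₊, sho_a χ n‖ ^ 2 +
          2 * (κ * L + 1) ^ 2) := by
        apply Finset.sum_le_sum
        intro A hA
        rw [sho_mem] at hA
        exact sho_one χ hL1 hκ.le hZ0 hA.1 hA.2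
    _ = 2 * ∑ A ∈ sho_I (Real.exp (-κ) * Z) Z,
        ‖∑ n ∈ Finset.Ioc A ⌊(A : ℝ) * ((Z + L) / Z)⌋₊, sho_a χ n‖ ^ 2 +
        ((sho_I (Real.exp (-κ) * Z) Z).card : ℝ) * (2 * (κ * L + 1) ^ 2) := by
        rw [Finset.sum_add_distrib, ← Finset.mul_sum, Finset.sum_const, nsmul_eq_mul]
    _ ≤ 2 * (C * (2 * Z) * (8 * ε' * (L : ℝ) ^ 2)) + 2 * κ * Z * (2 * (2 * κ * L) ^ 2) := by
        apply add_le_add (mul_le_mul_of_nonneg_left hsum1 (by norm_num))
        apply mul_le_mul hcard _ (by positivity) (by positivity)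
        apply mul_le_mul_of_nonneg_left _ (by norm_num)
        apply pow_le_pow_left₀ (by positivity)
        linarith
    _ = (32 * C * ε' + 16 * κ ^ 3) * ((L : ℝ) ^ 2 * Z) := by ring
    _ ≤ (ε * (κ / 2)) * ((L : ℝ) ^ 2 * Z) := by
        apply mul_le_mul_of_nonneg_right _ (by positivity)
        have h1 : 32 * C * ε' = ε * κ / 4 := by rw [hε']; field_simp; norm_num
        have h2 : 16 * κ ^ 3 ≤ ε * κ / 4 := by
          have h3 := mul_le_mul_of_nonneg_right hκε hκ.le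
          have e1 : 64 * κ ^ 2 * κ = 64 * κ ^ 3 := by ring
          rw [e1] at h3
          linarith
        linarith
    _ = ε * (L : ℝ) ^ 2 * (κ / 2 * Z) := by ring
    _ ≤ ε * (L : ℝ) ^ 2 * (Z - Real.exp (-κ) * Z) :=
        mul_le_mul_of_nonneg_left hZe (by positivity)

theorem sho_tele {f : ℕ → ℝ} {ρ κ Z₀ : ℝ} (hκ : 0 < κ)
    (h : ∀ Z : ℝ, Z₀ ≤ Z → ∑ A ∈ sho_I (Real.exp (-κ) * Z) Z, f A ≤ ρ * (Z - Real.exp (-κ) * Z))
    (I : ℕ) : ∀ X : ℝ, 0 ≤ X → Z₀ ≤ Real.exp (-κ) ^ I * X →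
      ∑ A ∈ sho_I (Real.exp (-κ) ^ I * X) X, f A ≤ ρ * (X - Real.exp (-κ) ^ I * X) := by
  classical
  have he1 : Real.exp (-κ) ≤ 1 := Real.exp_le_one_iff.mpr (by linarith)
  have he0 := Real.exp_pos (-κ)
  induction I with
  | zero =>
    intro X hX _
    have hemp : sho_I (Real.exp (-κ) ^ 0 * X) X = ∅ := by
      apply Finset.eq_empty_of_forall_notMem
      intro A hA
      rw [sho_mem, pow_zero, one_mul] at hA
      linarith
    rw [hemp]
    simp
  | succ I ih =>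
    intro X hX hZ
    set W := Real.exp (-κ) ^ I * X with hW
    have hW0 : 0 ≤ W := by positivity
    have hWX : Real.exp (-κ) ^ (I + 1) * X = Real.exp (-κ) * W := by rw [hW, pow_succ]; ring
    rw [hWX] at hZ ⊢
    have hWW : Real.exp (-κ) * W ≤ W := by nlinarith
    have hWXle : W ≤ X := by
      rw [hW]
      have : Real.exp (-κ) ^ I ≤ 1 := pow_le_one₀ he0.le he1
      nlinarith
    have hZW : Z₀ ≤ W := hZ.trans hWW
    have hdis : Disjoint (sho_I (Real.exp (-κ) * W) W) (sho_I W X) := by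
      rw [Finset.disjoint_left]
      intro A hA hA'
      rw [sho_mem] at hA hA'
      linarith [hA.2, hA'.1]
    have hun : sho_I (Real.exp (-κ) * W) X = sho_I (Real.exp (-κ) * W) W ∪ sho_I W X := by
      ext A
      rw [Finset.mem_union, sho_mem, sho_mem, sho_mem]
      constructor
      · rintro ⟨h1, h2⟩
        rcases le_or_gt (A : ℝ) W with h3 | h3
        · exact Or.inl ⟨h1, h3⟩
        · exact Or.inr ⟨h3, h2⟩
      · rintro (⟨h1, h2⟩ | ⟨h1, h2⟩)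
        · exact ⟨h1, by linarith⟩
        · exact ⟨by linarith, h2⟩
    rw [hun, Finset.sum_union hdis]
    have h1 := h W hZW
    have h2 := ih X hX hZW
    linarith

theorem mr_chi_pr {m : ℕ} [NeZero m] (χ : DirichletCharacter ℂ m) (ε : ℝ) (hε : 0 < ε) :
    ∃ L₀ : ℕ, ∀ L : ℕ, L₀ ≤ L → ∃ X₀ : ℕ, ∀ X : ℕ, X₀ ≤ X →
      ∑ A ∈ Finset.Icc 1 X, ‖∑ i ∈ Finset.range L, (lam (A + i) : ℂ) * χ ((A + i : ℕ) : ZMod m)‖ ^ 2
        ≤ ε * L ^ 2 * X := by
  classical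
  obtain ⟨κ, hκ, hκ1, hκε⟩ : ∃ κ : ℝ, 0 < κ ∧ κ ≤ 1 / 4 ∧ 64 * κ ^ 2 ≤ ε / 2 := by
    refine ⟨min (1 / 4) (ε / 64), by positivity, min_le_left _ _, ?_⟩
    have h1 : min (1 / 4) (ε / 64) ≤ 1 / 4 := min_le_left _ _
    have h2 : min (1 / 4) (ε / 64) ≤ ε / 64 := min_le_right _ _
    have h3 : 0 < min (1 / 4) (ε / 64) := by positivity
    nlinarith
  obtain ⟨L₀, hL₀, hL⟩ := sho_scale χ (ε := ε / 2) (by positivity) hκ hκ1 hκε
  refine ⟨L₀, ?_⟩
  intro L hLL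
  obtain ⟨Z₀, hZ₀, hZ⟩ := hL L hLL
  have hL1 : 1 ≤ L := by omega
  have hL0 : (0 : ℝ) < L := by exact_mod_cast hL1
  have he0 := Real.exp_pos (-κ)
  have he1 : Real.exp (-κ) < 1 := Real.exp_lt_one_iff.mpr (by linarith)
  obtain ⟨I, hI⟩ := exists_pow_lt_of_lt_one (show (0 : ℝ) < ε / 4 by positivity) he1
  set e := Real.exp (-κ) ^ I with hed
  have he : 0 < e := by positivity
  refine ⟨⌈Z₀ / e⌉₊ + ⌈4 / ε⌉₊ + 1, ?_⟩
  intro X hX
  have hX1 : Z₀ / e ≤ X := by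
    have h1 := Nat.le_ceil (Z₀ / e)
    have h2 : (⌈Z₀ / e⌉₊ : ℝ) ≤ X := by
      have : ⌈Z₀ / e⌉₊ ≤ X := by omega
      exact_mod_cast this
    linarith
  have hX2 : 4 / ε ≤ X := by
    have h1 := Nat.le_ceil (4 / ε)
    have h2 : (⌈4 / ε⌉₊ : ℝ) ≤ X := by
      have : ⌈4 / ε⌉₊ ≤ X := by omega
      exact_mod_cast this
    linarith
  have hX0 : (0 : ℝ) ≤ X := Nat.cast_nonneg X
  set f : ℕ → ℝ := fun A => ‖∑ n ∈ Finset.Ioc A (A + L), sho_a χ n‖ ^ 2 with hf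
  have hf0 : ∀ n, 0 ≤ f n := fun n => by simp only [hf]; positivity
  have hfL : ∀ n, f n ≤ (L : ℝ) ^ 2 := by
    intro n
    simp only [hf]
    apply pow_le_pow_left₀ (norm_nonneg _)
    refine (sho_sum_le χ _).trans ?_
    rw [Nat.card_Ioc]
    simp
  have hconv : ∑ A ∈ Finset.Icc 1 X,
      ‖∑ i ∈ Finset.range L, (lam (A + i) : ℂ) * χ ((A + i : ℕ) : ZMod m)‖ ^ 2 =
      ∑ B ∈ Finset.range X, f B := by
    have h1 : Finset.Icc 1 X = Finset.Ico 1 (X + 1) := by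
      ext n; rw [Finset.mem_Icc, Finset.mem_Ico]; omega
    rw [h1, Finset.sum_Ico_eq_sum_range]
    apply Finset.sum_congr (by simp)
    intro B _
    simp only [hf]
    congr 2
    have h2 : Finset.Ioc B (B + L) = Finset.Ico (1 + B) (1 + B + L) := by
      ext n; rw [Finset.mem_Ioc, Finset.mem_Ico]; omega
    rw [h2, Finset.sum_Ico_eq_sum_range]
    apply Finset.sum_congr (by simp)
    intro i _
    unfold sho_a
    rfl
  rw [hconv]
  have hsub : Finset.range X ⊆ (Finset.range (⌊e * X⌋₊ + 1)) ∪ sho_I (e * X) X := by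
    intro B hB
    rw [Finset.mem_range] at hB
    rw [Finset.mem_union, Finset.mem_range, sho_mem]
    rcases le_or_gt (B : ℝ) (e * X) with h1 | h1
    · left
      exact Nat.lt_succ_of_le (Nat.le_floor h1)
    · right
      refine ⟨h1, ?_⟩
      exact_mod_cast hB.le
  have htele := sho_tele (f := f) (ρ := ε / 2 * L ^ 2) hκ hZ I X hX0 (by
    rw [← hed]
    rw [div_le_iff₀ he] at hX1
    linarith)
  rw [← hed] at htele
  have hsum2 : ∑ B ∈ Finset.range (⌊e * X⌋₊ + 1), f B ≤ (e * X + 1) * L ^ 2 := by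
    calc ∑ B ∈ Finset.range (⌊e * X⌋₊ + 1), f B ≤
          ∑ B ∈ Finset.range (⌊e * X⌋₊ + 1), (L : ℝ) ^ 2 := Finset.sum_le_sum (fun B _ => hfL B)
      _ = ((⌊e * X⌋₊ : ℝ) + 1) * L ^ 2 := by simp
      _ ≤ (e * X + 1) * L ^ 2 := by
          apply mul_le_mul_of_nonneg_right _ (by positivity)
          have := Nat.floor_le (show 0 ≤ e * X by positivity)
          linarith
  have hX3 : 1 ≤ ε / 4 * X := by
    rw [div_le_iff₀ hε] at hX2
    linarith
  calc ∑ B ∈ Finset.range X, f B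
      ≤ ∑ B ∈ (Finset.range (⌊e * X⌋₊ + 1)) ∪ sho_I (e * X) X, f B :=
        Finset.sum_le_sum_of_subset_of_nonneg hsub (fun B _ _ => hf0 B)
    _ ≤ ∑ B ∈ Finset.range (⌊e * X⌋₊ + 1), f B + ∑ B ∈ sho_I (e * X) X, f B := by
        rw [← Finset.sum_union_inter]
        have : 0 ≤ ∑ B ∈ (Finset.range (⌊e * X⌋₊ + 1)) ∩ sho_I (e * X) X, f B :=
          Finset.sum_nonneg (fun B _ => hf0 B)
        linarith
    _ ≤ (e * X + 1) * L ^ 2 + ε / 2 * L ^ 2 * (X - e * X) := add_le_add hsum2 htele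
    _ ≤ (ε / 4 * X + ε / 4 * X) * L ^ 2 + ε / 2 * L ^ 2 * X := by
        apply add_le_add
        · apply mul_le_mul_of_nonneg_right _ (by positivity)
          have : e * X ≤ ε / 4 * X := mul_le_mul_of_nonneg_right hI.le hX0
          linarith
        · apply mul_le_mul_of_nonneg_left _ (by positivity)
          have : 0 ≤ e * X := by positivity
          linarith
    _ = ε * L ^ 2 * X := by ring

end Pool.Agent.PS

end SHO

namespace Pool.Agent.PS

theorem mr_chi : type_of% @mr_chi_pr := @mr_chi_pr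

end Pool.Agent.PS

/-! ### Block CHA -/

section CHA
/-!
# Block CHA: residue classes
-/

namespace Pool.Agent.PS

open Filter Topology MeasureTheory

/-- the sum over the multiples -/
theorem cha_mult {m : ℕ} (hm : 1 ≤ m) (N : ℕ) (f : ℕ → ℂ) :
    ∑ t ∈ Finset.range (m * N), (if m ∣ t then f t else 0) = ∑ i ∈ Finset.range N, f (m * i) := by
  induction N with
  | zero => simp
  | succ N ih =>
    rw [Finset.sum_range_succ, ← ih, mul_add, mul_one, Finset.sum_range_add]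
    congr 1
    obtain ⟨k, rfl⟩ : ∃ k, m = k + 1 := ⟨m - 1, by omega⟩
    rw [Finset.sum_range_succ']
    rw [Finset.sum_eq_zero, zero_add]
    · rw [add_zero, if_pos (Dvd.intro _ rfl)]
    · intro i hi
      rw [if_neg]
      intro h
      rw [Nat.dvd_add_right (Dvd.intro _ rfl)] at h
      have := Nat.le_of_dvd (by omega) h
      rw [Finset.mem_range] at hi
      omega

/-- the average over the characters -/
noncomputable def cha_T (m N A : ℕ) : ℝ :=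
  (1 / (m.totient : ℝ)) * ∑ᶠ χ : DirichletCharacter ℂ m,
    ‖∑ t ∈ Finset.range (m * N), (lam (A + t) : ℂ) * χ ((A + t : ℕ) : ZMod m)‖

theorem cha_T_eq {m : ℕ} [NeZero m] (N A : ℕ) : cha_T m N A =
    (1 / (m.totient : ℝ)) * ∑ χ : DirichletCharacter ℂ m,
    ‖∑ t ∈ Finset.range (m * N), (lam (A + t) : ℂ) * χ ((A + t : ℕ) : ZMod m)‖ := by
  unfold cha_T
  rw [finsum_eq_sum_of_fintype]

theorem cha_T_nonneg {m : ℕ} (hm : 1 ≤ m) (N A : ℕ) : 0 ≤ cha_T m N A := by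
  haveI : NeZero m := ⟨by omega⟩
  rw [cha_T_eq]
  have : 0 ≤ ∑ χ : DirichletCharacter ℂ m,
    ‖∑ t ∈ Finset.range (m * N), (lam (A + t) : ℂ) * χ ((A + t : ℕ) : ZMod m)‖ :=
    Finset.sum_nonneg fun _ _ => norm_nonneg _
  positivity

/-- orthogonality -/
theorem cha_orth {m : ℕ} (hm : 1 ≤ m) (N A : ℕ) (hA : A.Coprime m) :
    ‖∑ i ∈ Finset.range N, (lam (A + m * i) : ℂ)‖ ≤ cha_T m N A := by
  classical
  haveI : NeZero m := ⟨by omega⟩
  rw [cha_T_eq]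
  have hφ : 0 < m.totient := Nat.totient_pos.mpr (by omega)
  have hφ' : (0 : ℝ) < m.totient := by exact_mod_cast hφ
  have hunit : IsUnit ((A : ℕ) : ZMod m) := (ZMod.isUnit_iff_coprime A m).mpr hA
  have e1 : ∀ t : ℕ, (if m ∣ t then (lam (A + t) : ℂ) else 0) =
      (1 / (m.totient : ℂ)) * ∑ χ : DirichletCharacter ℂ m, χ ((A : ZMod m)⁻¹) *
        ((lam (A + t) : ℂ) * χ ((A + t : ℕ) : ZMod m)) := by
    intro t
    have h1 := DirichletCharacter.sum_char_inv_mul_char_eq ℂ hunit ((A + t : ℕ) : ZMod m)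
    have h2 : ∑ χ : DirichletCharacter ℂ m, χ ((A : ZMod m)⁻¹) *
        ((lam (A + t) : ℂ) * χ ((A + t : ℕ) : ZMod m)) = (lam (A + t) : ℂ) *
        ∑ χ : DirichletCharacter ℂ m, χ ((A : ZMod m)⁻¹) * χ ((A + t : ℕ) : ZMod m) := by
      rw [Finset.mul_sum]
      refine Finset.sum_congr rfl fun χ _ => by ring
    rw [h2, h1]
    have h3 : ((A : ℕ) : ZMod m) = ((A + t : ℕ) : ZMod m) ↔ m ∣ t := by
      push_cast
      rw [left_eq_add, ZMod.natCast_eq_zero_iff]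
    by_cases ht : m ∣ t
    · rw [if_pos ht, if_pos (h3.mpr ht)]
      have : (m.totient : ℂ) ≠ 0 := by exact_mod_cast hφ.ne'
      field_simp
    · rw [if_neg ht, if_neg (fun h => ht (h3.mp h))]
      simp
  have e2 : ∑ i ∈ Finset.range N, (lam (A + m * i) : ℂ) =
      (1 / (m.totient : ℂ)) * ∑ χ : DirichletCharacter ℂ m, χ ((A : ZMod m)⁻¹) *
        ∑ t ∈ Finset.range (m * N), ((lam (A + t) : ℂ) * χ ((A + t : ℕ) : ZMod m)) := by
    rw [← cha_mult hm N (fun t => (lam (A + t) : ℂ)), Finset.sum_congr rfl fun t _ => e1 t,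
      ← Finset.mul_sum, Finset.sum_comm]
    congr 1
    refine Finset.sum_congr rfl fun χ _ => ?_
    rw [Finset.mul_sum]
  rw [e2, norm_mul]
  have e3 : ‖(1 / (m.totient : ℂ))‖ = 1 / (m.totient : ℝ) := by
    rw [norm_div, norm_one, Complex.norm_natCast]
  rw [e3]
  gcongr
  refine (norm_sum_le _ _).trans (Finset.sum_le_sum fun χ _ => ?_)
  rw [norm_mul]
  calc ‖χ ((A : ZMod m)⁻¹)‖ * ‖∑ t ∈ Finset.range (m * N),
        (lam (A + t) : ℂ) * χ ((A + t : ℕ) : ZMod m)‖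
      ≤ 1 * ‖∑ t ∈ Finset.range (m * N), (lam (A + t) : ℂ) * χ ((A + t : ℕ) : ZMod m)‖ := by
        gcongr
        exact DirichletCharacter.norm_le_one χ _
    _ = _ := one_mul _

/-- mean value of the averages over the characters -/
theorem cha_mean {m : ℕ} (hm : 1 ≤ m) (ε : ℝ) (hε : 0 < ε) : ∃ N₀ : ℕ, ∀ N : ℕ, N₀ ≤ N →
    ∃ X₀ : ℕ, ∀ X : ℕ, X₀ ≤ X → ∑ A ∈ Finset.Icc 1 X, cha_T m N A ≤ ε * N * X := by
  classical
  haveI : NeZero m := ⟨by omega⟩
  have hmR : (0 : ℝ) < m := by exact_mod_cast hm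
  have H : ∀ χ : DirichletCharacter ℂ m, ∃ L₀ : ℕ, ∀ L : ℕ, L₀ ≤ L → ∃ X₀ : ℕ, ∀ X : ℕ, X₀ ≤ X →
      ∑ A ∈ Finset.Icc 1 X, ‖∑ i ∈ Finset.range L, (lam (A + i) : ℂ) *
        χ ((A + i : ℕ) : ZMod m)‖ ^ 2 ≤ (ε / m) ^ 2 * L ^ 2 * X :=
    fun χ => mr_chi χ ((ε / m) ^ 2) (by positivity)
  choose L₀ hL₀ using H
  refine ⟨Finset.univ.sup L₀, fun N hN => ?_⟩
  have H2 : ∀ χ : DirichletCharacter ℂ m, ∃ X₀ : ℕ, ∀ X : ℕ, X₀ ≤ X →
      ∑ A ∈ Finset.Icc 1 X, ‖∑ i ∈ Finset.range (m * N), (lam (A + i) : ℂ) *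
        χ ((A + i : ℕ) : ZMod m)‖ ^ 2 ≤ (ε / m) ^ 2 * ((m * N : ℕ) : ℝ) ^ 2 * X := by
    intro χ
    refine hL₀ χ (m * N) ?_
    calc L₀ χ ≤ Finset.univ.sup L₀ := Finset.le_sup (Finset.mem_univ χ)
      _ ≤ N := hN
      _ ≤ m * N := Nat.le_mul_of_pos_left N (by omega)
  choose X₀ hX₀ using H2
  refine ⟨Finset.univ.sup X₀, fun X hX => ?_⟩
  have key : ∀ χ : DirichletCharacter ℂ m, ∑ A ∈ Finset.Icc 1 X,
      ‖∑ i ∈ Finset.range (m * N), (lam (A + i) : ℂ) * χ ((A + i : ℕ) : ZMod m)‖ ≤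
        ε * N * X := by
    intro χ
    have h1 := hX₀ χ X ((Finset.le_sup (Finset.mem_univ χ)).trans hX)
    have h2 := sq_sum_le_card_mul_sum_sq (s := Finset.Icc 1 X) (f := fun A : ℕ =>
      ‖∑ i ∈ Finset.range (m * N), (lam (A + i) : ℂ) * χ ((A + i : ℕ) : ZMod m)‖)
    rw [Nat.card_Icc, Nat.add_sub_cancel] at h2
    have h3 : (∑ A ∈ Finset.Icc 1 X,
        ‖∑ i ∈ Finset.range (m * N), (lam (A + i) : ℂ) * χ ((A + i : ℕ) : ZMod m)‖) ^ 2 ≤
        (ε * N * X) ^ 2 := by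
      refine h2.trans ?_
      calc (X : ℝ) * ∑ A ∈ Finset.Icc 1 X,
            ‖∑ i ∈ Finset.range (m * N), (lam (A + i) : ℂ) * χ ((A + i : ℕ) : ZMod m)‖ ^ 2
          ≤ (X : ℝ) * ((ε / m) ^ 2 * ((m * N : ℕ) : ℝ) ^ 2 * X) := by gcongr
        _ = (ε * N * X) ^ 2 := by
            push_cast
            field_simp
    exact abs_le_of_sq_le_sq' h3 (by positivity) |>.2
  have hφ : 0 < m.totient := Nat.totient_pos.mpr (by omega)
  have hφ' : (0 : ℝ) < m.totient := by exact_mod_cast hφ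
  simp_rw [cha_T_eq]
  rw [← Finset.mul_sum, Finset.sum_comm]
  have hcard : (Finset.univ : Finset (DirichletCharacter ℂ m)).card = m.totient := by
    rw [Finset.card_univ, ← Nat.card_eq_fintype_card]
    exact DirichletCharacter.card_eq_totient_of_hasEnoughRootsOfUnity ℂ m
  calc 1 / (m.totient : ℝ) * ∑ χ : DirichletCharacter ℂ m, ∑ A ∈ Finset.Icc 1 X,
        ‖∑ t ∈ Finset.range (m * N), (lam (A + t) : ℂ) * χ ((A + t : ℕ) : ZMod m)‖
      ≤ 1 / (m.totient : ℝ) * ∑ χ : DirichletCharacter ℂ m, ε * N * X := by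
        gcongr with χ _
        exact key χ
    _ = ε * N * X := by
        rw [Finset.sum_const, hcard, nsmul_eq_mul]
        field_simp

/-- reduction to coprime classes -/
theorem cha_gcd {q : ℕ} (hq : 1 ≤ q) (N A : ℕ) :
    ‖∑ i ∈ Finset.range N, (lam (A + q * i) : ℂ)‖ ≤
      ∑ g ∈ q.divisors, (if g ∣ A then cha_T (q / g) N (A / g) else 0) := by
  classical
  have hnn : ∀ g ∈ q.divisors, 0 ≤ (if g ∣ A then cha_T (q / g) N (A / g) else 0) := by
    intro g hg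
    have hgq := Nat.dvd_of_mem_divisors hg
    split_ifs
    · refine cha_T_nonneg ?_ _ _
      exact Nat.div_pos (Nat.le_of_dvd (by omega) hgq) (Nat.pos_of_dvd_of_pos hgq (by omega))
    · exact le_refl _
  set g := Nat.gcd A q with hg
  have hgA : g ∣ A := Nat.gcd_dvd_left A q
  have hgq : g ∣ q := Nat.gcd_dvd_right A q
  have hgpos : 0 < g := Nat.gcd_pos_of_pos_right A (by omega)
  have hmem : g ∈ q.divisors := Nat.mem_divisors.mpr ⟨hgq, by omega⟩
  refine le_trans ?_ (Finset.single_le_sum hnn hmem)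
  rw [if_pos hgA]
  have hm : 1 ≤ q / g := Nat.div_pos (Nat.le_of_dvd (by omega) hgq) hgpos
  have hcop : (A / g).Coprime (q / g) := Nat.coprime_div_gcd_div_gcd hgpos
  refine le_trans (le_of_eq ?_) (cha_orth hm N (A / g) hcop)
  have e1 : ∀ i, A + q * i = g * (A / g + q / g * i) := by
    intro i
    rw [mul_add, ← mul_assoc, Nat.mul_div_cancel' hgA, Nat.mul_div_cancel' hgq]
  have e2 : ∑ i ∈ Finset.range N, (lam (A + q * i) : ℂ) =
      (lam g : ℂ) * ∑ i ∈ Finset.range N, (lam (A / g + q / g * i) : ℂ) := by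
    rw [Finset.mul_sum]
    refine Finset.sum_congr rfl fun i _ => ?_
    rw [e1 i, lam_mul]
    push_cast
    ring
  rw [e2, norm_mul]
  have e3 : ‖(lam g : ℂ)‖ = 1 := by
    rw [Complex.norm_real, Real.norm_eq_abs]
    rcases lam_pm g hgpos.ne' with h | h <;> rw [h] <;> simp
  rw [e3, one_mul]

theorem cha_sum_dvd {g : ℕ} (hg : 1 ≤ g) (X : ℕ) (F : ℕ → ℝ) :
    ∑ A ∈ Finset.Icc 1 X, (if g ∣ A then F (A / g) else 0) =
      ∑ A ∈ Finset.Icc 1 (X / g), F A := by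
  classical
  rw [← Finset.sum_filter]
  refine Finset.sum_nbij' (fun A => A / g) (fun A => g * A) ?_ ?_ ?_ ?_ ?_
  · intro A hA
    rw [Finset.mem_filter, Finset.mem_Icc] at hA
    obtain ⟨⟨h1, h2⟩, k, rfl⟩ := hA
    rw [Nat.mul_div_cancel_left k (by omega), Finset.mem_Icc]
    constructor
    · by_contra h
      have : k = 0 := by omega
      subst this
      omega
    · rw [Nat.le_div_iff_mul_le (by omega)]
      rw [mul_comm]; exact h2
  · intro A hA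
    rw [Finset.mem_Icc] at hA
    rw [Finset.mem_filter, Finset.mem_Icc]
    refine ⟨⟨?_, ?_⟩, Dvd.intro _ rfl⟩
    · have := Nat.mul_le_mul hg hA.1
      omega
    · have := (Nat.le_div_iff_mul_le (by omega : 0 < g)).mp hA.2
      rw [mul_comm]; exact this
  · intro A hA
    rw [Finset.mem_filter] at hA
    exact Nat.mul_div_cancel' hA.2
  · intro A _
    exact Nat.mul_div_cancel_left A (by omega)
  · intro A _
    rfl

/-- the positive part -/
theorem cha_pos (q : ℕ) (hq : 1 ≤ q) (η : ℝ) (hη : 0 < η) : ∃ N₀ : ℕ, ∀ N : ℕ, N₀ ≤ N →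
    ∃ X₀ : ℕ, ∀ X : ℕ, X₀ ≤ X → ∑ A ∈ Finset.Icc 1 X,
      ‖∑ i ∈ Finset.range N, (lam (A + q * i) : ℂ)‖ ≤ η * N * X := by
  classical
  have hqR : (0 : ℝ) < q := by exact_mod_cast hq
  have hd : ∀ g : ℕ, ∃ N₀ : ℕ, g ∈ q.divisors → ∀ N : ℕ, N₀ ≤ N →
      ∃ X₀ : ℕ, ∀ X : ℕ, X₀ ≤ X → ∑ A ∈ Finset.Icc 1 X, cha_T (q / g) N A ≤ η / q * N * X := by
    intro g
    by_cases hg : g ∈ q.divisors
    · have hgq := Nat.dvd_of_mem_divisors hg
      have hgp := Nat.pos_of_dvd_of_pos hgq (by omega)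
      obtain ⟨N₀, h⟩ := cha_mean (m := q / g)
        (Nat.div_pos (Nat.le_of_dvd (by omega) hgq) hgp) (η / q) (by positivity)
      exact ⟨N₀, fun _ => h⟩
    · exact ⟨0, fun h => absurd h hg⟩
  choose N₀ hN₀ using hd
  refine ⟨q.divisors.sup N₀, fun N hN => ?_⟩
  have hd2 : ∀ g : ℕ, ∃ X₀ : ℕ, g ∈ q.divisors → ∀ X : ℕ, X₀ ≤ X →
      ∑ A ∈ Finset.Icc 1 X, cha_T (q / g) N A ≤ η / q * N * X := by
    intro g
    by_cases hg : g ∈ q.divisors
    · obtain ⟨X₀, h⟩ := hN₀ g hg N ((Finset.le_sup hg).trans hN)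
      exact ⟨X₀, fun _ => h⟩
    · exact ⟨0, fun h => absurd h hg⟩
  choose X₀ hX₀ using hd2
  refine ⟨q * (q.divisors.sup X₀ + 1), fun X hX => ?_⟩
  calc ∑ A ∈ Finset.Icc 1 X, ‖∑ i ∈ Finset.range N, (lam (A + q * i) : ℂ)‖
      ≤ ∑ A ∈ Finset.Icc 1 X, ∑ g ∈ q.divisors,
          (if g ∣ A then cha_T (q / g) N (A / g) else 0) :=
        Finset.sum_le_sum fun A _ => cha_gcd hq N A
    _ = ∑ g ∈ q.divisors, ∑ A ∈ Finset.Icc 1 (X / g), cha_T (q / g) N A := by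
        rw [Finset.sum_comm]
        refine Finset.sum_congr rfl fun g hg => ?_
        have hgq := Nat.dvd_of_mem_divisors hg
        have hgp := Nat.pos_of_dvd_of_pos hgq (by omega)
        exact cha_sum_dvd hgp X (fun A => cha_T (q / g) N A)
    _ ≤ ∑ g ∈ q.divisors, η / q * N * X := by
        refine Finset.sum_le_sum fun g hg => ?_
        have hgq := Nat.dvd_of_mem_divisors hg
        have hgp := Nat.pos_of_dvd_of_pos hgq (by omega)
        have hgle := Nat.le_of_dvd (by omega) hgq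
        have h1 : X₀ g ≤ X / g := by
          rw [Nat.le_div_iff_mul_le hgp]
          calc X₀ g * g ≤ (q.divisors.sup X₀ + 1) * q := by
                gcongr
                exact (Finset.le_sup hg).trans (Nat.le_succ _)
            _ = q * (q.divisors.sup X₀ + 1) := by ring
            _ ≤ X := hX
        refine (hX₀ g hg (X / g) h1).trans ?_
        have : ((X / g : ℕ) : ℝ) ≤ X := by
          exact_mod_cast Nat.div_le_self X g
        gcongr
    _ = (q.divisors.card : ℝ) * (η / q * N * X) := by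
        rw [Finset.sum_const, nsmul_eq_mul]
    _ ≤ (q : ℝ) * (η / q * N * X) := by
        gcongr
        exact_mod_cast Nat.card_divisors_le_self q
    _ = η * N * X := by field_simp

/-! ### all integers -/

theorem cha_bq_nat (q N A : ℕ) : bq q 0 N (A : ℤ) =
    ‖∑ i ∈ Finset.range N, (lam (A + q * i) : ℂ)‖ / N := by
  unfold bq
  congr 2
  refine Finset.sum_congr rfl fun i _ => ?_
  have h1 : ez (0 * (i : ℝ)) = 1 := by unfold ez; simp
  have h2 : (A : ℤ) + (q : ℤ) * (i : ℤ) = ((A + q * i : ℕ) : ℤ) := by push_cast; ring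
  rw [h1, one_mul, h2, lz_nat]

theorem cha_bq_le_one (q : ℤ) (N : ℕ) (A : ℤ) : bq q 0 N A ≤ 1 := by
  unfold bq
  rcases Nat.eq_zero_or_pos N with h | h
  · subst h; simp
  have hN : (0 : ℝ) < N := by exact_mod_cast h
  rw [div_le_one hN]
  calc ‖∑ i ∈ Finset.range N, ez (0 * i) * (lz (A + q * i) : ℂ)‖
      ≤ ∑ i ∈ Finset.range N, (1 : ℝ) := by
        refine norm_sum_le_of_le _ fun i _ => ?_
        rw [norm_mul, ez_norm, one_mul]
        exact lz_norm _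
    _ = N := by simp

theorem cha_bq_nonneg (q : ℤ) (N : ℕ) (A : ℤ) : 0 ≤ bq q 0 N A := by
  unfold bq
  positivity

/-- reflection -/
theorem cha_bq_neg (q : ℤ) (N : ℕ) (B : ℤ) :
    bq q 0 N (-B) = bq q 0 N (B - q * ((N : ℤ) - 1)) := by
  unfold bq
  congr 2
  rw [← Finset.sum_range_reflect]
  refine Finset.sum_congr rfl fun i hi => ?_
  rw [Finset.mem_range] at hi
  have h1 : ∀ a : ℕ, ez (0 * (a : ℝ)) = 1 := by intro a; unfold ez; simp
  rw [h1, h1, one_mul, one_mul]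
  have h2 : ((N - 1 - i : ℕ) : ℤ) = (N : ℤ) - 1 - i := by omega
  rw [h2, ← lz_neg]
  congr 2
  ring

theorem cha_split (X : ℕ) (F : ℤ → ℝ) : ∑ A ∈ Iz X, F A =
    F 0 + ∑ A ∈ Finset.Icc 1 X, F (A : ℤ) + ∑ B ∈ Finset.Icc 1 X, F (-(B : ℤ)) := by
  classical
  have h : Iz X = ({0} ∪ (Finset.Icc 1 X).image (fun A : ℕ => (A : ℤ))) ∪
      (Finset.Icc 1 X).image (fun B : ℕ => -(B : ℤ)) := by
    ext a
    simp only [Iz, Finset.mem_Icc, Finset.mem_union, Finset.mem_singleton, Finset.mem_image]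
    constructor
    · rintro ⟨h1, h2⟩
      rcases lt_trichotomy a 0 with h | h | h
      · right
        exact ⟨a.natAbs, ⟨by omega, by omega⟩, by omega⟩
      · left; left; exact h
      · left; right
        exact ⟨a.natAbs, ⟨by omega, by omega⟩, by omega⟩
    · rintro ((h | ⟨b, hb, rfl⟩) | ⟨b, hb, rfl⟩) <;> omega
  rw [h, Finset.sum_union, Finset.sum_union, Finset.sum_singleton, Finset.sum_image,
    Finset.sum_image]
  · intro a _ b _ hab
    simpa using hab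
  · intro a _ b _ hab
    simpa using hab
  · rw [Finset.disjoint_left]
    intro a ha hb
    simp only [Finset.mem_singleton, Finset.mem_image, Finset.mem_Icc] at ha hb
    omega
  · rw [Finset.disjoint_left]
    intro a ha hb
    simp only [Finset.mem_union, Finset.mem_singleton, Finset.mem_image, Finset.mem_Icc] at ha hb
    obtain ⟨b, hb1, hb2⟩ := hb
    rcases ha with ha | ⟨c, hc1, hc2⟩
    · omega
    · omega

theorem cha_shift (X D : ℕ) (F : ℤ → ℝ) (hF : ∀ a, 0 ≤ F a) (hF1 : ∀ a, F a ≤ 1) :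
    ∑ B ∈ Finset.Icc 1 X, F ((B : ℤ) - D) ≤ ∑ A ∈ Finset.Icc 1 X, F (A : ℤ) + D := by
  classical
  have h1 : ∑ B ∈ Finset.Icc 1 X, F ((B : ℤ) - D) =
      ∑ B ∈ (Finset.Icc 1 X).filter (fun B => B ≤ D), F ((B : ℤ) - D) +
      ∑ B ∈ (Finset.Icc 1 X).filter (fun B => ¬ B ≤ D), F ((B : ℤ) - D) :=
    (Finset.sum_filter_add_sum_filter_not _ _ _).symm
  have h2 : ∑ B ∈ (Finset.Icc 1 X).filter (fun B => B ≤ D), F ((B : ℤ) - D) ≤ D := by
    calc ∑ B ∈ (Finset.Icc 1 X).filter (fun B => B ≤ D), F ((B : ℤ) - D)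
        ≤ ∑ B ∈ (Finset.Icc 1 X).filter (fun B => B ≤ D), (1 : ℝ) :=
          Finset.sum_le_sum fun B _ => hF1 _
      _ = (((Finset.Icc 1 X).filter (fun B => B ≤ D)).card : ℝ) := by simp
      _ ≤ ((Finset.Icc 1 D).card : ℝ) := by
          have : (Finset.Icc 1 X).filter (fun B => B ≤ D) ⊆ Finset.Icc 1 D := by
            intro B hB
            rw [Finset.mem_filter, Finset.mem_Icc] at hB
            rw [Finset.mem_Icc]
            exact ⟨hB.1.1, hB.2⟩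
          exact_mod_cast Finset.card_le_card this
      _ = D := by simp
  have h3 : ∑ B ∈ (Finset.Icc 1 X).filter (fun B => ¬ B ≤ D), F ((B : ℤ) - D) ≤
      ∑ A ∈ Finset.Icc 1 X, F (A : ℤ) := by
    have h4 : ∑ B ∈ (Finset.Icc 1 X).filter (fun B => ¬ B ≤ D), F ((B : ℤ) - D) =
        ∑ A ∈ ((Finset.Icc 1 X).filter (fun B => ¬ B ≤ D)).image (fun B => B - D),
          F (A : ℤ) := by
      rw [Finset.sum_image]
      · refine Finset.sum_congr rfl fun B hB => ?_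
        rw [Finset.mem_filter, Finset.mem_Icc] at hB
        congr 1
        omega
      · intro a ha b hb hab
        simp only [Finset.coe_filter, Set.mem_setOf_eq, Finset.mem_Icc] at ha hb
        dsimp only at hab
        omega
    rw [h4]
    refine Finset.sum_le_sum_of_subset_of_nonneg ?_ (fun _ _ _ => hF _)
    intro A hA
    rw [Finset.mem_image] at hA
    obtain ⟨B, hB, rfl⟩ := hA
    rw [Finset.mem_filter, Finset.mem_Icc] at hB
    rw [Finset.mem_Icc]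
    omega
  linarith

theorem mr_ap_pr (q : ℕ) (hq : 1 ≤ q) (η : ℝ) (hη : 0 < η) : ∃ N₀ : ℕ, ∀ N : ℕ, N₀ ≤ N →
    ∃ X₀ : ℕ, ∀ X : ℕ, X₀ ≤ X → ∑ A ∈ Iz X, bq q 0 N A ≤ η * X := by
  obtain ⟨N₀, h⟩ := cha_pos q hq (η / 4) (by positivity)
  refine ⟨N₀ + 1, fun N hN => ?_⟩
  obtain ⟨X₀, hX₀⟩ := h N (by omega)
  refine ⟨X₀ + ⌈(1 + (q * N : ℕ) : ℝ) * (2 / η)⌉₊, fun X hX => ?_⟩
  have hNp : (0 : ℝ) < N := by
    have : 0 < N := by omega
    exact_mod_cast this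
  have hP : ∑ A ∈ Finset.Icc 1 X, bq q 0 N ((A : ℕ) : ℤ) ≤ η / 4 * X := by
    have h1 := hX₀ X (by omega)
    simp_rw [cha_bq_nat]
    rw [← Finset.sum_div, div_le_iff₀ hNp]
    linarith
  have hM : ∑ B ∈ Finset.Icc 1 X, bq q 0 N (-((B : ℕ) : ℤ)) ≤ η / 4 * X + (q * N : ℕ) := by
    have h1 : ∀ B : ℕ, bq q 0 N (-(B : ℤ)) = bq q 0 N ((B : ℤ) - ((q * (N - 1) : ℕ) : ℤ)) := by
      intro B
      rw [cha_bq_neg]
      congr 1
      have : ((q * (N - 1) : ℕ) : ℤ) = (q : ℤ) * ((N : ℤ) - 1) := by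
        rw [Nat.cast_mul, Nat.cast_sub (by omega)]
        simp
      rw [this]
    simp_rw [h1]
    have h2 := cha_shift X (q * (N - 1)) (fun a => bq q 0 N a) (fun a => cha_bq_nonneg _ _ _)
      (fun a => cha_bq_le_one _ _ _)
    have h3 : ((q * (N - 1) : ℕ) : ℝ) ≤ ((q * N : ℕ) : ℝ) := by
      exact_mod_cast Nat.mul_le_mul_left q (Nat.sub_le N 1)
    linarith
  have h0 := cha_bq_le_one q N 0
  rw [cha_split]
  have hXr : (1 + (q * N : ℕ) : ℝ) * (2 / η) ≤ X := by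
    calc (1 + (q * N : ℕ) : ℝ) * (2 / η) ≤ ⌈(1 + (q * N : ℕ) : ℝ) * (2 / η)⌉₊ := Nat.le_ceil _
      _ ≤ X := by
          have : ⌈(1 + (q * N : ℕ) : ℝ) * (2 / η)⌉₊ ≤ X := by omega
          exact_mod_cast this
  have h5 : (1 + (q * N : ℕ) : ℝ) ≤ η / 2 * X := by
    calc (1 + (q * N : ℕ) : ℝ) = η / 2 * ((1 + (q * N : ℕ) : ℝ) * (2 / η)) := by field_simp
      _ ≤ η / 2 * X := by gcongr
  linarith

end Pool.Agent.PS

end CHA

namespace Pool.Agent.PS

theorem mr_ap : type_of% @mr_ap_pr := @mr_ap_pr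

end Pool.Agent.PS
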