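import Mathlib
import Pool.Agent.Lib_helper1.PSF.M5

/-! ### Block MIN -/

section MIN
/-!
# MIN: minor frequencies (Katai's argument)
-/

namespace Pool.Agent.PS

open Filter Topology MeasureTheory

theorem min_primes (W : ℝ) : ∃ B : Finset ℕ, Pset B ∧ W ≤ rs B := by
  classical
  by_contra hcon
  push Not at hcon
  apply not_summable_one_div_on_primes
  refine summable_of_sum_le (c := W) ?_ ?_
  · intro n
    unfold Set.indicator
    split_ifs
    · positivity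
    · exact le_rfl
  · intro u
    have h1 : Pset (u.filter (fun p => p.Prime)) := fun p hp => (Finset.mem_filter.1 hp).2
    have h2 := (hcon _ h1).le
    refine le_trans (le_of_eq ?_) h2
    unfold rs
    rw [Finset.sum_filter]
    apply Finset.sum_congr rfl
    intro n _
    unfold Set.indicator
    by_cases hn : n.Prime <;> simp [hn]

theorem min_sin {x : ℝ} (h0 : 0 ≤ x) (h1 : x ≤ 1 / 2) : 2 * x ≤ Real.sin (Real.pi * x) := by
  have hp := Real.pi_pos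
  have h := Real.mul_le_sin (x := Real.pi * x) (by positivity) (by nlinarith)
  have e : 2 / Real.pi * (Real.pi * x) = 2 * x := by field_simp
  rwa [e] at h

theorem min_ezsub (β : ℝ) : ∃ p : ℤ, 4 * |β - p| ≤ ‖ez β - 1‖ := by
  refine ⟨round β, ?_⟩
  set t : ℝ := β - round β with ht
  have habs : |t| ≤ 1 / 2 := abs_sub_round β
  have e1 : ez β = ez t := by
    have : β = t + (round β : ℤ) := by rw [ht]; ring
    rw [this, ez_add, ez_int, mul_one]
  have e2 : ez t = Complex.exp (Complex.I * ((2 * Real.pi * t : ℝ) : ℂ)) := by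
    unfold ez; rw [mul_comm]
  rw [e1, e2, Complex.norm_exp_I_mul_ofReal_sub_one]
  have e3 : 2 * Real.pi * t / 2 = Real.pi * t := by ring
  rw [e3, Real.norm_eq_abs, abs_mul, abs_two]
  have e4 : |Real.sin (Real.pi * t)| = |Real.sin (Real.pi * |t|)| := by
    rcases abs_cases t with ⟨h, _⟩ | ⟨h, _⟩ <;> rw [h]
    rw [mul_neg, Real.sin_neg, abs_neg]
  rw [e4]
  have h2 := min_sin (abs_nonneg t) habs
  have h3 := le_abs_self (Real.sin (Real.pi * |t|))
  linarith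

theorem min_ezmul (β : ℝ) (n : ℕ) : ez (β * n) = ez β ^ n := by
  unfold ez
  rw [← Complex.exp_nat_mul]
  congr 1
  push_cast
  ring

theorem min_geo (β δ : ℝ) (hδ : 0 < δ) (h : ∀ p : ℤ, δ ≤ |β - p|) (M : ℕ) :
    ‖∑ m ∈ Finset.range M, ez (β * m)‖ ≤ 1 / (2 * δ) := by
  obtain ⟨p, hp⟩ := min_ezsub β
  have h1 := h p
  have h2 : 0 < ‖ez β - 1‖ := by linarith
  have h3 : (∑ m ∈ Finset.range M, ez (β * m)) * (ez β - 1) = ez β ^ M - 1 := by
    rw [← geom_sum_mul]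
    congr 1
    exact Finset.sum_congr rfl (fun m _ => min_ezmul β m)
  have h4 : ‖∑ m ∈ Finset.range M, ez (β * m)‖ * ‖ez β - 1‖ ≤ 2 := by
    rw [← norm_mul, h3]
    refine (norm_sub_le _ _).trans ?_
    rw [norm_pow, ez_norm, one_pow, norm_one]
    norm_num
  rw [le_div_iff₀ (by positivity)]
  have h5 := norm_nonneg (∑ m ∈ Finset.range M, ez (β * m))
  nlinarith

theorem min_abel (a b : ℕ → ℂ) (M : ℕ) (G U V : ℝ) (hG0 : 0 ≤ G) (hU0 : 0 ≤ U) (hV0 : 0 ≤ V)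
    (hG : ∀ n, ‖∑ i ∈ Finset.range n, a i‖ ≤ G) (hU : ∀ i, ‖b i‖ ≤ U)
    (hV : ∀ i, ‖b (i + 1) - b i‖ ≤ V) :
    ‖∑ i ∈ Finset.range M, b i * a i‖ ≤ G * (U + V * M) := by
  have h := Finset.sum_range_by_parts b a M
  simp only [smul_eq_mul] at h
  rw [h]
  refine (norm_sub_le _ _).trans ?_
  have h1 : ‖b (M - 1) * ∑ i ∈ Finset.range M, a i‖ ≤ U * G := by
    rw [norm_mul]
    exact mul_le_mul (hU _) (hG _) (norm_nonneg _) hU0
  have h2 : ‖∑ i ∈ Finset.range (M - 1), (b (i + 1) - b i) * ∑ j ∈ Finset.range (i + 1), a j‖ ≤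
      M * (V * G) := by
    calc _ ≤ ∑ i ∈ Finset.range (M - 1), V * G := by
          apply norm_sum_le_of_le
          intro i _
          rw [norm_mul]
          exact mul_le_mul (hV _) (hG _) (norm_nonneg _) hV0
      _ = ((M - 1 : ℕ) : ℝ) * (V * G) := by rw [Finset.sum_const, Finset.card_range, nsmul_eq_mul]
      _ ≤ M * (V * G) := by
          have : ((M - 1 : ℕ) : ℝ) ≤ M := by exact_mod_cast Nat.sub_le M 1
          exact mul_le_mul_of_nonneg_right this (by positivity)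
  have h3 : U * G + M * (V * G) = G * (U + V * M) := by ring
  linarith

theorem min_step (K : ℕ → ℂ) (hK : ∀ n, ‖K (n + 1) - K n‖ ≤ 2) (n k : ℕ) :
    ‖K (n + k) - K n‖ ≤ 2 * k := by
  induction k with
  | zero => simp
  | succ k ih =>
    have e : K (n + (k + 1)) - K n = (K (n + k + 1) - K (n + k)) + (K (n + k) - K n) := by
      rw [← add_assoc]; ring
    rw [e]
    refine (norm_add_le _ _).trans ?_
    have := hK (n + k)
    push_cast
    linarith

theorem min_shift (f : ℕ → ℂ) (M : ℕ) :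
    ∑ m ∈ Finset.Icc 1 M, f m = ∑ i ∈ Finset.range M, f (i + 1) := by
  induction M with
  | zero => simp
  | succ M ih => rw [Finset.sum_Icc_succ_top (by omega), ih, Finset.sum_range_succ]

/-- off-diagonal sums -/
theorem min_off (K : ℕ → ℂ) (L : ℝ) (hL : 0 ≤ L) (hK0 : ∀ n, ‖K n‖ ≤ L)
    (hK : ∀ n, ‖K (n + 1) - K n‖ ≤ 2) (α δ : ℝ) (hδ : 0 < δ) (p q P : ℕ) (hp : p ≤ P) (hq : q ≤ P)
    (hpq : ∀ k : ℤ, δ ≤ |α * ((p : ℝ) - q) - k|) (M : ℕ) :
    ‖∑ m ∈ Finset.Icc 1 M, (ez (α * (p * m : ℕ)) * K (p * m)) *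
      (starRingEnd ℂ) (ez (α * (q * m : ℕ)) * K (q * m))‖ ≤
      1 / (2 * δ) * (L * L + 4 * P * L * M) := by
  have e1 : ∑ m ∈ Finset.Icc 1 M, (ez (α * (p * m : ℕ)) * K (p * m)) *
      (starRingEnd ℂ) (ez (α * (q * m : ℕ)) * K (q * m)) =
      ∑ i ∈ Finset.range M, (K (p * (i + 1)) * (starRingEnd ℂ) (K (q * (i + 1)))) *
        (ez (α * ((p : ℝ) - q)) * ez (α * ((p : ℝ) - q) * i)) := by
    rw [min_shift]
    apply Finset.sum_congr rfl
    intro i _
    rw [map_mul, ez_conj, ← ez_add]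
    have e : ez (α * (p * (i + 1) : ℕ)) * ez (-(α * (q * (i + 1) : ℕ))) =
        ez (α * ((p : ℝ) - q) + α * ((p : ℝ) - q) * i) := by
      rw [← ez_add]
      congr 1
      push_cast
      ring
    rw [← e]
    ring
  rw [e1]
  have hP : (p : ℝ) ≤ P := by exact_mod_cast hp
  have hQ : (q : ℝ) ≤ P := by exact_mod_cast hq
  have h := min_abel (fun i : ℕ => ez (α * ((p : ℝ) - q)) * ez (α * ((p : ℝ) - q) * i))
    (fun i => K (p * (i + 1)) * (starRingEnd ℂ) (K (q * (i + 1)))) M (1 / (2 * δ)) (L * L)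
    (4 * P * L) (by positivity) (by positivity) (by positivity) ?_ ?_ ?_
  · exact h
  · intro n
    rw [← Finset.mul_sum, norm_mul, ez_norm, one_mul]
    exact min_geo _ δ hδ hpq n
  · intro i
    rw [norm_mul, RCLike.norm_conj]
    exact mul_le_mul (hK0 _) (hK0 _) (norm_nonneg _) hL
  · intro i
    have e2 : K (p * (i + 1 + 1)) * (starRingEnd ℂ) (K (q * (i + 1 + 1))) -
        K (p * (i + 1)) * (starRingEnd ℂ) (K (q * (i + 1))) =
        (K (p * (i + 1) + p) - K (p * (i + 1))) * (starRingEnd ℂ) (K (q * (i + 1 + 1))) +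
        K (p * (i + 1)) * (starRingEnd ℂ) (K (q * (i + 1) + q) - K (q * (i + 1))) := by
      have e3 : p * (i + 1) + p = p * (i + 1 + 1) := by ring
      have e4 : q * (i + 1) + q = q * (i + 1 + 1) := by ring
      rw [e3, e4, map_sub]
      ring
    rw [e2]
    refine (norm_add_le _ _).trans ?_
    rw [norm_mul, norm_mul, RCLike.norm_conj, RCLike.norm_conj]
    have h1 := min_step K hK (p * (i + 1)) p
    have h2 := min_step K hK (q * (i + 1)) q
    have h3 : ‖K (p * (i + 1) + p) - K (p * (i + 1))‖ * ‖K (q * (i + 1 + 1))‖ ≤ (2 * P) * L :=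
      mul_le_mul (h1.trans (by linarith)) (hK0 _) (norm_nonneg _) (by positivity)
    have h4 : ‖K (p * (i + 1))‖ * ‖K (q * (i + 1) + q) - K (q * (i + 1))‖ ≤ L * (2 * P) :=
      mul_le_mul (hK0 _) (h2.trans (by linarith)) (norm_nonneg _) hL
    linarith

theorem min_mult (f : ℕ → ℂ) (X p : ℕ) (hp : 0 < p) :
    ∑ n ∈ (Finset.Icc 1 X).filter (fun n => p ∣ n), f n = ∑ m ∈ Finset.Icc 1 (X / p), f (p * m) := by
  symm
  apply Finset.sum_bij (fun m _ => p * m)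
  · intro m hm
    rw [Finset.mem_Icc] at hm
    rw [Finset.mem_filter, Finset.mem_Icc]
    refine ⟨⟨Nat.mul_pos hp hm.1, ?_⟩, dvd_mul_right _ _⟩
    have := (Nat.le_div_iff_mul_le hp).1 hm.2
    rwa [mul_comm]
  · intro a _ b _ h
    exact Nat.eq_of_mul_eq_mul_left hp h
  · intro n hn
    rw [Finset.mem_filter, Finset.mem_Icc] at hn
    obtain ⟨⟨h1, h2⟩, m, rfl⟩ := hn
    refine ⟨m, ?_, rfl⟩
    rw [Finset.mem_Icc]
    refine ⟨Nat.pos_of_mul_pos_left h1, ?_⟩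
    rw [Nat.le_div_iff_mul_le hp, mul_comm]
    exact h2
  · intro m _; rfl

theorem min_cut (f : ℕ → ℂ) (X p : ℕ) (hp : 0 < p) :
    ∑ m ∈ Finset.Icc 1 (X / p), f m = ∑ m ∈ Finset.Icc 1 X, if p * m ≤ X then f m else 0 := by
  rw [← Finset.sum_filter]
  apply Finset.sum_congr _ (fun _ _ => rfl)
  ext m
  rw [Finset.mem_filter, Finset.mem_Icc, Finset.mem_Icc, Nat.le_div_iff_mul_le hp, mul_comm m p]
  constructor
  · rintro ⟨h1, h2⟩
    refine ⟨⟨h1, ?_⟩, h2⟩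
    nlinarith
  · rintro ⟨⟨h1, _⟩, h2⟩
    exact ⟨h1, h2⟩

/-- the sum over the primes of `B` -/
noncomputable def minG (B : Finset ℕ) (F : ℕ → ℂ) (X m : ℕ) : ℂ :=
  ∑ p ∈ B, if p * m ≤ X then F (p * m) else 0

theorem min_first (B : Finset ℕ) (hB : Pset B) (X : ℕ) (F : ℕ → ℂ) :
    ∑ n ∈ Finset.Icc 1 X, (lam n : ℂ) * F n * (om B n : ℂ) =
      -∑ m ∈ Finset.Icc 1 X, (lam m : ℂ) * minG B F X m := by
  classical
  have h1 : ∀ n : ℕ, (lam n : ℂ) * F n * (om B n : ℂ) =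
      ∑ p ∈ B, if p ∣ n then (lam n : ℂ) * F n else 0 := by
    intro n
    rw [← Finset.sum_filter, Finset.sum_const, nsmul_eq_mul]
    unfold om
    push_cast
    rw [mul_comm]
  rw [Finset.sum_congr rfl (fun n _ => h1 n), Finset.sum_comm]
  have h2 : ∀ p ∈ B, ∑ n ∈ Finset.Icc 1 X, (if p ∣ n then (lam n : ℂ) * F n else 0) =
      -∑ m ∈ Finset.Icc 1 X, (lam m : ℂ) * (if p * m ≤ X then F (p * m) else 0) := by
    intro p hp
    have hpp := hB p hp
    rw [← Finset.sum_filter, min_mult _ X p hpp.pos, min_cut _ X p hpp.pos,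
      ← Finset.sum_neg_distrib]
    apply Finset.sum_congr rfl
    intro m _
    split_ifs
    · rw [lam_mul, lam_prime hpp]
      push_cast
      ring
    · simp
  rw [Finset.sum_congr rfl h2, Finset.sum_neg_distrib, Finset.sum_comm]
  congr 1
  apply Finset.sum_congr rfl
  intro m _
  unfold minG
  rw [Finset.mul_sum]

theorem min_pair (F : ℕ → ℂ) (X p q : ℕ) (hp : 0 < p) (hq : 0 < q) :
    ∑ m ∈ Finset.Icc 1 X, (if p * m ≤ X then F (p * m) else 0) *
      (starRingEnd ℂ) (if q * m ≤ X then F (q * m) else 0) =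
    ∑ m ∈ Finset.Icc 1 (min (X / p) (X / q)), F (p * m) * (starRingEnd ℂ) (F (q * m)) := by
  have h1 : Finset.Icc 1 (min (X / p) (X / q)) =
      (Finset.Icc 1 X).filter (fun m => p * m ≤ X ∧ q * m ≤ X) := by
    ext m
    rw [Finset.mem_filter, Finset.mem_Icc, Finset.mem_Icc, le_min_iff, Nat.le_div_iff_mul_le hp,
      Nat.le_div_iff_mul_le hq, mul_comm m p, mul_comm m q]
    constructor
    · rintro ⟨h1, h2, h3⟩
      refine ⟨⟨h1, ?_⟩, h2, h3⟩
      nlinarith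
    · rintro ⟨⟨h1, _⟩, h2, h3⟩
      exact ⟨h1, h2, h3⟩
  rw [h1, Finset.sum_filter]
  apply Finset.sum_congr rfl
  intro m _
  by_cases ha : p * m ≤ X
  · by_cases hb : q * m ≤ X
    · simp [ha, hb]
    · simp [ha, hb]
  · simp [ha]

theorem min_sq (B : Finset ℕ) (hB : Pset B) (P : ℕ) (hP : ∀ p ∈ B, p ≤ P) (X : ℕ) (α δ : ℝ)
    (hδ : 0 < δ) (hα : ∀ p ∈ B, ∀ q ∈ B, p ≠ q → ∀ k : ℤ, δ ≤ |α * ((p : ℝ) - q) - k|)
    (L : ℝ) (hL : 0 ≤ L) (K : ℕ → ℂ) (hK0 : ∀ n, ‖K n‖ ≤ L) (hK : ∀ n, ‖K (n + 1) - K n‖ ≤ 2) :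
    ∑ m ∈ Finset.Icc 1 X, ‖minG B (fun n => ez (α * n) * K n) X m‖ ^ 2 ≤
      L ^ 2 * X * rs B + (B.card : ℝ) ^ 2 * (1 / (2 * δ) * (L * L + 4 * P * L * X)) := by
  classical
  set F : ℕ → ℂ := fun n => ez (α * n) * K n with hF
  set E : ℝ := 1 / (2 * δ) * (L * L + 4 * P * L * X) with hE
  have hE0 : 0 ≤ E := by positivity
  have hFn : ∀ n, ‖F n‖ ≤ L := by
    intro n
    rw [hF]
    simp only [norm_mul, ez_norm, one_mul]
    exact hK0 n
  have h1 : ((∑ m ∈ Finset.Icc 1 X, ‖minG B F X m‖ ^ 2 : ℝ) : ℂ) =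
      ∑ p ∈ B, ∑ q ∈ B, ∑ m ∈ Finset.Icc 1 (min (X / p) (X / q)),
        F (p * m) * (starRingEnd ℂ) (F (q * m)) := by
    have e1 : ∀ m, ((‖minG B F X m‖ ^ 2 : ℝ) : ℂ) = ∑ p ∈ B, ∑ q ∈ B,
        (if p * m ≤ X then F (p * m) else 0) *
        (starRingEnd ℂ) (if q * m ≤ X then F (q * m) else 0) := by
      intro m
      have : ((‖minG B F X m‖ ^ 2 : ℝ) : ℂ) = minG B F X m * (starRingEnd ℂ) (minG B F X m) := by
        rw [Complex.mul_conj, Complex.normSq_eq_norm_sq]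
      rw [this]
      unfold minG
      rw [map_sum, Finset.sum_mul_sum]
    push_cast
    have e2 : ∀ m, ((‖minG B F X m‖ : ℝ) : ℂ) ^ 2 = ∑ p ∈ B, ∑ q ∈ B,
        (if p * m ≤ X then F (p * m) else 0) *
        (starRingEnd ℂ) (if q * m ≤ X then F (q * m) else 0) := by
      intro m
      rw [← e1 m]
      push_cast
      rfl
    rw [Finset.sum_congr rfl (fun m _ => e2 m), Finset.sum_comm]
    apply Finset.sum_congr rfl
    intro p hp
    rw [Finset.sum_comm]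
    apply Finset.sum_congr rfl
    intro q hq
    exact min_pair F X p q (hB p hp).pos (hB q hq).pos
  have h2 : ∀ p ∈ B, ∀ q ∈ B, ‖∑ m ∈ Finset.Icc 1 (min (X / p) (X / q)),
        F (p * m) * (starRingEnd ℂ) (F (q * m))‖ ≤ (if p = q then L ^ 2 * X * (1 / (p : ℝ)) else 0) + E := by
    intro p hp q hq
    by_cases hpq : p = q
    · subst hpq
      rw [if_pos rfl, min_self]
      have hp0 : (0 : ℝ) < p := by exact_mod_cast (hB p hp).pos
      calc _ ≤ ∑ m ∈ Finset.Icc 1 (X / p), L ^ 2 := by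
            apply norm_sum_le_of_le
            intro m _
            rw [norm_mul, RCLike.norm_conj, ← sq]
            exact pow_le_pow_left₀ (norm_nonneg _) (hFn _) 2
        _ = ((X / p : ℕ) : ℝ) * L ^ 2 := by
            rw [Finset.sum_const, Nat.card_Icc, Nat.add_sub_cancel, nsmul_eq_mul]
        _ ≤ ((X : ℝ) / p) * L ^ 2 := by
            exact mul_le_mul_of_nonneg_right Nat.cast_div_le (by positivity)
        _ = L ^ 2 * X * (1 / (p : ℝ)) := by ring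
        _ ≤ _ := by linarith
    · rw [if_neg hpq, zero_add]
      refine (min_off K L hL hK0 hK α δ hδ p q P (hP p hp) (hP q hq) (hα p hp q hq hpq)
        (min (X / p) (X / q))).trans ?_
      rw [hE]
      have hm : ((min (X / p) (X / q) : ℕ) : ℝ) ≤ X := by
        exact_mod_cast (min_le_left _ _).trans (Nat.div_le_self _ _)
      have : 0 ≤ 1 / (2 * δ) := by positivity
      apply mul_le_mul_of_nonneg_left _ this
      have h3 : 4 * (P : ℝ) * L * ((min (X / p) (X / q) : ℕ) : ℝ) ≤ 4 * P * L * X :=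
        mul_le_mul_of_nonneg_left hm (by positivity)
      linarith
  have h3 : (∑ m ∈ Finset.Icc 1 X, ‖minG B F X m‖ ^ 2 : ℝ) ≤
      ∑ p ∈ B, ∑ q ∈ B, ((if p = q then L ^ 2 * X * (1 / (p : ℝ)) else 0) + E) := by
    have h4 : (∑ m ∈ Finset.Icc 1 X, ‖minG B F X m‖ ^ 2 : ℝ) =
        ‖((∑ m ∈ Finset.Icc 1 X, ‖minG B F X m‖ ^ 2 : ℝ) : ℂ)‖ := by
      rw [Complex.norm_real, Real.norm_eq_abs, abs_of_nonneg]
      positivity
    rw [h4, h1]
    apply norm_sum_le_of_le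
    intro p hp
    apply norm_sum_le_of_le
    intro q hq
    exact h2 p hp q hq
  refine h3.trans (le_of_eq ?_)
  have h5 : ∀ p ∈ B, ∑ q ∈ B, ((if p = q then L ^ 2 * X * (1 / (p : ℝ)) else 0) + E) =
      L ^ 2 * X * (1 / (p : ℝ)) + B.card * E := by
    intro p hp
    rw [Finset.sum_add_distrib, Finset.sum_ite_eq, if_pos hp, Finset.sum_const, nsmul_eq_mul]
  rw [Finset.sum_congr rfl h5, Finset.sum_add_distrib, ← Finset.mul_sum, Finset.sum_const,
    nsmul_eq_mul]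
  unfold rs
  ring

/-- Katai's argument -/
theorem min_katai (B : Finset ℕ) (hB : Pset B) (hW : 1 ≤ rs B) (P : ℕ) (hP : ∀ p ∈ B, p ≤ P)
    (X : ℕ) (hom : ∑ n ∈ Finset.Icc 1 X, (om B n - rs B) ^ 2 ≤ 2 * X * rs B) (α δ : ℝ)
    (hδ : 0 < δ) (hα : ∀ p ∈ B, ∀ q ∈ B, p ≠ q → ∀ k : ℤ, δ ≤ |α * ((p : ℝ) - q) - k|)
    (L : ℝ) (hL : 0 ≤ L) (hLX : L ≤ X) (hC : (B.card : ℝ) ^ 2 * (1 / (2 * δ)) * (1 + 4 * P) ≤ L)
    (K : ℕ → ℂ) (hK0 : ∀ n, ‖K n‖ ≤ L) (hK : ∀ n, ‖K (n + 1) - K n‖ ≤ 2) :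
    rs B * ‖∑ n ∈ Finset.Icc 1 X, (lam n : ℂ) * (ez (α * n) * K n)‖ ^ 2 ≤ 8 * L ^ 2 * X ^ 2 := by
  classical
  set F : ℕ → ℂ := fun n => ez (α * n) * K n with hF
  set W : ℝ := rs B with hWd
  have hW0 : 0 < W := by linarith
  have hX0 : (0 : ℝ) ≤ X := Nat.cast_nonneg _
  have hFn : ∀ n, ‖F n‖ ≤ L := by
    intro n
    rw [hF]
    simp only [norm_mul, ez_norm, one_mul]
    exact hK0 n
  set S : ℂ := ∑ n ∈ Finset.Icc 1 X, (lam n : ℂ) * F n with hS
  set Z1 : ℂ := ∑ n ∈ Finset.Icc 1 X, (lam n : ℂ) * F n * (om B n : ℂ) with hZ1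
  set Z2 : ℂ := ∑ n ∈ Finset.Icc 1 X, (lam n : ℂ) * F n * ((W - om B n : ℝ) : ℂ) with hZ2
  have hdec : (W : ℂ) * S = Z1 + Z2 := by
    rw [hZ1, hZ2, hS, Finset.mul_sum, ← Finset.sum_add_distrib]
    apply Finset.sum_congr rfl
    intro n _
    push_cast
    ring
  -- first part
  have hsq := min_sq B hB P hP X α δ hδ hα L hL K hK0 hK
  have hsq2 : ∑ m ∈ Finset.Icc 1 X, ‖minG B F X m‖ ^ 2 ≤ 2 * W * L ^ 2 * X := by
    refine hsq.trans ?_
    have h1 : L * L + 4 * P * L * X ≤ (1 + 4 * P) * (L * X) := by nlinarith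
    have h2 : (B.card : ℝ) ^ 2 * (1 / (2 * δ) * (L * L + 4 * P * L * X)) ≤
        (B.card : ℝ) ^ 2 * (1 / (2 * δ) * ((1 + 4 * P) * (L * X))) := by
      have : 0 ≤ 1 / (2 * δ) := by positivity
      exact mul_le_mul_of_nonneg_left (mul_le_mul_of_nonneg_left h1 this) (by positivity)
    have h3 : (B.card : ℝ) ^ 2 * (1 / (2 * δ) * ((1 + 4 * P) * (L * X))) =
        ((B.card : ℝ) ^ 2 * (1 / (2 * δ)) * (1 + 4 * P)) * (L * X) := by ring
    have h4 : ((B.card : ℝ) ^ 2 * (1 / (2 * δ)) * (1 + 4 * P)) * (L * X) ≤ L * (L * X) :=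
      mul_le_mul_of_nonneg_right hC (by positivity)
    have h5 : L * (L * X) ≤ W * (L * (L * X)) := by
      have : 0 ≤ L * (L * X) := by positivity
      nlinarith
    have h6 : L ^ 2 * X * W + W * (L * (L * X)) = 2 * W * L ^ 2 * X := by ring
    linarith
  have hZ1b : ‖Z1‖ ^ 2 ≤ 2 * W * L ^ 2 * X ^ 2 := by
    rw [hZ1, min_first B hB X F, norm_neg]
    have h1 : ‖∑ m ∈ Finset.Icc 1 X, (lam m : ℂ) * minG B F X m‖ ≤
        ∑ m ∈ Finset.Icc 1 X, ‖minG B F X m‖ := by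
      apply norm_sum_le_of_le
      intro m _
      rw [norm_mul]
      exact mul_le_of_le_one_left (norm_nonneg _) (lam_norm m)
    calc _ ≤ (∑ m ∈ Finset.Icc 1 X, ‖minG B F X m‖) ^ 2 := pow_le_pow_left₀ (norm_nonneg _) h1 2
      _ ≤ (Finset.Icc 1 X).card * ∑ m ∈ Finset.Icc 1 X, ‖minG B F X m‖ ^ 2 :=
          sq_sum_le_card_mul_sum_sq
      _ = X * ∑ m ∈ Finset.Icc 1 X, ‖minG B F X m‖ ^ 2 := by
          rw [Nat.card_Icc, Nat.add_sub_cancel]
      _ ≤ X * (2 * W * L ^ 2 * X) := mul_le_mul_of_nonneg_left hsq2 hX0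
      _ = _ := by ring
  -- second part
  have hZ2b : ‖Z2‖ ^ 2 ≤ 2 * W * L ^ 2 * X ^ 2 := by
    have h1 : ‖Z2‖ ≤ L * ∑ n ∈ Finset.Icc 1 X, |om B n - W| := by
      rw [hZ2, Finset.mul_sum]
      apply norm_sum_le_of_le
      intro n _
      have e : ‖((W - om B n : ℝ) : ℂ)‖ = |om B n - W| := by
        rw [Complex.norm_real, Real.norm_eq_abs, abs_sub_comm]
      rw [norm_mul, norm_mul, e]
      have : ‖(lam n : ℂ)‖ * ‖F n‖ ≤ L := by
        calc _ ≤ 1 * ‖F n‖ := mul_le_mul_of_nonneg_right (lam_norm n) (norm_nonneg _)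
          _ ≤ L := by rw [one_mul]; exact hFn n
      exact mul_le_mul_of_nonneg_right this (abs_nonneg _)
    have h2 : (∑ n ∈ Finset.Icc 1 X, |om B n - W|) ^ 2 ≤ X * (2 * X * W) := by
      calc _ ≤ (Finset.Icc 1 X).card * ∑ n ∈ Finset.Icc 1 X, |om B n - W| ^ 2 :=
            sq_sum_le_card_mul_sum_sq
        _ = X * ∑ n ∈ Finset.Icc 1 X, (om B n - W) ^ 2 := by
            rw [Nat.card_Icc, Nat.add_sub_cancel]
            simp only [sq_abs]
        _ ≤ X * (2 * X * W) := mul_le_mul_of_nonneg_left hom hX0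
    calc _ ≤ (L * ∑ n ∈ Finset.Icc 1 X, |om B n - W|) ^ 2 := pow_le_pow_left₀ (norm_nonneg _) h1 2
      _ = L ^ 2 * (∑ n ∈ Finset.Icc 1 X, |om B n - W|) ^ 2 := by ring
      _ ≤ L ^ 2 * (X * (2 * X * W)) := mul_le_mul_of_nonneg_left h2 (by positivity)
      _ = _ := by ring
  have h1 : W * ‖S‖ ≤ ‖Z1‖ + ‖Z2‖ := by
    have : W * ‖S‖ = ‖(W : ℂ) * S‖ := by
      rw [norm_mul, Complex.norm_real, Real.norm_eq_abs, abs_of_pos hW0]
    rw [this, hdec]
    exact norm_add_le _ _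
  have h2 : (W * ‖S‖) ^ 2 ≤ 8 * W * L ^ 2 * X ^ 2 := by
    have h3 : (W * ‖S‖) ^ 2 ≤ (‖Z1‖ + ‖Z2‖) ^ 2 := pow_le_pow_left₀ (by positivity) h1 2
    nlinarith [sq_nonneg (‖Z1‖ - ‖Z2‖)]
  have h3 : W * (W * ‖S‖ ^ 2) ≤ W * (8 * L ^ 2 * X ^ 2) := by nlinarith
  exact le_of_mul_le_mul_left h3 hW0

theorem min_split (f : ℤ → ℂ) (Y : ℕ) :
    ∑ n ∈ Iz Y, f n = f 0 + ∑ n ∈ Finset.Icc 1 Y, (f (n : ℤ) + f (-(n : ℤ))) := by
  induction Y with
  | zero => simp [Iz]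
  | succ Y ih =>
    have h : Iz (Y + 1) = insert ((Y : ℤ) + 1) (insert (-((Y : ℤ) + 1)) (Iz Y)) := by
      ext a
      rw [Finset.mem_insert, Finset.mem_insert, mem_Iz, mem_Iz]
      push_cast
      omega
    have h1 : (-((Y : ℤ) + 1)) ∉ Iz Y := by
      rw [mem_Iz]
      omega
    have h2 : ((Y : ℤ) + 1) ∉ insert (-((Y : ℤ) + 1)) (Iz Y) := by
      rw [Finset.mem_insert, mem_Iz]
      omega
    rw [h, Finset.sum_insert h2, Finset.sum_insert h1, ih, Finset.sum_Icc_succ_top (by omega)]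
    push_cast
    ring

theorem min_shiftw (w φ : ℤ → ℂ) (X L : ℕ) (hw : ∀ A, A ∉ Iz X → w A = 0) (i : ℕ) (hi : i < L) :
    ∑ A ∈ Iz X, w A * φ (A + i) = ∑ n ∈ Iz (X + L), w (n - i) * φ n := by
  have h1 : ∑ A ∈ Iz X, w A * φ (A + i) =
      ∑ n ∈ (Iz X).map (addRightEmbedding (i : ℤ)), w (n - i) * φ n := by
    rw [Finset.sum_map]
    apply Finset.sum_congr rfl
    intro A _
    rw [addRightEmbedding_apply, add_sub_cancel_right]
  rw [h1]
  apply Finset.sum_subset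
  · intro n hn
    rw [Finset.mem_map] at hn
    obtain ⟨A, hA, rfl⟩ := hn
    rw [addRightEmbedding_apply]
    rw [mem_Iz] at hA ⊢
    push_cast
    omega
  · intro n _ hn
    rw [hw, zero_mul]
    intro hA
    apply hn
    rw [Finset.mem_map]
    exact ⟨n - i, hA, by rw [addRightEmbedding_apply, sub_add_cancel]⟩

/-- the weight of an integer -/
noncomputable def minK (w : ℤ → ℂ) (L : ℕ) (n : ℤ) : ℂ := ∑ i ∈ Finset.range L, w (n - i)

theorem minK_le (w : ℤ → ℂ) (hw : ∀ A, ‖w A‖ ≤ 1) (L : ℕ) (n : ℤ) : ‖minK w L n‖ ≤ L := by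
  unfold minK
  calc _ ≤ ∑ i ∈ Finset.range L, (1 : ℝ) := norm_sum_le_of_le _ (fun i _ => hw _)
    _ = L := by simp

theorem minK_step (w : ℤ → ℂ) (hw : ∀ A, ‖w A‖ ≤ 1) (L : ℕ) (n : ℤ) :
    ‖minK w L (n + 1) - minK w L n‖ ≤ 2 := by
  unfold minK
  rw [← Finset.sum_sub_distrib]
  have h : ∑ i ∈ Finset.range L, (w (n + 1 - (i : ℕ)) - w (n - (i : ℕ))) =
      w (n + 1 - (0 : ℕ)) - w (n + 1 - (L : ℕ)) := by
    rw [← Finset.sum_range_sub' (fun i : ℕ => w (n + 1 - (i : ℕ))) L]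
    apply Finset.sum_congr rfl
    intro i _
    have e : n + 1 - ((i + 1 : ℕ) : ℤ) = n - i := by push_cast; ring
    simp only [e]
  rw [h]
  refine (norm_sub_le _ _).trans ?_
  have h1 := hw (n + 1 - (0 : ℕ))
  have h2 := hw (n + 1 - (L : ℕ))
  linarith

/-- the identity for the sum of the absolute values -/
theorem min_ident (α : ℝ) (X L : ℕ) : ∃ w : ℤ → ℂ, (∀ A, ‖w A‖ ≤ 1) ∧
    ((∑ A ∈ Iz X, ‖∑ i ∈ Finset.range L, ez (α * i) * (lz (A + 1 * (i : ℤ)) : ℂ)‖ : ℝ) : ℂ) =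
    ∑ n ∈ Finset.Icc 1 (X + L), (lam n : ℂ) * (ez (α * n) * minK w L (n : ℤ)) +
    ∑ n ∈ Finset.Icc 1 (X + L), (lam n : ℂ) * (ez (-α * n) * minK w L (-(n : ℤ))) := by
  classical
  set z : ℤ → ℂ := fun A => ∑ i ∈ Finset.range L, ez (α * i) * (lz (A + 1 * (i : ℤ)) : ℂ) with hz
  set w : ℤ → ℂ := fun A => if A ∈ Iz X then
    (starRingEnd ℂ (z A) / ‖z A‖) * ez (-(α * A)) else 0 with hw
  set φ : ℤ → ℂ := fun n => (lz n : ℂ) * ez (α * n) with hφ
  refine ⟨w, ?_, ?_⟩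
  · intro A
    rw [hw]
    simp only
    split_ifs
    · rw [norm_mul, ez_norm, mul_one, norm_div, RCLike.norm_conj, Complex.norm_real, norm_norm]
      exact div_self_le_one _
    · simp
  · have h1 : ((∑ A ∈ Iz X, ‖z A‖ : ℝ) : ℂ) =
        ∑ A ∈ Iz X, ∑ i ∈ Finset.range L, w A * φ (A + i) := by
      push_cast
      apply Finset.sum_congr rfl
      intro A hA
      have e1 : (‖z A‖ : ℂ) = starRingEnd ℂ (z A) / ‖z A‖ * z A := by
        by_cases h0 : z A = 0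
        · rw [h0]; simp
        · have h2 : (‖z A‖ : ℂ) ≠ 0 := by
            exact_mod_cast norm_ne_zero_iff.2 h0
          rw [div_mul_eq_mul_div, eq_div_iff h2, mul_comm (starRingEnd ℂ (z A)), Complex.mul_conj,
            Complex.normSq_eq_norm_sq]
          push_cast
          ring
      rw [e1]
      conv_lhs => rw [hz]
      simp only
      rw [Finset.mul_sum]
      apply Finset.sum_congr rfl
      intro i _
      rw [hw, hφ]
      simp only [if_pos hA]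
      have e2 : ez (α * i) = ez (-(α * A)) * ez (α * ((A + i : ℤ) : ℝ)) := by
        rw [← ez_add]
        congr 1
        push_cast
        ring
      rw [e2, one_mul]
      ring
    rw [h1, Finset.sum_comm]
    have h2 : ∀ i ∈ Finset.range L, ∑ A ∈ Iz X, w A * φ (A + i) =
        ∑ n ∈ Iz (X + L), w (n - i) * φ n := by
      intro i hi
      apply min_shiftw w φ X L _ i (Finset.mem_range.1 hi)
      intro A hA
      rw [hw]
      simp only [if_neg hA]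
    rw [Finset.sum_congr rfl h2, Finset.sum_comm]
    have h3 : ∀ n ∈ Iz (X + L), ∑ i ∈ Finset.range L, w (n - i) * φ n = minK w L n * φ n := by
      intro n _
      unfold minK
      rw [Finset.sum_mul]
    rw [Finset.sum_congr rfl h3, min_split]
    have h4 : φ 0 = 0 := by rw [hφ]; simp [lz_zero]
    rw [h4, mul_zero, zero_add, Finset.sum_add_distrib]
    congr 1
    · apply Finset.sum_congr rfl
      intro n _
      rw [hφ]
      simp only [lz_nat]
      push_cast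
      ring
    · apply Finset.sum_congr rfl
      intro n _
      rw [hφ]
      simp only [lz_neg, lz_nat]
      push_cast
      have e : α * -(n : ℝ) = -α * n := by ring
      rw [e]
      ring

theorem min_arc_pr (η : ℝ) (hη : 0 < η) : ∃ P L₀ : ℕ, ∃ C : ℝ, 1 ≤ P ∧ 0 < C ∧ ∀ L : ℕ, L₀ ≤ L →
    ∃ X₀ : ℕ, ∀ X : ℕ, X₀ ≤ X → ∀ α : ℝ,
      (∀ h p : ℤ, 1 ≤ h → h ≤ P → C / L < |(h : ℝ) * α - p|) →
      ∑ A ∈ Iz X, bq 1 α L A ≤ η * X := by
  classical
  obtain ⟨B, hB, hBW⟩ := min_primes (max 1 (128 / η ^ 2))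
  have hW1 : 1 ≤ rs B := (le_max_left _ _).trans hBW
  have hW2 : 128 / η ^ 2 ≤ rs B := (le_max_right _ _).trans hBW
  set P : ℕ := B.sup id + 1 with hPd
  have hP : ∀ p ∈ B, p ≤ P := by
    intro p hp
    have := Finset.le_sup (f := id) hp
    simp only [id] at this
    omega
  set C : ℝ := (B.card : ℝ) ^ 2 * (1 + 4 * P) / 2 + 1 with hCd
  have hC0 : 0 < C := by positivity
  obtain ⟨X₁, hX₁⟩ := tk_fix B hB hW1
  refine ⟨P, 1, C, by omega, hC0, fun L hL => ⟨max X₁ L, fun X hX α hα => ?_⟩⟩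
  have hLr : (1 : ℝ) ≤ L := by exact_mod_cast hL
  have hL0 : (0 : ℝ) < L := by linarith
  have hXL : (L : ℝ) ≤ X := by exact_mod_cast (le_max_right _ _).trans hX
  have hX1 : X₁ ≤ X + L := ((le_max_left _ _).trans hX).trans (Nat.le_add_right _ _)
  have hδ : 0 < C / L := by positivity
  have hd : ∀ p ∈ B, ∀ q ∈ B, p ≠ q → ∀ k : ℤ, C / L ≤ |α * ((p : ℝ) - q) - k| := by
    intro p hp q hq hpq k
    have hp' := hP p hp
    have hq' := hP q hq
    rcases lt_or_gt_of_ne hpq with h | h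
    · have h1 := hα ((q : ℤ) - p) (-k) (by omega) (by omega)
      refine h1.le.trans (le_of_eq ?_)
      rw [← abs_neg]
      congr 1
      push_cast
      ring
    · have h1 := hα ((p : ℤ) - q) k (by omega) (by omega)
      refine h1.le.trans (le_of_eq ?_)
      congr 1
      push_cast
      ring
  have hd' : ∀ p ∈ B, ∀ q ∈ B, p ≠ q → ∀ k : ℤ, C / L ≤ |-α * ((p : ℝ) - q) - k| := by
    intro p hp q hq hpq k
    refine (hd p hp q hq hpq (-k)).trans (le_of_eq ?_)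
    rw [← abs_neg]
    congr 1
    push_cast
    ring
  have hCL : (B.card : ℝ) ^ 2 * (1 / (2 * (C / L))) * (1 + 4 * P) ≤ L := by
    have e : (B.card : ℝ) ^ 2 * (1 / (2 * (C / L))) * (1 + 4 * P) =
        ((B.card : ℝ) ^ 2 * (1 + 4 * P) / 2 / C) * L := by
      field_simp
    rw [e]
    have : (B.card : ℝ) ^ 2 * (1 + 4 * P) / 2 / C ≤ 1 := by
      rw [div_le_one hC0, hCd]
      linarith
    exact mul_le_of_le_one_left hL0.le this
  obtain ⟨w, hw1, hw2⟩ := min_ident α X L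
  have hLX : (L : ℝ) ≤ ((X + L : ℕ) : ℝ) := by
    push_cast
    linarith [Nat.cast_nonneg (α := ℝ) X]
  have hk1 := min_katai B hB hW1 P hP (X + L) (hX₁ _ hX1) α (C / L) hδ hd L hL0.le hLX hCL
    (fun n => minK w L (n : ℤ)) (fun n => minK_le w hw1 L _)
    (fun n => by
      have := minK_step w hw1 L (n : ℤ)
      push_cast
      exact this)
  have hk2 := min_katai B hB hW1 P hP (X + L) (hX₁ _ hX1) (-α) (C / L) hδ hd' L hL0.le hLX hCL
    (fun n => minK w L (-(n : ℤ))) (fun n => minK_le w hw1 L _)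
    (fun n => by
      have := minK_step w hw1 L (-(n : ℤ) - 1)
      rw [sub_add_cancel, ← norm_neg, neg_sub] at this
      have e : (-((n + 1 : ℕ) : ℤ)) = -(n : ℤ) - 1 := by push_cast; ring
      simp only [e]
      exact this)
  set T1 : ℂ := ∑ n ∈ Finset.Icc 1 (X + L), (lam n : ℂ) * (ez (α * n) * minK w L (n : ℤ)) with hT1
  set T2 : ℂ := ∑ n ∈ Finset.Icc 1 (X + L),
    (lam n : ℂ) * (ez (-α * n) * minK w L (-(n : ℤ))) with hT2
  have key : ∀ T : ℂ, rs B * ‖T‖ ^ 2 ≤ 8 * (L : ℝ) ^ 2 * ((X + L : ℕ) : ℝ) ^ 2 →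
      ‖T‖ ≤ η * L * X / 2 := by
    intro T hT
    have hY : ((X + L : ℕ) : ℝ) ≤ 2 * X := by
      push_cast
      linarith
    have h1 : rs B * ‖T‖ ^ 2 ≤ 8 * (L : ℝ) ^ 2 * (2 * X) ^ 2 := by
      refine hT.trans ?_
      apply mul_le_mul_of_nonneg_left _ (by positivity)
      exact pow_le_pow_left₀ (Nat.cast_nonneg _) hY 2
    have h2 : 128 / η ^ 2 * ‖T‖ ^ 2 ≤ 32 * (L : ℝ) ^ 2 * (X : ℝ) ^ 2 := by
      have := mul_le_mul_of_nonneg_right hW2 (sq_nonneg ‖T‖)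
      nlinarith
    have h3 : ‖T‖ ^ 2 ≤ (η * L * X / 2) ^ 2 := by
      rw [div_mul_eq_mul_div, div_le_iff₀ (by positivity)] at h2
      nlinarith
    exact (pow_le_pow_iff_left₀ (norm_nonneg _) (by positivity) (by norm_num)).1 h3
  have hT1b := key T1 hk1
  have hT2b := key T2 hk2
  have hsum : ∑ A ∈ Iz X, ‖∑ i ∈ Finset.range L, ez (α * i) * (lz (A + 1 * (i : ℤ)) : ℂ)‖ ≤
      η * L * X := by
    have h1 : ∑ A ∈ Iz X, ‖∑ i ∈ Finset.range L, ez (α * i) * (lz (A + 1 * (i : ℤ)) : ℂ)‖ =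
        ‖T1 + T2‖ := by
      rw [← hw2, Complex.norm_real, Real.norm_eq_abs, abs_of_nonneg]
      exact Finset.sum_nonneg (fun _ _ => norm_nonneg _)
    rw [h1]
    have := norm_add_le T1 T2
    linarith
  have hfin : ∑ A ∈ Iz X, bq 1 α L A =
      (∑ A ∈ Iz X, ‖∑ i ∈ Finset.range L, ez (α * i) * (lz (A + 1 * (i : ℤ)) : ℂ)‖) / L := by
    unfold bq
    rw [Finset.sum_div]
  rw [hfin, div_le_iff₀ hL0]
  linarith

end Pool.Agent.PS

end MIN

namespace Pool.Agent.PS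

theorem min_arc : type_of% @min_arc_pr := @min_arc_pr

end Pool.Agent.PS

/-! ### Block MAJ -/

section MAJ
/-!
# PS block MAJ: the major frequencies
-/

namespace Pool.Agent.PS

open Filter Topology MeasureTheory

/-- averaging over windows of length `M` -/
theorem maj_avg (f : ℕ → ℂ) (hf : ∀ i, ‖f i‖ ≤ 1) (L M : ℕ) (hM : 1 ≤ M) :
    ‖∑ i ∈ Finset.range L, f i‖ ≤
      (1 / M) * ∑ s ∈ Finset.range L, ‖∑ t ∈ Finset.range M, f (s + t)‖ + M := by
  have hM0 : (0 : ℝ) < M := by exact_mod_cast hM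
  have key : ∀ t : ℕ, ‖∑ i ∈ Finset.range L, f i - ∑ i ∈ Finset.range L, f (i + t)‖ ≤ 2 * t := by
    intro t
    have e1 := Finset.sum_range_add f L t
    have e2 := Finset.sum_range_add f t L
    rw [add_comm t L] at e2
    have e3 : ∑ i ∈ Finset.range L, f i - ∑ i ∈ Finset.range L, f (i + t) =
        ∑ i ∈ Finset.range t, f i - ∑ i ∈ Finset.range t, f (L + i) := by
      have e4 : ∑ i ∈ Finset.range L, f (i + t) = ∑ i ∈ Finset.range L, f (t + i) :=
        Finset.sum_congr rfl fun i _ => by rw [add_comm]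
      rw [e4]
      have := e1.symm.trans e2
      linear_combination this
    rw [e3]
    have b1 : ‖∑ i ∈ Finset.range t, f i‖ ≤ t := by
      calc _ ≤ ∑ i ∈ Finset.range t, (1 : ℝ) := norm_sum_le_of_le _ fun i _ => hf _
        _ = t := by simp
    have b2 : ‖∑ i ∈ Finset.range t, f (L + i)‖ ≤ t := by
      calc _ ≤ ∑ i ∈ Finset.range t, (1 : ℝ) := norm_sum_le_of_le _ fun i _ => hf _
        _ = t := by simp
    calc _ ≤ ‖∑ i ∈ Finset.range t, f i‖ + ‖∑ i ∈ Finset.range t, f (L + i)‖ := norm_sub_le _ _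
      _ ≤ 2 * t := by linarith
  have h1 : (M : ℂ) * ∑ i ∈ Finset.range L, f i =
      ∑ s ∈ Finset.range L, ∑ t ∈ Finset.range M, f (s + t) +
        ∑ t ∈ Finset.range M, (∑ i ∈ Finset.range L, f i - ∑ i ∈ Finset.range L, f (i + t)) := by
    rw [Finset.sum_sub_distrib, Finset.sum_const, Finset.card_range, nsmul_eq_mul,
      Finset.sum_comm (s := Finset.range L)]
    ring
  have h2 : (M : ℝ) * ‖∑ i ∈ Finset.range L, f i‖ ≤
      ∑ s ∈ Finset.range L, ‖∑ t ∈ Finset.range M, f (s + t)‖ + (M : ℝ) ^ 2 := by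
    have e : (M : ℝ) * ‖∑ i ∈ Finset.range L, f i‖ = ‖(M : ℂ) * ∑ i ∈ Finset.range L, f i‖ := by
      rw [norm_mul, Complex.norm_natCast]
    rw [e, h1]
    refine (norm_add_le _ _).trans (add_le_add (norm_sum_le _ _) ?_)
    calc _ ≤ ∑ t ∈ Finset.range M, (2 * (t : ℝ)) := norm_sum_le_of_le _ fun t _ => key t
      _ ≤ (M : ℝ) ^ 2 := by
        rw [← Finset.mul_sum]
        have := Finset.sum_range_id_mul_two M
        have h3 : (∑ t ∈ Finset.range M, (t : ℝ)) * 2 = (M : ℝ) * ((M - 1 : ℕ) : ℝ) := by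
          have h := congrArg (Nat.cast : ℕ → ℝ) this
          rw [Nat.cast_mul, Nat.cast_mul, Nat.cast_sum, Nat.cast_ofNat] at h
          exact h
        have h4 : ((M - 1 : ℕ) : ℝ) ≤ M := by exact_mod_cast Nat.sub_le M 1
        nlinarith
  have h3 : ‖∑ i ∈ Finset.range L, f i‖ ≤
      (∑ s ∈ Finset.range L, ‖∑ t ∈ Finset.range M, f (s + t)‖ + (M : ℝ) ^ 2) / M := by
    rw [le_div_iff₀ hM0]
    linarith
  refine h3.trans (le_of_eq ?_)
  field_simp

theorem maj_split (F : ℕ → ℂ) (h N : ℕ) :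
    ∑ t ∈ Finset.range (h * N), F t =
      ∑ n ∈ Finset.range N, ∑ r ∈ Finset.range h, F (h * n + r) := by
  induction N with
  | zero => simp
  | succ N ih => rw [Nat.mul_succ, Finset.sum_range_add, ih, Finset.sum_range_succ]

theorem maj_ez (y : ℝ) : ‖ez y - 1‖ ≤ 2 * Real.pi * |y| := by
  unfold ez
  have h := Real.norm_exp_I_mul_ofReal_sub_one_le (x := 2 * Real.pi * y)
  rw [mul_comm Complex.I] at h
  refine h.trans (le_of_eq ?_)
  rw [Real.norm_eq_abs, abs_mul, abs_of_pos Real.two_pi_pos]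

/-- one window of length `h N` -/
theorem maj_win (α β : ℝ) (h N : ℕ) (hh : 1 ≤ h) (hN : 1 ≤ N) (p : ℤ)
    (hα : α = p / h + β) (A : ℤ) (s : ℕ) :
    ‖∑ t ∈ Finset.range (h * N), ez (α * (s + t : ℕ)) * (lz (A + 1 * (s + t : ℕ)) : ℂ)‖ ≤
      N * ∑ r ∈ Finset.range h, bq h 0 N (A + (s + r : ℕ)) +
        h * N * (2 * Real.pi * (|β| * (h * N))) := by
  have hh0 : (0 : ℝ) < h := by exact_mod_cast hh
  have hN0 : (0 : ℝ) < N := by exact_mod_cast hN
  have e1 : ∀ n r : ℕ, ez (α * ((s + (h * n + r) : ℕ) : ℝ)) =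
      ez (α * s + p / h * r) * ez (β * ((h * n + r : ℕ) : ℝ)) := by
    intro n r
    have : α * ((s + (h * n + r) : ℕ) : ℝ) =
        ((p * n : ℤ) : ℝ) + ((α * s + p / h * r) + β * ((h * n + r : ℕ) : ℝ)) := by
      rw [hα]
      push_cast
      field_simp
      ring
    rw [this, ez_add, ez_int, one_mul, ez_add]
  rw [maj_split]
  have e2 : ∑ n ∈ Finset.range N, ∑ r ∈ Finset.range h,
      ez (α * ((s + (h * n + r) : ℕ) : ℝ)) * (lz (A + 1 * ((s + (h * n + r) : ℕ) : ℤ)) : ℂ) =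
      ∑ r ∈ Finset.range h, ez (α * s + p / h * r) *
        ∑ n ∈ Finset.range N, ez (0 * n) * (lz (A + (s + r : ℕ) + (h : ℤ) * n) : ℂ) +
      ∑ n ∈ Finset.range N, ∑ r ∈ Finset.range h, ez (α * s + p / h * r) *
        (ez (β * ((h * n + r : ℕ) : ℝ)) - 1) *
          (lz (A + 1 * ((s + (h * n + r) : ℕ) : ℤ)) : ℂ) := by
    simp_rw [Finset.mul_sum]
    rw [Finset.sum_comm (s := Finset.range h) (t := Finset.range N), ← Finset.sum_add_distrib]
    refine Finset.sum_congr rfl fun n _ => ?_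
    rw [← Finset.sum_add_distrib]
    refine Finset.sum_congr rfl fun r _ => ?_
    have e3 : A + (s + r : ℕ) + (h : ℤ) * n = A + 1 * ((s + (h * n + r) : ℕ) : ℤ) := by
      push_cast
      ring
    rw [e1, e3, zero_mul, ez_zero]
    ring
  rw [e2]
  refine (norm_add_le _ _).trans (add_le_add ?_ ?_)
  · rw [Finset.mul_sum]
    refine (norm_sum_le _ _).trans (le_of_eq (Finset.sum_congr rfl fun r _ => ?_))
    rw [norm_mul, ez_norm, one_mul, bq]
    field_simp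
  · calc _ ≤ ∑ n ∈ Finset.range N, ∑ r ∈ Finset.range h,
          (2 * Real.pi * (|β| * (h * N)) : ℝ) := by
          refine norm_sum_le_of_le _ fun n hn => norm_sum_le_of_le _ fun r hr => ?_
          rw [Finset.mem_range] at hn hr
          rw [norm_mul, norm_mul, ez_norm, one_mul]
          have h1 := maj_ez (β * ((h * n + r : ℕ) : ℝ))
          have h2 : |β * ((h * n + r : ℕ) : ℝ)| ≤ |β| * (h * N) := by
            rw [abs_mul, Nat.abs_cast]
            apply mul_le_mul_of_nonneg_left _ (abs_nonneg _)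
            have : h * n + r ≤ h * N := by
              calc h * n + r ≤ h * n + h := by omega
                _ = h * (n + 1) := by ring
                _ ≤ h * N := Nat.mul_le_mul_left _ hn
            exact_mod_cast this
          calc ‖ez (β * ((h * n + r : ℕ) : ℝ)) - 1‖ * ‖_‖
              ≤ (2 * Real.pi * |β * ((h * n + r : ℕ) : ℝ)|) * 1 :=
                mul_le_mul h1 (lz_norm _) (norm_nonneg _) (by positivity)
            _ ≤ _ := by
                rw [mul_one]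
                exact mul_le_mul_of_nonneg_left h2 (by positivity)
      _ = h * N * (2 * Real.pi * (|β| * (h * N))) := by
          simp only [Finset.sum_const, Finset.card_range, nsmul_eq_mul]
          ring

theorem maj_pt (α β C : ℝ) (h N L : ℕ) (hh : 1 ≤ h) (hN : 1 ≤ N) (hL : 1 ≤ L) (p : ℤ)
    (hα : α = p / h + β) (hβ : |β| * h ≤ C / L) (A : ℤ) :
    bq 1 α L A ≤ (1 / ((L : ℝ) * h)) * ∑ s ∈ Finset.range L, ∑ r ∈ Finset.range h,
      bq h 0 N (A + (s + r : ℕ)) + (2 * Real.pi * C * N + h * N) / L := by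
  have hh0 : (0 : ℝ) < h := by exact_mod_cast hh
  have hN0 : (0 : ℝ) < N := by exact_mod_cast hN
  have hL0 : (0 : ℝ) < L := by exact_mod_cast hL
  have h1 := maj_avg (fun i => ez (α * (i : ℕ)) * (lz (A + 1 * (i : ℕ)) : ℂ))
    (fun i => by
      rw [norm_mul, ez_norm, one_mul]
      exact lz_norm _) L (h * N) (Nat.mul_pos hh hN)
  have h2 : ∑ s ∈ Finset.range L, ‖∑ t ∈ Finset.range (h * N),
      ez (α * (s + t : ℕ)) * (lz (A + 1 * (s + t : ℕ)) : ℂ)‖ ≤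
      ∑ s ∈ Finset.range L, (N * ∑ r ∈ Finset.range h, bq h 0 N (A + (s + r : ℕ)) +
        h * N * (2 * Real.pi * (C / L * N))) := by
    refine Finset.sum_le_sum fun s _ => (maj_win α β h N hh hN p hα A s).trans ?_
    have : |β| * (h * N) ≤ C / L * N := by
      rw [← mul_assoc]
      exact mul_le_mul_of_nonneg_right hβ hN0.le
    gcongr
  rw [Finset.sum_add_distrib, Finset.sum_const, Finset.card_range, nsmul_eq_mul,
    ← Finset.mul_sum] at h2
  unfold bq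
  rw [div_le_iff₀ hL0]
  refine h1.trans ?_
  push_cast at h2 ⊢
  have h3 : (1 / ((h : ℝ) * N)) * ∑ s ∈ Finset.range L, ‖∑ t ∈ Finset.range (h * N),
      ez (α * ((s : ℝ) + t)) * (lz (A + 1 * ((s : ℤ) + t)) : ℂ)‖ ≤ (1 / ((h : ℝ) * N)) *
      (N * ∑ s ∈ Finset.range L, ∑ r ∈ Finset.range h, bq h 0 N (A + ((s : ℤ) + r)) +
        L * (h * N * (2 * Real.pi * (C / L * N)))) :=
    mul_le_mul_of_nonneg_left h2 (by positivity)
  have h4 : (1 / ((h : ℝ) * N)) *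
      (N * ∑ s ∈ Finset.range L, ∑ r ∈ Finset.range h, bq h 0 N (A + ((s : ℤ) + r)) +
        L * (h * N * (2 * Real.pi * (C / L * N)))) =
      (1 / (h : ℝ)) * ∑ s ∈ Finset.range L, ∑ r ∈ Finset.range h, bq h 0 N (A + ((s : ℤ) + r)) +
        2 * Real.pi * C * N := by
    field_simp
  have h5 : (1 / ((L : ℝ) * h) * ∑ s ∈ Finset.range L, ∑ r ∈ Finset.range h,
      bq h 0 N (A + ((s : ℤ) + r)) + (2 * Real.pi * C * N + h * N) / L) * L =
      (1 / (h : ℝ)) * ∑ s ∈ Finset.range L, ∑ r ∈ Finset.range h, bq h 0 N (A + ((s : ℤ) + r)) +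
        2 * Real.pi * C * N + h * N := by
    field_simp
    ring
  have h6 : (1 / ((L : ℝ) * h) * ∑ s ∈ Finset.range L, ∑ r ∈ Finset.range h,
      ‖∑ i ∈ Finset.range N, ez (0 * (i : ℝ)) * (lz (A + ((s : ℤ) + r) + (h : ℤ) * i) : ℂ)‖ / N +
        (2 * Real.pi * C * N + h * N) / L) * L =
      (1 / ((L : ℝ) * h) * ∑ s ∈ Finset.range L, ∑ r ∈ Finset.range h,
      bq h 0 N (A + ((s : ℤ) + r)) + (2 * Real.pi * C * N + h * N) / L) * L := rfl
  rw [h6, h5]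
  linarith

theorem maj_shift (g : ℤ → ℝ) (hg : ∀ a, 0 ≤ g a) (X U u : ℕ) (hu : u ≤ U) :
    ∑ A ∈ Iz X, g (A + u) ≤ ∑ A ∈ Iz (X + U), g A := by
  have e : ∑ A ∈ Iz X, g (A + u) =
      ∑ A ∈ (Iz X).map ⟨fun A => A + (u : ℤ), add_left_injective _⟩, g A := by
    rw [Finset.sum_map]
    rfl
  rw [e]
  apply Finset.sum_le_sum_of_subset_of_nonneg
  · intro a ha
    rw [Finset.mem_map] at ha
    obtain ⟨b, hb, rfl⟩ := ha
    rw [mem_Iz] at hb ⊢
    simp only [Function.Embedding.coeFn_mk]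
    push_cast
    omega
  · intro a _ _
    exact hg a

theorem maj_arc_pr (η : ℝ) (hη : 0 < η) (P : ℕ) (C : ℝ) (hC : 0 < C) : ∃ L₀ : ℕ, ∀ L : ℕ,
    L₀ ≤ L → ∃ X₀ : ℕ, ∀ X : ℕ, X₀ ≤ X → ∀ α : ℝ,
      (∃ h p : ℤ, 1 ≤ h ∧ h ≤ P ∧ |(h : ℝ) * α - p| ≤ C / L) →
      ∑ A ∈ Iz X, bq 1 α L A ≤ η * X := by
  -- the lengths
  have hN : ∀ h : ℕ, ∃ N₀ : ℕ, 1 ≤ h → ∀ N : ℕ, N₀ ≤ N →
      ∃ X₀ : ℕ, ∀ X : ℕ, X₀ ≤ X → ∑ A ∈ Iz X, bq h 0 N A ≤ η / 4 * X := by
    intro h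
    by_cases hh : 1 ≤ h
    · obtain ⟨N₀, hN₀⟩ := mr_ap h hh (η / 4) (by positivity)
      exact ⟨N₀, fun _ => hN₀⟩
    · exact ⟨0, fun h' => absurd h' hh⟩
  choose N₀ hN₀ using hN
  obtain ⟨N, hN1, hNP⟩ : ∃ N : ℕ, 1 ≤ N ∧ ∀ h ≤ P, N₀ h ≤ N := by
    refine ⟨(Finset.range (P + 1)).sup N₀ + 1, by omega, fun h hh => ?_⟩
    have := Finset.le_sup (f := N₀) (Finset.mem_range.2 (by omega : h < P + 1))
    omega
  have hX : ∀ h : ℕ, ∃ X₀ : ℕ, 1 ≤ h → h ≤ P → ∀ X : ℕ, X₀ ≤ X →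
      ∑ A ∈ Iz X, bq h 0 N A ≤ η / 4 * X := by
    intro h
    by_cases hh : 1 ≤ h ∧ h ≤ P
    · obtain ⟨X₀, hX₀⟩ := hN₀ h hh.1 N (hNP h hh.2)
      exact ⟨X₀, fun _ _ => hX₀⟩
    · exact ⟨0, fun h1 h2 => absurd ⟨h1, h2⟩ hh⟩
  choose X₁ hX₁ using hX
  obtain ⟨X₂, hX₂⟩ : ∃ X₂ : ℕ, ∀ h ≤ P, X₁ h ≤ X₂ := by
    refine ⟨(Finset.range (P + 1)).sup X₁, fun h hh => ?_⟩
    exact Finset.le_sup (f := X₁) (Finset.mem_range.2 (by omega : h < P + 1))
  obtain ⟨L₁, hL₁⟩ := exists_nat_gt ((2 * Real.pi * C * N + P * N) / (η / 8))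
  refine ⟨L₁ + 1, fun L hL => ⟨X₂ + L + P + 1, ?_⟩⟩
  rintro X hXX α ⟨h', p, h1, h2, h3⟩
  obtain ⟨h, rfl⟩ : ∃ h : ℕ, h' = h := ⟨h'.toNat, (Int.toNat_of_nonneg (by omega)).symm⟩
  have hh : 1 ≤ h := by exact_mod_cast h1
  have hhP : h ≤ P := by exact_mod_cast h2
  have hh0 : (0 : ℝ) < h := by exact_mod_cast hh
  have hL0 : (0 : ℝ) < L := by exact_mod_cast (by omega : 0 < L)
  have hN0 : (0 : ℝ) < N := by exact_mod_cast hN1
  push_cast at h3
  have hβ : |α - p / h| * h ≤ C / L := by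
    calc |α - p / h| * h = |(α - p / h) * h| := by rw [abs_mul, abs_of_pos hh0]
      _ = |(h : ℝ) * α - p| := by
          congr 1
          field_simp
      _ ≤ _ := h3
  have e1 : ∑ A ∈ Iz X, bq 1 α L A ≤ ∑ A ∈ Iz X, ((1 / ((L : ℝ) * h)) *
      ∑ s ∈ Finset.range L, ∑ r ∈ Finset.range h, bq h 0 N (A + (s + r : ℕ)) +
        (2 * Real.pi * C * N + h * N) / L) :=
    Finset.sum_le_sum fun A _ => maj_pt α (α - p / h) C h N L hh hN1 (by omega) p (by ring) hβ A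
  refine e1.trans ?_
  rw [Finset.sum_add_distrib, ← Finset.mul_sum, Finset.sum_const, Iz_card, nsmul_eq_mul]
  -- the main term
  have e2 : ∑ A ∈ Iz X, ∑ s ∈ Finset.range L, ∑ r ∈ Finset.range h,
      bq h 0 N (A + (s + r : ℕ)) ≤ L * h * (η / 4 * ((X + (L + P) : ℕ) : ℝ)) := by
    rw [Finset.sum_comm]
    calc _ ≤ ∑ s ∈ Finset.range L, ∑ r ∈ Finset.range h,
          (η / 4 * ((X + (L + P) : ℕ) : ℝ) : ℝ) := by
          refine Finset.sum_le_sum fun s hs => ?_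
          rw [Finset.sum_comm]
          refine Finset.sum_le_sum fun r hr => ?_
          rw [Finset.mem_range] at hs hr
          refine (maj_shift _ (fun a => bq_nonneg _ _ _ a) X (L + P) (s + r) (by omega)).trans ?_
          exact hX₁ h hh hhP _ ((hX₂ h hhP).trans (by omega))
      _ = _ := by
          simp only [Finset.sum_const, Finset.card_range, nsmul_eq_mul]
          ring
  have e3 : (1 / ((L : ℝ) * h)) * ∑ A ∈ Iz X, ∑ s ∈ Finset.range L, ∑ r ∈ Finset.range h,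
      bq h 0 N (A + (s + r : ℕ)) ≤ η / 4 * ((X + (L + P) : ℕ) : ℝ) := by
    calc _ ≤ (1 / ((L : ℝ) * h)) * (L * h * (η / 4 * ((X + (L + P) : ℕ) : ℝ))) :=
          mul_le_mul_of_nonneg_left e2 (by positivity)
      _ = _ := by field_simp
  -- the error term
  have e4 : (2 * Real.pi * C * N + h * N) / L ≤ η / 8 := by
    rw [div_le_iff₀ hL0]
    have a1 : (2 * Real.pi * C * N + P * N) / (η / 8) < L :=
      hL₁.trans_le (by exact_mod_cast (by omega : L₁ ≤ L))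
    rw [div_lt_iff₀ (by positivity)] at a1
    have a2 : (h : ℝ) * N ≤ P * N :=
      mul_le_mul_of_nonneg_right (by exact_mod_cast hhP) hN0.le
    linarith
  have hX1 : ((L + P + 1 : ℕ) : ℝ) ≤ X := by exact_mod_cast (by omega : L + P + 1 ≤ X)
  push_cast at hX1 e3 ⊢
  have e5 : (2 * (X : ℝ) + 1) * ((2 * Real.pi * C * N + h * N) / L) ≤ (2 * X + 1) * (η / 8) :=
    mul_le_mul_of_nonneg_left e4 (by positivity)
  have hP0 : (0 : ℝ) ≤ P := Nat.cast_nonneg _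
  nlinarith


end Pool.Agent.PS

end MAJ

namespace Pool.Agent.PS

theorem maj_arc : type_of% @maj_arc_pr := @maj_arc_pr

end Pool.Agent.PS

/-! ### Block RES -/

section RES
/-!
PS block RES: `res_q_pr`, `mr_fou_pr`, `mr_q_pr`.
-/

namespace Pool.Agent.PS

open Filter Topology MeasureTheory

theorem res_pow (α : ℝ) (b : ℕ) : ez (b * α) = ez α ^ b := by
  induction b with
  | zero => simp [ez_zero]
  | succ b ih =>
    have h : ((b + 1 : ℕ) : ℝ) * α = (b : ℝ) * α + α := by push_cast; ring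
    rw [h, ez_add, ih, pow_succ]

theorem res_geo (q : ℕ) (hq : 1 ≤ q) (j : ℕ) :
    ∑ b ∈ Finset.range q, ez ((b : ℝ) * ((j : ℝ) / q)) = if q ∣ j then (q : ℂ) else 0 := by
  have hq0 : (q : ℝ) ≠ 0 := by
    have : (0 : ℝ) < q := by exact_mod_cast hq
    exact this.ne'
  simp only [res_pow]
  by_cases hd : q ∣ j
  · rw [if_pos hd]
    obtain ⟨c, rfl⟩ := hd
    have h1 : ((q * c : ℕ) : ℝ) / q = ((c : ℤ) : ℝ) := by
      push_cast
      field_simp
    rw [h1, ez_int]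
    simp
  · rw [if_neg hd]
    have hz : ez ((j : ℝ) / q) ≠ 1 := by
      intro h
      unfold ez at h
      rw [Complex.exp_eq_one_iff] at h
      obtain ⟨n, hn⟩ := h
      have h2 : ((2 * Real.pi * ((j : ℝ) / q) : ℝ) : ℂ) * Complex.I
          = ((2 * Real.pi * n : ℝ) : ℂ) * Complex.I := by
        rw [hn]; push_cast; ring
      have h3 := mul_right_cancel₀ Complex.I_ne_zero h2
      have h4 : 2 * Real.pi * ((j : ℝ) / q) = 2 * Real.pi * n := by exact_mod_cast h3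
      have h5 : (j : ℝ) / q = n := mul_left_cancel₀ (by positivity) h4
      have h6 : (j : ℝ) = n * q := by
        rw [div_eq_iff hq0] at h5; exact h5
      have h7 : (j : ℤ) = n * q := by exact_mod_cast h6
      apply hd
      have h8 : (q : ℤ) ∣ (j : ℤ) := ⟨n, by rw [h7]; ring⟩
      exact_mod_cast h8
    have hp : ez ((j : ℝ) / q) ^ q = 1 := by
      rw [← res_pow]
      have : (q : ℝ) * ((j : ℝ) / q) = ((j : ℤ) : ℝ) := by
        push_cast
        field_simp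
      rw [this, ez_int]
    rw [geom_sum_eq hz, hp]
    simp

theorem res_sub (q N : ℕ) (hq : 1 ≤ q) (g : ℕ → ℂ) :
    ∑ j ∈ Finset.range (q * N), (if q ∣ j then g j else 0) = ∑ i ∈ Finset.range N, g (q * i) := by
  classical
  rw [← Finset.sum_filter]
  have h : (Finset.range (q * N)).filter (fun j => q ∣ j)
      = (Finset.range N).image (fun i => q * i) := by
    ext j
    simp only [Finset.mem_filter, Finset.mem_range, Finset.mem_image]
    constructor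
    · rintro ⟨h1, c, rfl⟩
      exact ⟨c, Nat.lt_of_mul_lt_mul_left h1, rfl⟩
    · rintro ⟨i, hi, rfl⟩
      exact ⟨Nat.mul_lt_mul_of_pos_left hi hq, ⟨i, rfl⟩⟩
  rw [h, Finset.sum_image]
  intro a _ b _ hab
  exact Nat.eq_of_mul_eq_mul_left hq hab

theorem res_sum (q : ℕ) (hq : 1 ≤ q) (θ : ℝ) (N : ℕ) (A : ℤ) :
    ∑ b ∈ Finset.range q, ∑ j ∈ Finset.range (q * N),
      ez ((θ + b) / q * j) * (lz (A + 1 * j) : ℂ)
    = q * ∑ i ∈ Finset.range N, ez (θ * i) * (lz (A + q * i) : ℂ) := by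
  have hq0 : (q : ℝ) ≠ 0 := by
    have : (0 : ℝ) < q := by exact_mod_cast hq
    exact this.ne'
  rw [Finset.sum_comm]
  have h1 : ∀ j ∈ Finset.range (q * N), ∑ b ∈ Finset.range q,
      ez ((θ + b) / q * j) * (lz (A + 1 * j) : ℂ)
      = if q ∣ j then (q : ℂ) * (ez (θ * (j / q : ℕ)) * (lz (A + j) : ℂ)) else 0 := by
    intro j _
    have h2 : ∀ b ∈ Finset.range q, ez ((θ + b) / q * j) * (lz (A + 1 * j) : ℂ)
        = (ez (θ * ((j : ℝ) / q)) * (lz (A + j) : ℂ)) * ez ((b : ℝ) * ((j : ℝ) / q)) := by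
      intro b _
      have h3 : (θ + b) / q * j = θ * ((j : ℝ) / q) + (b : ℝ) * ((j : ℝ) / q) := by
        field_simp
      rw [h3, ez_add, one_mul]
      ring
    rw [Finset.sum_congr rfl h2, ← Finset.mul_sum, res_geo q hq j]
    by_cases hd : q ∣ j
    · rw [if_pos hd, if_pos hd]
      have h4 : (j : ℝ) / q = ((j / q : ℕ) : ℝ) := by
        rw [Nat.cast_div hd hq0]
      rw [h4]
      ring
    · rw [if_neg hd, if_neg hd, mul_zero]
  rw [Finset.sum_congr rfl h1,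
    res_sub q N hq (fun j => (q : ℂ) * (ez (θ * (j / q : ℕ)) * (lz (A + j) : ℂ))), Finset.mul_sum]
  apply Finset.sum_congr rfl
  intro i _
  have h5 : q * i / q = i := Nat.mul_div_cancel_left i hq
  simp only [h5]
  push_cast
  rfl

theorem res_q_pr (q : ℕ) (hq : 1 ≤ q) (θ : ℝ) (N : ℕ) (hN : 1 ≤ N) (A : ℤ) :
    bq q θ N A ≤ ∑ b ∈ Finset.range q, bq 1 ((θ + b) / q) (q * N) A := by
  have hq0 : (0 : ℝ) < q := by exact_mod_cast hq
  have hN0 : (0 : ℝ) < N := by exact_mod_cast hN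
  unfold bq
  rw [← Finset.sum_div]
  have h1 := res_sum q hq θ N A
  have h2 : (q : ℝ) * ‖∑ i ∈ Finset.range N, ez (θ * i) * (lz (A + q * i) : ℂ)‖
      ≤ ∑ b ∈ Finset.range q, ‖∑ j ∈ Finset.range (q * N),
        ez ((θ + b) / q * j) * (lz (A + 1 * j) : ℂ)‖ := by
    calc (q : ℝ) * ‖∑ i ∈ Finset.range N, ez (θ * i) * (lz (A + q * i) : ℂ)‖
        = ‖(q : ℂ) * ∑ i ∈ Finset.range N, ez (θ * i) * (lz (A + q * i) : ℂ)‖ := by
          rw [norm_mul, Complex.norm_natCast]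
      _ = ‖∑ b ∈ Finset.range q, ∑ j ∈ Finset.range (q * N),
            ez ((θ + b) / q * j) * (lz (A + 1 * j) : ℂ)‖ := by rw [h1]
      _ ≤ _ := norm_sum_le _ _
  have h3 : ((q * N : ℕ) : ℝ) = q * N := by push_cast; ring
  rw [h3, div_le_div_iff₀ hN0 (by positivity)]
  calc ‖∑ i ∈ Finset.range N, ez (θ * i) * (lz (A + q * i) : ℂ)‖ * (q * N)
      = ((q : ℝ) * ‖∑ i ∈ Finset.range N, ez (θ * i) * (lz (A + q * i) : ℂ)‖) * N := by ring
    _ ≤ _ := mul_le_mul_of_nonneg_right h2 hN0.le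

theorem mr_fou_pr (η : ℝ) (hη : 0 < η) : ∃ L₀ : ℕ, ∀ L : ℕ, L₀ ≤ L →
    ∃ X₀ : ℕ, ∀ X : ℕ, X₀ ≤ X → ∀ α : ℝ, ∑ A ∈ Iz X, bq 1 α L A ≤ η * X := by
  obtain ⟨P, L₁, C, hP, hC, h1⟩ := min_arc η hη
  obtain ⟨L₂, h2⟩ := maj_arc η hη P C hC
  refine ⟨max L₁ L₂, fun L hL => ?_⟩
  obtain ⟨X₁, hX₁⟩ := h1 L (le_trans (le_max_left _ _) hL)
  obtain ⟨X₂, hX₂⟩ := h2 L (le_trans (le_max_right _ _) hL)
  refine ⟨max X₁ X₂, fun X hX α => ?_⟩
  by_cases h : ∀ h p : ℤ, 1 ≤ h → h ≤ P → C / L < |(h : ℝ) * α - p|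
  · exact hX₁ X (le_trans (le_max_left _ _) hX) α h
  · push Not at h
    obtain ⟨h, p, ha, hb, hc⟩ := h
    exact hX₂ X (le_trans (le_max_right _ _) hX) α ⟨h, p, ha, hb, hc⟩

theorem res_pos (q : ℕ) (hq : 1 ≤ q) (η : ℝ) (hη : 0 < η) : ∃ N₀ : ℕ, ∀ N : ℕ, N₀ ≤ N →
    ∃ X₀ : ℕ, ∀ X : ℕ, X₀ ≤ X → ∀ θ : ℝ, ∑ A ∈ Iz X, bq q θ N A ≤ η * X := by
  have hq0 : (0 : ℝ) < q := by exact_mod_cast hq
  obtain ⟨L₀, h1⟩ := mr_fou_pr (η / q) (by positivity)
  refine ⟨max L₀ 1, fun N hN => ?_⟩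
  have hN1 : 1 ≤ N := le_trans (le_max_right _ _) hN
  have hNL : L₀ ≤ q * N := by
    have : L₀ ≤ N := le_trans (le_max_left _ _) hN
    exact this.trans (Nat.le_mul_of_pos_left N hq)
  obtain ⟨X₀, hX₀⟩ := h1 (q * N) hNL
  refine ⟨X₀, fun X hX θ => ?_⟩
  calc ∑ A ∈ Iz X, bq q θ N A
      ≤ ∑ A ∈ Iz X, ∑ b ∈ Finset.range q, bq 1 ((θ + b) / q) (q * N) A :=
        Finset.sum_le_sum (fun A _ => res_q_pr q hq θ N hN1 A)
    _ = ∑ b ∈ Finset.range q, ∑ A ∈ Iz X, bq 1 ((θ + b) / q) (q * N) A := Finset.sum_comm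
    _ ≤ ∑ b ∈ Finset.range q, η / q * X := Finset.sum_le_sum (fun b _ => hX₀ X hX _)
    _ = η * X := by
        rw [Finset.sum_const, Finset.card_range, nsmul_eq_mul]
        field_simp

theorem res_neg (q : ℤ) (θ : ℝ) (N : ℕ) (A : ℤ) : bq q θ N A = bq (-q) θ N (-A) := by
  unfold bq
  congr 2
  apply Finset.sum_congr rfl
  intro i _
  have : -A + -q * i = -(A + q * i) := by ring
  rw [this, lz_neg]

/-- the Liouville function in short progressions with a phase, at the natural scale -/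
theorem mr_q_pr (q : ℤ) (hq : q ≠ 0) (η : ℝ) (hη : 0 < η) : ∃ N₀ : ℕ, ∀ N : ℕ, N₀ ≤ N →
    ∃ X₀ : ℕ, ∀ X : ℕ, X₀ ≤ X → ∀ θ : ℝ, ∑ A ∈ Iz X, bq q θ N A ≤ η * X := by
  have hq1 : 1 ≤ q.natAbs := Nat.one_le_iff_ne_zero.2 (Int.natAbs_ne_zero.2 hq)
  obtain ⟨N₀, h⟩ := res_pos q.natAbs hq1 η hη
  refine ⟨N₀, fun N hN => ?_⟩
  obtain ⟨X₀, hX₀⟩ := h N hN
  refine ⟨X₀, fun X hX θ => ?_⟩
  have h1 := hX₀ X hX θ
  rcases le_or_gt 0 q with h0 | h0
  · have h2 : ((q.natAbs : ℕ) : ℤ) = q := Int.natAbs_of_nonneg h0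
    rw [h2] at h1
    exact h1
  · have h2 : ((q.natAbs : ℕ) : ℤ) = -q := by
      rw [← Int.natAbs_neg, Int.natAbs_of_nonneg (by omega)]
    rw [h2] at h1
    refine le_trans (le_of_eq ?_) h1
    refine Finset.sum_nbij' (fun a => -a) (fun a => -a) ?_ ?_ ?_ ?_ ?_
    · intro a ha
      rw [mem_Iz] at ha ⊢
      constructor <;> omega
    · intro a ha
      rw [mem_Iz] at ha ⊢
      constructor <;> omega
    · intro a _; exact neg_neg a
    · intro a _; exact neg_neg a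
    · intro a _
      exact res_neg q θ N a


end Pool.Agent.PS

end RES

namespace Pool.Agent.PS

theorem res_q : type_of% @res_q_pr := @res_q_pr

theorem mr_fou : type_of% @mr_fou_pr := @mr_fou_pr

theorem mr_q : type_of% @mr_q_pr := @mr_q_pr

end Pool.Agent.PS
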