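import Mathlib
import Pool.Agent.Lib_helper1.PSF.M6

/-! ### Block VDC -/

section VDC
/-! PS, block VDC: van der Corput's inequality for a family -/

namespace Pool.Agent.PS

open Filter Topology MeasureTheory

/-- the windowed sequence -/
noncomputable def vdc_w (y : ℕ → ℂ) (x m i : ℕ) : ℂ := if i ≤ m ∧ m < x + i then y (m - i) else 0

theorem vdc_w_sum (y : ℕ → ℂ) (x M i : ℕ) (hi : i < M) :
    ∑ m ∈ Finset.range (x + M), vdc_w y x m i = ∑ n ∈ Finset.range x, y n := by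
  have h1 : ∑ m ∈ Finset.Ico i (x + i), vdc_w y x m i =
      ∑ m ∈ Finset.range (x + M), vdc_w y x m i := by
    apply Finset.sum_subset
    · intro m hm
      rw [Finset.mem_Ico] at hm
      rw [Finset.mem_range]
      omega
    · intro m _ hm
      rw [Finset.mem_Ico] at hm
      unfold vdc_w
      rw [if_neg hm]
  rw [← h1, Finset.sum_Ico_eq_sum_range]
  have h2 : x + i - i = x := by omega
  rw [h2]
  refine Finset.sum_congr rfl fun n hn => ?_
  rw [Finset.mem_range] at hn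
  unfold vdc_w
  rw [if_pos ⟨by omega, by omega⟩]
  congr 1
  omega

theorem vdc_c (y : ℕ → ℂ) (x M i j : ℕ) (hij : i ≤ j) (hj : j < M) :
    ∑ m ∈ Finset.range (x + M), vdc_w y x m i * (starRingEnd ℂ) (vdc_w y x m j) =
      ∑ n ∈ Finset.range (x - (j - i)), y (n + (j - i)) * (starRingEnd ℂ) (y n) := by
  have h1 : ∑ m ∈ Finset.Ico j (x + i), vdc_w y x m i * (starRingEnd ℂ) (vdc_w y x m j) =
      ∑ m ∈ Finset.range (x + M), vdc_w y x m i * (starRingEnd ℂ) (vdc_w y x m j) := by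
    apply Finset.sum_subset
    · intro m hm
      rw [Finset.mem_Ico] at hm
      rw [Finset.mem_range]
      omega
    · intro m _ hm
      rw [Finset.mem_Ico] at hm
      unfold vdc_w
      by_cases h : i ≤ m ∧ m < x + i
      · have h' : ¬ (j ≤ m ∧ m < x + j) := by omega
        rw [if_neg h', map_zero, mul_zero]
      · rw [if_neg h, zero_mul]
  rw [← h1, Finset.sum_Ico_eq_sum_range]
  have h2 : x + i - j = x - (j - i) := by omega
  rw [h2]
  refine Finset.sum_congr rfl fun n hn => ?_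
  rw [Finset.mem_range] at hn
  unfold vdc_w
  rw [if_pos ⟨by omega, by omega⟩, if_pos ⟨by omega, by omega⟩]
  have e1 : j + n - i = n + (j - i) := by omega
  have e2 : j + n - j = n := by omega
  rw [e1, e2]

/-- one sequence -/
theorem vdc_one (y : ℕ → ℂ) (x M : ℕ) (hMx : M ≤ x) :
    (M : ℝ) ^ 2 * ‖∑ n ∈ Finset.range x, y n‖ ^ 2 ≤ 2 * x *
      (∑ i ∈ Finset.range M, ∑ j ∈ Finset.range M, ∑ m ∈ Finset.range (x + M),
        vdc_w y x m i * (starRingEnd ℂ) (vdc_w y x m j)).re := by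
  have h1 : (M : ℂ) * ∑ n ∈ Finset.range x, y n =
      ∑ m ∈ Finset.range (x + M), ∑ i ∈ Finset.range M, vdc_w y x m i := by
    rw [Finset.sum_comm]
    rw [Finset.sum_congr rfl fun i hi => vdc_w_sum y x M i (Finset.mem_range.1 hi)]
    simp
  have h2 : (M : ℝ) * ‖∑ n ∈ Finset.range x, y n‖ ≤
      ∑ m ∈ Finset.range (x + M), ‖∑ i ∈ Finset.range M, vdc_w y x m i‖ := by
    have h := norm_sum_le (Finset.range (x + M)) (fun m => ∑ i ∈ Finset.range M, vdc_w y x m i)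
    rw [← h1, norm_mul, Complex.norm_natCast] at h
    exact h
  have h3 : (M : ℝ) ^ 2 * ‖∑ n ∈ Finset.range x, y n‖ ^ 2 ≤ ((x + M : ℕ) : ℝ) *
      ∑ m ∈ Finset.range (x + M), ‖∑ i ∈ Finset.range M, vdc_w y x m i‖ ^ 2 := by
    rw [← mul_pow]
    refine (pow_le_pow_left₀ (by positivity) h2 2).trans ?_
    have h := sq_sum_le_card_mul_sum_sq (s := Finset.range (x + M))
      (f := fun m => ‖∑ i ∈ Finset.range M, vdc_w y x m i‖)
    rw [Finset.card_range] at h
    exact h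
  have h4 : ∑ m ∈ Finset.range (x + M), ‖∑ i ∈ Finset.range M, vdc_w y x m i‖ ^ 2 =
      (∑ i ∈ Finset.range M, ∑ j ∈ Finset.range M, ∑ m ∈ Finset.range (x + M),
        vdc_w y x m i * (starRingEnd ℂ) (vdc_w y x m j)).re := by
    have e : ∑ i ∈ Finset.range M, ∑ j ∈ Finset.range M, ∑ m ∈ Finset.range (x + M),
        vdc_w y x m i * (starRingEnd ℂ) (vdc_w y x m j) =
        ∑ m ∈ Finset.range (x + M), ((‖∑ i ∈ Finset.range M, vdc_w y x m i‖ ^ 2 : ℝ) : ℂ) := by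
      rw [Finset.sum_congr rfl fun i _ => Finset.sum_comm]
      rw [Finset.sum_comm]
      refine Finset.sum_congr rfl fun m _ => ?_
      rw [← Complex.normSq_eq_norm_sq, ← Complex.mul_conj, map_sum, Finset.sum_mul_sum]
    rw [e, ← Complex.ofReal_sum, Complex.ofReal_re]
  rw [← h4]
  refine h3.trans ?_
  have h5 : ((x + M : ℕ) : ℝ) ≤ 2 * x := by
    have : (M : ℝ) ≤ x := by exact_mod_cast hMx
    push_cast
    linarith
  exact mul_le_mul_of_nonneg_right h5 (Finset.sum_nonneg fun _ _ => by positivity)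

/-- the correlation of the family -/
noncomputable def vdc_a {ι : Type} (T : Finset ι) (y : ι → ℕ → ℂ) (x r : ℕ) : ℝ :=
  ‖∑ n ∈ Finset.range (x - r), ∑ t ∈ T, y t n * (starRingEnd ℂ) (y t (n + r))‖

theorem vdc_le {ι : Type} (T : Finset ι) (y : ι → ℕ → ℂ) (x M i j : ℕ) (hij : i ≤ j) (hj : j < M) :
    ‖∑ t ∈ T, ∑ m ∈ Finset.range (x + M), vdc_w (y t) x m i *
      (starRingEnd ℂ) (vdc_w (y t) x m j)‖ = vdc_a T y x (j - i) := by
  unfold vdc_a
  rw [Finset.sum_congr rfl fun t _ => vdc_c (y t) x M i j hij hj]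
  rw [← Complex.norm_conj]
  rw [Finset.sum_comm, map_sum]
  congr 1
  refine Finset.sum_congr rfl fun n _ => ?_
  rw [map_sum]
  refine Finset.sum_congr rfl fun t _ => ?_
  rw [map_mul, Complex.conj_conj, mul_comm]

theorem vdc_le' {ι : Type} (T : Finset ι) (y : ι → ℕ → ℂ) (x M i j : ℕ) (hij : j ≤ i) (hj : i < M) :
    ‖∑ t ∈ T, ∑ m ∈ Finset.range (x + M), vdc_w (y t) x m i *
      (starRingEnd ℂ) (vdc_w (y t) x m j)‖ = vdc_a T y x (i - j) := by
  rw [← vdc_le T y x M j i hij hj, ← Complex.norm_conj, map_sum]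
  congr 1
  refine Finset.sum_congr rfl fun t _ => ?_
  rw [map_sum]
  refine Finset.sum_congr rfl fun m _ => ?_
  rw [map_mul, Complex.conj_conj, mul_comm]

theorem vdc_a0 {ι : Type} (T : Finset ι) (y : ι → ℕ → ℂ) (x : ℕ) (hy : ∀ t n, ‖y t n‖ ≤ 1) :
    vdc_a T y x 0 ≤ x * T.card := by
  unfold vdc_a
  calc ‖∑ n ∈ Finset.range (x - 0), ∑ t ∈ T, y t n * (starRingEnd ℂ) (y t (n + 0))‖
      ≤ ∑ n ∈ Finset.range (x - 0), (T.card : ℝ) := by
        refine norm_sum_le_of_le _ fun n _ => ?_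
        calc ‖∑ t ∈ T, y t n * (starRingEnd ℂ) (y t (n + 0))‖ ≤ ∑ t ∈ T, (1 : ℝ) := by
              refine norm_sum_le_of_le _ fun t _ => ?_
              rw [norm_mul, Complex.norm_conj]
              exact mul_le_one₀ (hy t n) (norm_nonneg _) (hy t _)
          _ = T.card := by simp
    _ = x * T.card := by simp

theorem vdc_pr {ι : Type} (T : Finset ι) (y : ι → ℕ → ℂ) (x M : ℕ) (hM : 1 ≤ M) (hMx : M ≤ x)
    (hy : ∀ t n, ‖y t n‖ ≤ 1) :
    ∑ t ∈ T, ‖∑ n ∈ Finset.range x, y t n‖ ^ 2 ≤ 2 * (x : ℝ) ^ 2 * T.card / M +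
      4 * x / M * ∑ r ∈ Finset.Ico 1 M, ‖∑ n ∈ Finset.range (x - r), ∑ t ∈ T,
        y t n * (starRingEnd ℂ) (y t (n + r))‖ := by
  classical
  have hM0 : (0 : ℝ) < M := by exact_mod_cast hM
  set A : ℝ := ∑ r ∈ Finset.Ico 1 M, vdc_a T y x r with hA
  have ha0 : ∀ r, 0 ≤ vdc_a T y x r := fun r => norm_nonneg _
  -- the double sum
  have h1 : ∑ t ∈ T, (∑ i ∈ Finset.range M, ∑ j ∈ Finset.range M, ∑ m ∈ Finset.range (x + M),
        vdc_w (y t) x m i * (starRingEnd ℂ) (vdc_w (y t) x m j)).re ≤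
      M * (x * T.card) + 2 * M * A := by
    have e1 : ∑ t ∈ T, (∑ i ∈ Finset.range M, ∑ j ∈ Finset.range M,
        ∑ m ∈ Finset.range (x + M),
        vdc_w (y t) x m i * (starRingEnd ℂ) (vdc_w (y t) x m j)).re =
        (∑ i ∈ Finset.range M, ∑ j ∈ Finset.range M, ∑ t ∈ T, ∑ m ∈ Finset.range (x + M),
        vdc_w (y t) x m i * (starRingEnd ℂ) (vdc_w (y t) x m j)).re := by
      rw [← Complex.re_sum, Finset.sum_comm]
      congr 1
      exact Finset.sum_congr rfl fun i _ => Finset.sum_comm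
    rw [e1]
    refine (Complex.re_le_norm _).trans ?_
    have e2 : ∀ i ∈ Finset.range M, ∀ j ∈ Finset.range M,
        ‖∑ t ∈ T, ∑ m ∈ Finset.range (x + M),
          vdc_w (y t) x m i * (starRingEnd ℂ) (vdc_w (y t) x m j)‖ ≤
        (if i = j then (x * T.card : ℝ) else 0) + (if i < j then vdc_a T y x (j - i) else 0) +
          (if j < i then vdc_a T y x (i - j) else 0) := by
      intro i hi j hj
      rw [Finset.mem_range] at hi hj
      rcases lt_trichotomy i j with h | h | h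
      · rw [vdc_le T y x M i j h.le hj, if_neg h.ne, if_pos h, if_neg h.not_gt]
        simp
      · subst h
        rw [vdc_le T y x M i i le_rfl hj, Nat.sub_self]
        simpa using vdc_a0 T y x hy
      · rw [vdc_le' T y x M i j h.le hi, if_neg h.ne', if_neg h.not_gt, if_pos h]
        simp
    have e3 : ∀ i ∈ Finset.range M, ∑ j ∈ Finset.range M,
        (if i < j then vdc_a T y x (j - i) else 0) ≤ A := by
      intro i _
      rw [← Finset.sum_filter]
      have : ∑ j ∈ (Finset.range M).filter (fun j => i < j), vdc_a T y x (j - i) =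
          ∑ r ∈ ((Finset.range M).filter (fun j => i < j)).image (fun j => j - i),
            vdc_a T y x r := by
        rw [Finset.sum_image]
        intro a ha b hb hab
        simp only [Finset.coe_filter, Finset.mem_range, Set.mem_ofPred_eq] at ha hb
        simp only at hab
        omega
      rw [this, hA]
      refine Finset.sum_le_sum_of_subset_of_nonneg ?_ fun r _ _ => ha0 r
      intro r hr
      simp only [Finset.mem_image, Finset.mem_filter, Finset.mem_range] at hr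
      obtain ⟨j, ⟨h1, h2⟩, rfl⟩ := hr
      rw [Finset.mem_Ico]
      omega
    have e4 : ∀ i ∈ Finset.range M, ∑ j ∈ Finset.range M,
        (if j < i then vdc_a T y x (i - j) else 0) ≤ A := by
      intro i hi
      rw [Finset.mem_range] at hi
      rw [← Finset.sum_filter]
      have : ∑ j ∈ (Finset.range M).filter (fun j => j < i), vdc_a T y x (i - j) =
          ∑ r ∈ ((Finset.range M).filter (fun j => j < i)).image (fun j => i - j),
            vdc_a T y x r := by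
        rw [Finset.sum_image]
        intro a ha b hb hab
        simp only [Finset.coe_filter, Finset.mem_range, Set.mem_ofPred_eq] at ha hb
        simp only at hab
        omega
      rw [this, hA]
      refine Finset.sum_le_sum_of_subset_of_nonneg ?_ fun r _ _ => ha0 r
      intro r hr
      simp only [Finset.mem_image, Finset.mem_filter, Finset.mem_range] at hr
      obtain ⟨j, ⟨h1, h2⟩, rfl⟩ := hr
      rw [Finset.mem_Ico]
      omega
    calc ‖∑ i ∈ Finset.range M, ∑ j ∈ Finset.range M, ∑ t ∈ T, ∑ m ∈ Finset.range (x + M),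
          vdc_w (y t) x m i * (starRingEnd ℂ) (vdc_w (y t) x m j)‖
        ≤ ∑ i ∈ Finset.range M, ∑ j ∈ Finset.range M,
          ((if i = j then (x * T.card : ℝ) else 0) + (if i < j then vdc_a T y x (j - i) else 0) +
          (if j < i then vdc_a T y x (i - j) else 0)) :=
          norm_sum_le_of_le _ fun i hi => norm_sum_le_of_le _ fun j hj => e2 i hi j hj
      _ ≤ ∑ i ∈ Finset.range M, ((x * T.card : ℝ) + A + A) := by
          refine Finset.sum_le_sum fun i hi => ?_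
          rw [Finset.sum_add_distrib, Finset.sum_add_distrib]
          have e5 : ∑ j ∈ Finset.range M, (if i = j then (x * T.card : ℝ) else 0) ≤
              x * T.card := by
            rw [Finset.sum_ite_eq, if_pos hi]
          exact add_le_add (add_le_add e5 (e3 i hi)) (e4 i hi)
      _ = M * (x * T.card) + 2 * M * A := by
          rw [Finset.sum_const, Finset.card_range, nsmul_eq_mul]
          ring
  have h2 : (M : ℝ) ^ 2 * ∑ t ∈ T, ‖∑ n ∈ Finset.range x, y t n‖ ^ 2 ≤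
      2 * x * (M * (x * T.card) + 2 * M * A) := by
    rw [Finset.mul_sum]
    refine (Finset.sum_le_sum fun t _ => vdc_one (y t) x M hMx).trans ?_
    rw [← Finset.mul_sum]
    exact mul_le_mul_of_nonneg_left h1 (by positivity)
  have h3 : (2 * (x : ℝ) ^ 2 * T.card / M + 4 * x / M * A) =
      2 * x * (M * (x * T.card) + 2 * M * A) / M ^ 2 := by
    field_simp
    ring
  change _ ≤ 2 * (x : ℝ) ^ 2 * T.card / M + 4 * x / M * A
  rw [h3, le_div_iff₀ (by positivity), mul_comm]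
  exact h2

end Pool.Agent.PS

end VDC

namespace Pool.Agent.PS

theorem vdc : type_of% @vdc_pr := @vdc_pr

end Pool.Agent.PS

/-! ### Block CNP -/

section CNP
namespace Pool.Agent.PS

open Filter Topology MeasureTheory

theorem cnp_deriv (f : Polynomial ℤ) (hf : 0 < f.natDegree) : ∃ c t₀ : ℝ, 0 < c ∧ 0 < t₀ ∧
    ∀ t : ℝ, t₀ ≤ t → c * t ^ (f.natDegree - 1) ≤
      |(Polynomial.derivative (f.map (Int.castRingHom ℝ))).eval t| := by
  have hFd : (f.map (Int.castRingHom ℝ)).natDegree = f.natDegree :=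
    Polynomial.natDegree_map_eq_of_injective (RingHom.injective_int _) f
  have hPd : (Polynomial.derivative (f.map (Int.castRingHom ℝ))).natDegree =
      f.natDegree - 1 := by
    rw [Polynomial.natDegree_derivative, hFd]
  set P := Polynomial.derivative (f.map (Int.castRingHom ℝ)) with hP
  have hP0 : P ≠ 0 := by
    intro h
    have h1 := Polynomial.derivative_eq_zero.1 (hP.symm.trans h)
    omega
  have hlc : P.leadingCoeff ≠ 0 := Polynomial.leadingCoeff_ne_zero.2 hP0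
  have h := (Polynomial.isEquivalent_atTop_lead P).isBigO_symm
  obtain ⟨c, hc, h1⟩ := h.exists_pos
  rw [Asymptotics.isBigOWith_iff, eventually_atTop] at h1
  obtain ⟨T, hT⟩ := h1
  refine ⟨|P.leadingCoeff| / c, max T 1, by positivity, by positivity, ?_⟩
  intro t ht
  have ht1 : 1 ≤ t := (le_max_right _ _).trans ht
  have h2 := hT t ((le_max_left _ _).trans ht)
  rw [norm_mul, norm_pow, Real.norm_eq_abs, Real.norm_eq_abs, Real.norm_eq_abs,
    abs_of_nonneg (by linarith : (0 : ℝ) ≤ t), hPd] at h2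
  rw [div_mul_eq_mul_div, div_le_iff₀ hc, mul_comm _ c]
  exact h2

theorem cnp_slope (f : Polynomial ℤ) {c t₀ : ℝ} (hc : 0 < c)
    (h : ∀ t : ℝ, t₀ ≤ t → c * t ^ (f.natDegree - 1) ≤
      |(Polynomial.derivative (f.map (Int.castRingHom ℝ))).eval t|) {δ : ℝ} (hδ : 0 < δ)
    {x m n : ℕ} (hx : t₀ ≤ δ * x) (hm : δ * x ≤ m) (hmn : m ≤ n) :
    c * δ ^ (f.natDegree - 1) * (x : ℝ) ^ (f.natDegree - 1) * ((n : ℝ) - m) ≤
      |((f.eval (n : ℤ) - f.eval (m : ℤ) : ℤ) : ℝ)| := by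
  rcases Nat.eq_or_lt_of_le hmn with rfl | hlt
  · simp
  have hlt' : (m : ℝ) < n := by exact_mod_cast hlt
  obtain ⟨t, ht, hs⟩ := exists_hasDerivAt_eq_slope
    (fun t : ℝ => (f.map (Int.castRingHom ℝ)).eval t)
    (fun t : ℝ => (Polynomial.derivative (f.map (Int.castRingHom ℝ))).eval t) hlt'
    (Polynomial.continuous _).continuousOn (fun t _ => Polynomial.hasDerivAt _ t)
  have e : ∀ k : ℕ, (f.map (Int.castRingHom ℝ)).eval (k : ℝ) = ((f.eval (k : ℤ) : ℤ) : ℝ) := by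
    intro k
    simp
  have hd : (0 : ℝ) < (n : ℝ) - m := by linarith
  have hs' : (Polynomial.derivative (f.map (Int.castRingHom ℝ))).eval t * ((n : ℝ) - m) =
      ((f.eval (n : ℤ) - f.eval (m : ℤ) : ℤ) : ℝ) := by
    have h1 : (Polynomial.derivative (f.map (Int.castRingHom ℝ))).eval t =
      ((f.map (Int.castRingHom ℝ)).eval (n : ℝ) - (f.map (Int.castRingHom ℝ)).eval (m : ℝ)) /
        ((n : ℝ) - m) := hs
    rw [h1, div_mul_cancel₀ _ hd.ne', e, e]
    push_cast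
    ring
  rw [← hs', abs_mul, abs_of_pos hd]
  apply mul_le_mul_of_nonneg_right _ hd.le
  have ht1 : δ * x ≤ t := hm.trans ht.1.le
  refine le_trans ?_ (h t (hx.trans ht1))
  rw [mul_assoc, ← mul_pow]
  apply mul_le_mul_of_nonneg_left _ hc.le
  exact pow_le_pow_left₀ (by positivity) ht1 _

/-- few values of a polynomial in an interval -/
theorem cnt_poly_pr (f : Polynomial ℤ) (δ : ℝ) (hδ : 0 < δ) : ∃ (C : ℝ) (x₀ : ℕ), 1 ≤ C ∧
    ∀ x : ℕ, x₀ ≤ x → ∀ Δ : ℕ, 1 ≤ Δ → x ^ (f.natDegree - 1) ≤ Δ → ∀ b : ℤ,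
      (((Finset.Icc 1 x).filter (fun n : ℕ => δ * x ≤ n ∧ |f.eval (n : ℤ) - b| ≤ Δ)).card : ℝ) *
        max ((x : ℝ) ^ f.natDegree) Δ ≤ C * x * Δ := by
  have triv : ∀ (x : ℕ) (Δ : ℕ) (b : ℤ) (C : ℝ), 1 ≤ C → (x : ℝ) ^ f.natDegree ≤ Δ →
      (((Finset.Icc 1 x).filter (fun n : ℕ => δ * x ≤ n ∧ |f.eval (n : ℤ) - b| ≤ Δ)).card : ℝ) *
        max ((x : ℝ) ^ f.natDegree) Δ ≤ C * x * Δ := by
    intro x Δ b C hC h
    rw [max_eq_right h]
    have h1 : (((Finset.Icc 1 x).filter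
        (fun n : ℕ => δ * x ≤ n ∧ |f.eval (n : ℤ) - b| ≤ Δ)).card : ℝ) ≤ x := by
      have h2 := Finset.card_filter_le (Finset.Icc 1 x)
        (fun n : ℕ => δ * x ≤ n ∧ |f.eval (n : ℤ) - b| ≤ Δ)
      rw [Nat.card_Icc, Nat.add_sub_cancel] at h2
      exact_mod_cast h2
    have hΔ : (0 : ℝ) ≤ Δ := Nat.cast_nonneg _
    have hx : (0 : ℝ) ≤ x := Nat.cast_nonneg _
    calc _ ≤ (x : ℝ) * Δ := mul_le_mul_of_nonneg_right h1 hΔ
      _ ≤ C * x * Δ := by
        apply mul_le_mul_of_nonneg_right _ hΔ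
        nlinarith
  rcases Nat.eq_zero_or_pos f.natDegree with hD | hD
  · refine ⟨1, 0, le_rfl, fun x _ Δ hΔ _ b => triv x Δ b 1 le_rfl ?_⟩
    rw [hD, pow_zero]
    exact_mod_cast hΔ
  obtain ⟨c, t₀, hc, ht₀, hder⟩ := cnp_deriv f hD
  set D := f.natDegree with hDdef
  have hc2 : 0 < c * δ ^ (D - 1) := by positivity
  refine ⟨2 / (c * δ ^ (D - 1)) + 1, ⌈t₀ / δ⌉₊ + 1, by
    have : 0 ≤ 2 / (c * δ ^ (D - 1)) := by positivity
    linarith, ?_⟩
  intro x hx Δ hΔ hxΔ b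
  rcases le_total ((x : ℝ) ^ D) Δ with h | h
  · apply triv x Δ b _ _ h
    have : 0 ≤ 2 / (c * δ ^ (D - 1)) := by positivity
    linarith
  rw [max_eq_left h]
  have hx1 : 1 ≤ x := by omega
  have hx1' : (1 : ℝ) ≤ x := by exact_mod_cast hx1
  have hxδ : t₀ ≤ δ * x := by
    have h1 : (⌈t₀ / δ⌉₊ : ℝ) ≤ x := by
      have : ⌈t₀ / δ⌉₊ ≤ x := by omega
      exact_mod_cast this
    have h2 : t₀ / δ ≤ x := (Nat.le_ceil _).trans h1
    rw [div_le_iff₀ hδ] at h2
    linarith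
  set S := (Finset.Icc 1 x).filter (fun n : ℕ => δ * x ≤ n ∧ |f.eval (n : ℤ) - b| ≤ Δ) with hS
  have hΔ' : (0 : ℝ) ≤ Δ := Nat.cast_nonneg _
  rcases S.eq_empty_or_nonempty with h0 | h0
  · rw [h0, Finset.card_empty, Nat.cast_zero, zero_mul]
    positivity
  set m := S.min' h0 with hm
  have hmS : m ∈ S := S.min'_mem h0
  rw [hS, Finset.mem_filter] at hmS
  obtain ⟨-, hm1, hm2⟩ := hmS
  set K := c * δ ^ (D - 1) * (x : ℝ) ^ (D - 1) with hK
  have hK0 : 0 < K := by positivity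
  have hsub : S ⊆ Finset.Icc m (m + ⌊2 * (Δ : ℝ) / K⌋₊) := by
    intro n hn
    have hmn : m ≤ n := S.min'_le n hn
    rw [Finset.mem_Icc]
    refine ⟨hmn, ?_⟩
    rw [hS, Finset.mem_filter] at hn
    obtain ⟨-, -, hn2⟩ := hn
    have h1 := cnp_slope f hc hder hδ hxδ hm1 hmn
    rw [← hDdef, ← hK] at h1
    have h2 : |((f.eval (n : ℤ) - f.eval (m : ℤ) : ℤ) : ℝ)| ≤ 2 * (Δ : ℝ) := by
      have h3 : |f.eval (n : ℤ) - f.eval (m : ℤ)| ≤ 2 * (Δ : ℤ) := by
        have e : f.eval (n : ℤ) - f.eval (m : ℤ) =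
          (f.eval (n : ℤ) - b) - (f.eval (m : ℤ) - b) := by ring
        rw [e]
        exact (abs_sub _ _).trans (by linarith)
      exact_mod_cast h3
    have h4 : (n : ℝ) - m ≤ 2 * (Δ : ℝ) / K := by
      rw [le_div_iff₀ hK0, mul_comm]
      exact h1.trans h2
    have h5 : ((n - m : ℕ) : ℝ) ≤ 2 * (Δ : ℝ) / K := by
      rw [Nat.cast_sub hmn]
      exact h4
    have h6 : n - m ≤ ⌊2 * (Δ : ℝ) / K⌋₊ := Nat.le_floor h5
    omega
  have hcard : (S.card : ℝ) ≤ 2 * (Δ : ℝ) / K + 1 := by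
    have h1 := Finset.card_le_card hsub
    rw [Nat.card_Icc] at h1
    have h2 : S.card ≤ ⌊2 * (Δ : ℝ) / K⌋₊ + 1 := by omega
    have h3 : (⌊2 * (Δ : ℝ) / K⌋₊ : ℝ) ≤ 2 * (Δ : ℝ) / K := Nat.floor_le (by positivity)
    have h4 : (S.card : ℝ) ≤ (⌊2 * (Δ : ℝ) / K⌋₊ : ℝ) + 1 := by exact_mod_cast h2
    linarith
  have hxD : (x : ℝ) ^ D = x * (x : ℝ) ^ (D - 1) := by
    rw [← pow_succ']
    congr 1
    omega
  have hxΔ' : (x : ℝ) ^ (D - 1) ≤ Δ := by exact_mod_cast hxΔ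
  have hxp : 0 < (x : ℝ) ^ (D - 1) := by positivity
  calc (S.card : ℝ) * (x : ℝ) ^ D ≤ (2 * (Δ : ℝ) / K + 1) * (x : ℝ) ^ D :=
        mul_le_mul_of_nonneg_right hcard (by positivity)
    _ = 2 / (c * δ ^ (D - 1)) * x * Δ + x * (x : ℝ) ^ (D - 1) := by
        rw [hxD, hK]
        field_simp
    _ ≤ 2 / (c * δ ^ (D - 1)) * x * Δ + x * Δ := by
        have := mul_le_mul_of_nonneg_left hxΔ' (by linarith : (0 : ℝ) ≤ x)
        linarith
    _ = (2 / (c * δ ^ (D - 1)) + 1) * x * Δ := by ring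


end Pool.Agent.PS

end CNP

namespace Pool.Agent.PS

theorem cnt_poly : type_of% @cnt_poly_pr := @cnt_poly_pr

end Pool.Agent.PS

/-! ### Block CNB -/

section CNB
/-!
# PS, block CNB: few coefficients give the same value
-/

namespace Pool.Agent.PS

open Filter Topology MeasureTheory

theorem cnb_U (H n : ℕ) (hn : 1 ≤ n) (y : ℤ) :
    ((Finset.Icc ⌈((y : ℝ) - H) / n⌉ ⌊((y : ℝ) + H) / n⌋).card : ℝ) ≤ 2 * (H : ℝ) / n + 1 := by
  have hn0 : (0 : ℝ) < n := by exact_mod_cast hn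
  rw [Int.card_Icc]
  have h1 := Int.floor_le (((y : ℝ) + H) / n)
  have h2 := Int.le_ceil (((y : ℝ) - H) / n)
  have hpos : (0 : ℝ) ≤ 2 * (H : ℝ) / n + 1 := by positivity
  rcases le_total 0 (⌊((y : ℝ) + H) / n⌋ + 1 - ⌈((y : ℝ) - H) / n⌉) with h | h
  · have h3 : (((⌊((y : ℝ) + H) / n⌋ + 1 - ⌈((y : ℝ) - H) / n⌉).toNat : ℤ) : ℝ) =
        ((⌊((y : ℝ) + H) / n⌋ + 1 - ⌈((y : ℝ) - H) / n⌉ : ℤ) : ℝ) := by
      rw [Int.toNat_of_nonneg h]
    rw [Int.cast_natCast] at h3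
    rw [h3]
    push_cast
    have h4 : ((y : ℝ) + H) / n - ((y : ℝ) - H) / n = 2 * (H : ℝ) / n := by ring
    linarith
  · rw [Int.toNat_of_nonpos h]
    simpa using hpos

theorem cnb_sum (j : ℕ) (h : Fin (j + 1 + 1) → ℤ) (n : ℕ) :
    ∑ i, h i * (n : ℤ) ^ (i : ℕ) = h 0 + n * ∑ i, Fin.tail h i * (n : ℤ) ^ (i : ℕ) := by
  rw [Fin.sum_univ_succ, Finset.mul_sum]
  simp only [Fin.val_zero, pow_zero, mul_one, Fin.val_succ, Fin.tail]
  congr 1
  apply Finset.sum_congr rfl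
  intro i _
  ring

theorem cnb_step (H n : ℕ) (hn : 1 ≤ n) (j : ℕ) (y : ℤ) :
    (((bx j H).filter (fun h : Fin (j + 1) → ℤ =>
      ∑ i, h i * (n : ℤ) ^ (i : ℕ) = y)).card : ℝ) ≤ (2 * (H : ℝ) / n + 1) ^ j := by
  classical
  have hn0 : (0 : ℝ) < n := by exact_mod_cast hn
  induction j generalizing y with
  | zero =>
    rw [pow_zero]
    have h1 : ((bx 0 H).filter (fun h : Fin (0 + 1) → ℤ =>
        ∑ i, h i * (n : ℤ) ^ (i : ℕ) = y)).card ≤ 1 := by
      rw [Finset.card_le_one]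
      intro a ha b hb
      rw [Finset.mem_filter] at ha hb
      have ha1 := ha.2
      have hb1 := hb.2
      simp at ha1 hb1
      funext i
      have hi : i = 0 := by
        apply Fin.ext
        have := i.isLt
        simp only [Fin.val_zero]
        omega
      rw [hi, ha1, hb1]
    exact_mod_cast h1
  | succ j ih =>
    set U : Finset ℤ := Finset.Icc ⌈((y : ℝ) - H) / n⌉ ⌊((y : ℝ) + H) / n⌋ with hU
    set S : ℤ → Finset (Fin (j + 1) → ℤ) := fun u => (bx j H).filter (fun h : Fin (j + 1) → ℤ =>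
      ∑ i, h i * (n : ℤ) ^ (i : ℕ) = u) with hS
    have hsub : ((bx (j + 1) H).filter (fun h : Fin (j + 1 + 1) → ℤ =>
        ∑ i, h i * (n : ℤ) ^ (i : ℕ) = y)) ⊆
        U.biUnion (fun u => (S u).image (fun t => (Fin.cons (y - n * u) t : Fin (j + 1 + 1) → ℤ))) := by
      intro h hh
      rw [Finset.mem_filter] at hh
      obtain ⟨hb, he⟩ := hh
      unfold bx at hb
      rw [Fintype.mem_piFinset] at hb
      rw [cnb_sum] at he
      rw [Finset.mem_biUnion]
      refine ⟨∑ i, Fin.tail h i * (n : ℤ) ^ (i : ℕ), ?_, ?_⟩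
      · have h0 := hb 0
        rw [mem_Iz'] at h0
        have h0' : |h 0| ≤ H := h0
        have h0R : |(h 0 : ℝ)| ≤ H := by exact_mod_cast h0'
        have heR : (h 0 : ℝ) + n * ((∑ i, Fin.tail h i * (n : ℤ) ^ (i : ℕ) : ℤ) : ℝ) = y := by
          exact_mod_cast he
        rw [abs_le] at h0R
        rw [hU, Finset.mem_Icc]
        constructor
        · rw [Int.ceil_le, div_le_iff₀ hn0]
          linarith [h0R.1, h0R.2, heR]
        · rw [Int.le_floor, le_div_iff₀ hn0]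
          linarith [h0R.1, h0R.2, heR]
      · rw [Finset.mem_image]
        refine ⟨Fin.tail h, ?_, ?_⟩
        · rw [hS, Finset.mem_filter]
          refine ⟨?_, rfl⟩
          unfold bx
          rw [Fintype.mem_piFinset]
          intro i
          exact hb i.succ
        · have h1 : y - n * (∑ i, Fin.tail h i * (n : ℤ) ^ (i : ℕ)) = h 0 := by linarith
          rw [h1]
          exact Fin.cons_self_tail h
    have hpos : (0 : ℝ) ≤ 2 * (H : ℝ) / n + 1 := by positivity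
    calc (((bx (j + 1) H).filter (fun h : Fin (j + 1 + 1) → ℤ =>
        ∑ i, h i * (n : ℤ) ^ (i : ℕ) = y)).card : ℝ)
        ≤ ((U.biUnion (fun u => (S u).image
          (fun t => (Fin.cons (y - n * u) t : Fin (j + 1 + 1) → ℤ)))).card : ℝ) := by
          exact_mod_cast Finset.card_le_card hsub
      _ ≤ ∑ u ∈ U, (((S u).image
          (fun t => (Fin.cons (y - n * u) t : Fin (j + 1 + 1) → ℤ))).card : ℝ) := by
          exact_mod_cast Finset.card_biUnion_le
      _ ≤ ∑ u ∈ U, (2 * (H : ℝ) / n + 1) ^ j := by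
          apply Finset.sum_le_sum
          intro u _
          refine le_trans ?_ (ih u)
          exact_mod_cast Finset.card_image_le
      _ = (U.card : ℝ) * (2 * (H : ℝ) / n + 1) ^ j := by
          rw [Finset.sum_const, nsmul_eq_mul]
      _ ≤ (2 * (H : ℝ) / n + 1) * (2 * (H : ℝ) / n + 1) ^ j := by
          apply mul_le_mul_of_nonneg_right (cnb_U H n hn y)
          positivity
      _ = (2 * (H : ℝ) / n + 1) ^ (j + 1) := by rw [pow_succ]; ring

theorem cnt_box_pr (j : ℕ) (δ : ℝ) (hδ : 0 < δ) : ∃ C : ℝ, 1 ≤ C ∧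
    ∀ x H n : ℕ, 1 ≤ x → 1 ≤ H → (j = 0 ∨ x ≤ H) → 1 ≤ n → n ≤ x → δ * x ≤ n → ∀ y : ℤ,
      (((bx j H).filter (fun h : Fin (j + 1) → ℤ =>
        ∑ i, h i * (n : ℤ) ^ (i : ℕ) = y)).card : ℝ) * (x : ℝ) ^ j ≤ C * (H : ℝ) ^ j := by
  refine ⟨(3 / δ) ^ j + 1, by have : (0 : ℝ) ≤ (3 / δ) ^ j := by positivity
                              linarith, ?_⟩
  intro x H n hx hH hj hn hnx hd y
  have hn0 : (0 : ℝ) < n := by exact_mod_cast hn
  have hx0 : (0 : ℝ) < x := by exact_mod_cast hx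
  have hH0 : (0 : ℝ) < H := by exact_mod_cast hH
  have h1 := cnb_step H n hn j y
  have hxj : (0 : ℝ) ≤ (x : ℝ) ^ j := by positivity
  have hHj : (0 : ℝ) ≤ (H : ℝ) ^ j := by positivity
  refine le_trans (mul_le_mul_of_nonneg_right h1 hxj) ?_
  rcases hj with hj | hj
  · subst hj
    simp
  · have hnH : (n : ℝ) ≤ H := by exact_mod_cast le_trans hnx hj
    have h2 : (2 * (H : ℝ) / n + 1) * x ≤ 3 / δ * H := by
      have h3 : 1 ≤ (H : ℝ) / n := by rw [le_div_iff₀ hn0]; linarith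
      have h4 : (2 * (H : ℝ) / n + 1) ≤ 3 * ((H : ℝ) / n) := by
        have : 2 * (H : ℝ) / n = 2 * ((H : ℝ) / n) := by ring
        linarith
      have h5 : (x : ℝ) / n ≤ 1 / δ := by
        rw [div_le_div_iff₀ hn0 hδ]
        linarith
      calc (2 * (H : ℝ) / n + 1) * x ≤ 3 * ((H : ℝ) / n) * x :=
            mul_le_mul_of_nonneg_right h4 hx0.le
        _ = 3 * H * ((x : ℝ) / n) := by ring
        _ ≤ 3 * H * (1 / δ) := mul_le_mul_of_nonneg_left h5 (by positivity)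
        _ = 3 / δ * H := by ring
    calc (2 * (H : ℝ) / n + 1) ^ j * (x : ℝ) ^ j = ((2 * (H : ℝ) / n + 1) * x) ^ j := by
          rw [mul_pow]
      _ ≤ (3 / δ * H) ^ j := by
          apply pow_le_pow_left₀ _ h2
          positivity
      _ = (3 / δ) ^ j * (H : ℝ) ^ j := by rw [mul_pow]
      _ ≤ ((3 / δ) ^ j + 1) * (H : ℝ) ^ j := by
          apply mul_le_mul_of_nonneg_right _ hHj
          linarith


end Pool.Agent.PS

end CNB

namespace Pool.Agent.PS

theorem cnt_box : type_of% @cnt_box_pr := @cnt_box_pr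

end Pool.Agent.PS

/-! ### Block TRA -/

section TRA
namespace Pool.Agent.PS

open Filter Topology MeasureTheory

theorem tra_bound_f (f : Polynomial ℤ) : ∃ A : ℕ, ∀ x n : ℕ, n ≤ x → 1 ≤ x →
    |f.eval (n : ℤ)| ≤ A * (x : ℤ) ^ f.natDegree := by
  refine ⟨∑ i ∈ Finset.range (f.natDegree + 1), (f.coeff i).natAbs, fun x n hn hx => ?_⟩
  rw [Polynomial.eval_eq_sum_range]
  refine (Finset.abs_sum_le_sum_abs _ _).trans ?_
  push_cast
  rw [Finset.sum_mul]
  refine Finset.sum_le_sum fun i hi => ?_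
  rw [abs_mul, abs_of_nonneg (pow_nonneg (Int.natCast_nonneg n) i)]
  have h1 : ((n : ℤ)) ^ i ≤ (x : ℤ) ^ i := pow_le_pow_left₀ (Int.natCast_nonneg n)
    (by exact_mod_cast hn) i
  have h2 : (x : ℤ) ^ i ≤ (x : ℤ) ^ f.natDegree :=
    pow_le_pow_right₀ (by exact_mod_cast hx) (by have := Finset.mem_range.1 hi; omega)
  exact mul_le_mul_of_nonneg_left (h1.trans h2) (abs_nonneg _)

theorem tra_bound_h (j H x n : ℕ) (hn : n ≤ x) (hx : 1 ≤ x) (h : Fin (j + 1) → ℤ)
    (hh : h ∈ bx j H) : |∑ i, h i * (n : ℤ) ^ (i : ℕ)| ≤ (j + 1) * (H * (x : ℤ) ^ j) := by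
  rw [mem_bx] at hh
  refine (Finset.abs_sum_le_sum_abs _ _).trans ?_
  have : ∀ i : Fin (j + 1), |h i * (n : ℤ) ^ (i : ℕ)| ≤ H * (x : ℤ) ^ j := by
    intro i
    rw [abs_mul, abs_of_nonneg (pow_nonneg (Int.natCast_nonneg n) _)]
    have h1 : ((n : ℤ)) ^ (i : ℕ) ≤ (x : ℤ) ^ (i : ℕ) := pow_le_pow_left₀ (Int.natCast_nonneg n)
      (by exact_mod_cast hn) _
    have h2 : (x : ℤ) ^ (i : ℕ) ≤ (x : ℤ) ^ j :=
      pow_le_pow_right₀ (by exact_mod_cast hx) (by have := i.2; omega)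
    exact mul_le_mul (hh i) (h1.trans h2) (by positivity) (by positivity)
  refine (Finset.sum_le_sum fun i _ => this i).trans ?_
  rw [Finset.sum_const, Finset.card_univ, Fintype.card_fin, nsmul_eq_mul]
  push_cast
  exact le_rfl

theorem tra_count (f : Polynomial ℤ) (j : ℕ) (δ : ℝ) (hδ : 0 < δ) :
    ∃ (C : ℝ) (x₀ : ℕ), 1 ≤ C ∧ ∀ x H : ℕ, x₀ ≤ x → 1 ≤ x → x ^ (f.natDegree - 1) ≤ H * x ^ j →
      (j = 0 ∨ x ≤ H) → ∀ b : ℤ,
      (∑ n ∈ (Finset.Icc 1 x).filter (fun n : ℕ => δ * x ≤ n),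
        (((bx j H).filter (fun h => Pv f h n = b)).card : ℝ)) *
          ((max (x ^ f.natDegree) (H * x ^ j) : ℕ) : ℝ) ≤ C * x * (2 * H + 1) ^ (j + 1) := by
  obtain ⟨C₁, x₁, hC₁, h1⟩ := cnt_poly f δ hδ
  obtain ⟨C₂, hC₂, h2⟩ := cnt_box j δ hδ
  have hj1 : (1 : ℝ) ≤ (j : ℝ) + 1 := by
    have : (0 : ℝ) ≤ j := Nat.cast_nonneg j
    linarith
  refine ⟨C₁ * C₂ * (j + 1), x₁, one_le_mul_of_one_le_of_one_le
    (one_le_mul_of_one_le_of_one_le hC₁ hC₂) hj1, ?_⟩
  intro x H hx₁ hx hH hjH b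
  have hH1 : 1 ≤ H := by
    rcases Nat.eq_zero_or_pos H with h | h
    · subst h
      have : 1 ≤ x ^ (f.natDegree - 1) := Nat.one_le_pow _ _ hx
      omega
    · exact h
  have hxj : 1 ≤ x ^ j := Nat.one_le_pow _ _ hx
  set Δ : ℕ := (j + 1) * (H * x ^ j) with hΔ
  have hHx : 1 ≤ H * x ^ j := Nat.mul_pos hH1 hxj
  have hle : H * x ^ j ≤ Δ := Nat.le_mul_of_pos_left _ (Nat.succ_pos j)
  have hΔ1 : 1 ≤ Δ := hHx.trans hle
  have hN := h1 x hx₁ Δ hΔ1 (hH.trans hle) b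
  set S := (Finset.Icc 1 x).filter (fun n : ℕ => δ * x ≤ n ∧ |f.eval (n : ℤ) - b| ≤ Δ) with hS
  have hxr : (0 : ℝ) < x := by exact_mod_cast hx
  have hxjr : (0 : ℝ) < (x : ℝ) ^ j := by positivity
  -- the sum over the `n`
  have hsum : (∑ n ∈ (Finset.Icc 1 x).filter (fun n : ℕ => δ * x ≤ n),
      (((bx j H).filter (fun h => Pv f h n = b)).card : ℝ)) ≤
      S.card * (C₂ * (H : ℝ) ^ j / (x : ℝ) ^ j) := by
    have hsub : S ⊆ (Finset.Icc 1 x).filter (fun n : ℕ => δ * x ≤ n) := by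
      intro n hn
      rw [hS, Finset.mem_filter] at hn
      rw [Finset.mem_filter]
      exact ⟨hn.1, hn.2.1⟩
    rw [← Finset.sum_subset hsub]
    · rw [← nsmul_eq_mul]
      refine Finset.sum_le_card_nsmul _ _ _ fun n hn => ?_
      rw [hS, Finset.mem_filter, Finset.mem_Icc] at hn
      have := h2 x H n hx hH1 hjH hn.1.1 hn.1.2 hn.2.1 (b - f.eval (n : ℤ))
      rw [le_div_iff₀ hxjr]
      refine le_trans (le_of_eq ?_) this
      congr 2
      congr 1
      refine Finset.filter_congr fun h _ => ?_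
      unfold Pv
      constructor
      · intro h; linarith
      · intro h; linarith
    · intro n hn hnS
      rw [Finset.mem_filter, Finset.mem_Icc] at hn
      have hlt : ¬ |f.eval (n : ℤ) - b| ≤ Δ := by
        intro hc
        apply hnS
        rw [hS, Finset.mem_filter, Finset.mem_Icc]
        exact ⟨hn.1, hn.2, hc⟩
      have : (bx j H).filter (fun h => Pv f h n = b) = ∅ := by
        rw [Finset.filter_eq_empty_iff]
        intro h hh he
        apply hlt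
        have hb := tra_bound_h j H x n hn.1.2 hx h hh
        have he2 : f.eval (n : ℤ) - b = -∑ i, h i * (n : ℤ) ^ (i : ℕ) := by
          unfold Pv at he
          linarith
        rw [he2, abs_neg, hΔ]
        push_cast
        exact hb
      rw [this]
      simp
  have hmax : ((max (x ^ f.natDegree) (H * x ^ j) : ℕ) : ℝ) ≤ max ((x : ℝ) ^ f.natDegree) Δ := by
    rw [Nat.cast_max]
    push_cast
    refine max_le_max le_rfl ?_
    exact_mod_cast hle
  have hHr : (0 : ℝ) ≤ H := Nat.cast_nonneg H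
  calc (∑ n ∈ (Finset.Icc 1 x).filter (fun n : ℕ => δ * x ≤ n),
        (((bx j H).filter (fun h => Pv f h n = b)).card : ℝ)) *
          ((max (x ^ f.natDegree) (H * x ^ j) : ℕ) : ℝ)
      ≤ (S.card * (C₂ * (H : ℝ) ^ j / (x : ℝ) ^ j)) * max ((x : ℝ) ^ f.natDegree) Δ := by
        refine mul_le_mul hsum hmax (Nat.cast_nonneg _) ?_
        positivity
    _ = (S.card * max ((x : ℝ) ^ f.natDegree) Δ) * (C₂ * (H : ℝ) ^ j / (x : ℝ) ^ j) := by ring
    _ ≤ (C₁ * x * Δ) * (C₂ * (H : ℝ) ^ j / (x : ℝ) ^ j) := by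
        refine mul_le_mul_of_nonneg_right hN ?_
        positivity
    _ = C₁ * C₂ * (j + 1) * x * (H : ℝ) ^ (j + 1) := by
        rw [hΔ]
        push_cast
        rw [pow_succ]
        field_simp
    _ ≤ C₁ * C₂ * (j + 1) * x * (2 * H + 1) ^ (j + 1) := by
        refine mul_le_mul_of_nonneg_left ?_ (by positivity)
        refine pow_le_pow_left₀ hHr (by linarith) _

theorem tra_small (x : ℕ) (δ : ℝ) (hδ : 0 < δ) :
    (((Finset.Icc 1 x).filter (fun n : ℕ => ¬ δ * x ≤ n)).card : ℝ) ≤ δ * x := by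
  have h0 : 0 ≤ δ * x := by positivity
  have : (Finset.Icc 1 x).filter (fun n : ℕ => ¬ δ * x ≤ n) ⊆ Finset.Icc 1 ⌊δ * x⌋₊ := by
    intro n hn
    rw [Finset.mem_filter, Finset.mem_Icc] at hn
    rw [Finset.mem_Icc]
    exact ⟨hn.1.1, Nat.le_floor (not_le.1 hn.2).le⟩
  calc (((Finset.Icc 1 x).filter (fun n : ℕ => ¬ δ * x ≤ n)).card : ℝ)
      ≤ (((Finset.Icc 1 ⌊δ * x⌋₊).card : ℕ) : ℝ) := by exact_mod_cast Finset.card_le_card this
    _ = (⌊δ * x⌋₊ : ℝ) := by rw [Nat.card_Icc, Nat.add_sub_cancel]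
    _ ≤ δ * x := Nat.floor_le h0

theorem transfer_pr (f : Polynomial ℤ) (j : ℕ) (δ : ℝ) (hδ : 0 < δ) :
    ∃ C x₀ : ℕ, 1 ≤ C ∧ ∀ x H : ℕ, x₀ ≤ x → x ^ (f.natDegree - 1) ≤ H * x ^ j →
      (j = 0 ∨ x ≤ H) → ∀ Φ : ℤ → ℝ, (∀ b, 0 ≤ Φ b ∧ Φ b ≤ 1) →
      ∑ n ∈ Finset.Icc 1 x, ∑ h ∈ bx j H, Φ (Pv f h n) ≤
        (x : ℝ) * (2 * H + 1) ^ (j + 1) * (δ + C / (max (x ^ f.natDegree) (H * x ^ j) : ℕ) *
          ∑ b ∈ Iz (C * max (x ^ f.natDegree) (H * x ^ j)), Φ b) := by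
  obtain ⟨C₁, x₁, hC₁, h1⟩ := tra_count f j δ hδ
  obtain ⟨A, hA⟩ := tra_bound_f f
  refine ⟨⌈C₁⌉₊ + A + (j + 1), max x₁ 1, by omega, ?_⟩
  intro x H hx hH hjH Φ hΦ
  have hx₁ : x₁ ≤ x := (le_max_left _ _).trans hx
  have hx1 : 1 ≤ x := (le_max_right _ _).trans hx
  set C : ℕ := ⌈C₁⌉₊ + A + (j + 1) with hC
  set M : ℕ := max (x ^ f.natDegree) (H * x ^ j) with hM
  have hM1 : 1 ≤ M := (Nat.one_le_pow _ _ hx1).trans (le_max_left _ _)
  have hMr : (0 : ℝ) < M := by exact_mod_cast hM1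
  have hxr : (0 : ℝ) < x := by exact_mod_cast hx1
  have hT : (0 : ℝ) < (2 * H + 1) ^ (j + 1) := by positivity
  rw [← Finset.sum_filter_add_sum_filter_not (Finset.Icc 1 x) (fun n : ℕ => δ * x ≤ n)]
  -- the small `n`
  have hs : ∑ n ∈ (Finset.Icc 1 x).filter (fun n : ℕ => ¬ δ * x ≤ n),
      ∑ h ∈ bx j H, Φ (Pv f h n) ≤ δ * x * (2 * H + 1) ^ (j + 1) := by
    have : ∀ n ∈ (Finset.Icc 1 x).filter (fun n : ℕ => ¬ δ * x ≤ n),
        ∑ h ∈ bx j H, Φ (Pv f h n) ≤ (2 * H + 1) ^ (j + 1) := by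
      intro n _
      calc ∑ h ∈ bx j H, Φ (Pv f h n) ≤ ∑ h ∈ bx j H, (1 : ℝ) :=
            Finset.sum_le_sum fun h _ => (hΦ _).2
        _ = (2 * H + 1) ^ (j + 1) := by
            rw [Finset.sum_const, bx_card, nsmul_eq_mul, mul_one]
            push_cast
            ring
    refine (Finset.sum_le_card_nsmul _ _ _ this).trans ?_
    rw [nsmul_eq_mul]
    exact mul_le_mul_of_nonneg_right (tra_small x δ hδ) hT.le
  -- the large `n`
  have hl : ∑ n ∈ (Finset.Icc 1 x).filter (fun n : ℕ => δ * x ≤ n),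
      ∑ h ∈ bx j H, Φ (Pv f h n) ≤
      (x : ℝ) * (2 * H + 1) ^ (j + 1) * (C / M * ∑ b ∈ Iz (C * M), Φ b) := by
    have hfib : ∀ n ∈ (Finset.Icc 1 x).filter (fun n : ℕ => δ * x ≤ n),
        ∑ h ∈ bx j H, Φ (Pv f h n) = ∑ b ∈ Iz (C * M),
          (((bx j H).filter (fun h => Pv f h n = b)).card : ℝ) * Φ b := by
      intro n hn
      rw [Finset.mem_filter, Finset.mem_Icc] at hn
      have hmap : ∀ h ∈ bx j H, Pv f h n ∈ Iz (C * M) := by
        intro h hh
        rw [mem_Iz']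
        have e1 := hA x n hn.1.2 hx1
        have e2 := tra_bound_h j H x n hn.1.2 hx1 h hh
        have e3 : ((x : ℤ) ^ f.natDegree) ≤ M := by
          have : x ^ f.natDegree ≤ M := le_max_left _ _
          exact_mod_cast this
        have e4 : ((H : ℤ) * (x : ℤ) ^ j) ≤ M := by
          have : H * x ^ j ≤ M := le_max_right _ _
          exact_mod_cast this
        have e5 : |Pv f h n| ≤ A * M + (j + 1) * M := by
          unfold Pv
          refine (abs_add_le _ _).trans (add_le_add (e1.trans ?_) (e2.trans ?_))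
          · exact mul_le_mul_of_nonneg_left e3 (Int.natCast_nonneg A)
          · exact mul_le_mul_of_nonneg_left e4 (by positivity)
        refine e5.trans ?_
        rw [hC]
        push_cast
        have : (0 : ℤ) ≤ (⌈C₁⌉₊ : ℤ) * M := by positivity
        nlinarith
      rw [← Finset.sum_fiberwise_of_maps_to hmap]
      refine Finset.sum_congr rfl fun b _ => ?_
      rw [Finset.sum_congr rfl (g := fun _ => Φ b)]
      · rw [Finset.sum_const, nsmul_eq_mul]
      · intro h hh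
        rw [(Finset.mem_filter.1 hh).2]
    rw [Finset.sum_congr rfl hfib, Finset.sum_comm]
    have hb : ∀ b ∈ Iz (C * M), ∑ n ∈ (Finset.Icc 1 x).filter (fun n : ℕ => δ * x ≤ n),
        (((bx j H).filter (fun h => Pv f h n = b)).card : ℝ) * Φ b ≤
        ((x : ℝ) * (2 * H + 1) ^ (j + 1) * (C / M)) * Φ b := by
      intro b _
      rw [← Finset.sum_mul]
      refine mul_le_mul_of_nonneg_right ?_ (hΦ b).1
      have h3 := h1 x H hx₁ hx1 hH hjH b
      have hCC : C₁ ≤ C := by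
        rw [hC]
        push_cast
        have e1 := Nat.le_ceil C₁
        have e2 : (0 : ℝ) ≤ A := Nat.cast_nonneg A
        have e3 : (0 : ℝ) ≤ j := Nat.cast_nonneg j
        linarith
      have h4 : (x : ℝ) * (2 * H + 1) ^ (j + 1) * (C / M) =
          (C * x * (2 * H + 1) ^ (j + 1)) / M := by ring
      rw [h4, le_div_iff₀ hMr]
      refine h3.trans ?_
      gcongr
    refine (Finset.sum_le_sum hb).trans (le_of_eq ?_)
    rw [← Finset.mul_sum]
    ring
  have := add_le_add hl hs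
  refine this.trans (le_of_eq ?_)
  ring

theorem tra_sum0 (H : ℕ) (Ψ : ℤ → ℝ) : ∑ h ∈ bx 0 H, Ψ (h 0) = ∑ a ∈ Iz H, Ψ a := by
  refine Finset.sum_bij (fun h _ => h 0) ?_ ?_ ?_ ?_
  · intro h hh
    rw [mem_bx] at hh
    rw [mem_Iz']
    exact hh 0
  · intro h _ h' _ he
    funext i
    have hi : i = 0 := by
      apply Fin.ext
      have := i.2
      simp only [Fin.val_zero]
      omega
    rw [hi]
    exact he
  · intro a ha
    refine ⟨fun _ => a, ?_, rfl⟩
    rw [mem_bx]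
    intro _
    exact mem_Iz'.1 ha
  · intro h _
    rfl

theorem transfer0_pr (f : Polynomial ℤ) (δ : ℝ) (hδ : 0 < δ) :
    ∃ C x₀ : ℕ, 1 ≤ C ∧ ∀ x H : ℕ, x₀ ≤ x → x ^ (f.natDegree - 1) ≤ H →
      ∀ Φ : ℤ → ℝ, (∀ b, 0 ≤ Φ b ∧ Φ b ≤ 1) →
      ∑ n ∈ Finset.Icc 1 x, ∑ a ∈ Iz H, Φ (f.eval (n : ℤ) + a) ≤
        (x : ℝ) * (2 * H + 1) * (δ + C / (max (x ^ f.natDegree) H : ℕ) *
          ∑ b ∈ Iz (C * max (x ^ f.natDegree) H), Φ b) := by
  obtain ⟨C, x₀, hC, h⟩ := transfer_pr f 0 δ hδ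
  refine ⟨C, x₀, hC, fun x H hx hH Φ hΦ => ?_⟩
  have h1 := h x H hx (by simpa using hH) (Or.inl rfl) Φ hΦ
  rw [pow_zero, mul_one] at h1
  have e1 : ((2 : ℝ) * H + 1) ^ (0 + 1) = 2 * H + 1 := by rw [Nat.zero_add, pow_one]
  rw [e1] at h1
  refine le_trans (le_of_eq ?_) h1
  refine Finset.sum_congr rfl fun n _ => ?_
  rw [← tra_sum0 H (fun a => Φ (f.eval (n : ℤ) + a))]
  refine Finset.sum_congr rfl fun h _ => ?_
  unfold Pv
  congr 2
  rw [Fin.sum_univ_one]
  simp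


end Pool.Agent.PS

end TRA

namespace Pool.Agent.PS

theorem transfer : type_of% @transfer_pr := @transfer_pr

theorem transfer0 : type_of% @transfer0_pr := @transfer0_pr

end Pool.Agent.PS

/-! ### Block SHB -/

section SHB
/-!
# SHB: shifting the box of coefficients
-/

namespace Pool.Agent.PS

open Filter Topology MeasureTheory

/-- the shift `(h_0, h_1) -> (h_0 - n k, h_1 + k)` -/
def shb_T (j : ℕ) (hj : 1 ≤ j) (n k : ℤ) (h : Fin (j + 1) → ℤ) : Fin (j + 1) → ℤ :=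
  fun i => h i + (if i = (0 : Fin (j + 1)) then -(n * k) else 0) +
    (if i = (⟨1, by omega⟩ : Fin (j + 1)) then k else 0)

theorem shb_T_inj (j : ℕ) (hj : 1 ≤ j) (n k : ℤ) : Function.Injective (shb_T j hj n k) := by
  intro h h' e
  funext i
  have := congrFun e i
  unfold shb_T at this
  linarith

theorem shb_sum (j : ℕ) (hj : 1 ≤ j) (n k x : ℤ) (h : Fin (j + 1) → ℤ) :
    ∑ i, shb_T j hj n k h i * x ^ (i : ℕ) = ∑ i, h i * x ^ (i : ℕ) + k * (x - n) := by
  unfold shb_T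
  simp only [add_mul, Finset.sum_add_distrib, ite_mul, zero_mul]
  rw [Finset.sum_ite_eq' Finset.univ (0 : Fin (j + 1)), Finset.sum_ite_eq' Finset.univ]
  simp
  ring

theorem shb_Pv_n (f : Polynomial ℤ) (j : ℕ) (hj : 1 ≤ j) (n : ℕ) (k : ℤ)
    (h : Fin (j + 1) → ℤ) : Pv f (shb_T j hj n k h) n = Pv f h n := by
  unfold Pv
  rw [shb_sum]
  ring

theorem shb_Pv_r (f : Polynomial ℤ) (j : ℕ) (hj : 1 ≤ j) (n r : ℕ) (k : ℤ)
    (h : Fin (j + 1) → ℤ) : Pv f (shb_T j hj n k h) (n + r) = Pv f h (n + r) + r * k := by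
  unfold Pv
  rw [shb_sum]
  push_cast
  ring

theorem shb_card (j H : ℕ) (i : Fin (j + 1)) (S : Finset ℤ) :
    ((bx j H).filter (fun h => h i ∈ S)).card ≤ S.card * (2 * H + 1) ^ j := by
  classical
  have h1 : (bx j H).filter (fun h => h i ∈ S) ⊆
      Fintype.piFinset (Function.update (fun _ => Iz H) i S) := by
    intro h hh
    rw [Finset.mem_filter] at hh
    rw [Fintype.mem_piFinset]
    intro l
    by_cases hl : l = i
    · subst hl
      rw [Function.update_self]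
      exact hh.2
    · rw [Function.update_of_ne hl]
      have := hh.1
      unfold bx at this
      rw [Fintype.mem_piFinset] at this
      exact this l
  refine (Finset.card_le_card h1).trans (le_of_eq ?_)
  rw [Fintype.card_piFinset]
  have h2 : ∀ l, (Function.update (fun _ : Fin (j + 1) => Iz H) i S l).card =
      Function.update (fun _ : Fin (j + 1) => 2 * H + 1) i S.card l := by
    intro l
    by_cases hl : l = i
    · subst hl
      rw [Function.update_self, Function.update_self]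
    · rw [Function.update_of_ne hl, Function.update_of_ne hl, Iz_card]
  rw [Finset.prod_congr rfl fun l _ => h2 l, Finset.prod_update_of_mem (Finset.mem_univ i)]
  congr 1
  rw [Finset.prod_const, Finset.card_sdiff_of_subset (Finset.subset_univ _), Finset.card_univ,
    Fintype.card_fin, Finset.card_singleton, Nat.add_sub_cancel]

theorem shb_out (j : ℕ) (hj : 1 ≤ j) (H n k : ℕ) :
    ((bx j H).filter (fun h => shb_T j hj n k h ∉ bx j H)).card ≤
      k * (n + 1) * (2 * H + 1) ^ j := by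
  classical
  have h1 : (bx j H).filter (fun h => shb_T j hj n k h ∉ bx j H) ⊆
      (bx j H).filter (fun h => h 0 ∈ Finset.Ico (-(H : ℤ)) (-(H : ℤ) + n * k)) ∪
      (bx j H).filter (fun h => h ⟨1, by omega⟩ ∈ Finset.Ico ((H : ℤ) + 1 - k) (H + 1)) := by
    intro h hh
    rw [Finset.mem_filter] at hh
    obtain ⟨hb, ho⟩ := hh
    have hb' := mem_bx.1 hb
    rw [mem_bx] at ho
    push Not at ho
    obtain ⟨i, hi⟩ := ho
    rw [Finset.mem_union, Finset.mem_filter, Finset.mem_filter]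
    have hne : (0 : Fin (j + 1)) ≠ ⟨1, by omega⟩ := by
      intro e
      have := congrArg Fin.val e
      simp at this
    have hnk : (0 : ℤ) ≤ (n : ℤ) * k := by positivity
    by_cases h0 : i = 0
    · left
      refine ⟨hb, ?_⟩
      subst h0
      have hT : shb_T j hj n k h 0 = h 0 - n * k := by
        unfold shb_T
        rw [if_pos rfl, if_neg hne]
        ring
      rw [hT] at hi
      have hb0 := abs_le.1 (hb' 0)
      rw [Finset.mem_Ico]
      refine ⟨hb0.1, ?_⟩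
      by_contra hcon
      push Not at hcon
      have : |h 0 - n * k| ≤ H := by
        rw [abs_le]
        constructor <;> linarith
      linarith
    · by_cases h1' : i = ⟨1, by omega⟩
      · right
        refine ⟨hb, ?_⟩
        rw [h1'] at hi h0
        have hT : shb_T j hj n k h ⟨1, by omega⟩ = h ⟨1, by omega⟩ + k := by
          unfold shb_T
          rw [if_neg h0, if_pos rfl]
          ring
        rw [hT] at hi
        have hb0 := abs_le.1 (hb' ⟨1, by omega⟩)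
        rw [Finset.mem_Ico]
        refine ⟨?_, by linarith [hb0.2]⟩
        by_contra hcon
        push Not at hcon
        have : |h ⟨1, by omega⟩ + (k : ℤ)| ≤ H := by
          rw [abs_le]
          constructor
          · have : (0 : ℤ) ≤ k := by positivity
            linarith [hb0.1]
          · linarith
        linarith
      · exfalso
        have hT : shb_T j hj n k h i = h i := by
          unfold shb_T
          rw [if_neg h0, if_neg h1']
          ring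
        rw [hT] at hi
        linarith [hb' i]
  refine (Finset.card_le_card h1).trans ((Finset.card_union_le _ _).trans ?_)
  have h2 := shb_card j H 0 (Finset.Ico (-(H : ℤ)) (-(H : ℤ) + n * k))
  have h3 := shb_card j H ⟨1, by omega⟩ (Finset.Ico ((H : ℤ) + 1 - k) (H + 1))
  rw [Int.card_Ico] at h2 h3
  have e2 : (-(H : ℤ) + n * k - -(H : ℤ)).toNat = n * k := by
    have : -(H : ℤ) + n * k - -(H : ℤ) = ((n * k : ℕ) : ℤ) := by
      push_cast
      ring
    rw [this, Int.toNat_natCast]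
  have e3 : ((H : ℤ) + 1 - (H + 1 - k)).toNat = k := by
    have : (H : ℤ) + 1 - (H + 1 - k) = ((k : ℕ) : ℤ) := by ring
    rw [this, Int.toNat_natCast]
  rw [e2] at h2
  rw [e3] at h3
  calc _ ≤ n * k * (2 * H + 1) ^ j + k * (2 * H + 1) ^ j := add_le_add h2 h3
    _ = _ := by ring

theorem shb_diff (j : ℕ) (hj : 1 ≤ j) (H n k : ℕ) (F : (Fin (j + 1) → ℤ) → ℝ)
    (hF : ∀ h, |F h| ≤ 1) :
    |∑ h ∈ bx j H, F h - ∑ h ∈ bx j H, F (shb_T j hj n k h)| ≤
      2 * (k * (n + 1) * (2 * (H : ℝ) + 1) ^ j) := by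
  classical
  set E : Finset (Fin (j + 1) → ℤ) := (bx j H).image (shb_T j hj n k) with hE
  have h1 : ∑ h ∈ bx j H, F (shb_T j hj n k h) = ∑ h ∈ E, F h := by
    rw [hE, Finset.sum_image fun a _ b _ e => shb_T_inj j hj n k e]
  have hcE : E.card = (bx j H).card := by
    rw [hE, Finset.card_image_of_injective _ (shb_T_inj j hj n k)]
  have h2 : (E \ bx j H).card ≤ k * (n + 1) * (2 * H + 1) ^ j := by
    have h3 : E \ bx j H ⊆
        ((bx j H).filter (fun h => shb_T j hj n k h ∉ bx j H)).image (shb_T j hj n k) := by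
      intro g hg
      rw [Finset.mem_sdiff, hE, Finset.mem_image] at hg
      obtain ⟨⟨h, hh, e⟩, hg2⟩ := hg
      rw [Finset.mem_image]
      refine ⟨h, ?_, e⟩
      rw [Finset.mem_filter]
      refine ⟨hh, ?_⟩
      rw [e]
      exact hg2
    exact (Finset.card_le_card h3).trans (Finset.card_image_le.trans (shb_out j hj H n k))
  have h4 : (bx j H \ E).card = (E \ bx j H).card := by
    have a1 := Finset.card_sdiff_add_card_inter (bx j H) E
    have a2 := Finset.card_sdiff_add_card_inter E (bx j H)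
    rw [Finset.inter_comm] at a2
    omega
  rw [h1, ← Finset.sum_sdiff_sub_sum_sdiff]
  have b1 : |∑ h ∈ bx j H \ E, F h| ≤ ((E \ bx j H).card : ℝ) := by
    rw [← h4]
    calc _ ≤ ∑ h ∈ bx j H \ E, |F h| := Finset.abs_sum_le_sum_abs _ _
      _ ≤ ∑ h ∈ bx j H \ E, (1 : ℝ) := Finset.sum_le_sum fun h _ => hF h
      _ = _ := by simp
  have b2 : |∑ h ∈ E \ bx j H, F h| ≤ ((E \ bx j H).card : ℝ) := by
    calc _ ≤ ∑ h ∈ E \ bx j H, |F h| := Finset.abs_sum_le_sum_abs _ _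
      _ ≤ ∑ h ∈ E \ bx j H, (1 : ℝ) := Finset.sum_le_sum fun h _ => hF h
      _ = _ := by simp
  have b3 : ((E \ bx j H).card : ℝ) ≤ k * (n + 1) * (2 * (H : ℝ) + 1) ^ j := by
    exact_mod_cast h2
  calc _ ≤ |∑ h ∈ bx j H \ E, F h| + |∑ h ∈ E \ bx j H, F h| := abs_sub _ _
    _ ≤ _ := by linarith

theorem shift_box_pr (f : Polynomial ℤ) (j : ℕ) (hj : 1 ≤ j) (H n r K : ℕ) (hK : 1 ≤ K) :
    |∑ h ∈ bx j H, lz (Pv f h n) * lz (Pv f h (n + r))| ≤
      ∑ h ∈ bx j H, bq r 0 K (Pv f h (n + r)) +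
        2 * K * (n + 1) * (2 * (H : ℝ) + 1) ^ j := by
  set F : (Fin (j + 1) → ℤ) → ℝ := fun h => lz (Pv f h n) * lz (Pv f h (n + r)) with hFd
  have hF : ∀ h, |F h| ≤ 1 := by
    intro h
    rw [hFd]
    beta_reduce
    rw [abs_mul]
    exact mul_le_one₀ (lz_abs _) (abs_nonneg _) (lz_abs _)
  have hK0 : (0 : ℝ) < K := by exact_mod_cast hK
  set E : ℝ := 2 * K * (n + 1) * (2 * (H : ℝ) + 1) ^ j with hE
  set S : ℝ := ∑ h ∈ bx j H, F h with hS
  have h1 : ∀ k ∈ Finset.range K, |S - ∑ h ∈ bx j H, F (shb_T j hj n k h)| ≤ E := by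
    intro k hk
    refine (shb_diff j hj H n k F hF).trans ?_
    have hkK : (k : ℝ) ≤ K := by exact_mod_cast (Finset.mem_range.1 hk).le
    have hp : (0 : ℝ) ≤ (n + 1) * (2 * (H : ℝ) + 1) ^ j := by positivity
    rw [hE]
    nlinarith [mul_le_mul_of_nonneg_right hkK hp]
  have h2 : K * |S| ≤ |∑ k ∈ Finset.range K, ∑ h ∈ bx j H, F (shb_T j hj n k h)| + K * E := by
    have h3 : (K : ℝ) * S = ∑ k ∈ Finset.range K, ∑ h ∈ bx j H, F (shb_T j hj n k h) +
        ∑ k ∈ Finset.range K, (S - ∑ h ∈ bx j H, F (shb_T j hj n k h)) := by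
      rw [← Finset.sum_add_distrib]
      simp
    have h4 : |∑ k ∈ Finset.range K, (S - ∑ h ∈ bx j H, F (shb_T j hj n k h))| ≤ K * E := by
      calc _ ≤ ∑ k ∈ Finset.range K, |S - ∑ h ∈ bx j H, F (shb_T j hj n k h)| :=
            Finset.abs_sum_le_sum_abs _ _
        _ ≤ ∑ k ∈ Finset.range K, E := Finset.sum_le_sum h1
        _ = K * E := by simp
    calc (K : ℝ) * |S| = |(K : ℝ) * S| := by rw [abs_mul, abs_of_pos hK0]
      _ ≤ _ := by
        rw [h3]
        exact (abs_add_le _ _).trans (add_le_add le_rfl h4)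
  have h5 : |∑ k ∈ Finset.range K, ∑ h ∈ bx j H, F (shb_T j hj n k h)| ≤
      ∑ h ∈ bx j H, K * bq r 0 K (Pv f h (n + r)) := by
    rw [Finset.sum_comm]
    refine (Finset.abs_sum_le_sum_abs _ _).trans (Finset.sum_le_sum fun h _ => ?_)
    have h6 : ∑ k ∈ Finset.range K, F (shb_T j hj n k h) =
        lz (Pv f h n) * ∑ k ∈ Finset.range K, lz (Pv f h (n + r) + r * k) := by
      rw [Finset.mul_sum]
      refine Finset.sum_congr rfl fun k _ => ?_
      rw [hFd]
      beta_reduce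
      rw [shb_Pv_n, shb_Pv_r]
    rw [h6, abs_mul]
    have h7 : K * bq r 0 K (Pv f h (n + r)) =
        |∑ k ∈ Finset.range K, lz (Pv f h (n + r) + r * k)| := by
      unfold bq
      rw [mul_div_cancel₀ _ hK0.ne', ← Real.norm_eq_abs, ← Complex.norm_real]
      congr 1
      push_cast
      refine Finset.sum_congr rfl fun k _ => ?_
      rw [zero_mul, ez_zero, one_mul]
    rw [h7]
    exact mul_le_of_le_one_left (abs_nonneg _) (lz_abs _)
  rw [← Finset.mul_sum] at h5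
  have h8 : K * |S| ≤ K * (∑ h ∈ bx j H, bq r 0 K (Pv f h (n + r)) + E) := by
    rw [mul_add]
    linarith
  exact le_of_mul_le_mul_left h8 hK0

end Pool.Agent.PS

end SHB

namespace Pool.Agent.PS

theorem shift_box : type_of% @shift_box_pr := @shift_box_pr

end Pool.Agent.PS

/-! ### Block CMA -/

section CMA
/-!
# Block CMA: the case `j ≥ 1`
-/

namespace Pool.Agent.PS

open Filter Topology MeasureTheory

/-- the weighted values -/
noncomputable def cma_y (f : Polynomial ℤ) {j : ℕ} (g : ℕ → ℂ) (h : Fin (j + 1) → ℤ) (n : ℕ) : ℂ :=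
  g (n + 1) * (lz (Pv f h (n + 1)) : ℂ)

theorem cma_y_le (f : Polynomial ℤ) {j : ℕ} {g : ℕ → ℂ} (hg : ∀ n, ‖g n‖ ≤ 1)
    (h : Fin (j + 1) → ℤ) (n : ℕ) : ‖cma_y f g h n‖ ≤ 1 := by
  unfold cma_y
  rw [norm_mul]
  exact mul_le_one₀ (hg _) (norm_nonneg _) (lz_norm _)

theorem cma_sum (f : Polynomial ℤ) {j : ℕ} (g : ℕ → ℂ) (h : Fin (j + 1) → ℤ) (x : ℕ) :
    ∑ n ∈ Finset.Icc 1 x, g n * (lz (Pv f h n) : ℂ) = ∑ n ∈ Finset.range x, cma_y f g h n := by
  have h1 : Finset.Icc 1 x = Finset.Ico 1 (x + 1) := by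
    ext n
    rw [Finset.mem_Icc, Finset.mem_Ico]
    omega
  rw [h1, Finset.sum_Ico_eq_sum_range]
  simp only [Nat.add_sub_cancel]
  refine Finset.sum_congr rfl fun n _ => ?_
  unfold cma_y
  rw [add_comm 1 n]

theorem cma_one (f : Polynomial ℤ) {j : ℕ} (hj : 1 ≤ j) {g : ℕ → ℂ} (hg : ∀ n, ‖g n‖ ≤ 1)
    (H n r K : ℕ) (hK : 1 ≤ K) :
    ‖∑ h ∈ bx j H, cma_y f g h n * (starRingEnd ℂ) (cma_y f g h (n + r))‖ ≤
      ∑ h ∈ bx j H, bq r 0 K (Pv f h (n + 1 + r)) + 2 * K * (n + 2) * (2 * (H : ℝ) + 1) ^ j := by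
  have e1 : ∑ h ∈ bx j H, cma_y f g h n * (starRingEnd ℂ) (cma_y f g h (n + r)) =
      (g (n + 1) * (starRingEnd ℂ) (g (n + 1 + r))) *
        ((∑ h ∈ bx j H, lz (Pv f h (n + 1)) * lz (Pv f h (n + 1 + r)) : ℝ) : ℂ) := by
    rw [Complex.ofReal_sum, Finset.mul_sum]
    refine Finset.sum_congr rfl fun h _ => ?_
    unfold cma_y
    rw [map_mul, Complex.conj_ofReal, show n + r + 1 = n + 1 + r by ring]
    push_cast
    ring
  rw [e1, norm_mul, norm_mul, RCLike.norm_conj, Complex.norm_real, Real.norm_eq_abs]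
  have h2 := shift_box f j hj H (n + 1) r K hK
  calc ‖g (n + 1)‖ * ‖g (n + 1 + r)‖ *
        |∑ h ∈ bx j H, lz (Pv f h (n + 1)) * lz (Pv f h (n + 1 + r))|
      ≤ 1 * 1 * |∑ h ∈ bx j H, lz (Pv f h (n + 1)) * lz (Pv f h (n + 1 + r))| := by
        gcongr
        · exact hg _
        · exact hg _
    _ = |∑ h ∈ bx j H, lz (Pv f h (n + 1)) * lz (Pv f h (n + 1 + r))| := by ring
    _ ≤ _ := by
        refine h2.trans (le_of_eq ?_)
        push_cast
        ring

theorem cma_corr (f : Polynomial ℤ) {j : ℕ} (hj : 1 ≤ j) {g : ℕ → ℂ} (hg : ∀ n, ‖g n‖ ≤ 1)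
    (x H r K : ℕ) (hK : 1 ≤ K) :
    ‖∑ n ∈ Finset.range (x - r), ∑ h ∈ bx j H,
      cma_y f g h n * (starRingEnd ℂ) (cma_y f g h (n + r))‖ ≤
      ∑ n ∈ Finset.Icc 1 x, ∑ h ∈ bx j H, bq r 0 K (Pv f h n) +
        x * (2 * K * (x + 1) * (2 * (H : ℝ) + 1) ^ j) := by
  calc ‖∑ n ∈ Finset.range (x - r), ∑ h ∈ bx j H,
        cma_y f g h n * (starRingEnd ℂ) (cma_y f g h (n + r))‖
      ≤ ∑ n ∈ Finset.range (x - r), (∑ h ∈ bx j H, bq r 0 K (Pv f h (n + 1 + r)) +
          2 * K * (n + 2) * (2 * (H : ℝ) + 1) ^ j) :=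
        norm_sum_le_of_le _ fun n _ => cma_one f hj hg H n r K hK
    _ = ∑ n ∈ Finset.range (x - r), ∑ h ∈ bx j H, bq r 0 K (Pv f h (n + 1 + r)) +
          ∑ n ∈ Finset.range (x - r), 2 * K * ((n : ℝ) + 2) * (2 * (H : ℝ) + 1) ^ j := by
        rw [Finset.sum_add_distrib]
    _ ≤ _ := by
        gcongr ?_ + ?_
        · have e1 : ∑ n ∈ Finset.range (x - r), ∑ h ∈ bx j H, bq r 0 K (Pv f h (n + 1 + r)) =
              ∑ n ∈ Finset.Ico (r + 1) (x + 1), ∑ h ∈ bx j H, bq r 0 K (Pv f h n) := by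
            rw [Finset.sum_Ico_eq_sum_range, show x + 1 - (r + 1) = x - r by omega]
            refine Finset.sum_congr rfl fun n _ => ?_
            rw [show n + 1 + r = r + 1 + n by ring]
          rw [e1]
          refine Finset.sum_le_sum_of_subset_of_nonneg ?_ ?_
          · intro n hn
            rw [Finset.mem_Ico] at hn
            rw [Finset.mem_Icc]
            omega
          · intro n _ _
            exact Finset.sum_nonneg fun h _ => bq_nonneg _ _ _ _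
        · calc ∑ n ∈ Finset.range (x - r), 2 * K * ((n : ℝ) + 2) * (2 * (H : ℝ) + 1) ^ j
              ≤ ∑ n ∈ Finset.range (x - r), 2 * K * ((x : ℝ) + 1) * (2 * (H : ℝ) + 1) ^ j := by
                refine Finset.sum_le_sum fun n hn => ?_
                rw [Finset.mem_range] at hn
                have : (n : ℝ) + 2 ≤ (x : ℝ) + 1 := by
                  have h1 : n + 1 ≤ x := by omega
                  have h2 : ((n + 1 : ℕ) : ℝ) ≤ x := by exact_mod_cast h1
                  push_cast at h2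
                  linarith
                gcongr
            _ = ((x - r : ℕ) : ℝ) * (2 * K * ((x : ℝ) + 1) * (2 * (H : ℝ) + 1) ^ j) := by
                rw [Finset.sum_const, Finset.card_range, nsmul_eq_mul]
            _ ≤ x * (2 * K * (x + 1) * (2 * (H : ℝ) + 1) ^ j) := by
                have : ((x - r : ℕ) : ℝ) ≤ x := by exact_mod_cast Nat.sub_le x r
                gcongr

theorem cma_err {K x H C₁ : ℕ} {j : ℕ} {ε : ℝ} (hx : 1 ≤ x) (hC : 32 * (K : ℝ) ≤ ε * C₁)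
    (hH : C₁ * x ≤ H) (hC1 : 1 ≤ C₁) :
    (x : ℝ) * (2 * K * (x + 1) * (2 * (H : ℝ) + 1) ^ j) ≤
      ε / 16 * (x * (2 * (H : ℝ) + 1) ^ (j + 1)) := by
  have hx' : (1 : ℝ) ≤ x := by exact_mod_cast hx
  have hC1' : (1 : ℝ) ≤ C₁ := by exact_mod_cast hC1
  have hH' : (C₁ : ℝ) * x ≤ H := by exact_mod_cast hH
  have hK0 : (0 : ℝ) ≤ K := Nat.cast_nonneg K
  have h1 : 2 * (K : ℝ) * (x + 1) ≤ ε / 16 * (2 * (H : ℝ) + 1) := by
    have hε0 : 0 ≤ ε := by
      by_contra h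
      push Not at h
      nlinarith
    calc 2 * (K : ℝ) * (x + 1) ≤ 4 * K * x := by nlinarith
      _ = 32 * (K : ℝ) * x / 8 := by ring
      _ ≤ ε * C₁ * x / 8 := by gcongr
      _ = ε / 8 * (C₁ * x) := by ring
      _ ≤ ε / 8 * H := by gcongr
      _ ≤ ε / 16 * (2 * (H : ℝ) + 1) := by nlinarith
  calc (x : ℝ) * (2 * K * (x + 1) * (2 * (H : ℝ) + 1) ^ j)
      = x * (2 * (H : ℝ) + 1) ^ j * (2 * K * (x + 1)) := by ring
    _ ≤ x * (2 * (H : ℝ) + 1) ^ j * (ε / 16 * (2 * (H : ℝ) + 1)) := by gcongr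
    _ = _ := by rw [pow_succ]; ring

theorem c_main_pr (f : Polynomial ℤ) (j : ℕ) (hj : 1 ≤ j) (ε : ℝ) (hε : 0 < ε) :
    ∃ C x₀ : ℕ, ∀ x H : ℕ, x₀ ≤ x → C * x ≤ H → C * x ^ (f.natDegree - 1) ≤ H * x ^ j →
      ∀ g : ℕ → ℂ, (∀ n, ‖g n‖ ≤ 1) →
      ∑ h ∈ bx j H, ‖∑ n ∈ Finset.Icc 1 x, g n * (lz (Pv f h n) : ℂ)‖ ^ 2 ≤
        ε * x ^ 2 * (2 * H + 1) ^ (j + 1) := by
  obtain ⟨C, x₁, hC1, htr⟩ := transfer f j (ε / 16) (by positivity)
  have hCp : (1 : ℝ) ≤ C := by exact_mod_cast hC1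
  set η : ℝ := ε / (16 * (C : ℝ) ^ 2) with hη
  have hηp : 0 < η := by positivity
  set M : ℕ := ⌈8 / ε⌉₊ + 1 with hM
  have hM1 : 1 ≤ M := by omega
  have hMε : 8 / ε ≤ (M : ℝ) := by
    calc 8 / ε ≤ (⌈8 / ε⌉₊ : ℝ) := Nat.le_ceil _
      _ ≤ (M : ℝ) := by rw [hM]; push_cast; linarith
  have hMp : (0 : ℝ) < M := by exact_mod_cast hM1
  have hq : ∀ r : ℕ, ∃ N₀ : ℕ, 1 ≤ r → ∀ N : ℕ, N₀ ≤ N → ∃ X₀ : ℕ, ∀ X : ℕ, X₀ ≤ X →
      ∀ θ : ℝ, ∑ A ∈ Iz X, bq r θ N A ≤ η * X := by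
    intro r
    by_cases hr : 1 ≤ r
    · obtain ⟨N₀, h⟩ := mr_q (r : ℤ) (by omega) η hηp
      exact ⟨N₀, fun _ => h⟩
    · exact ⟨0, fun h => absurd h hr⟩
  choose N₀ hN₀ using hq
  set K : ℕ := (Finset.range M).sup N₀ + 1 with hK
  have hK1 : 1 ≤ K := by omega
  have hq2 : ∀ r : ℕ, ∃ X₀ : ℕ, 1 ≤ r → r < M → ∀ X : ℕ, X₀ ≤ X →
      ∀ θ : ℝ, ∑ A ∈ Iz X, bq r θ K A ≤ η * X := by
    intro r
    by_cases hr : 1 ≤ r ∧ r < M
    · obtain ⟨X₀, h⟩ := hN₀ r hr.1 K (by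
        calc N₀ r ≤ (Finset.range M).sup N₀ := Finset.le_sup (Finset.mem_range.mpr hr.2)
          _ ≤ K := by omega)
      exact ⟨X₀, fun _ _ => h⟩
    · exact ⟨0, fun h1 h2 => absurd ⟨h1, h2⟩ hr⟩
  choose X₀ hX₀ using hq2
  set C₁ : ℕ := ⌈32 * (K : ℝ) / ε⌉₊ + 1 with hC₁
  have hC₁1 : 1 ≤ C₁ := by omega
  have hC₁K : 32 * (K : ℝ) ≤ ε * C₁ := by
    have : 32 * (K : ℝ) / ε ≤ (C₁ : ℝ) := by
      calc 32 * (K : ℝ) / ε ≤ (⌈32 * (K : ℝ) / ε⌉₊ : ℝ) := Nat.le_ceil _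
        _ ≤ (C₁ : ℝ) := by rw [hC₁]; push_cast; linarith
    rw [div_le_iff₀ hε] at this
    linarith
  refine ⟨C₁, x₁ + M + (Finset.range M).sup X₀ + 1, fun x H hx hH1 hH2 g hg => ?_⟩
  have hx1 : 1 ≤ x := by omega
  have hxR : (1 : ℝ) ≤ x := by exact_mod_cast hx1
  have hxH : x ≤ H := by
    calc x = 1 * x := (one_mul x).symm
      _ ≤ C₁ * x := Nat.mul_le_mul_right x hC₁1
      _ ≤ H := hH1
  set T : ℝ := (2 * (H : ℝ) + 1) ^ (j + 1) with hT
  have hTp : 0 < T := by positivity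
  set R : ℕ := max (x ^ f.natDegree) (H * x ^ j) with hR
  have hRx : x ≤ R := by
    calc x = x * 1 := (mul_one x).symm
      _ ≤ H * x ^ j := Nat.mul_le_mul hxH (Nat.one_le_pow _ _ hx1)
      _ ≤ R := le_max_right _ _
  have hRp : (0 : ℝ) < R := by
    have : 0 < R := by omega
    exact_mod_cast this
  have hdeg : x ^ (f.natDegree - 1) ≤ H * x ^ j := by
    calc x ^ (f.natDegree - 1) = 1 * x ^ (f.natDegree - 1) := (one_mul _).symm
      _ ≤ C₁ * x ^ (f.natDegree - 1) := Nat.mul_le_mul_right _ hC₁1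
      _ ≤ H * x ^ j := hH2
  -- the correlations
  have hcorr : ∀ r ∈ Finset.Ico 1 M, ‖∑ n ∈ Finset.range (x - r), ∑ h ∈ bx j H,
      cma_y f g h n * (starRingEnd ℂ) (cma_y f g h (n + r))‖ ≤
        3 * ε / 16 * (x * T) := by
    intro r hr
    rw [Finset.mem_Ico] at hr
    have h1 := cma_corr f hj hg x H r K hK1
    have h2 := htr x H (by omega) hdeg (Or.inr hxH) (fun b => bq r 0 K b)
      (fun b => ⟨bq_nonneg _ _ _ _, bq_le _ _ _ _⟩)
    have h3 := hX₀ r hr.1 hr.2 (C * R) (by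
      calc X₀ r ≤ (Finset.range M).sup X₀ := Finset.le_sup (Finset.mem_range.mpr hr.2)
        _ ≤ x := by omega
        _ ≤ R := hRx
        _ = 1 * R := (one_mul R).symm
        _ ≤ C * R := Nat.mul_le_mul_right R hC1) 0
    have h4 : (C : ℝ) / (R : ℝ) * ∑ b ∈ Iz (C * R), bq r 0 K b ≤ ε / 16 := by
      calc (C : ℝ) / (R : ℝ) * ∑ b ∈ Iz (C * R), bq r 0 K b
          ≤ (C : ℝ) / (R : ℝ) * (η * ((C * R : ℕ) : ℝ)) := by gcongr
        _ = ε / 16 := by
            rw [hη]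
            push_cast
            field_simp
    have h5 := cma_err (j := j) hx1 hC₁K hH1 hC₁1
    have h6 : ∑ n ∈ Finset.Icc 1 x, ∑ h ∈ bx j H, bq r 0 K (Pv f h n) ≤
        x * T * (ε / 16 + ε / 16) := by
      refine h2.trans ?_
      rw [← hR]
      gcongr
    calc ‖∑ n ∈ Finset.range (x - r), ∑ h ∈ bx j H,
          cma_y f g h n * (starRingEnd ℂ) (cma_y f g h (n + r))‖
        ≤ x * T * (ε / 16 + ε / 16) + ε / 16 * (x * T) := by linarith
      _ = 3 * ε / 16 * (x * T) := by ring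
  have hv := vdc (bx j H) (fun h n => cma_y f g h n) x M hM1 (by omega)
    (fun h n => cma_y_le f hg h n)
  have hcard : ((bx j H).card : ℝ) = T := by
    rw [bx_card, hT]
    push_cast
    ring
  rw [hcard] at hv
  simp_rw [cma_sum]
  refine hv.trans ?_
  have hs : ∑ r ∈ Finset.Ico 1 M, ‖∑ n ∈ Finset.range (x - r), ∑ h ∈ bx j H,
      cma_y f g h n * (starRingEnd ℂ) (cma_y f g h (n + r))‖ ≤
        M * (3 * ε / 16 * (x * T)) := by
    calc ∑ r ∈ Finset.Ico 1 M, ‖∑ n ∈ Finset.range (x - r), ∑ h ∈ bx j H,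
        cma_y f g h n * (starRingEnd ℂ) (cma_y f g h (n + r))‖
        ≤ ∑ r ∈ Finset.Ico 1 M, 3 * ε / 16 * (x * T) := Finset.sum_le_sum hcorr
      _ = ((M - 1 : ℕ) : ℝ) * (3 * ε / 16 * (x * T)) := by
          rw [Finset.sum_const, Nat.card_Ico, nsmul_eq_mul]
      _ ≤ M * (3 * ε / 16 * (x * T)) := by
          have : ((M - 1 : ℕ) : ℝ) ≤ M := by exact_mod_cast Nat.sub_le M 1
          gcongr
  have h2M : 2 * (x : ℝ) ^ 2 * T / M ≤ ε / 4 * (x ^ 2 * T) := by
    rw [div_le_iff₀ hMp]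
    have h8 : 8 ≤ ε * M := by
      rw [div_le_iff₀ hε] at hMε
      linarith
    have hp : 0 < (x : ℝ) ^ 2 * T := by positivity
    nlinarith
  calc 2 * (x : ℝ) ^ 2 * T / M + 4 * x / M * ∑ r ∈ Finset.Ico 1 M,
        ‖∑ n ∈ Finset.range (x - r), ∑ h ∈ bx j H,
          cma_y f g h n * (starRingEnd ℂ) (cma_y f g h (n + r))‖
      ≤ ε / 4 * (x ^ 2 * T) + 4 * x / M * (M * (3 * ε / 16 * (x * T))) := by gcongr
    _ = ε * x ^ 2 * T := by field_simp; ring

end Pool.Agent.PS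

end CMA

namespace Pool.Agent.PS

theorem c_main : type_of% @c_main_pr := @c_main_pr

end Pool.Agent.PS
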