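import Mathlib
import Pool.Agent.Lib_helper1.PSF.R1

/-! ### Block PDP -/

section PDP
namespace Pool.Agent.PS

open Filter Topology MeasureTheory

theorem pdp_coeff {α : Type} [CommRing α] (P : Polynomial α) (e : ℕ) (hP : P.natDegree ≤ e + 1)
    (r : α) (N : ℕ) (hN : e ≤ N) :
    (Polynomial.taylor r P).coeff N = P.coeff N + (N + 1) * P.coeff (N + 1) * r := by
  rw [Polynomial.taylor_coeff]
  have h1 : (Polynomial.hasseDeriv N P).natDegree < 2 := by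
    have := Polynomial.natDegree_hasseDeriv_le P N
    omega
  rw [Polynomial.eval_eq_sum_range' h1, Finset.sum_range_succ, Finset.sum_range_one,
    Polynomial.hasseDeriv_coeff, Polynomial.hasseDeriv_coeff]
  have h2 : (1 + N).choose N = N + 1 := by
    rw [Nat.add_comm, Nat.choose_succ_self_right]
  have h3 : (0 + N).choose N = 1 := by simp
  rw [h2, h3, Nat.zero_add, Nat.add_comm 1 N]
  push_cast
  ring

theorem pd_poly_pr {α : Type} [CommRing α] (P : Polynomial α) (e : ℕ) (hP : P.natDegree ≤ e)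
    (n₀ : α) : Pd e (fun i : ℕ => P.eval (n₀ + i)) (e.factorial * P.coeff e) := by
  induction e generalizing P with
  | zero =>
    intro i
    have h : P = Polynomial.C (P.coeff 0) := Polynomial.eq_C_of_natDegree_le_zero hP
    show P.eval (n₀ + i) = _
    rw [h]
    simp
  | succ e ih =>
    intro r
    have hd : (Polynomial.taylor (r : α) P - P).natDegree ≤ e := by
      rw [Polynomial.natDegree_le_iff_coeff_eq_zero]
      intro N hN
      have h0 : P.coeff (N + 1) = 0 := Polynomial.coeff_eq_zero_of_natDegree_lt (by omega)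
      rw [Polynomial.coeff_sub, pdp_coeff P e hP _ N (by omega), h0]
      ring
    have hc : (Polynomial.taylor (r : α) P - P).coeff e = (e + 1) * P.coeff (e + 1) * r := by
      rw [Polynomial.coeff_sub, pdp_coeff P e hP _ e le_rfl]
      ring
    have h := ih (Polynomial.taylor (r : α) P - P) hd
    have h1 : (fun i : ℕ => (Polynomial.taylor (r : α) P - P).eval (n₀ + i)) =
        fun i : ℕ => P.eval (n₀ + ((i + r : ℕ) : α)) - P.eval (n₀ + (i : α)) := by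
      funext i
      rw [Polynomial.eval_sub, Polynomial.taylor_eval]
      congr 2
      push_cast
      ring
    rw [h1, hc] at h
    have h2 : (e.factorial : α) * ((e + 1) * P.coeff (e + 1) * r) =
        r * (((e + 1).factorial : α) * P.coeff (e + 1)) := by
      rw [Nat.factorial_succ]
      push_cast
      ring
    rw [h2] at h
    exact h


end Pool.Agent.PS

end PDP

namespace Pool.Agent.PS

theorem pd_poly : type_of% @pd_poly_pr := @pd_poly_pr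

end Pool.Agent.PS

/-! ### Block PAR -/

section PAR
/-! PS, block PAR: Parseval (helper69) -/

namespace Pool.Agent.PS

open Filter Topology MeasureTheory

theorem par_ez_one {α : ℝ} (h : ez α = 1) : ∃ n : ℤ, α = n := by
  unfold ez at h
  rw [Complex.exp_eq_one_iff] at h
  obtain ⟨n, hn⟩ := h
  refine ⟨n, ?_⟩
  have h1 : ((2 * Real.pi * α : ℝ) : ℂ) * Complex.I = ((n * (2 * Real.pi) : ℝ) : ℂ) * Complex.I := by
    rw [hn]; push_cast; ring
  have h2 : 2 * Real.pi * α = n * (2 * Real.pi) := by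
    have := mul_right_cancel₀ Complex.I_ne_zero h1
    exact_mod_cast this
  have h3 : (2 * Real.pi) ≠ 0 := by positivity
  have h4 : (2 * Real.pi) * α = (2 * Real.pi) * n := by rw [h2]; ring
  exact mul_left_cancel₀ h3 h4

theorem par_ez_pow (α : ℝ) (s : ℕ) : ez (α * s) = ez α ^ s := by
  induction s with
  | zero => simp [ez_zero]
  | succ s ih =>
    rw [pow_succ, ← ih, ← ez_add]
    congr 1
    push_cast
    ring

theorem par_geom (M : ℕ) (hM : 0 < M) (j : ℤ) (hj : ¬ (M : ℤ) ∣ j) :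
    ∑ s ∈ Finset.range M, ez ((j : ℝ) / M * s) = 0 := by
  have hM0 : (M : ℝ) ≠ 0 := by exact_mod_cast hM.ne'
  simp_rw [par_ez_pow]
  have h1 : ez ((j : ℝ) / M) ≠ 1 := by
    intro h
    obtain ⟨n, hn⟩ := par_ez_one h
    apply hj
    refine ⟨n, ?_⟩
    have : (j : ℝ) = M * n := by
      rw [← hn]; field_simp
    exact_mod_cast this
  have h2 : ez ((j : ℝ) / M) ^ M = 1 := by
    rw [← par_ez_pow, div_mul_cancel₀ _ hM0]
    exact ez_int j
  have h3 := geom_sum_mul (ez ((j : ℝ) / M)) M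
  rw [h2, sub_self] at h3
  exact (mul_eq_zero.1 h3).resolve_right (sub_ne_zero.2 h1)

theorem par_orth (M : ℕ) (hM : 0 < M) (t u : ℕ) (ht : t < M) (hu : u < M) :
    ∑ s ∈ Finset.range M, ez ((((t : ℤ) - (u : ℤ) : ℤ) : ℝ) / M * s) =
      if t = u then (M : ℂ) else 0 := by
  split_ifs with h
  · subst h
    simp [ez_zero]
  · apply par_geom M hM
    intro hd
    have h1 : ((t : ℤ) - u) = 0 := by
      apply Int.eq_zero_of_abs_lt_dvd hd
      rw [abs_lt]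
      constructor <;> omega
    omega

/-- Parseval -/
theorem par_pars (M : ℕ) (hM : 0 < M) (P : ℕ → ℂ) :
    ∑ s ∈ Finset.range M, ‖∑ t ∈ Finset.range M, P t * ez ((t : ℝ) / M * s)‖ ^ 2 =
      M * ∑ t ∈ Finset.range M, ‖P t‖ ^ 2 := by
  have key : ((∑ s ∈ Finset.range M,
      ‖∑ t ∈ Finset.range M, P t * ez ((t : ℝ) / M * s)‖ ^ 2 : ℝ) : ℂ) =
      ((M * ∑ t ∈ Finset.range M, ‖P t‖ ^ 2 : ℝ) : ℂ) := by
    have e1 : ∀ s ∈ Finset.range M,
        ((‖∑ t ∈ Finset.range M, P t * ez ((t : ℝ) / M * s)‖ ^ 2 : ℝ) : ℂ) =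
        ∑ t ∈ Finset.range M, ∑ u ∈ Finset.range M, P t * (starRingEnd ℂ) (P u) *
          ez ((((t : ℤ) - (u : ℤ) : ℤ) : ℝ) / M * s) := by
      intro s _
      have e2 : ((‖∑ t ∈ Finset.range M, P t * ez ((t : ℝ) / M * s)‖ ^ 2 : ℝ) : ℂ) =
          (∑ t ∈ Finset.range M, P t * ez ((t : ℝ) / M * s)) *
          (starRingEnd ℂ) (∑ u ∈ Finset.range M, P u * ez ((u : ℝ) / M * s)) := by
        rw [Complex.mul_conj, Complex.normSq_eq_norm_sq]
      rw [e2, map_sum, Finset.sum_mul_sum]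
      refine Finset.sum_congr rfl fun t _ => Finset.sum_congr rfl fun u _ => ?_
      rw [map_mul, ez_conj]
      have e3 : ez ((((t : ℤ) - (u : ℤ) : ℤ) : ℝ) / M * s) =
          ez ((t : ℝ) / M * s) * ez (-((u : ℝ) / M * s)) := by
        rw [← ez_add]
        congr 1
        push_cast
        ring
      rw [e3]
      ring
    rw [Complex.ofReal_sum, Finset.sum_congr rfl e1, Finset.sum_comm, Complex.ofReal_mul,
      Complex.ofReal_natCast, Complex.ofReal_sum, Finset.mul_sum]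
    refine Finset.sum_congr rfl fun t ht => ?_
    rw [Finset.sum_comm]
    have e4 : ∀ u ∈ Finset.range M, ∑ s ∈ Finset.range M, P t * (starRingEnd ℂ) (P u) *
          ez ((((t : ℤ) - (u : ℤ) : ℤ) : ℝ) / M * s) =
          if t = u then P t * (starRingEnd ℂ) (P u) * (M : ℂ) else 0 := by
      intro u hu
      rw [← Finset.mul_sum, par_orth M hM t u (Finset.mem_range.1 ht) (Finset.mem_range.1 hu)]
      split_ifs <;> simp
    rw [Finset.sum_congr rfl e4, Finset.sum_ite_eq, if_pos ht, Complex.mul_conj,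
      Complex.normSq_eq_norm_sq]
    push_cast
    ring
  exact_mod_cast key

/-- shifting the average -/
theorem par_shift (φ : ℤ → ℝ) (L : ℝ) (h0 : ∀ a, 0 ≤ φ a) (hL : ∀ a, φ a ≤ L) (H : ℕ) (c : ℤ) :
    ∑ a ∈ Iz H, φ a ≤ ∑ a ∈ Iz H, φ (a + c) + |(c : ℝ)| * L := by
  classical
  have hL0 : 0 ≤ L := (h0 0).trans (hL 0)
  set J : Finset ℤ := (Iz H).image (fun a => a + c) with hJ
  have e1 : ∑ a ∈ Iz H, φ (a + c) = ∑ b ∈ J, φ b := by
    rw [hJ, Finset.sum_image]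
    intro x _ y _ hxy
    simpa using hxy
  have e2 : ∑ a ∈ Iz H, φ a = ∑ a ∈ Iz H ∩ J, φ a + ∑ a ∈ Iz H \ J, φ a := by
    exact (Finset.sum_inter_add_sum_sdiff (Iz H) J φ).symm
  have e3 : ∑ a ∈ Iz H ∩ J, φ a ≤ ∑ b ∈ J, φ b :=
    Finset.sum_le_sum_of_subset_of_nonneg Finset.inter_subset_right fun a _ _ => h0 a
  have e4 : ((Iz H \ J).card : ℝ) ≤ |(c : ℝ)| := by
    have e5 : Iz H \ J ⊆ if 0 ≤ c then Finset.Ico (-(H : ℤ)) (-(H : ℤ) + c)
        else Finset.Ioc ((H : ℤ) + c) H := by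
      intro a ha
      rw [Finset.mem_sdiff, mem_Iz] at ha
      obtain ⟨⟨h1, h2⟩, h3⟩ := ha
      have h4 : ¬ (a - c ∈ Iz H) := by
        intro h5
        apply h3
        rw [hJ, Finset.mem_image]
        exact ⟨a - c, h5, by ring⟩
      rw [mem_Iz] at h4
      split_ifs with hc
      · rw [Finset.mem_Ico]
        refine ⟨h1, ?_⟩
        by_contra h6
        apply h4
        constructor <;> omega
      · rw [Finset.mem_Ioc]
        refine ⟨?_, h2⟩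
        by_contra h6
        apply h4
        constructor <;> omega
    have e6 := Finset.card_le_card e5
    have e7 : ((Iz H \ J).card : ℤ) ≤ |c| := by
      split_ifs at e6 with hc
      · rw [Int.card_Ico] at e6
        rw [abs_of_nonneg hc]
        omega
      · rw [Int.card_Ioc] at e6
        rw [abs_of_neg (by omega)]
        omega
    have e8 : (((Iz H \ J).card : ℤ) : ℝ) ≤ ((|c| : ℤ) : ℝ) := by exact_mod_cast e7
    rw [Int.cast_abs] at e8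
    simpa using e8
  have e9 : ∑ a ∈ Iz H \ J, φ a ≤ |(c : ℝ)| * L := by
    calc ∑ a ∈ Iz H \ J, φ a ≤ ∑ a ∈ Iz H \ J, L := Finset.sum_le_sum fun a _ => hL a
      _ = ((Iz H \ J).card : ℝ) * L := by rw [Finset.sum_const, nsmul_eq_mul]
      _ ≤ |(c : ℝ)| * L := mul_le_mul_of_nonneg_right e4 hL0
  rw [e1, e2]
  exact add_le_add e3 e9

/-- one value of `a` -/
theorem par_one (N : ℕ) (hN : 1 ≤ N) (G V : ℕ → ℂ) :
    ∑ s ∈ Finset.range N, ‖∑ i ∈ Finset.range N, G i * V (i + s)‖ ^ 2 ≤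
      (1 / (2 * N : ℝ)) * ∑ t ∈ Finset.range (2 * N),
        ‖∑ i ∈ Finset.range N, G i * ez (-((t : ℝ) / ((2 * N : ℕ) : ℝ) * i))‖ ^ 2 *
        ‖∑ m ∈ Finset.range (2 * N), ez ((t : ℝ) / ((2 * N : ℕ) : ℝ) * m) * V m‖ ^ 2 := by
  obtain ⟨M, hM⟩ : ∃ M, M = 2 * N := ⟨_, rfl⟩
  rw [← hM]
  have hM0 : 0 < M := by omega
  have hMR : (2 * N : ℝ) = (M : ℝ) := by rw [hM]; push_cast; ring
  rw [hMR]
  have hMR0 : (0 : ℝ) < M := by exact_mod_cast hM0
  set A : ℕ → ℂ := fun t => ∑ i ∈ Finset.range N, G i * ez (-((t : ℝ) / (M : ℝ) * i)) with hA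
  set B : ℕ → ℂ := fun t => ∑ m ∈ Finset.range M, ez ((t : ℝ) / (M : ℝ) * m) * V m with hB
  -- c_s through the transform of conj (A B)
  have key : ∀ s ∈ Finset.range N, (M : ℂ) * ∑ i ∈ Finset.range N, G i * V (i + s) =
      ∑ t ∈ Finset.range M, (A t * B t) * ez (-((t : ℝ) / M * s)) := by
    intro s hs
    rw [Finset.mem_range] at hs
    have e1 : ∀ t ∈ Finset.range M, (A t * B t) * ez (-((t : ℝ) / M * s)) =
        ∑ i ∈ Finset.range N, ∑ m ∈ Finset.range M, G i * V m *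
          ez ((((m : ℤ) - ((i + s : ℕ) : ℤ) : ℤ) : ℝ) / M * t) := by
      intro t _
      rw [hA, hB]
      simp only
      rw [Finset.sum_mul_sum, Finset.sum_mul]
      refine Finset.sum_congr rfl fun i _ => ?_
      rw [Finset.sum_mul]
      refine Finset.sum_congr rfl fun m _ => ?_
      have e3 : ez ((((m : ℤ) - ((i + s : ℕ) : ℤ) : ℤ) : ℝ) / M * t) =
          ez (-((t : ℝ) / (M : ℝ) * i)) * ez ((t : ℝ) / (M : ℝ) * m) *
            ez (-((t : ℝ) / M * s)) := by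
        rw [← ez_add, ← ez_add]
        congr 1
        push_cast
        ring
      rw [e3]
      ring
    rw [Finset.sum_congr rfl e1, Finset.sum_comm, Finset.mul_sum]
    refine Finset.sum_congr rfl fun i hi => ?_
    rw [Finset.mem_range] at hi
    rw [Finset.sum_comm]
    have e4 : ∀ m ∈ Finset.range M, ∑ t ∈ Finset.range M, G i * V m *
          ez ((((m : ℤ) - ((i + s : ℕ) : ℤ) : ℤ) : ℝ) / M * t) =
          if m = i + s then G i * V m * (M : ℂ) else 0 := by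
      intro m hm
      rw [← Finset.mul_sum, par_orth M hM0 m (i + s) (Finset.mem_range.1 hm) (by omega)]
      split_ifs <;> simp
    rw [Finset.sum_congr rfl e4, Finset.sum_ite_eq' , if_pos (Finset.mem_range.2 (by omega))]
    ring
  have h1 : ∀ s ∈ Finset.range N, ‖∑ i ∈ Finset.range N, G i * V (i + s)‖ ^ 2 =
      (1 / (M : ℝ) ^ 2) * ‖∑ t ∈ Finset.range M, (starRingEnd ℂ) (A t * B t) *
        ez ((t : ℝ) / M * s)‖ ^ 2 := by
    intro s hs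
    have e1 : ‖∑ t ∈ Finset.range M, (starRingEnd ℂ) (A t * B t) * ez ((t : ℝ) / M * s)‖ =
        ‖(M : ℂ) * ∑ i ∈ Finset.range N, G i * V (i + s)‖ := by
      rw [key s hs, ← RCLike.norm_conj (∑ t ∈ Finset.range M, (A t * B t) *
        ez (-((t : ℝ) / M * s))), map_sum]
      congr 1
      refine Finset.sum_congr rfl fun t _ => ?_
      rw [map_mul (starRingEnd ℂ) (A t * B t) (ez (-((t : ℝ) / M * s))), ez_conj, neg_neg]
    rw [e1, norm_mul, Complex.norm_natCast, mul_pow]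
    field_simp
  rw [Finset.sum_congr rfl h1, ← Finset.mul_sum]
  have h2 : ∑ s ∈ Finset.range N, ‖∑ t ∈ Finset.range M, (starRingEnd ℂ) (A t * B t) *
        ez ((t : ℝ) / M * s)‖ ^ 2 ≤ ∑ s ∈ Finset.range M, ‖∑ t ∈ Finset.range M,
        (starRingEnd ℂ) (A t * B t) * ez ((t : ℝ) / M * s)‖ ^ 2 := by
    apply Finset.sum_le_sum_of_subset_of_nonneg
    · intro s hs
      rw [Finset.mem_range] at hs ⊢
      omega
    · intro s _ _
      positivity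
  rw [par_pars M hM0] at h2
  calc (1 / (M : ℝ) ^ 2) * _ ≤ (1 / (M : ℝ) ^ 2) * (M * ∑ t ∈ Finset.range M,
        ‖(starRingEnd ℂ) (A t * B t)‖ ^ 2) := mul_le_mul_of_nonneg_left h2 (by positivity)
    _ = (1 / (M : ℝ)) * ∑ t ∈ Finset.range M, ‖A t‖ ^ 2 * ‖B t‖ ^ 2 := by
        have : ∑ t ∈ Finset.range M, ‖(starRingEnd ℂ) (A t * B t)‖ ^ 2 =
            ∑ t ∈ Finset.range M, ‖A t‖ ^ 2 * ‖B t‖ ^ 2 := by
          refine Finset.sum_congr rfl fun t _ => ?_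
          rw [RCLike.norm_conj, norm_mul, mul_pow]
        rw [this]
        field_simp

theorem par_G (N : ℕ) (hN : 1 ≤ N) (G : ℕ → ℂ) (hG : ∀ i, ‖G i‖ ≤ 1) :
    ∑ t ∈ Finset.range (2 * N),
      ‖∑ i ∈ Finset.range N, G i * ez (-((t : ℝ) / ((2 * N : ℕ) : ℝ) * i))‖ ^ 2 ≤
      2 * (N : ℝ) * N := by
  obtain ⟨M, hM⟩ : ∃ M, M = 2 * N := ⟨_, rfl⟩
  rw [← hM]
  have hM0 : 0 < M := by omega
  have hMR : (2 * N : ℝ) = (M : ℝ) := by rw [hM]; push_cast; ring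
  have h1 := par_pars M hM0 (fun i => if i < N then (starRingEnd ℂ) (G i) else 0)
  have h2 : ∀ t ∈ Finset.range M,
      ‖∑ i ∈ Finset.range N, G i * ez (-((t : ℝ) / (M : ℝ) * i))‖ ^ 2 =
      ‖∑ i ∈ Finset.range M, (if i < N then (starRingEnd ℂ) (G i) else 0) *
        ez ((i : ℝ) / M * t)‖ ^ 2 := by
    intro t _
    congr 1
    rw [← RCLike.norm_conj (∑ i ∈ Finset.range N, G i * ez (-((t : ℝ) / (M : ℝ) * i))), map_sum]
    congr 1
    have e1 : Finset.range N ⊆ Finset.range M := by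
      intro s hs
      rw [Finset.mem_range] at hs ⊢
      omega
    rw [← Finset.sum_subset e1]
    · refine Finset.sum_congr rfl fun i hi => ?_
      rw [if_pos (Finset.mem_range.1 hi), map_mul, ez_conj, neg_neg]
      congr 2
      ring
    · intro i _ hi
      rw [Finset.mem_range] at hi
      rw [if_neg hi, zero_mul]
  rw [Finset.sum_congr rfl h2, h1, hMR]
  refine mul_le_mul_of_nonneg_left ?_ (Nat.cast_nonneg _)
  have e1 : Finset.range N ⊆ Finset.range M := by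
    intro s hs
    rw [Finset.mem_range] at hs ⊢
    omega
  rw [← Finset.sum_subset e1]
  · calc ∑ i ∈ Finset.range N, ‖(if i < N then (starRingEnd ℂ) (G i) else 0 : ℂ)‖ ^ 2 ≤
        ∑ i ∈ Finset.range N, (1 : ℝ) := by
          refine Finset.sum_le_sum fun i hi => ?_
          rw [if_pos (Finset.mem_range.1 hi), RCLike.norm_conj]
          exact pow_le_one₀ (norm_nonneg _) (hG i)
      _ = N := by simp
  · intro i _ hi
    rw [Finset.mem_range] at hi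
    rw [if_neg hi]
    simp

theorem par_pr (F : ℤ → ℂ) (hF : ∀ a, ‖F a‖ ≤ 1) (q : ℤ) (N H : ℕ) (hN : 1 ≤ N) (G : ℕ → ℂ)
    (hG : ∀ i, ‖G i‖ ≤ 1) : ∃ θ : ℝ,
      ∑ a ∈ Iz H, ‖∑ i ∈ Finset.range N, G i * F (a + q * i)‖ ^ 2 ≤
        ∑ a ∈ Iz H, ‖∑ m ∈ Finset.range (2 * N), ez (θ * m) * F (a + q * m)‖ ^ 2 +
          |(q : ℝ)| * (N : ℝ) ^ 3 := by
  have hN0 : (0 : ℝ) < N := by exact_mod_cast hN
  obtain ⟨S, hS⟩ : ∃ S : ℕ → ℝ, S = fun t : ℕ => ∑ a ∈ Iz H,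
    ‖∑ m ∈ Finset.range (2 * N), ez ((t : ℝ) / ((2 * N : ℕ) : ℝ) * m) * F (a + q * m)‖ ^ 2 :=
    ⟨_, rfl⟩
  obtain ⟨t₀, ht₀, hmax⟩ := Finset.exists_max_image (Finset.range (2 * N)) S
    ⟨0, Finset.mem_range.2 (by omega)⟩
  refine ⟨(t₀ : ℝ) / ((2 * N : ℕ) : ℝ), ?_⟩
  obtain ⟨φ, hφ⟩ : ∃ φ : ℤ → ℝ, φ = fun a =>
    ‖∑ i ∈ Finset.range N, G i * F (a + q * i)‖ ^ 2 := ⟨_, rfl⟩
  have hφ0 : ∀ a, 0 ≤ φ a := by intro a; rw [hφ]; positivity
  have hφL : ∀ a, φ a ≤ (N : ℝ) ^ 2 := by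
    intro a
    rw [hφ]
    refine pow_le_pow_left₀ (norm_nonneg _) ?_ 2
    calc ‖∑ i ∈ Finset.range N, G i * F (a + q * i)‖ ≤ ∑ i ∈ Finset.range N, (1 : ℝ) := by
          refine norm_sum_le_of_le _ fun i _ => ?_
          rw [norm_mul]
          exact mul_le_one₀ (hG i) (norm_nonneg _) (hF _)
      _ = N := by simp
  -- step 1
  have h1 : (N : ℝ) * ∑ a ∈ Iz H, φ a ≤
      ∑ s ∈ Finset.range N, ∑ a ∈ Iz H, φ (a + q * s) + |(q : ℝ)| * (N : ℝ) ^ 4 := by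
    have e1 : ∀ s ∈ Finset.range N, ∑ a ∈ Iz H, φ a ≤
        ∑ a ∈ Iz H, φ (a + q * s) + |(q : ℝ)| * (N : ℝ) ^ 3 := by
      intro s hs
      refine (par_shift φ _ hφ0 hφL H (q * s)).trans ?_
      refine add_le_add le_rfl ?_
      push_cast
      rw [abs_mul, mul_assoc]
      refine mul_le_mul_of_nonneg_left ?_ (abs_nonneg _)
      have e2 : |(s : ℝ)| ≤ N := by
        rw [abs_of_nonneg (Nat.cast_nonneg _)]
        exact_mod_cast (Finset.mem_range.1 hs).le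
      calc |(s : ℝ)| * (N : ℝ) ^ 2 ≤ N * (N : ℝ) ^ 2 :=
            mul_le_mul_of_nonneg_right e2 (by positivity)
        _ = (N : ℝ) ^ 3 := by ring
    have e3 := Finset.sum_le_sum e1
    rw [Finset.sum_const, nsmul_eq_mul, Finset.card_range, Finset.sum_add_distrib,
      Finset.sum_const, nsmul_eq_mul, Finset.card_range] at e3
    calc (N : ℝ) * ∑ a ∈ Iz H, φ a ≤ _ := e3
      _ = _ := by ring
  -- step 2
  have h2 : ∑ s ∈ Finset.range N, ∑ a ∈ Iz H, φ (a + q * s) ≤ N * S t₀ := by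
    rw [Finset.sum_comm]
    have e1 : ∀ a ∈ Iz H, ∑ s ∈ Finset.range N, φ (a + q * s) ≤
        (1 / (2 * N : ℝ)) * ∑ t ∈ Finset.range (2 * N),
        ‖∑ i ∈ Finset.range N, G i * ez (-((t : ℝ) / ((2 * N : ℕ) : ℝ) * i))‖ ^ 2 *
        ‖∑ m ∈ Finset.range (2 * N), ez ((t : ℝ) / ((2 * N : ℕ) : ℝ) * m) *
          F (a + q * m)‖ ^ 2 := by
      intro a _
      refine le_trans (le_of_eq ?_) (par_one N hN G (fun m => F (a + q * m)))
      refine Finset.sum_congr rfl fun s _ => ?_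
      rw [hφ]
      simp only
      congr 2
      refine Finset.sum_congr rfl fun i _ => ?_
      congr 2
      push_cast
      ring
    refine (Finset.sum_le_sum e1).trans ?_
    rw [← Finset.mul_sum, Finset.sum_comm]
    have e2 : ∀ t ∈ Finset.range (2 * N), ∑ a ∈ Iz H,
        ‖∑ i ∈ Finset.range N, G i * ez (-((t : ℝ) / ((2 * N : ℕ) : ℝ) * i))‖ ^ 2 *
        ‖∑ m ∈ Finset.range (2 * N), ez ((t : ℝ) / ((2 * N : ℕ) : ℝ) * m) *
          F (a + q * m)‖ ^ 2 ≤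
        ‖∑ i ∈ Finset.range N, G i * ez (-((t : ℝ) / ((2 * N : ℕ) : ℝ) * i))‖ ^ 2 * S t₀ := by
      intro t ht
      rw [← Finset.mul_sum]
      refine mul_le_mul_of_nonneg_left ?_ (by positivity)
      have := hmax t ht
      rw [hS] at this ⊢
      exact this
    have hS0 : 0 ≤ S t₀ := by
      rw [hS]
      exact Finset.sum_nonneg fun a _ => by positivity
    calc (1 / (2 * N : ℝ)) * _ ≤ (1 / (2 * N : ℝ)) * ((2 * (N : ℝ) * N) * S t₀) := by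
          refine mul_le_mul_of_nonneg_left ?_ (by positivity)
          refine (Finset.sum_le_sum e2).trans ?_
          rw [← Finset.sum_mul]
          exact mul_le_mul_of_nonneg_right (par_G N hN G hG) hS0
      _ = N * S t₀ := by field_simp
  have h3 : (N : ℝ) * ∑ a ∈ Iz H, φ a ≤ N * (S t₀ + |(q : ℝ)| * (N : ℝ) ^ 3) := by
    calc (N : ℝ) * ∑ a ∈ Iz H, φ a ≤ N * S t₀ + |(q : ℝ)| * (N : ℝ) ^ 4 := by linarith
      _ = _ := by ring
  have h4 := le_of_mul_le_mul_left h3 hN0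
  rw [hφ, hS] at h4
  exact h4

end Pool.Agent.PS

end PAR

namespace Pool.Agent.PS

theorem par : type_of% @par_pr := @par_pr

end Pool.Agent.PS

/-! ### Block BCO -/

section BCO
/-!
# PS, block BCO
-/

namespace Pool.Agent.PS

open Filter Topology MeasureTheory

theorem bco_card (H : ℕ) (R : ℤ) :
    ((Finset.Icc (-(H : ℤ) + R) (H + R) \ Finset.Icc (-(H : ℤ)) H).card : ℝ) ≤ |(R : ℝ)| := by
  rcases le_or_gt 0 R with h | h
  · have h1 : Finset.Icc (-(H : ℤ) + R) (H + R) \ Finset.Icc (-(H : ℤ)) H ⊆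
        Finset.Icc ((H : ℤ) + 1) (H + R) := by
      intro a ha
      simp only [Finset.mem_sdiff, Finset.mem_Icc] at ha ⊢
      omega
    have h2 := Finset.card_le_card h1
    rw [Int.card_Icc] at h2
    have h3 : (((H : ℤ) + R + 1 - (H + 1)).toNat : ℝ) = R := by
      have : ((H : ℤ) + R + 1 - (H + 1)) = R := by ring
      rw [this]
      have h4 : ((R.toNat : ℤ)) = R := Int.toNat_of_nonneg h
      exact_mod_cast congrArg (fun z : ℤ => (z : ℝ)) h4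
    rw [abs_of_nonneg (by exact_mod_cast h), ← h3]
    exact_mod_cast h2
  · have h1 : Finset.Icc (-(H : ℤ) + R) (H + R) \ Finset.Icc (-(H : ℤ)) H ⊆
        Finset.Icc (-(H : ℤ) + R) (-(H : ℤ) - 1) := by
      intro a ha
      simp only [Finset.mem_sdiff, Finset.mem_Icc] at ha ⊢
      omega
    have h2 := Finset.card_le_card h1
    rw [Int.card_Icc] at h2
    have h3 : ((-(H : ℤ) - 1 + 1 - (-(H : ℤ) + R)).toNat : ℝ) = -R := by
      have : (-(H : ℤ) - 1 + 1 - (-(H : ℤ) + R)) = -R := by ring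
      rw [this]
      have h4 : (((-R).toNat : ℤ)) = -R := Int.toNat_of_nonneg (by omega)
      have h5 := congrArg (fun z : ℤ => (z : ℝ)) h4
      push_cast at h5
      exact h5
    rw [abs_of_neg (by exact_mod_cast h), ← h3]
    exact_mod_cast h2

theorem bco_card' (H : ℕ) (R : ℤ) :
    ((Finset.Icc (-(H : ℤ)) H \ Finset.Icc (-(H : ℤ) + R) (H + R)).card : ℝ) ≤ |(R : ℝ)| := by
  have h1 : (Finset.Icc (-(H : ℤ)) H \ Finset.Icc (-(H : ℤ) + R) (H + R)).card ≤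
      (Finset.Icc (-(H : ℤ) + -R) (H + -R) \ Finset.Icc (-(H : ℤ)) H).card := by
    apply Finset.card_le_card_of_injOn (fun a => a - R)
    · intro a ha
      simp only [Finset.mem_coe, Finset.mem_sdiff, Finset.mem_Icc] at ha ⊢
      omega
    · intro a _ b _ hab
      simp only at hab
      omega
  have h2 := bco_card H (-R)
  push_cast at h2
  rw [abs_neg] at h2
  exact le_trans (by exact_mod_cast h1) h2

theorem bco_shift (ψ : ℤ → ℂ) (hψ : ∀ a, ‖ψ a‖ ≤ 1) (H : ℕ) (R : ℤ) :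
    ‖∑ a ∈ Iz H, ψ (a + R) - ∑ a ∈ Iz H, ψ a‖ ≤ 2 * |(R : ℝ)| := by
  have h1 : ∑ a ∈ Iz H, ψ (a + R) = ∑ a ∈ Finset.Icc (-(H : ℤ) + R) (H + R), ψ a := by
    unfold Iz
    apply Finset.sum_nbij' (fun a => a + R) (fun a => a - R)
    · intro a ha
      simp only [Finset.mem_Icc] at ha ⊢
      omega
    · intro a ha
      simp only [Finset.mem_Icc] at ha ⊢
      omega
    · intro a _
      ring
    · intro a _
      ring
    · intro a _
      rfl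
  rw [h1]
  unfold Iz
  rw [← Finset.sum_sdiff_sub_sum_sdiff]
  have h2 : ‖∑ a ∈ Finset.Icc (-(H : ℤ) + R) (H + R) \ Finset.Icc (-(H : ℤ)) H, ψ a‖ ≤
      |(R : ℝ)| := by
    calc _ ≤ ∑ a ∈ Finset.Icc (-(H : ℤ) + R) (H + R) \ Finset.Icc (-(H : ℤ)) H, (1 : ℝ) :=
          norm_sum_le_of_le _ (fun a _ => hψ a)
      _ ≤ _ := by simpa using bco_card H R
  have h3 : ‖∑ a ∈ Finset.Icc (-(H : ℤ)) H \ Finset.Icc (-(H : ℤ) + R) (H + R), ψ a‖ ≤
      |(R : ℝ)| := by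
    calc _ ≤ ∑ a ∈ Finset.Icc (-(H : ℤ)) H \ Finset.Icc (-(H : ℤ) + R) (H + R), (1 : ℝ) :=
          norm_sum_le_of_le _ (fun a _ => hψ a)
      _ ≤ _ := by simpa using bco_card' H R
  calc _ ≤ _ + _ := norm_sub_le _ _
    _ ≤ |(R : ℝ)| + |(R : ℝ)| := add_le_add h2 h3
    _ = _ := by ring

theorem bco_win (y : ℕ → ℂ) (T : ℝ) (hy : ∀ n, ‖y n‖ ≤ T) (x i : ℕ) :
    ‖∑ n ∈ Finset.Icc 1 x, y (n + i) - ∑ n ∈ Finset.Icc 1 x, y n‖ ≤ 2 * i * T := by
  induction i with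
  | zero => simp
  | succ i ih =>
    have h1 : ∑ n ∈ Finset.Icc 1 x, y (n + (i + 1)) - ∑ n ∈ Finset.Icc 1 x, y (n + i) =
        y (x + (i + 1)) - y (0 + (i + 1)) := by
      have h2 : ∀ z : ℕ → ℂ, ∑ n ∈ Finset.Icc 1 x, z n = ∑ n ∈ Finset.range x, z (n + 1) := by
        intro z
        have h3 : Finset.Icc 1 x = Finset.Ico 1 (x + 1) := by
          ext n; simp only [Finset.mem_Icc, Finset.mem_Ico]; omega
        rw [h3, Finset.sum_Ico_eq_sum_range]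
        simp only [Nat.add_sub_cancel]
        exact Finset.sum_congr rfl (fun n _ => by rw [add_comm])
      rw [h2, h2, ← Finset.sum_sub_distrib]
      rw [← Finset.sum_range_sub (fun n => y (n + (i + 1))) x]
      apply Finset.sum_congr rfl
      intro n _
      have e1 : n + 1 + i = n + (i + 1) := by ring
      rw [e1]
    have h4 : ∑ n ∈ Finset.Icc 1 x, y (n + (i + 1)) - ∑ n ∈ Finset.Icc 1 x, y n =
        (y (x + (i + 1)) - y (0 + (i + 1))) +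
        (∑ n ∈ Finset.Icc 1 x, y (n + i) - ∑ n ∈ Finset.Icc 1 x, y n) := by
      rw [← h1]; ring
    rw [h4]
    have h5 : ‖y (x + (i + 1)) - y (0 + (i + 1))‖ ≤ T + T :=
      le_trans (norm_sub_le _ _) (add_le_add (hy _) (hy _))
    calc _ ≤ _ + _ := norm_add_le _ _
      _ ≤ (T + T) + 2 * i * T := add_le_add h5 ih
      _ = _ := by push_cast; ring

theorem bco_Fg (f : Polynomial ℤ) (g : ℕ → ℂ) (hg : ∀ n, ‖g n‖ ≤ 1) (x : ℕ) (hx : 1 ≤ x)
    (a : ℤ) : ‖Fg f g x a‖ ≤ 1 := by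
  unfold Fg
  have hx0 : (0 : ℝ) < x := by exact_mod_cast hx
  rw [norm_div, Complex.norm_natCast, div_le_one hx0]
  calc _ ≤ ∑ n ∈ Finset.Icc 1 x, (1 : ℝ) := by
        apply norm_sum_le_of_le
        intro n _
        rw [norm_mul]
        exact mul_le_one₀ (hg n) (norm_nonneg _) (lz_norm _)
    _ = x := by simp

/-- the sum of squares as a bilinear form -/
theorem bco_sq (H N : ℕ) (c : ℕ → ℂ) (hc : ∀ i, ‖c i‖ ≤ 1) (F : ℕ → ℤ → ℂ) :
    ∑ v ∈ Iz H, ‖∑ i ∈ Finset.range N, c i * (starRingEnd ℂ) (F i v)‖ ^ 2 ≤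
      ∑ i ∈ Finset.range N, ∑ i' ∈ Finset.range N,
        ‖∑ v ∈ Iz H, (starRingEnd ℂ) (F i v) * F i' v‖ := by
  have h1 : ((∑ v ∈ Iz H, ‖∑ i ∈ Finset.range N, c i * (starRingEnd ℂ) (F i v)‖ ^ 2 : ℝ) : ℂ) =
      ∑ i ∈ Finset.range N, ∑ i' ∈ Finset.range N, c i * (starRingEnd ℂ) (c i') *
        ∑ v ∈ Iz H, (starRingEnd ℂ) (F i v) * F i' v := by
    push_cast
    have h2 : ∀ v ∈ Iz H, ((‖∑ i ∈ Finset.range N, c i * (starRingEnd ℂ) (F i v)‖ : ℝ) : ℂ) ^ 2 =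
        ∑ i ∈ Finset.range N, ∑ i' ∈ Finset.range N, c i * (starRingEnd ℂ) (c i') *
          ((starRingEnd ℂ) (F i v) * F i' v) := by
      intro v _
      rw [← Complex.mul_conj', map_sum, Finset.sum_mul_sum]
      apply Finset.sum_congr rfl
      intro i _
      apply Finset.sum_congr rfl
      intro i' _
      rw [map_mul, Complex.conj_conj]
      ring
    rw [Finset.sum_congr rfl h2, Finset.sum_comm]
    apply Finset.sum_congr rfl
    intro i _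
    rw [Finset.sum_comm]
    apply Finset.sum_congr rfl
    intro i' _
    rw [Finset.mul_sum]
  have h3 : (∑ v ∈ Iz H, ‖∑ i ∈ Finset.range N, c i * (starRingEnd ℂ) (F i v)‖ ^ 2 : ℝ) =
      ‖((∑ v ∈ Iz H, ‖∑ i ∈ Finset.range N, c i * (starRingEnd ℂ) (F i v)‖ ^ 2 : ℝ) : ℂ)‖ := by
    rw [Complex.norm_real, Real.norm_eq_abs, abs_of_nonneg]
    positivity
  rw [h3, h1]
  apply norm_sum_le_of_le
  intro i _
  apply norm_sum_le_of_le
  intro i' _
  rw [norm_mul, norm_mul, RCLike.norm_conj]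
  have h4 : ‖c i‖ * ‖c i'‖ ≤ 1 := mul_le_one₀ (hc i) (norm_nonneg _) (hc i')
  calc _ ≤ 1 * ‖∑ v ∈ Iz H, (starRingEnd ℂ) (F i v) * F i' v‖ :=
        mul_le_mul_of_nonneg_right h4 (norm_nonneg _)
    _ = _ := one_mul _

/-- the final arithmetic -/
theorem bco_fin (S T x N R P Q C : ℝ) (hS : 0 ≤ S) (hST : S ≤ T) (hx : 1 ≤ x)
    (hN : 1 ≤ N) (hR : 0 ≤ R) (hP : 0 ≤ P) (hC : 0 ≤ C)
    (h1 : x * S * N ≤ P + 2 * R * N * x + N ^ 2 * T) (h2 : P ^ 2 ≤ x * T * Q)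
    (h3 : Q ≤ x * N * T + C + 2 * R * N ^ 2 * x) :
    S ^ 2 ≤ 4 * (T ^ 2 / N + T / (N ^ 2 * x) * C) + 100 * T * (R + N / x * T) := by
  have hx0 : 0 < x := by linarith
  have hN0 : 0 < N := by linarith
  have hT : 0 ≤ T := le_trans hS hST
  set A : ℝ := P / (x * N) with hA
  have hA0 : 0 ≤ A := by positivity
  have e1 : S ≤ A + (2 * R + N / x * T) := by
    have : S * (x * N) ≤ (A + (2 * R + N / x * T)) * (x * N) := by
      have e2 : (A + (2 * R + N / x * T)) * (x * N) = P + 2 * R * N * x + N ^ 2 * T := by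
        rw [hA]; field_simp; ring
      rw [e2]; linarith
    exact le_of_mul_le_mul_right this (by positivity)
  have e3 : A ^ 2 ≤ T ^ 2 / N + T / (N ^ 2 * x) * C + 2 * R * T := by
    have e4 : A ^ 2 = P ^ 2 / (x ^ 2 * N ^ 2) := by rw [hA, div_pow, mul_pow]
    rw [e4]
    calc P ^ 2 / (x ^ 2 * N ^ 2) ≤ (x * T * (x * N * T + C + 2 * R * N ^ 2 * x)) /
          (x ^ 2 * N ^ 2) := by
          apply div_le_div_of_nonneg_right _ (by positivity)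
          exact h2.trans (mul_le_mul_of_nonneg_left h3 (by positivity))
      _ = _ := by field_simp
  have e5 : S ^ 2 ≤ A ^ 2 + 2 * T * (2 * R + N / x * T) := by
    have e6 : S * S ≤ S * (A + (2 * R + N / x * T)) := mul_le_mul_of_nonneg_left e1 hS
    have e7 : 2 * (S * A) ≤ S ^ 2 + A ^ 2 := by nlinarith [sq_nonneg (S - A)]
    have e8 : S * (2 * R + N / x * T) ≤ T * (2 * R + N / x * T) :=
      mul_le_mul_of_nonneg_right hST (by positivity)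
    nlinarith
  have e9 : 0 ≤ T ^ 2 / N := by positivity
  have e10 : 0 ≤ T / (N ^ 2 * x) * C := by positivity
  have e11 : 0 ≤ R * T := by positivity
  have e12 : 0 ≤ T * (N / x * T) := by positivity
  nlinarith

/-- one window -/
theorem bco_one (f : Polynomial ℤ) (g : ℕ → ℂ) (hg : ∀ n, ‖g n‖ ≤ 1) (x H N : ℕ) (R₀ : ℕ)
    (hx : 1 ≤ x) (n : ℕ) (hR : ∀ i < N, |f.eval ((n + i : ℕ) : ℤ) - f.eval (n : ℤ)| ≤ R₀) :
    ‖∑ i ∈ Finset.range N, g (n + i) * ∑ a ∈ Iz H, (lz (f.eval ((n + i : ℕ) : ℤ) + a) : ℂ) *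
      (starRingEnd ℂ) (Fg f g x a)‖ ≤
    ∑ v ∈ Iz H, ‖∑ i ∈ Finset.range N, g (n + i) * (starRingEnd ℂ)
      (Fg f g x (v - (f.eval ((n + i : ℕ) : ℤ) - f.eval (n : ℤ))))‖ + 2 * R₀ * N := by
  set Z : ℤ → ℂ := fun v => ∑ i ∈ Finset.range N, g (n + i) * (starRingEnd ℂ)
      (Fg f g x (v - (f.eval ((n + i : ℕ) : ℤ) - f.eval (n : ℤ)))) with hZ
  have h1 : ∀ i ∈ Finset.range N, ‖g (n + i) * ∑ a ∈ Iz H,
      (lz (f.eval ((n + i : ℕ) : ℤ) + a) : ℂ) * (starRingEnd ℂ) (Fg f g x a) -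
      g (n + i) * ∑ v ∈ Iz H, (lz (f.eval (n : ℤ) + v) : ℂ) * (starRingEnd ℂ)
        (Fg f g x (v - (f.eval ((n + i : ℕ) : ℤ) - f.eval (n : ℤ))))‖ ≤ 2 * R₀ := by
    intro i hi
    rw [← mul_sub, norm_mul]
    set R : ℤ := f.eval ((n + i : ℕ) : ℤ) - f.eval (n : ℤ) with hRdef
    have h2 := bco_shift (fun v => (lz (f.eval (n : ℤ) + v) : ℂ) * (starRingEnd ℂ)
        (Fg f g x (v - R))) (by
          intro a
          rw [norm_mul, RCLike.norm_conj]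
          exact mul_le_one₀ (lz_norm _) (norm_nonneg _) (bco_Fg f g hg x hx _)) H R
    have h3 : ∀ a : ℤ, (lz (f.eval (n : ℤ) + (a + R)) : ℂ) * (starRingEnd ℂ)
        (Fg f g x (a + R - R)) = (lz (f.eval ((n + i : ℕ) : ℤ) + a) : ℂ) *
          (starRingEnd ℂ) (Fg f g x a) := by
      intro a
      have e1 : f.eval (n : ℤ) + (a + R) = f.eval ((n + i : ℕ) : ℤ) + a := by rw [hRdef]; ring
      have e2 : a + R - R = a := by ring
      rw [e1, e2]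
    rw [Finset.sum_congr rfl (fun a _ => h3 a)] at h2
    have h4 : |(R : ℝ)| ≤ R₀ := by
      have := hR i (Finset.mem_range.1 hi)
      exact_mod_cast this
    calc _ ≤ 1 * (2 * |(R : ℝ)|) := mul_le_mul (hg _) h2 (norm_nonneg _) zero_le_one
      _ ≤ 2 * R₀ := by linarith
  have h5 : ∑ i ∈ Finset.range N, g (n + i) * ∑ v ∈ Iz H, (lz (f.eval (n : ℤ) + v) : ℂ) *
      (starRingEnd ℂ) (Fg f g x (v - (f.eval ((n + i : ℕ) : ℤ) - f.eval (n : ℤ)))) =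
      ∑ v ∈ Iz H, (lz (f.eval (n : ℤ) + v) : ℂ) * Z v := by
    simp only [Finset.mul_sum, hZ]
    rw [Finset.sum_comm]
    apply Finset.sum_congr rfl
    intro v _
    apply Finset.sum_congr rfl
    intro i _
    ring
  have h6 : ‖∑ v ∈ Iz H, (lz (f.eval (n : ℤ) + v) : ℂ) * Z v‖ ≤ ∑ v ∈ Iz H, ‖Z v‖ := by
    apply norm_sum_le_of_le
    intro v _
    rw [norm_mul]
    calc _ ≤ 1 * ‖Z v‖ := mul_le_mul_of_nonneg_right (lz_norm _) (norm_nonneg _)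
      _ = _ := one_mul _
  have h7 : ‖∑ i ∈ Finset.range N, g (n + i) * ∑ a ∈ Iz H,
      (lz (f.eval ((n + i : ℕ) : ℤ) + a) : ℂ) * (starRingEnd ℂ) (Fg f g x a) -
      ∑ v ∈ Iz H, (lz (f.eval (n : ℤ) + v) : ℂ) * Z v‖ ≤ 2 * R₀ * N := by
    rw [← h5, ← Finset.sum_sub_distrib]
    calc _ ≤ ∑ i ∈ Finset.range N, (2 * (R₀ : ℝ)) := norm_sum_le_of_le _ h1
      _ = _ := by rw [Finset.sum_const, Finset.card_range, nsmul_eq_mul]; ring
  calc _ = ‖(∑ i ∈ Finset.range N, g (n + i) * ∑ a ∈ Iz H,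
      (lz (f.eval ((n + i : ℕ) : ℤ) + a) : ℂ) * (starRingEnd ℂ) (Fg f g x a) -
      ∑ v ∈ Iz H, (lz (f.eval (n : ℤ) + v) : ℂ) * Z v) +
      ∑ v ∈ Iz H, (lz (f.eval (n : ℤ) + v) : ℂ) * Z v‖ := by rw [sub_add_cancel]
    _ ≤ 2 * R₀ * N + ∑ v ∈ Iz H, ‖Z v‖ := (norm_add_le _ _).trans (add_le_add h7 h6)
    _ = _ := by ring

/-- the square sum of one window -/
theorem bco_two (f : Polynomial ℤ) (g : ℕ → ℂ) (hg : ∀ n, ‖g n‖ ≤ 1) (x H N : ℕ) (R₀ : ℕ)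
    (hx : 1 ≤ x) (n : ℕ) (hR : ∀ i < N, |f.eval ((n + i : ℕ) : ℤ) - f.eval (n : ℤ)| ≤ R₀) :
    ∑ v ∈ Iz H, ‖∑ i ∈ Finset.range N, g (n + i) * (starRingEnd ℂ)
      (Fg f g x (v - (f.eval ((n + i : ℕ) : ℤ) - f.eval (n : ℤ))))‖ ^ 2 ≤
    N * (2 * H + 1) + ∑ i ∈ Finset.range N, ∑ i' ∈ (Finset.range N).erase i,
      ‖∑ a ∈ Iz H, (starRingEnd ℂ) (Fg f g x a) *
        Fg f g x (a + (f.eval ((n + i : ℕ) : ℤ) - f.eval ((n + i' : ℕ) : ℤ)))‖ +
      2 * R₀ * (N : ℝ) ^ 2 := by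
  refine (bco_sq H N (fun i => g (n + i)) (fun i => hg _) (fun i v =>
    Fg f g x (v - (f.eval ((n + i : ℕ) : ℤ) - f.eval (n : ℤ))))).trans ?_
  have hI : ((Iz H).card : ℝ) = 2 * H + 1 := by rw [Iz_card]; push_cast; ring
  have hd : ∀ i : ℕ, ‖∑ v ∈ Iz H, (starRingEnd ℂ) (Fg f g x (v - (f.eval ((n + i : ℕ) : ℤ) -
      f.eval (n : ℤ)))) * Fg f g x (v - (f.eval ((n + i : ℕ) : ℤ) - f.eval (n : ℤ)))‖ ≤
      2 * H + 1 := by
    intro i
    calc _ ≤ ∑ v ∈ Iz H, (1 : ℝ) := by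
          apply norm_sum_le_of_le
          intro v _
          rw [norm_mul, RCLike.norm_conj]
          exact mul_le_one₀ (bco_Fg f g hg x hx _) (norm_nonneg _) (bco_Fg f g hg x hx _)
      _ = _ := by rw [Finset.sum_const, nsmul_eq_mul, mul_one, hI]
  have ho : ∀ i ∈ Finset.range N, ∀ i' ∈ (Finset.range N).erase i,
      ‖∑ v ∈ Iz H, (starRingEnd ℂ) (Fg f g x (v - (f.eval ((n + i : ℕ) : ℤ) -
      f.eval (n : ℤ)))) * Fg f g x (v - (f.eval ((n + i' : ℕ) : ℤ) - f.eval (n : ℤ)))‖ ≤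
      ‖∑ a ∈ Iz H, (starRingEnd ℂ) (Fg f g x a) *
        Fg f g x (a + (f.eval ((n + i : ℕ) : ℤ) - f.eval ((n + i' : ℕ) : ℤ)))‖ + 2 * R₀ := by
    intro i hi i' _
    set R : ℤ := f.eval ((n + i : ℕ) : ℤ) - f.eval (n : ℤ) with hRdef
    set R' : ℤ := f.eval ((n + i' : ℕ) : ℤ) - f.eval (n : ℤ) with hRdef'
    have e0 : f.eval ((n + i : ℕ) : ℤ) - f.eval ((n + i' : ℕ) : ℤ) = R - R' := by
      rw [hRdef, hRdef']; ring
    rw [e0]
    have h2 := bco_shift (fun a => (starRingEnd ℂ) (Fg f g x a) * Fg f g x (a + (R - R'))) (by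
          intro a
          rw [norm_mul, RCLike.norm_conj]
          exact mul_le_one₀ (bco_Fg f g hg x hx _) (norm_nonneg _) (bco_Fg f g hg x hx _)) H (-R)
    have h3 : ∀ a : ℤ, (starRingEnd ℂ) (Fg f g x (a + -R)) * Fg f g x (a + -R + (R - R')) =
        (starRingEnd ℂ) (Fg f g x (a - R)) * Fg f g x (a - R') := by
      intro a
      have e1 : a + -R = a - R := by ring
      have e2 : a + -R + (R - R') = a - R' := by ring
      rw [e2, e1]
    rw [Finset.sum_congr rfl (fun a _ => h3 a)] at h2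
    have h4 : |(R : ℝ)| ≤ R₀ := by
      have := hR i (Finset.mem_range.1 hi)
      exact_mod_cast this
    push_cast at h2
    rw [abs_neg] at h2
    have h5 := norm_sub_norm_le (∑ a ∈ Iz H, (starRingEnd ℂ) (Fg f g x (a - R)) *
      Fg f g x (a - R')) (∑ a ∈ Iz H, (starRingEnd ℂ) (Fg f g x a) *
        Fg f g x (a + (R - R')))
    linarith
  have hs : ∀ i ∈ Finset.range N, ∑ i' ∈ Finset.range N,
      ‖∑ v ∈ Iz H, (starRingEnd ℂ) (Fg f g x (v - (f.eval ((n + i : ℕ) : ℤ) -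
      f.eval (n : ℤ)))) * Fg f g x (v - (f.eval ((n + i' : ℕ) : ℤ) - f.eval (n : ℤ)))‖ ≤
      (2 * H + 1) + (∑ i' ∈ (Finset.range N).erase i, ‖∑ a ∈ Iz H, (starRingEnd ℂ) (Fg f g x a) *
        Fg f g x (a + (f.eval ((n + i : ℕ) : ℤ) - f.eval ((n + i' : ℕ) : ℤ)))‖ +
        2 * R₀ * N) := by
    intro i hi
    rw [← Finset.add_sum_erase _ _ hi]
    apply add_le_add (hd i)
    calc _ ≤ ∑ i' ∈ (Finset.range N).erase i, (‖∑ a ∈ Iz H, (starRingEnd ℂ) (Fg f g x a) *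
        Fg f g x (a + (f.eval ((n + i : ℕ) : ℤ) - f.eval ((n + i' : ℕ) : ℤ)))‖ + 2 * R₀) :=
          Finset.sum_le_sum (ho i hi)
      _ = ∑ i' ∈ (Finset.range N).erase i, ‖∑ a ∈ Iz H, (starRingEnd ℂ) (Fg f g x a) *
        Fg f g x (a + (f.eval ((n + i : ℕ) : ℤ) - f.eval ((n + i' : ℕ) : ℤ)))‖ +
          ((Finset.range N).erase i).card * (2 * (R₀ : ℝ)) := by
          rw [Finset.sum_add_distrib, Finset.sum_const, nsmul_eq_mul]
      _ ≤ _ := by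
          have h6 : (((Finset.range N).erase i).card : ℝ) ≤ N := by
            have h7 := Finset.card_le_card (Finset.erase_subset i (Finset.range N))
            rw [Finset.card_range] at h7
            exact_mod_cast h7
          have h8 : (0 : ℝ) ≤ 2 * R₀ := by positivity
          nlinarith
  calc _ ≤ ∑ i ∈ Finset.range N, ((2 * (H : ℝ) + 1) + (∑ i' ∈ (Finset.range N).erase i,
        ‖∑ a ∈ Iz H, (starRingEnd ℂ) (Fg f g x a) *
        Fg f g x (a + (f.eval ((n + i : ℕ) : ℤ) - f.eval ((n + i' : ℕ) : ℤ)))‖ +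
        2 * R₀ * N)) := Finset.sum_le_sum hs
    _ = _ := by
        rw [Finset.sum_add_distrib, Finset.sum_const, Finset.sum_add_distrib, Finset.sum_const,
          Finset.card_range, nsmul_eq_mul, nsmul_eq_mul]
        ring

theorem b_corr_pr (f : Polynomial ℤ) (g : ℕ → ℂ) (hg : ∀ n, ‖g n‖ ≤ 1) (x H N R₀ : ℕ) (hx : 1 ≤ x)
    (hN : 1 ≤ N) (hR : ∀ n ∈ Finset.Icc 1 x, ∀ i < N, |f.eval ((n + i : ℕ) : ℤ) -
      f.eval (n : ℤ)| ≤ R₀) :
    (∑ a ∈ Iz H, ‖Fg f g x a‖ ^ 2) ^ 2 ≤ 4 * ((2 * H + 1 : ℝ) ^ 2 / N +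
      (2 * H + 1) / ((N : ℝ) ^ 2 * x) * ∑ i ∈ Finset.range N, ∑ i' ∈ (Finset.range N).erase i,
        ∑ n ∈ Finset.Icc 1 x, ‖∑ a ∈ Iz H, (starRingEnd ℂ) (Fg f g x a) *
          Fg f g x (a + (f.eval ((n + i : ℕ) : ℤ) - f.eval ((n + i' : ℕ) : ℤ)))‖) +
      100 * (2 * H + 1) * (R₀ + N / x * (2 * H + 1)) := by
  have hx0 : (0 : ℝ) < x := by exact_mod_cast hx
  have hN0 : (0 : ℝ) < N := by exact_mod_cast hN
  have hI : ((Iz H).card : ℝ) = 2 * H + 1 := by rw [Iz_card]; push_cast; ring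
  set T : ℝ := 2 * H + 1 with hT
  have hT0 : 0 < T := by positivity
  set y : ℕ → ℂ := fun n => g n * ∑ a ∈ Iz H, (lz (f.eval (n : ℤ) + a) : ℂ) *
      (starRingEnd ℂ) (Fg f g x a) with hy
  have hyT : ∀ n, ‖y n‖ ≤ T := by
    intro n
    rw [hy]
    simp only
    rw [norm_mul]
    have h1 : ‖∑ a ∈ Iz H, (lz (f.eval (n : ℤ) + a) : ℂ) * (starRingEnd ℂ) (Fg f g x a)‖ ≤ T := by
      calc _ ≤ ∑ a ∈ Iz H, (1 : ℝ) := by
            apply norm_sum_le_of_le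
            intro v _
            rw [norm_mul, RCLike.norm_conj]
            exact mul_le_one₀ (lz_norm _) (norm_nonneg _) (bco_Fg f g hg x hx _)
        _ = _ := by rw [Finset.sum_const, nsmul_eq_mul, mul_one, hI]
    calc _ ≤ 1 * T := mul_le_mul (hg n) h1 (norm_nonneg _) zero_le_one
      _ = T := one_mul _
  set S : ℝ := ∑ a ∈ Iz H, ‖Fg f g x a‖ ^ 2 with hS
  have hS0 : 0 ≤ S := by rw [hS]; positivity
  have hST : S ≤ T := by
    rw [hS]
    calc _ ≤ ∑ a ∈ Iz H, (1 : ℝ) := Finset.sum_le_sum (fun a _ =>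
          pow_le_one₀ (norm_nonneg _) (bco_Fg f g hg x hx a))
      _ = _ := by rw [Finset.sum_const, nsmul_eq_mul, mul_one, hI]
  have hsum : ∑ n ∈ Finset.Icc 1 x, y n = ((x * S : ℝ) : ℂ) := by
    have h1 : ∑ n ∈ Finset.Icc 1 x, y n = ∑ a ∈ Iz H, (starRingEnd ℂ) (Fg f g x a) *
        ∑ n ∈ Finset.Icc 1 x, g n * (lz (f.eval (n : ℤ) + a) : ℂ) := by
      simp only [hy, Finset.mul_sum]
      rw [Finset.sum_comm]
      apply Finset.sum_congr rfl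
      intro a _
      apply Finset.sum_congr rfl
      intro n _
      ring
    have h2 : ∀ a, ∑ n ∈ Finset.Icc 1 x, g n * (lz (f.eval (n : ℤ) + a) : ℂ) =
        x * Fg f g x a := by
      intro a
      unfold Fg
      have : (x : ℂ) ≠ 0 := by exact_mod_cast hx0.ne'
      field_simp
    rw [h1, hS]
    push_cast
    rw [Finset.mul_sum]
    apply Finset.sum_congr rfl
    intro a _
    rw [h2, ← Complex.mul_conj']
    ring
  -- windows
  have hwin : ‖(N : ℂ) * ∑ n ∈ Finset.Icc 1 x, y n -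
      ∑ n ∈ Finset.Icc 1 x, ∑ i ∈ Finset.range N, y (n + i)‖ ≤ (N : ℝ) ^ 2 * T := by
    have h1 : (N : ℂ) * ∑ n ∈ Finset.Icc 1 x, y n -
        ∑ n ∈ Finset.Icc 1 x, ∑ i ∈ Finset.range N, y (n + i) =
        - ∑ i ∈ Finset.range N, (∑ n ∈ Finset.Icc 1 x, y (n + i) - ∑ n ∈ Finset.Icc 1 x, y n) := by
      rw [Finset.sum_sub_distrib, Finset.sum_const, Finset.card_range, nsmul_eq_mul,
        Finset.sum_comm]
      ring
    rw [h1, norm_neg]
    calc _ ≤ ∑ i ∈ Finset.range N, 2 * (i : ℝ) * T := by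
          apply norm_sum_le_of_le
          intro i _
          exact bco_win y T hyT x i
      _ = 2 * (∑ i ∈ Finset.range N, (i : ℝ)) * T := by rw [← Finset.sum_mul, Finset.mul_sum]
      _ ≤ _ := by
          have h2 : 2 * (∑ i ∈ Finset.range N, (i : ℝ)) ≤ (N : ℝ) ^ 2 := by
            have h3 : ∀ M : ℕ, 2 * (∑ i ∈ Finset.range M, (i : ℝ)) ≤ (M : ℝ) ^ 2 := by
              intro M
              induction M with
              | zero => simp
              | succ M ih =>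
                rw [Finset.sum_range_succ]
                push_cast
                nlinarith
            exact h3 N
          exact mul_le_mul_of_nonneg_right h2 hT0.le
  set Z : ℕ → ℤ → ℂ := fun n v => ∑ i ∈ Finset.range N, g (n + i) * (starRingEnd ℂ)
      (Fg f g x (v - (f.eval ((n + i : ℕ) : ℤ) - f.eval (n : ℤ)))) with hZ
  set P : ℝ := ∑ n ∈ Finset.Icc 1 x, ∑ v ∈ Iz H, ‖Z n v‖ with hP
  set Q : ℝ := ∑ n ∈ Finset.Icc 1 x, ∑ v ∈ Iz H, ‖Z n v‖ ^ 2 with hQ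
  set C : ℝ := ∑ i ∈ Finset.range N, ∑ i' ∈ (Finset.range N).erase i,
        ∑ n ∈ Finset.Icc 1 x, ‖∑ a ∈ Iz H, (starRingEnd ℂ) (Fg f g x a) *
          Fg f g x (a + (f.eval ((n + i : ℕ) : ℤ) - f.eval ((n + i' : ℕ) : ℤ)))‖ with hC
  have hP0 : 0 ≤ P := by rw [hP]; positivity
  have hC0 : 0 ≤ C := by rw [hC]; positivity
  have hcardx : ((Finset.Icc 1 x).card : ℝ) = x := by simp
  have k1 : (x : ℝ) * S * N ≤ P + 2 * R₀ * N * x + (N : ℝ) ^ 2 * T := by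
    have h1 : ‖∑ n ∈ Finset.Icc 1 x, ∑ i ∈ Finset.range N, y (n + i)‖ ≤ P + 2 * R₀ * N * x := by
      calc _ ≤ ∑ n ∈ Finset.Icc 1 x, (∑ v ∈ Iz H, ‖Z n v‖ + 2 * R₀ * N) := by
            apply norm_sum_le_of_le
            intro n hn
            exact bco_one f g hg x H N R₀ hx n (hR n hn)
        _ = _ := by
            rw [Finset.sum_add_distrib, Finset.sum_const, nsmul_eq_mul, hcardx, hP]
            ring
    have h2 : ‖(N : ℂ) * ∑ n ∈ Finset.Icc 1 x, y n‖ = x * S * N := by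
      rw [hsum, norm_mul, Complex.norm_natCast, Complex.norm_real, Real.norm_eq_abs,
        abs_of_nonneg (by positivity)]
      ring
    rw [← h2]
    calc _ = ‖((N : ℂ) * ∑ n ∈ Finset.Icc 1 x, y n -
        ∑ n ∈ Finset.Icc 1 x, ∑ i ∈ Finset.range N, y (n + i)) +
        ∑ n ∈ Finset.Icc 1 x, ∑ i ∈ Finset.range N, y (n + i)‖ := by rw [sub_add_cancel]
      _ ≤ (N : ℝ) ^ 2 * T + (P + 2 * R₀ * N * x) := (norm_add_le _ _).trans (add_le_add hwin h1)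
      _ = _ := by ring
  have k2 : P ^ 2 ≤ x * T * Q := by
    have h1 := sq_sum_le_card_mul_sum_sq (s := Finset.Icc 1 x ×ˢ Iz H)
      (f := fun p : ℕ × ℤ => ‖Z p.1 p.2‖)
    rw [Finset.sum_product, Finset.sum_product, Finset.card_product] at h1
    push_cast at h1
    rw [hcardx, hI] at h1
    exact h1
  have k3 : Q ≤ x * N * T + C + 2 * R₀ * (N : ℝ) ^ 2 * x := by
    calc Q ≤ ∑ n ∈ Finset.Icc 1 x, ((N : ℝ) * (2 * H + 1) + ∑ i ∈ Finset.range N,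
        ∑ i' ∈ (Finset.range N).erase i,
        ‖∑ a ∈ Iz H, (starRingEnd ℂ) (Fg f g x a) *
        Fg f g x (a + (f.eval ((n + i : ℕ) : ℤ) - f.eval ((n + i' : ℕ) : ℤ)))‖ +
        2 * R₀ * (N : ℝ) ^ 2) := by
          rw [hQ]
          apply Finset.sum_le_sum
          intro n hn
          exact bco_two f g hg x H N R₀ hx n (hR n hn)
      _ = _ := by
          rw [Finset.sum_add_distrib, Finset.sum_add_distrib, Finset.sum_const, Finset.sum_const,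
            nsmul_eq_mul, nsmul_eq_mul, hcardx, hC, hT]
          have h2 : ∑ n ∈ Finset.Icc 1 x, ∑ i ∈ Finset.range N, ∑ i' ∈ (Finset.range N).erase i,
              ‖∑ a ∈ Iz H, (starRingEnd ℂ) (Fg f g x a) *
              Fg f g x (a + (f.eval ((n + i : ℕ) : ℤ) - f.eval ((n + i' : ℕ) : ℤ)))‖ =
              ∑ i ∈ Finset.range N, ∑ i' ∈ (Finset.range N).erase i, ∑ n ∈ Finset.Icc 1 x,
              ‖∑ a ∈ Iz H, (starRingEnd ℂ) (Fg f g x a) *
              Fg f g x (a + (f.eval ((n + i : ℕ) : ℤ) - f.eval ((n + i' : ℕ) : ℤ)))‖ := by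
            rw [Finset.sum_comm]
            apply Finset.sum_congr rfl
            intro i _
            rw [Finset.sum_comm]
          rw [h2]
          ring
  exact bco_fin S T x N R₀ P Q C hS0 hST (by exact_mod_cast hx) (by exact_mod_cast hN)
    (by positivity) hP0 hC0 k1 k2 k3

end Pool.Agent.PS

end BCO

namespace Pool.Agent.PS

theorem b_corr : type_of% @b_corr_pr := @b_corr_pr

end Pool.Agent.PS

/-! ### Block BFR -/

section BFR
/-!
# PS: block BFR (b_freq_pr from par)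
-/

namespace Pool.Agent.PS

open Filter Topology MeasureTheory

/-- shifting a box of integers costs at most `|t| B` -/
theorem bfr_shift (H : ℕ) (Z : ℤ → ℝ) (B : ℝ) (h0 : ∀ a, 0 ≤ Z a) (hB : ∀ a, Z a ≤ B) (t : ℤ) :
    ∑ a ∈ Iz H, Z (a + t) ≤ ∑ a ∈ Iz H, Z a + |(t : ℝ)| * B := by
  classical
  have hB0 : 0 ≤ B := (h0 0).trans (hB 0)
  have himg : ∑ a ∈ Iz H, Z (a + t) = ∑ b ∈ (Iz H).image (fun a => a + t), Z b := by
    rw [Finset.sum_image]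
    intro a _ b _ hab
    have : a + t = b + t := hab
    linarith
  rw [himg]
  have hsub : (Iz H).image (fun a => a + t) ⊆
      Iz H ∪ (Finset.Ioc (H : ℤ) (H + t) ∪ Finset.Ico (-(H : ℤ) + t) (-(H : ℤ))) := by
    intro b hb
    rw [Finset.mem_image] at hb
    obtain ⟨a, ha, rfl⟩ := hb
    rw [mem_Iz] at ha
    rw [Finset.mem_union, Finset.mem_union, mem_Iz, Finset.mem_Ioc, Finset.mem_Ico]
    omega
  have hcard : ((Finset.Ioc (H : ℤ) (H + t) ∪ Finset.Ico (-(H : ℤ) + t) (-(H : ℤ))).card : ℝ)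
      ≤ |(t : ℝ)| := by
    have h1 : ((Finset.Ioc (H : ℤ) (H + t) ∪ Finset.Ico (-(H : ℤ) + t) (-(H : ℤ))).card : ℤ)
        ≤ |t| := by
      have h2 := Finset.card_union_le (Finset.Ioc (H : ℤ) (H + t))
        (Finset.Ico (-(H : ℤ) + t) (-(H : ℤ)))
      rw [Int.card_Ioc, Int.card_Ico] at h2
      rcases le_total 0 t with ht | ht
      · rw [abs_of_nonneg ht]; omega
      · rw [abs_of_nonpos ht]; omega
    have h3 : (((Finset.Ioc (H : ℤ) (H + t) ∪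
        Finset.Ico (-(H : ℤ) + t) (-(H : ℤ))).card : ℤ) : ℝ) ≤ ((|t| : ℤ) : ℝ) := by
      exact_mod_cast h1
    rw [Int.cast_abs] at h3
    simpa using h3
  calc ∑ b ∈ (Iz H).image (fun a => a + t), Z b
      ≤ ∑ b ∈ Iz H ∪ (Finset.Ioc (H : ℤ) (H + t) ∪ Finset.Ico (-(H : ℤ) + t) (-(H : ℤ))), Z b :=
        Finset.sum_le_sum_of_subset_of_nonneg hsub (fun b _ _ => h0 b)
    _ ≤ ∑ b ∈ Iz H, Z b +
        ∑ b ∈ (Finset.Ioc (H : ℤ) (H + t) ∪ Finset.Ico (-(H : ℤ) + t) (-(H : ℤ))), Z b := by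
        rw [← Finset.sum_union_inter]
        have : 0 ≤ ∑ b ∈ Iz H ∩ (Finset.Ioc (H : ℤ) (H + t) ∪
          Finset.Ico (-(H : ℤ) + t) (-(H : ℤ))), Z b := Finset.sum_nonneg (fun b _ => h0 b)
        linarith
    _ ≤ ∑ b ∈ Iz H, Z b +
        ∑ b ∈ (Finset.Ioc (H : ℤ) (H + t) ∪ Finset.Ico (-(H : ℤ) + t) (-(H : ℤ))), B := by
        gcongr with b _
        exact hB b
    _ = ∑ b ∈ Iz H, Z b +
        ((Finset.Ioc (H : ℤ) (H + t) ∪ Finset.Ico (-(H : ℤ) + t) (-(H : ℤ))).card : ℝ) * B := by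
        rw [Finset.sum_const, nsmul_eq_mul]
    _ ≤ ∑ b ∈ Iz H, Z b + |(t : ℝ)| * B := by gcongr

theorem bfr_Fg_le (f : Polynomial ℤ) (g : ℕ → ℂ) (hg : ∀ n, ‖g n‖ ≤ 1) (x : ℕ) (a : ℤ) :
    ‖Fg f g x a‖ ≤ 1 := by
  unfold Fg
  rw [norm_div, Complex.norm_natCast]
  apply div_le_one_of_le₀ _ (Nat.cast_nonneg _)
  calc ‖∑ n ∈ Finset.Icc 1 x, g n * (lz (f.eval (n : ℤ) + a) : ℂ)‖
      ≤ ∑ n ∈ Finset.Icc 1 x, (1 : ℝ) := by
        apply norm_sum_le_of_le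
        intro n _
        rw [norm_mul]
        exact mul_le_one₀ (hg n) (norm_nonneg _) (lz_norm _)
    _ = x := by simp

/-- Cauchy: a sum of `Φ` times a function bounded by one -/
theorem bfr_cauchy (H : ℕ) (F Y : ℤ → ℂ) (hF : ∀ a, ‖F a‖ ≤ 1) :
    ‖∑ a ∈ Iz H, (starRingEnd ℂ) (F a) * Y a‖ ^ 2 ≤ (2 * H + 1 : ℝ) * ∑ a ∈ Iz H, ‖Y a‖ ^ 2 := by
  have h1 : ‖∑ a ∈ Iz H, (starRingEnd ℂ) (F a) * Y a‖ ≤ ∑ a ∈ Iz H, 1 * ‖Y a‖ := by
    apply norm_sum_le_of_le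
    intro a _
    rw [norm_mul, RCLike.norm_conj]
    gcongr
    exact hF a
  have h2 := Finset.sum_mul_sq_le_sq_mul_sq (Iz H) (fun _ => (1 : ℝ)) (fun a => ‖Y a‖)
  have h3 : ∑ a ∈ Iz H, (1 : ℝ) ^ 2 = 2 * H + 1 := by
    simp [Iz_card]
  rw [h3] at h2
  calc ‖∑ a ∈ Iz H, (starRingEnd ℂ) (F a) * Y a‖ ^ 2 ≤ (∑ a ∈ Iz H, 1 * ‖Y a‖) ^ 2 := by
        gcongr
    _ ≤ _ := h2

/-- the sum over a progression of an average -/
theorem bfr_avg (f : Polynomial ℤ) (g : ℕ → ℂ) (hg : ∀ n, ‖g n‖ ≤ 1) (x : ℕ) (hx : 1 ≤ x)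
    (q : ℤ) (θ : ℝ) (a : ℤ) :
    ‖∑ m ∈ Finset.range (2 * x), ez (θ * m) * Fg f g x (a + q * m)‖ ^ 2 ≤
      4 * x * ∑ n ∈ Finset.Icc 1 x, bq q θ (2 * x) (f.eval (n : ℤ) + a) := by
  have hx0 : (0 : ℝ) < x := by exact_mod_cast hx
  have hxc : (x : ℂ) ≠ 0 := by exact_mod_cast (by omega : x ≠ 0)
  have e1 : ∑ m ∈ Finset.range (2 * x), ez (θ * m) * Fg f g x (a + q * m) =
      (∑ n ∈ Finset.Icc 1 x, g n * ∑ m ∈ Finset.range (2 * x),
        ez (θ * m) * (lz (f.eval (n : ℤ) + a + q * m) : ℂ)) / x := by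
    unfold Fg
    rw [eq_div_iff hxc, Finset.sum_mul]
    simp only [Finset.mul_sum]
    rw [Finset.sum_comm]
    apply Finset.sum_congr rfl
    intro m _
    rw [mul_assoc, div_mul_cancel₀ _ hxc, Finset.mul_sum]
    apply Finset.sum_congr rfl
    intro n _
    rw [← add_assoc]
    ring
  have hY : ‖∑ m ∈ Finset.range (2 * x), ez (θ * m) * Fg f g x (a + q * m)‖ ≤
      2 * ∑ n ∈ Finset.Icc 1 x, bq q θ (2 * x) (f.eval (n : ℤ) + a) := by
    rw [e1, norm_div, Complex.norm_natCast, div_le_iff₀ hx0, Finset.mul_sum, Finset.sum_mul]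
    apply norm_sum_le_of_le
    intro n _
    rw [norm_mul]
    have h1 : ‖∑ m ∈ Finset.range (2 * x), ez (θ * m) * (lz (f.eval (n : ℤ) + a + q * m) : ℂ)‖ =
        2 * bq q θ (2 * x) (f.eval (n : ℤ) + a) * x := by
      unfold bq
      push_cast
      field_simp
    rw [h1]
    have h2 := bq_nonneg q θ (2 * x) (f.eval (n : ℤ) + a)
    have h3 := hg n
    have h4 : 0 ≤ 2 * bq q θ (2 * x) (f.eval (n : ℤ) + a) * x := by positivity
    nlinarith
  have hY2 : ‖∑ m ∈ Finset.range (2 * x), ez (θ * m) * Fg f g x (a + q * m)‖ ≤ 2 * x := by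
    calc ‖∑ m ∈ Finset.range (2 * x), ez (θ * m) * Fg f g x (a + q * m)‖
        ≤ ∑ m ∈ Finset.range (2 * x), (1 : ℝ) := by
          apply norm_sum_le_of_le
          intro m _
          rw [norm_mul, ez_norm, one_mul]
          exact bfr_Fg_le f g hg x _
      _ = 2 * x := by simp
  have h0 : 0 ≤ ‖∑ m ∈ Finset.range (2 * x), ez (θ * m) * Fg f g x (a + q * m)‖ :=
    norm_nonneg _
  calc ‖∑ m ∈ Finset.range (2 * x), ez (θ * m) * Fg f g x (a + q * m)‖ ^ 2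
      = ‖∑ m ∈ Finset.range (2 * x), ez (θ * m) * Fg f g x (a + q * m)‖ *
        ‖∑ m ∈ Finset.range (2 * x), ez (θ * m) * Fg f g x (a + q * m)‖ := by ring
    _ ≤ (2 * x) * (2 * ∑ n ∈ Finset.Icc 1 x, bq q θ (2 * x) (f.eval (n : ℤ) + a)) :=
        mul_le_mul hY2 hY h0 (by positivity)
    _ = _ := by ring

/-- one frequency -/
theorem b_freq_pr (f : Polynomial ℤ) (g : ℕ → ℂ) (hg : ∀ n, ‖g n‖ ≤ 1) (x H : ℕ) (hx : 1 ≤ x)
    (q s : ℤ) : ∃ θ : ℝ,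
    (∑ n ∈ Finset.Icc 1 x, ‖∑ a ∈ Iz H, (starRingEnd ℂ) (Fg f g x a) *
      Fg f g x (a + (q * n + s))‖ ^ 2) ^ 2 ≤ (2 * H + 1 : ℝ) ^ 3 * (4 * x *
        ∑ n ∈ Finset.Icc 1 x, ∑ a ∈ Iz H, bq q θ (2 * x) (f.eval (n : ℤ) + a) +
          |(q : ℝ)| * (x : ℝ) ^ 3 + 2 * (|(s : ℝ)| + |(q : ℝ)|) * (x : ℝ) ^ 2) := by
  obtain ⟨F, hFdef⟩ : ∃ F : ℤ → ℂ, F = Fg f g x := ⟨_, rfl⟩
  rw [← hFdef]
  have hF : ∀ a, ‖F a‖ ≤ 1 := by rw [hFdef]; exact bfr_Fg_le f g hg x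
  have hx0 : (0 : ℝ) < x := by exact_mod_cast hx
  have hT : (0 : ℝ) < 2 * H + 1 := by positivity
  obtain ⟨c, hc⟩ : ∃ c : ℕ → ℂ, c = fun n : ℕ => ∑ a ∈ Iz H, (starRingEnd ℂ) (F a) *
    F (a + (q * n + s)) := ⟨_, rfl⟩
  have hcn : ∀ n, ‖c n‖ ≤ 2 * H + 1 := by
    intro n
    rw [hc]
    calc ‖∑ a ∈ Iz H, (starRingEnd ℂ) (F a) * F (a + (q * n + s))‖
        ≤ ∑ a ∈ Iz H, (1 : ℝ) := by
          apply norm_sum_le_of_le
          intro a _
          rw [norm_mul, RCLike.norm_conj]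
          exact mul_le_one₀ (hF _) (norm_nonneg _) (hF _)
      _ = 2 * H + 1 := by simp [Iz_card]
  obtain ⟨G, hGdef⟩ : ∃ G : ℕ → ℂ, G = fun i => (starRingEnd ℂ) (c (i + 1)) / (2 * H + 1 : ℝ) :=
    ⟨_, rfl⟩
  have hG : ∀ i, ‖G i‖ ≤ 1 := by
    intro i
    rw [hGdef]
    show ‖(starRingEnd ℂ) (c (i + 1)) / ((2 * H + 1 : ℝ) : ℂ)‖ ≤ 1
    rw [norm_div, RCLike.norm_conj, Complex.norm_real, Real.norm_eq_abs, abs_of_pos hT]
    exact div_le_one_of_le₀ (hcn _) hT.le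
  obtain ⟨θ, hθ⟩ := par F hF q x H hx G hG
  refine ⟨θ, ?_⟩
  -- the sum as a double sum
  have hW : ((∑ n ∈ Finset.Icc 1 x, ‖c n‖ ^ 2 : ℝ) : ℂ) =
      (2 * H + 1 : ℝ) * ∑ a ∈ Iz H, (starRingEnd ℂ) (F a) *
        ∑ i ∈ Finset.range x, G i * F ((a + (q + s)) + q * i) := by
    push_cast
    have h1 : ∀ n, ((‖c n‖ : ℝ) : ℂ) ^ 2 = (starRingEnd ℂ) (c n) * c n := by
      intro n
      rw [Complex.conj_mul']
    simp only [h1]
    rw [show Finset.Icc 1 x = Finset.Ico 1 (x + 1) from by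
      ext n; rw [Finset.mem_Icc, Finset.mem_Ico]; omega]
    rw [Finset.sum_Ico_eq_sum_range]
    simp only [Nat.add_sub_cancel, Finset.mul_sum]
    rw [Finset.sum_comm]
    apply Finset.sum_congr rfl
    intro i _
    have hTc : (2 * (H : ℂ) + 1) ≠ 0 := by
      have : ((2 * (H : ℝ) + 1 : ℝ) : ℂ) ≠ 0 := by exact_mod_cast hT.ne'
      push_cast at this
      exact this
    have h2 : c (1 + i) = ∑ a ∈ Iz H, (starRingEnd ℂ) (F a) *
        F ((a + (q + s)) + q * i) := by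
      rw [hc]
      apply Finset.sum_congr rfl
      intro a _
      congr 2
      push_cast
      ring
    have h3 : G i = (starRingEnd ℂ) (c (1 + i)) / (2 * (H : ℂ) + 1) := by
      rw [hGdef]
      show (starRingEnd ℂ) (c (i + 1)) / ((2 * H + 1 : ℝ) : ℂ) = _
      rw [add_comm i 1]
      push_cast
      rfl
    have h4 : ∀ a : ℤ, (2 * (H : ℂ) + 1) * ((starRingEnd ℂ) (F a) *
        (G i * F (a + (q + s) + q * i))) = (starRingEnd ℂ) (c (1 + i)) *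
          ((starRingEnd ℂ) (F a) * F (a + (q + s) + q * i)) := by
      intro a
      rw [h3]
      field_simp
    simp only [h4]
    rw [← Finset.mul_sum, ← h2]
  have hcs := bfr_cauchy H F (fun a => ∑ i ∈ Finset.range x, G i * F ((a + (q + s)) + q * i)) hF
  have hW2 : (∑ n ∈ Finset.Icc 1 x, ‖c n‖ ^ 2) ^ 2 ≤ (2 * H + 1 : ℝ) ^ 3 *
      ∑ a ∈ Iz H, ‖∑ i ∈ Finset.range x, G i * F ((a + (q + s)) + q * i)‖ ^ 2 := by
    have h1 : (∑ n ∈ Finset.Icc 1 x, ‖c n‖ ^ 2) ^ 2 =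
        ‖((∑ n ∈ Finset.Icc 1 x, ‖c n‖ ^ 2 : ℝ) : ℂ)‖ ^ 2 := by
      rw [Complex.norm_real, Real.norm_eq_abs, sq_abs]
    rw [h1, hW, norm_mul, Complex.norm_real, Real.norm_eq_abs, abs_of_pos hT, mul_pow]
    calc (2 * H + 1 : ℝ) ^ 2 * ‖∑ a ∈ Iz H, (starRingEnd ℂ) (F a) *
          ∑ i ∈ Finset.range x, G i * F ((a + (q + s)) + q * i)‖ ^ 2
        ≤ (2 * H + 1 : ℝ) ^ 2 * ((2 * H + 1 : ℝ) * ∑ a ∈ Iz H,
          ‖∑ i ∈ Finset.range x, G i * F ((a + (q + s)) + q * i)‖ ^ 2) := by gcongr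
      _ = _ := by ring
  have hsh := bfr_shift H (fun a => ‖∑ i ∈ Finset.range x, G i * F (a + q * i)‖ ^ 2)
    ((x : ℝ) ^ 2) (fun a => by positivity) (fun a => ?_) (q + s)
  swap
  · have : ‖∑ i ∈ Finset.range x, G i * F (a + q * i)‖ ≤ x := by
      calc ‖∑ i ∈ Finset.range x, G i * F (a + q * i)‖ ≤ ∑ i ∈ Finset.range x, (1 : ℝ) := by
            apply norm_sum_le_of_le
            intro i _
            rw [norm_mul]
            exact mul_le_one₀ (hG i) (norm_nonneg _) (hF _)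
        _ = x := by simp
    gcongr
  have hav : ∑ a ∈ Iz H, ‖∑ m ∈ Finset.range (2 * x), ez (θ * m) * F (a + q * m)‖ ^ 2 ≤
      4 * x * ∑ n ∈ Finset.Icc 1 x, ∑ a ∈ Iz H, bq q θ (2 * x) (f.eval (n : ℤ) + a) := by
    rw [Finset.sum_comm, Finset.mul_sum]
    apply Finset.sum_le_sum
    intro a _
    rw [hFdef]
    exact bfr_avg f g hg x hx q θ a
  have hqs : |((q + s : ℤ) : ℝ)| ≤ |(s : ℝ)| + |(q : ℝ)| := by
    push_cast
    have := abs_add_le (q : ℝ) (s : ℝ)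
    linarith
  have hfin : ∑ a ∈ Iz H, ‖∑ i ∈ Finset.range x, G i * F ((a + (q + s)) + q * i)‖ ^ 2 ≤
      4 * x * ∑ n ∈ Finset.Icc 1 x, ∑ a ∈ Iz H, bq q θ (2 * x) (f.eval (n : ℤ) + a) +
          |(q : ℝ)| * (x : ℝ) ^ 3 + 2 * (|(s : ℝ)| + |(q : ℝ)|) * (x : ℝ) ^ 2 := by
    have h5 : |((q + s : ℤ) : ℝ)| * (x : ℝ) ^ 2 ≤ (|(s : ℝ)| + |(q : ℝ)|) * (x : ℝ) ^ 2 := by
      gcongr
    have h6 : 0 ≤ (|(s : ℝ)| + |(q : ℝ)|) * (x : ℝ) ^ 2 := by positivity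
    have h7 : ∑ a ∈ Iz H, ‖∑ i ∈ Finset.range x, G i * F ((a + (q + s)) + q * i)‖ ^ 2 ≤
      ∑ a ∈ Iz H, ‖∑ i ∈ Finset.range x, G i * F (a + q * i)‖ ^ 2 +
        |((q + s : ℤ) : ℝ)| * (x : ℝ) ^ 2 := hsh
    linarith
  have hcW : ∑ n ∈ Finset.Icc 1 x, ‖∑ a ∈ Iz H, (starRingEnd ℂ) (F a) *
      F (a + (q * n + s))‖ ^ 2 = ∑ n ∈ Finset.Icc 1 x, ‖c n‖ ^ 2 := by rw [hc]
  rw [hcW]
  exact hW2.trans (mul_le_mul_of_nonneg_left hfin (by positivity))

end Pool.Agent.PS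

end BFR

namespace Pool.Agent.PS

theorem b_freq : type_of% @b_freq_pr := @b_freq_pr

end Pool.Agent.PS

namespace Pool.Agent.PS

/-- the correlation of `F` with its shift by `s` over `[-H, H]` -/
noncomputable def co (F : ℤ → ℂ) (H : ℕ) (s : ℤ) : ℂ :=
  ∑ a ∈ Iz H, (starRingEnd ℂ) (F a) * F (a + s)

end Pool.Agent.PS

/-! ### Block PET -/

section PET
/-! Block PET: arbitrary weights in every degree. -/

namespace Pool.Agent.PS

open Filter Topology MeasureTheory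
open scoped ComplexConjugate

theorem pd_shift_pr {α : Type} [CommRing α] (e : ℕ) (p : ℕ → α) (d : α) (h : Pd e p d) (i : ℕ) :
    Pd e (fun n => p (n + i)) d := by
  induction e generalizing p d with
  | zero =>
    intro n
    exact h (n + i)
  | succ e ih =>
    intro r
    have h1 := ih (fun n => p (n + r) - p n) (r * d) (h r)
    have h2 : (fun n => (fun n => p (n + i)) (n + r) - (fun n => p (n + i)) n) =
        fun n => (fun n => p (n + r) - p n) (n + i) := by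
      funext n
      simp only
      rw [show n + r + i = n + i + r by ring]
    rw [h2]
    exact h1

theorem pd_neg_pr {α : Type} [CommRing α] (e : ℕ) (p : ℕ → α) (d : α) (h : Pd e p d) :
    Pd e (fun n => -p n) (-d) := by
  induction e generalizing p d with
  | zero =>
    intro n
    have h1 : p n = d := h n
    simp only
    rw [h1]
  | succ e ih =>
    intro r
    have h1 := ih (fun n => p (n + r) - p n) (r * d) (h r)
    have h2 : (fun n => (fun n => -p n) (n + r) - (fun n => -p n) n) =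
        fun n => -(fun n => p (n + r) - p n) n := by
      funext n
      simp only
      ring
    rw [h2, show (r : α) * -d = -(r * d) by ring]
    exact h1

theorem pet_range (G : ℤ → ℂ) (H : ℕ) :
    ∑ a ∈ Iz H, G a = ∑ k ∈ Finset.range (2 * H + 1), G ((k : ℤ) - H) := by
  refine Finset.sum_nbij' (fun a => (a + H).toNat) (fun k => (k : ℤ) - H) ?_ ?_ ?_ ?_ ?_
  · intro a ha
    have := mem_Iz.mp ha
    rw [Finset.mem_range]
    omega
  · intro k hk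
    have := Finset.mem_range.mp hk
    rw [mem_Iz]
    omega
  · intro a ha
    have := mem_Iz.mp ha
    omega
  · intro k hk
    omega
  · intro a ha
    have := mem_Iz.mp ha
    congr 1
    omega

theorem pet_one (G : ℤ → ℂ) (hG : ∀ a, ‖G a‖ ≤ 1) (H : ℕ) :
    ‖∑ a ∈ Iz H, G (a + 1) - ∑ a ∈ Iz H, G a‖ ≤ 2 := by
  rw [pet_range (fun a => G (a + 1)), pet_range G, ← Finset.sum_sub_distrib]
  have h1 : ∀ k ∈ Finset.range (2 * H + 1), G ((k : ℤ) - H + 1) - G ((k : ℤ) - H) =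
      G (((k + 1 : ℕ) : ℤ) - H) - G ((k : ℤ) - H) := by
    intro k _
    rw [show ((k : ℤ) - H + 1) = ((k + 1 : ℕ) : ℤ) - H by push_cast; ring]
  rw [Finset.sum_congr rfl h1, Finset.sum_range_sub (fun k : ℕ => G ((k : ℤ) - H))]
  calc ‖G (((2 * H + 1 : ℕ) : ℤ) - H) - G (((0 : ℕ) : ℤ) - H)‖
      ≤ ‖G (((2 * H + 1 : ℕ) : ℤ) - H)‖ + ‖G (((0 : ℕ) : ℤ) - H)‖ := norm_sub_le _ _
    _ ≤ 2 := by linarith [hG (((2 * H + 1 : ℕ) : ℤ) - H), hG (((0 : ℕ) : ℤ) - H)]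

theorem pet_nat (G : ℤ → ℂ) (hG : ∀ a, ‖G a‖ ≤ 1) (H k : ℕ) :
    ‖∑ a ∈ Iz H, G (a + k) - ∑ a ∈ Iz H, G a‖ ≤ 2 * k := by
  induction k with
  | zero => simp
  | succ k ih =>
    have h1 := pet_one (fun a => G (a + k)) (fun a => hG _) H
    have h2 : ∑ a ∈ Iz H, G (a + ((k + 1 : ℕ) : ℤ)) = ∑ a ∈ Iz H, G (a + 1 + k) := by
      refine Finset.sum_congr rfl fun a _ => ?_
      congr 1
      push_cast
      ring
    rw [h2]
    calc ‖∑ a ∈ Iz H, G (a + 1 + k) - ∑ a ∈ Iz H, G a‖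
        = ‖(∑ a ∈ Iz H, G (a + 1 + k) - ∑ a ∈ Iz H, G (a + k)) +
          (∑ a ∈ Iz H, G (a + k) - ∑ a ∈ Iz H, G a)‖ := by rw [sub_add_sub_cancel]
      _ ≤ _ := norm_add_le _ _
      _ ≤ 2 + 2 * k := add_le_add h1 ih
      _ = 2 * ((k + 1 : ℕ) : ℝ) := by push_cast; ring

theorem pet_shift (G : ℤ → ℂ) (hG : ∀ a, ‖G a‖ ≤ 1) (H : ℕ) (w : ℤ) :
    ‖∑ a ∈ Iz H, G (a + w) - ∑ a ∈ Iz H, G a‖ ≤ 2 * |(w : ℝ)| := by
  rcases Int.eq_nat_or_neg w with ⟨k, rfl | rfl⟩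
  · have := pet_nat G hG H k
    simpa using this
  · have h1 := pet_nat (fun a => G (a + -(k : ℤ))) (fun a => hG _) H k
    have h2 : ∑ a ∈ Iz H, G (a + (k : ℤ) + -(k : ℤ)) = ∑ a ∈ Iz H, G a := by
      refine Finset.sum_congr rfl fun a _ => ?_
      congr 1
      ring
    rw [h2, norm_sub_rev] at h1
    simpa using h1

theorem pet_co_le (F : ℤ → ℂ) (hF : ∀ a, ‖F a‖ ≤ 1) (H : ℕ) (s : ℤ) :
    ‖co F H s‖ ≤ 2 * H + 1 := by
  unfold co
  calc ‖∑ a ∈ Iz H, conj (F a) * F (a + s)‖ ≤ ∑ a ∈ Iz H, (1 : ℝ) := by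
        refine norm_sum_le_of_le _ fun a _ => ?_
        rw [norm_mul, RCLike.norm_conj]
        exact mul_le_one₀ (hF a) (norm_nonneg _) (hF _)
    _ = 2 * H + 1 := by
        rw [Finset.sum_const, Iz_card, nsmul_eq_mul, mul_one]
        push_cast
        ring

/-- the cross correlation -/
noncomputable def petX (F : ℤ → ℂ) (H : ℕ) (u w : ℤ) : ℂ :=
  ∑ a ∈ Iz H, F (a + u) * conj (F (a + w))

theorem petX_le (F : ℤ → ℂ) (hF : ∀ a, ‖F a‖ ≤ 1) (H : ℕ) (u w : ℤ) :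
    ‖petX F H u w‖ ≤ 2 * H + 1 := by
  unfold petX
  calc ‖∑ a ∈ Iz H, F (a + u) * conj (F (a + w))‖ ≤ ∑ a ∈ Iz H, (1 : ℝ) := by
        refine norm_sum_le_of_le _ fun a _ => ?_
        rw [norm_mul, RCLike.norm_conj]
        exact mul_le_one₀ (hF _) (norm_nonneg _) (hF _)
    _ = 2 * H + 1 := by
        rw [Finset.sum_const, Iz_card, nsmul_eq_mul, mul_one]
        push_cast
        ring

theorem petX_co (F : ℤ → ℂ) (hF : ∀ a, ‖F a‖ ≤ 1) (H : ℕ) (u w : ℤ) {R : ℝ}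
    (hw : |(w : ℝ)| ≤ R) :
    ‖petX F H u w‖ ^ 2 ≤ ‖co F H (u - w)‖ ^ 2 + 4 * R * (2 * H + 1) := by
  have h1 := pet_shift (fun b => conj (F b) * F (b + (u - w))) (fun b => by
    rw [norm_mul, RCLike.norm_conj]
    exact mul_le_one₀ (hF _) (norm_nonneg _) (hF _)) H w
  have h2 : ∑ a ∈ Iz H, conj (F (a + w)) * F (a + w + (u - w)) = petX F H u w := by
    unfold petX
    refine Finset.sum_congr rfl fun a _ => ?_
    rw [mul_comm, show a + w + (u - w) = a + u by ring]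
  have h3 : ∑ a ∈ Iz H, conj (F a) * F (a + (u - w)) = co F H (u - w) := rfl
  rw [h2, h3] at h1
  have h4 : ‖petX F H u w‖ ≤ ‖co F H (u - w)‖ + 2 * R := by
    have := norm_sub_norm_le (petX F H u w) (co F H (u - w))
    linarith
  have h5 := petX_le F hF H u w
  have h6 := pet_co_le F hF H (u - w)
  have h7 := norm_nonneg (petX F H u w)
  have h8 := norm_nonneg (co F H (u - w))
  have h9 : 0 ≤ R := (abs_nonneg _).trans hw
  have h10 : ‖petX F H u w‖ ^ 2 - ‖co F H (u - w)‖ ^ 2 =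
      (‖petX F H u w‖ - ‖co F H (u - w)‖) * (‖petX F H u w‖ + ‖co F H (u - w)‖) := by ring
  have h11 : (‖petX F H u w‖ - ‖co F H (u - w)‖) * (‖petX F H u w‖ + ‖co F H (u - w)‖) ≤
      (2 * R) * (2 * (2 * H + 1)) := by
    refine mul_le_mul (by linarith) (by linarith) (by linarith) (by linarith)
  linarith

theorem pet_sq (z : ℂ) : ((‖z‖ ^ 2 : ℝ) : ℂ) = z * conj z := by
  rw [Complex.mul_conj, Complex.normSq_eq_norm_sq]

/-- the inequality of Cauchy and Schwarz in a window -/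
theorem pet_V (F : ℤ → ℂ) (hF : ∀ a, ‖F a‖ ≤ 1) (H N : ℕ) (u : ℕ → ℤ) :
    (∑ i ∈ Finset.range N, ‖co F H (u i)‖ ^ 2) ^ 2 ≤ (2 * H + 1 : ℝ) ^ 2 *
      ∑ i ∈ Finset.range N, ∑ i' ∈ Finset.range N, ‖petX F H (u i) (u i')‖ ^ 2 := by
  set Z : ℤ → ℤ → ℂ := fun a b => ∑ i ∈ Finset.range N, F (a + u i) * conj (F (b + u i)) with hZ
  have h1 : ((∑ i ∈ Finset.range N, ‖co F H (u i)‖ ^ 2 : ℝ) : ℂ) =
      ∑ a ∈ Iz H, ∑ b ∈ Iz H, (conj (F a) * F b) * Z a b := by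
    rw [Complex.ofReal_sum]
    have h2 : ∀ i ∈ Finset.range N, ((‖co F H (u i)‖ ^ 2 : ℝ) : ℂ) =
        ∑ a ∈ Iz H, ∑ b ∈ Iz H, (conj (F a) * F b) * (F (a + u i) * conj (F (b + u i))) := by
      intro i _
      rw [pet_sq]
      unfold co
      rw [map_sum, Finset.sum_mul_sum]
      refine Finset.sum_congr rfl fun a _ => Finset.sum_congr rfl fun b _ => ?_
      rw [map_mul, Complex.conj_conj]
      ring
    rw [Finset.sum_congr rfl h2, Finset.sum_comm]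
    refine Finset.sum_congr rfl fun a _ => ?_
    rw [Finset.sum_comm]
    refine Finset.sum_congr rfl fun b _ => ?_
    rw [hZ, Finset.mul_sum]
  have h3 : ∑ i ∈ Finset.range N, ‖co F H (u i)‖ ^ 2 ≤ ∑ a ∈ Iz H, ∑ b ∈ Iz H, ‖Z a b‖ := by
    have h4 : ∑ i ∈ Finset.range N, ‖co F H (u i)‖ ^ 2 =
        ‖((∑ i ∈ Finset.range N, ‖co F H (u i)‖ ^ 2 : ℝ) : ℂ)‖ := by
      rw [Complex.norm_real, Real.norm_of_nonneg]
      exact Finset.sum_nonneg fun i _ => by positivity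
    rw [h4, h1]
    refine norm_sum_le_of_le _ fun a _ => norm_sum_le_of_le _ fun b _ => ?_
    rw [norm_mul, norm_mul, RCLike.norm_conj]
    have := mul_le_one₀ (hF a) (norm_nonneg _) (hF b)
    exact mul_le_of_le_one_left (norm_nonneg _) this
  have h5 : ∑ a ∈ Iz H, ∑ b ∈ Iz H, ‖Z a b‖ ^ 2 =
      ∑ i ∈ Finset.range N, ∑ i' ∈ Finset.range N, ‖petX F H (u i) (u i')‖ ^ 2 := by
    have h6 : ((∑ a ∈ Iz H, ∑ b ∈ Iz H, ‖Z a b‖ ^ 2 : ℝ) : ℂ) =
        ((∑ i ∈ Finset.range N, ∑ i' ∈ Finset.range N, ‖petX F H (u i) (u i')‖ ^ 2 : ℝ) : ℂ) := by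
      rw [Complex.ofReal_sum, Complex.ofReal_sum]
      have h7 : ∀ a ∈ Iz H, ((∑ b ∈ Iz H, ‖Z a b‖ ^ 2 : ℝ) : ℂ) =
          ∑ b ∈ Iz H, ∑ i ∈ Finset.range N, ∑ i' ∈ Finset.range N,
            (F (a + u i) * conj (F (a + u i'))) * (conj (F (b + u i)) * F (b + u i')) := by
        intro a _
        rw [Complex.ofReal_sum]
        refine Finset.sum_congr rfl fun b _ => ?_
        rw [pet_sq]
        simp only [hZ]
        rw [map_sum, Finset.sum_mul_sum]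
        refine Finset.sum_congr rfl fun i _ => Finset.sum_congr rfl fun i' _ => ?_
        rw [map_mul, Complex.conj_conj]
        ring
      have h8 : ∀ i ∈ Finset.range N,
          ((∑ i' ∈ Finset.range N, ‖petX F H (u i) (u i')‖ ^ 2 : ℝ) : ℂ) =
          ∑ i' ∈ Finset.range N, ∑ a ∈ Iz H, ∑ b ∈ Iz H,
            (F (a + u i) * conj (F (a + u i'))) * (conj (F (b + u i)) * F (b + u i')) := by
        intro i _
        rw [Complex.ofReal_sum]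
        refine Finset.sum_congr rfl fun i' _ => ?_
        rw [pet_sq]
        unfold petX
        rw [map_sum, Finset.sum_mul_sum]
        refine Finset.sum_congr rfl fun a _ => Finset.sum_congr rfl fun b _ => ?_
        rw [map_mul, Complex.conj_conj]
      rw [Finset.sum_congr rfl h7, Finset.sum_congr rfl h8]
      calc ∑ a ∈ Iz H, ∑ b ∈ Iz H, ∑ i ∈ Finset.range N, ∑ i' ∈ Finset.range N,
            (F (a + u i) * conj (F (a + u i'))) * (conj (F (b + u i)) * F (b + u i'))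
          = ∑ a ∈ Iz H, ∑ i ∈ Finset.range N, ∑ b ∈ Iz H, ∑ i' ∈ Finset.range N,
            (F (a + u i) * conj (F (a + u i'))) * (conj (F (b + u i)) * F (b + u i')) :=
            Finset.sum_congr rfl fun a _ => Finset.sum_comm
        _ = ∑ i ∈ Finset.range N, ∑ a ∈ Iz H, ∑ b ∈ Iz H, ∑ i' ∈ Finset.range N,
            (F (a + u i) * conj (F (a + u i'))) * (conj (F (b + u i)) * F (b + u i')) :=
            Finset.sum_comm
        _ = ∑ i ∈ Finset.range N, ∑ a ∈ Iz H, ∑ i' ∈ Finset.range N, ∑ b ∈ Iz H,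
            (F (a + u i) * conj (F (a + u i'))) * (conj (F (b + u i)) * F (b + u i')) :=
            Finset.sum_congr rfl fun i _ => Finset.sum_congr rfl fun a _ => Finset.sum_comm
        _ = _ := Finset.sum_congr rfl fun i _ => Finset.sum_comm
    exact_mod_cast h6
  have h9 : (∑ a ∈ Iz H, ∑ b ∈ Iz H, ‖Z a b‖) ^ 2 ≤
      (2 * H + 1 : ℝ) ^ 2 * ∑ a ∈ Iz H, ∑ b ∈ Iz H, ‖Z a b‖ ^ 2 := by
    have h10 := sq_sum_le_card_mul_sum_sq (s := Iz H ×ˢ Iz H) (f := fun p => ‖Z p.1 p.2‖)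
    rw [Finset.sum_product, Finset.sum_product, Finset.card_product, Iz_card] at h10
    push_cast at h10
    nlinarith [h10]
  rw [← h5]
  refine le_trans ?_ h9
  exact pow_le_pow_left₀ (Finset.sum_nonneg fun i _ => by positivity) h3 2

theorem pet_win1 (c : ℕ → ℝ) (M : ℝ) (hc0 : ∀ n, 0 ≤ c n) (hc : ∀ n, c n ≤ M) (x i : ℕ) :
    ∑ n ∈ Finset.range x, c n ≤ ∑ n ∈ Finset.range x, c (n + i) + i * M := by
  induction i with
  | zero => simp
  | succ i ih =>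
    have h1 : ∑ n ∈ Finset.range x, (c (n + 1 + i) - c (n + i)) = c (x + i) - c (0 + i) :=
      Finset.sum_range_sub (fun n => c (n + i)) x
    rw [Finset.sum_sub_distrib] at h1
    have h2 : ∑ n ∈ Finset.range x, c (n + (i + 1)) = ∑ n ∈ Finset.range x, c (n + 1 + i) :=
      Finset.sum_congr rfl fun n _ => by rw [show n + (i + 1) = n + 1 + i by ring]
    rw [h2]
    push_cast
    have h3 := hc0 (x + i)
    have h4 := hc (0 + i)
    linarith

theorem pet_win (c : ℕ → ℝ) (M : ℝ) (hM : 0 ≤ M) (hc0 : ∀ n, 0 ≤ c n) (hc : ∀ n, c n ≤ M)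
    (x N : ℕ) :
    N * ∑ n ∈ Finset.range x, c n ≤
      ∑ n ∈ Finset.range x, ∑ i ∈ Finset.range N, c (n + i) + (N : ℝ) ^ 2 * M := by
  rw [Finset.sum_comm]
  calc (N : ℝ) * ∑ n ∈ Finset.range x, c n = ∑ i ∈ Finset.range N, ∑ n ∈ Finset.range x, c n := by
        rw [Finset.sum_const, Finset.card_range, nsmul_eq_mul]
    _ ≤ ∑ i ∈ Finset.range N, (∑ n ∈ Finset.range x, c (n + i) + N * M) := by
        refine Finset.sum_le_sum fun i hi => (pet_win1 c M hc0 hc x i).trans ?_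
        have : (i : ℝ) ≤ N := by exact_mod_cast (Finset.mem_range.mp hi).le
        have := mul_le_mul_of_nonneg_right this hM
        linarith
    _ = _ := by
        rw [Finset.sum_add_distrib, Finset.sum_const, Finset.card_range, nsmul_eq_mul]
        ring

theorem pet_V2 (F : ℤ → ℂ) (hF : ∀ a, ‖F a‖ ≤ 1) (H N : ℕ) (u : ℕ → ℤ) {R : ℝ}
    (hu : ∀ i < N, |(u i : ℝ)| ≤ R) :
    (∑ i ∈ Finset.range N, ‖co F H (u i)‖ ^ 2) ^ 2 ≤ (2 * H + 1 : ℝ) ^ 2 *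
      (N * (2 * H + 1) ^ 2 + ∑ i ∈ Finset.range N, ∑ i' ∈ (Finset.range N).erase i,
        ‖co F H (u i - u i')‖ ^ 2 + (N : ℝ) ^ 2 * (4 * R * (2 * H + 1))) := by
  refine (pet_V F hF H N u).trans (mul_le_mul_of_nonneg_left ?_ (by positivity))
  rcases Nat.eq_zero_or_pos N with h0 | h0
  · subst h0; simp
  have hR : 0 ≤ R := (abs_nonneg _).trans (hu 0 h0)
  have h1 : ∀ i ∈ Finset.range N, ∑ i' ∈ Finset.range N, ‖petX F H (u i) (u i')‖ ^ 2 ≤
      (2 * H + 1) ^ 2 + (∑ i' ∈ (Finset.range N).erase i, ‖co F H (u i - u i')‖ ^ 2 +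
        N * (4 * R * (2 * H + 1))) := by
    intro i hi
    rw [← Finset.add_sum_erase _ _ hi]
    have h2 := petX_le F hF H (u i) (u i)
    refine add_le_add (pow_le_pow_left₀ (norm_nonneg _) h2 2) ?_
    calc ∑ i' ∈ (Finset.range N).erase i, ‖petX F H (u i) (u i')‖ ^ 2
        ≤ ∑ i' ∈ (Finset.range N).erase i, (‖co F H (u i - u i')‖ ^ 2 + 4 * R * (2 * H + 1)) :=
          Finset.sum_le_sum fun i' hi' => petX_co F hF H _ _
            (hu i' (Finset.mem_range.mp (Finset.mem_of_mem_erase hi')))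
      _ = ∑ i' ∈ (Finset.range N).erase i, ‖co F H (u i - u i')‖ ^ 2 +
          (((Finset.range N).erase i).card : ℝ) * (4 * R * (2 * H + 1)) := by
          rw [Finset.sum_add_distrib, Finset.sum_const, nsmul_eq_mul]
      _ ≤ _ := by
          have h3 : (((Finset.range N).erase i).card : ℝ) ≤ N := by
            have := Finset.card_le_card (Finset.erase_subset i (Finset.range N))
            rw [Finset.card_range] at this
            exact_mod_cast this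
          have := mul_le_mul_of_nonneg_right h3 (by positivity : 0 ≤ 4 * R * (2 * (H : ℝ) + 1))
          linarith
  refine (Finset.sum_le_sum h1).trans (le_of_eq ?_)
  rw [Finset.sum_add_distrib, Finset.sum_add_distrib, Finset.sum_const, Finset.sum_const,
    Finset.card_range, nsmul_eq_mul, nsmul_eq_mul]
  ring

theorem pet_arith {S W E x N T R : ℝ} (hS : 0 ≤ S) (hN : 0 < N) (hT : 0 ≤ T)
    (hR : 0 ≤ R) (h1 : N * S ≤ W + N ^ 2 * T ^ 2)
    (h2 : W ^ 2 ≤ x * (T ^ 2 * (x * (N * T ^ 2) + E + x * (N ^ 2 * (4 * R * T))))) :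
    S ^ 2 ≤ 2 * x ^ 2 * T ^ 4 / N + 2 * x * T ^ 2 / N ^ 2 * E + 12 * x ^ 2 * T ^ 3 * R +
      2 * N ^ 2 * T ^ 4 := by
  have h3 : (N * S) ^ 2 ≤ 2 * W ^ 2 + 2 * (N ^ 2 * T ^ 2) ^ 2 := by
    have h4 : (N * S) ^ 2 ≤ (W + N ^ 2 * T ^ 2) ^ 2 := pow_le_pow_left₀ (by positivity) h1 2
    nlinarith [sq_nonneg (W - N ^ 2 * T ^ 2)]
  have h5 : N ^ 2 * S ^ 2 ≤ N ^ 2 * (2 * x ^ 2 * T ^ 4 / N + 2 * x * T ^ 2 / N ^ 2 * E +
      8 * x ^ 2 * T ^ 3 * R + 2 * N ^ 2 * T ^ 4) := by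
    have h6 : N ^ 2 * (2 * x ^ 2 * T ^ 4 / N + 2 * x * T ^ 2 / N ^ 2 * E +
      8 * x ^ 2 * T ^ 3 * R + 2 * N ^ 2 * T ^ 4) =
      2 * (x * (T ^ 2 * (x * (N * T ^ 2) + E + x * (N ^ 2 * (4 * R * T))))) +
        2 * (N ^ 2 * T ^ 2) ^ 2 := by
      field_simp
      ring
    rw [h6]
    calc N ^ 2 * S ^ 2 = (N * S) ^ 2 := by ring
      _ ≤ 2 * W ^ 2 + 2 * (N ^ 2 * T ^ 2) ^ 2 := h3
      _ ≤ _ := by linarith
  have h7 := le_of_mul_le_mul_left h5 (by positivity : 0 < N ^ 2)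
  have h8 : 0 ≤ x ^ 2 * T ^ 3 * R := by positivity
  linarith

theorem pet_step_pr (F : ℤ → ℂ) (hF : ∀ a, ‖F a‖ ≤ 1) (x H N R₀ : ℕ) (hN : 1 ≤ N) (p : ℕ → ℤ)
    (hp : ∀ n ≤ x + N, |p n| ≤ R₀) :
    (∑ n ∈ Finset.range x, ‖co F H (p n)‖ ^ 2) ^ 2 ≤
      2 * (x : ℝ) ^ 2 * (2 * H + 1) ^ 4 / N +
      2 * x * (2 * H + 1 : ℝ) ^ 2 / (N : ℝ) ^ 2 * ∑ i ∈ Finset.range N,
        ∑ i' ∈ (Finset.range N).erase i, ∑ n ∈ Finset.range x,
          ‖co F H (p (n + i) - p (n + i'))‖ ^ 2 +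
      12 * (x : ℝ) ^ 2 * (2 * H + 1) ^ 3 * R₀ + 2 * (N : ℝ) ^ 2 * (2 * H + 1) ^ 4 := by
  have hN0 : (0 : ℝ) < N := by exact_mod_cast hN
  have hT : (0 : ℝ) ≤ 2 * H + 1 := by positivity
  have h1 := pet_win (fun n => ‖co F H (p n)‖ ^ 2) ((2 * H + 1 : ℝ) ^ 2) (by positivity)
    (fun n => by positivity)
    (fun n => pow_le_pow_left₀ (norm_nonneg _) (pet_co_le F hF H (p n)) 2) x N
  set W := ∑ n ∈ Finset.range x, ∑ i ∈ Finset.range N, ‖co F H (p (n + i))‖ ^ 2 with hW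
  have h2 : W ^ 2 ≤ x * ∑ n ∈ Finset.range x,
      (∑ i ∈ Finset.range N, ‖co F H (p (n + i))‖ ^ 2) ^ 2 := by
    have := sq_sum_le_card_mul_sum_sq (s := Finset.range x)
      (f := fun n => ∑ i ∈ Finset.range N, ‖co F H (p (n + i))‖ ^ 2)
    rw [Finset.card_range] at this
    exact this
  have h3 : ∀ n ∈ Finset.range x, (∑ i ∈ Finset.range N, ‖co F H (p (n + i))‖ ^ 2) ^ 2 ≤
      (2 * H + 1 : ℝ) ^ 2 *
      (N * (2 * H + 1) ^ 2 + ∑ i ∈ Finset.range N, ∑ i' ∈ (Finset.range N).erase i,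
        ‖co F H (p (n + i) - p (n + i'))‖ ^ 2 + (N : ℝ) ^ 2 * (4 * R₀ * (2 * H + 1))) := by
    intro n hn
    refine pet_V2 F hF H N (fun i => p (n + i)) fun i hi => ?_
    have hn' := Finset.mem_range.mp hn
    have := hp (n + i) (by omega)
    exact_mod_cast this
  have h4 := Finset.sum_le_sum h3
  rw [← Finset.mul_sum, Finset.sum_add_distrib, Finset.sum_add_distrib, Finset.sum_const,
    Finset.sum_const, Finset.card_range, nsmul_eq_mul, nsmul_eq_mul] at h4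
  have h5 : ∑ n ∈ Finset.range x, ∑ i ∈ Finset.range N, ∑ i' ∈ (Finset.range N).erase i,
        ‖co F H (p (n + i) - p (n + i'))‖ ^ 2 = ∑ i ∈ Finset.range N,
        ∑ i' ∈ (Finset.range N).erase i, ∑ n ∈ Finset.range x,
          ‖co F H (p (n + i) - p (n + i'))‖ ^ 2 := by
    rw [Finset.sum_comm]
    exact Finset.sum_congr rfl fun i _ => Finset.sum_comm
  rw [h5] at h4
  refine pet_arith (W := W) (Finset.sum_nonneg fun n _ => by positivity) hN0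
    hT (Nat.cast_nonneg _) h1 ?_
  exact h2.trans (mul_le_mul_of_nonneg_left h4 (Nat.cast_nonneg _))

theorem pet_pd {e : ℕ} {p : ℕ → ℤ} {d : ℤ} (h : Pd (e + 1) p d) {i i' : ℕ} (hii : i ≠ i') :
    ∃ r : ℤ, r ≠ 0 ∧ |r| ≤ max i i' ∧ Pd e (fun n => p (n + i) - p (n + i')) (r * d) := by
  rcases lt_or_gt_of_ne hii with hlt | hgt
  · obtain ⟨r, rfl⟩ : ∃ r, i' = i + r := ⟨i' - i, by omega⟩
    have h1 := pd_neg_pr e _ _ (pd_shift_pr e _ _ (h r) i)
    refine ⟨-(r : ℤ), by omega, ?_, ?_⟩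
    · rw [abs_neg, Nat.abs_cast]
      have : r ≤ max i (i + r) := (Nat.le_add_left r i).trans (le_max_right _ _)
      exact_mod_cast this
    · have h2 : (fun n => p (n + i) - p (n + (i + r))) =
          fun n => -(fun n => (fun n => p (n + r) - p n) (n + i)) n := by
        funext n
        simp only
        rw [show n + i + r = n + (i + r) by ring]
        ring
      rw [h2, show -(r : ℤ) * d = -((r : ℤ) * d) by ring]
      exact h1
  · obtain ⟨r, rfl⟩ : ∃ r, i = i' + r := ⟨i - i', by omega⟩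
    have h1 := pd_shift_pr e _ _ (h r) i'
    refine ⟨(r : ℤ), by omega, ?_, ?_⟩
    · rw [Nat.abs_cast]
      have : r ≤ max (i' + r) i' := (Nat.le_add_left r i').trans (le_max_left _ _)
      exact_mod_cast this
    · have h2 : (fun n => p (n + (i' + r)) - p (n + i')) =
          fun n => (fun n => p (n + r) - p n) (n + i') := by
        funext n
        simp only
        rw [show n + i' + r = n + (i' + r) by ring]
      rw [h2]
      exact h1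

theorem pet_lem_pr (e : ℕ) (he : 1 ≤ e) (d₀ : ℕ) (ε : ℝ) (hε : 0 < ε) :
    ∃ (Q N₀ x₀ : ℕ) (δ κ : ℝ), 0 < δ ∧ 0 < κ ∧ ∀ (x H R₀ : ℕ) (F : ℤ → ℂ) (p : ℕ → ℤ) (d : ℤ),
      x₀ ≤ x → (∀ a, ‖F a‖ ≤ 1) → Pd e p d → d ≠ 0 → |d| ≤ d₀ → (∀ n ≤ x + N₀, |p n| ≤ R₀) →
      (R₀ : ℝ) ≤ δ * (2 * H + 1) →
      (∀ q s : ℤ, q ≠ 0 → |q| ≤ Q → |s| ≤ 2 ^ e * R₀ →
        ∑ n ∈ Finset.range x, ‖co F H (q * n + s)‖ ^ 2 ≤ κ * x * (2 * H + 1) ^ 2) →
      ∑ n ∈ Finset.range x, ‖co F H (p n)‖ ^ 2 ≤ ε * x * (2 * H + 1) ^ 2 := by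
  induction e, he using Nat.le_induction generalizing d₀ ε with
  | base =>
    refine ⟨d₀, 0, 0, 1, ε, one_pos, hε, ?_⟩
    intro x H R₀ F p d _ hF hP hd0 hd hp _ hq
    have h1 : ∀ n : ℕ, p n = d * n + p 0 := by
      intro n
      have h2 : p (0 + n) - p 0 = n * d := hP n 0
      rw [zero_add] at h2
      linarith
    have h3 : |p 0| ≤ 2 ^ 1 * (R₀ : ℤ) := by
      have := hp 0 (Nat.zero_le _)
      have h4 : (0 : ℤ) ≤ R₀ := Nat.cast_nonneg _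
      linarith
    have h5 := hq d (p 0) hd0 hd h3
    have h6 : ∑ n ∈ Finset.range x, ‖co F H (p n)‖ ^ 2 =
        ∑ n ∈ Finset.range x, ‖co F H (d * n + p 0)‖ ^ 2 :=
      Finset.sum_congr rfl fun n _ => by rw [← h1 n]
    rw [h6]
    exact h5
  | succ e he ih =>
    obtain ⟨N, hNd⟩ : ∃ N : ℕ, N = ⌈8 / ε ^ 2⌉₊ + 1 := ⟨_, rfl⟩
    have hN1 : 1 ≤ N := by omega
    have hN0 : (0 : ℝ) < N := by exact_mod_cast hN1
    have hNε : 2 / (N : ℝ) ≤ ε ^ 2 / 4 := by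
      have h1 : 8 / ε ^ 2 ≤ (N : ℝ) := by
        rw [hNd]
        push_cast
        linarith [Nat.le_ceil (8 / ε ^ 2)]
      rw [div_le_iff₀ (by positivity)] at h1
      rw [div_le_iff₀ hN0]
      linarith
    obtain ⟨Q, N₁, x₁, δ₁, κ, hδ₁, hκ, hih⟩ := ih (d₀ := d₀ * N) (ε := ε ^ 2 / 8) (by positivity)
    refine ⟨Q, N + N₁, max x₁ (⌈3 * N / ε⌉₊), min (δ₁ / 2) (ε ^ 2 / 48), κ, by positivity, hκ, ?_⟩
    intro x H R₀ F p d hx hF hP hd0 hd hp hR hq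
    have hx1 : x₁ ≤ x := (le_max_left _ _).trans hx
    have hx2 : 3 * (N : ℝ) / ε ≤ x := (Nat.le_ceil _).trans
      (by exact_mod_cast (le_max_right _ _).trans hx)
    have hT : (0 : ℝ) < 2 * H + 1 := by positivity
    have h1 := pet_step_pr F hF x H N R₀ hN1 p (fun n hn => hp n (by omega))
    have h2 : ∀ i ∈ Finset.range N, ∀ i' ∈ (Finset.range N).erase i,
        ∑ n ∈ Finset.range x, ‖co F H (p (n + i) - p (n + i'))‖ ^ 2 ≤
          ε ^ 2 / 8 * x * (2 * H + 1) ^ 2 := by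
      intro i hi i' hi'
      have hiN := Finset.mem_range.mp hi
      have hii := Finset.ne_of_mem_erase hi'
      have hiN' := Finset.mem_range.mp (Finset.mem_of_mem_erase hi')
      obtain ⟨r, hr0, hr, hPr⟩ := pet_pd hP (Ne.symm hii)
      refine hih x H (2 * R₀) F (fun n => p (n + i) - p (n + i')) (r * d) hx1 hF hPr
        (mul_ne_zero hr0 hd0) ?_ ?_ ?_ ?_
      · rw [abs_mul]
        push_cast
        have h3 : |r| ≤ (N : ℤ) := by
          refine hr.trans ?_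
          exact_mod_cast (max_lt hiN hiN').le
        calc |r| * |d| ≤ (N : ℤ) * d₀ := mul_le_mul h3 hd (abs_nonneg _) (by positivity)
          _ = d₀ * N := by ring
      · intro n hn
        have h3 := hp (n + i) (by omega)
        have h4 := hp (n + i') (by omega)
        push_cast
        calc |p (n + i) - p (n + i')| ≤ |p (n + i)| + |p (n + i')| := abs_sub _ _
          _ ≤ 2 * R₀ := by linarith
      · push_cast
        have h3 : (R₀ : ℝ) ≤ δ₁ / 2 * (2 * H + 1) :=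
          hR.trans (mul_le_mul_of_nonneg_right (min_le_left _ _) hT.le)
        linarith
      · intro q s hq0 hqQ hs
        refine hq q s hq0 hqQ (hs.trans (le_of_eq ?_))
        push_cast
        ring
    set E := ∑ i ∈ Finset.range N, ∑ i' ∈ (Finset.range N).erase i, ∑ n ∈ Finset.range x,
          ‖co F H (p (n + i) - p (n + i'))‖ ^ 2 with hE
    have h3 : E ≤ (N : ℝ) ^ 2 * (ε ^ 2 / 8 * x * (2 * H + 1) ^ 2) := by
      calc E ≤ ∑ i ∈ Finset.range N, ∑ i' ∈ (Finset.range N).erase i,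
            (ε ^ 2 / 8 * x * (2 * H + 1) ^ 2 : ℝ) :=
            Finset.sum_le_sum fun i hi => Finset.sum_le_sum fun i' hi' => h2 i hi i' hi'
        _ ≤ ∑ i ∈ Finset.range N, (N * (ε ^ 2 / 8 * x * (2 * H + 1) ^ 2) : ℝ) := by
            refine Finset.sum_le_sum fun i _ => ?_
            rw [Finset.sum_const, nsmul_eq_mul]
            refine mul_le_mul_of_nonneg_right ?_ (by positivity)
            have := Finset.card_le_card (Finset.erase_subset i (Finset.range N))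
            rw [Finset.card_range] at this
            exact_mod_cast this
        _ = _ := by
            rw [Finset.sum_const, Finset.card_range, nsmul_eq_mul]
            ring
    set S := ∑ n ∈ Finset.range x, ‖co F H (p n)‖ ^ 2
    obtain ⟨T, hTd⟩ : ∃ T : ℝ, T = 2 * H + 1 := ⟨_, rfl⟩
    rw [← hTd] at h1 h3 hR hT ⊢
    have hx0 : (0 : ℝ) ≤ x := Nat.cast_nonneg _
    have ha : 2 * (x : ℝ) ^ 2 * T ^ 4 / N ≤ ε ^ 2 / 4 * (x ^ 2 * T ^ 4) := by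
      calc 2 * (x : ℝ) ^ 2 * T ^ 4 / N = 2 / N * (x ^ 2 * T ^ 4) := by ring
        _ ≤ _ := mul_le_mul_of_nonneg_right hNε (by positivity)
    have hb : 2 * x * T ^ 2 / (N : ℝ) ^ 2 * E ≤ ε ^ 2 / 4 * (x ^ 2 * T ^ 4) := by
      calc 2 * x * T ^ 2 / (N : ℝ) ^ 2 * E ≤ 2 * x * T ^ 2 / (N : ℝ) ^ 2 *
            ((N : ℝ) ^ 2 * (ε ^ 2 / 8 * x * T ^ 2)) :=
            mul_le_mul_of_nonneg_left h3 (by positivity)
        _ = _ := by
            field_simp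
            ring
    have hc : 12 * (x : ℝ) ^ 2 * T ^ 3 * R₀ ≤ ε ^ 2 / 4 * (x ^ 2 * T ^ 4) := by
      have h4 : (R₀ : ℝ) ≤ ε ^ 2 / 48 * T :=
        hR.trans (mul_le_mul_of_nonneg_right (min_le_right _ _) hT.le)
      calc 12 * (x : ℝ) ^ 2 * T ^ 3 * R₀ ≤ 12 * (x : ℝ) ^ 2 * T ^ 3 * (ε ^ 2 / 48 * T) :=
            mul_le_mul_of_nonneg_left h4 (by positivity)
        _ = _ := by ring
    have hd' : 2 * (N : ℝ) ^ 2 * T ^ 4 ≤ ε ^ 2 / 4 * (x ^ 2 * T ^ 4) := by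
      have h4 : 3 * (N : ℝ) ≤ ε * x := by
        rw [div_le_iff₀ hε] at hx2
        linarith
      have h5 : (3 * (N : ℝ)) ^ 2 ≤ (ε * x) ^ 2 := pow_le_pow_left₀ (by positivity) h4 2
      have h6 : 2 * (N : ℝ) ^ 2 ≤ ε ^ 2 / 4 * x ^ 2 := by nlinarith
      calc 2 * (N : ℝ) ^ 2 * T ^ 4 ≤ (ε ^ 2 / 4 * x ^ 2) * T ^ 4 :=
            mul_le_mul_of_nonneg_right h6 (by positivity)
        _ = _ := by ring
    have hfin : S ^ 2 ≤ (ε * x * T ^ 2) ^ 2 := by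
      calc S ^ 2 ≤ _ := h1
        _ ≤ ε ^ 2 * (x ^ 2 * T ^ 4) := by linarith
        _ = _ := by ring
    exact le_of_sq_le_sq hfin (by positivity)

end Pool.Agent.PS

end PET

namespace Pool.Agent.PS

theorem pd_shift : type_of% @pd_shift_pr := @pd_shift_pr

theorem pd_neg : type_of% @pd_neg_pr := @pd_neg_pr

theorem pet_step : type_of% @pet_step_pr := @pet_step_pr

theorem pet_lem : type_of% @pet_lem_pr := @pet_lem_pr

end Pool.Agent.PS

/-! ### Block BMA -/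

section BMA
/-!
# Block BMA: `bq_sub_pr` and `b_gen_pr`
-/

namespace Pool.Agent.PS

open Filter Topology MeasureTheory

/-! ## `bq_sub_pr` -/

theorem bma_shift_sum (y : ℕ → ℂ) (hy : ∀ i, ‖y i‖ ≤ 1) (N l : ℕ) :
    ‖∑ m ∈ Finset.range N, y m - ∑ m ∈ Finset.range N, y (m + l)‖ ≤ 2 * l := by
  have h1 := Finset.sum_range_add y N l
  have h2 := Finset.sum_range_add y l N
  rw [Nat.add_comm l N, h1] at h2
  have h3 : ∑ m ∈ Finset.range N, y (m + l) = ∑ m ∈ Finset.range N, y (l + m) :=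
    Finset.sum_congr rfl fun m _ => by rw [Nat.add_comm]
  have h4 : ∑ m ∈ Finset.range N, y m - ∑ m ∈ Finset.range N, y (m + l) =
      ∑ x ∈ Finset.range l, y x - ∑ x ∈ Finset.range l, y (N + x) := by
    rw [h3]
    linear_combination h2
  rw [h4]
  have h5 : ∀ z : ℕ → ℂ, (∀ i, ‖z i‖ ≤ 1) → ‖∑ x ∈ Finset.range l, z x‖ ≤ l := by
    intro z hz
    refine (norm_sum_le_of_le _ (fun i _ => hz i)).trans ?_
    simp
  have h6 := h5 y hy
  have h7 := h5 (fun x => y (N + x)) (fun x => hy _)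
  refine (norm_sub_le _ _).trans ?_
  linarith

theorem bq_sub_pr (q : ℤ) (θ : ℝ) (N L : ℕ) (A : ℤ) (hN : 1 ≤ N) (hL : 1 ≤ L) :
    bq q θ N A ≤ (∑ m ∈ Finset.range N, bq q θ L (A + q * m)) / N + 2 * L / N := by
  have hN' : (0 : ℝ) < N := by exact_mod_cast hN
  have hL' : (0 : ℝ) < L := by exact_mod_cast hL
  set y : ℕ → ℂ := fun i => ez (θ * i) * (lz (A + q * i) : ℂ) with hy
  have hy1 : ∀ i, ‖y i‖ ≤ 1 := by
    intro i
    rw [hy]
    simp only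
    rw [norm_mul, ez_norm, one_mul]
    exact lz_norm _
  have h1 : ∀ m : ℕ, ‖∑ l ∈ Finset.range L, y (m + l)‖ = L * bq q θ L (A + q * m) := by
    intro m
    have e1 : ∑ l ∈ Finset.range L, y (m + l) =
        ez (θ * m) * ∑ l ∈ Finset.range L, ez (θ * l) * (lz (A + q * m + q * l) : ℂ) := by
      rw [Finset.mul_sum]
      refine Finset.sum_congr rfl fun l _ => ?_
      rw [hy]
      simp only
      rw [← mul_assoc, ← ez_add]
      congr 2
      · push_cast; ring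
      · congr 1
        push_cast
        ring
    rw [e1, norm_mul, ez_norm, one_mul]
    unfold bq
    field_simp
  have h2 : (L : ℂ) * ∑ i ∈ Finset.range N, y i =
      ∑ m ∈ Finset.range N, ∑ l ∈ Finset.range L, y (m + l) +
        ∑ l ∈ Finset.range L, (∑ m ∈ Finset.range N, y m - ∑ m ∈ Finset.range N, y (m + l)) := by
    rw [Finset.sum_sub_distrib, Finset.sum_comm]
    simp
  have h3 : (L : ℝ) * ‖∑ i ∈ Finset.range N, y i‖ ≤
      ∑ m ∈ Finset.range N, (L * bq q θ L (A + q * m)) + L * (2 * L) := by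
    have e1 : (L : ℝ) * ‖∑ i ∈ Finset.range N, y i‖ = ‖(L : ℂ) * ∑ i ∈ Finset.range N, y i‖ := by
      rw [norm_mul, Complex.norm_natCast]
    rw [e1, h2]
    refine (norm_add_le _ _).trans ?_
    refine add_le_add ?_ ?_
    · refine norm_sum_le_of_le _ fun m _ => ?_
      rw [h1 m]
    · refine (norm_sum_le_of_le (f := fun l => (∑ m ∈ Finset.range N, y m -
        ∑ m ∈ Finset.range N, y (m + l))) (n := fun _ => 2 * (L : ℝ)) _ fun l hl => ?_).trans ?_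
      · refine (bma_shift_sum y hy1 N l).trans ?_
        have : (l : ℝ) ≤ L := by exact_mod_cast (Finset.mem_range.1 hl).le
        linarith
      · simp
  rw [← Finset.mul_sum, ← mul_add] at h3
  have h4 := le_of_mul_le_mul_left h3 hL'
  have h5 : bq q θ N A = ‖∑ i ∈ Finset.range N, y i‖ / N := rfl
  rw [h5, ← add_div]
  gcongr

/-! ## elementary lemmas -/

theorem bma_powdiff (W : ℕ) (u v : ℤ) (hu : |u| ≤ W) (hv : |v| ≤ W) (hW : 1 ≤ W) (D k : ℕ)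
    (hk : k ≤ D) : |u ^ k - v ^ k| ≤ D * |u - v| * (W : ℤ) ^ (D - 1) := by
  rcases Nat.eq_zero_or_pos k with h0 | h0
  · subst h0
    simp only [pow_zero, sub_self, abs_zero]
    positivity
  · have hW' : (1 : ℤ) ≤ W := by exact_mod_cast hW
    rw [← (Commute.all u v).geom_sum₂_mul k, abs_mul]
    have h1 : |∑ i ∈ Finset.range k, u ^ i * v ^ (k - 1 - i)| ≤ D * (W : ℤ) ^ (D - 1) := by
      refine (Finset.abs_sum_le_sum_abs _ _).trans ?_
      have h2 : ∀ i ∈ Finset.range k, |u ^ i * v ^ (k - 1 - i)| ≤ (W : ℤ) ^ (D - 1) := by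
        intro i hi
        rw [Finset.mem_range] at hi
        rw [abs_mul, abs_pow, abs_pow]
        calc |u| ^ i * |v| ^ (k - 1 - i) ≤ (W : ℤ) ^ i * (W : ℤ) ^ (k - 1 - i) := by
              gcongr
          _ = (W : ℤ) ^ (k - 1) := by
              rw [← pow_add]
              congr 1
              omega
          _ ≤ (W : ℤ) ^ (D - 1) := pow_le_pow_right₀ hW' (by omega)
      refine (Finset.sum_le_sum h2).trans ?_
      rw [Finset.sum_const, Finset.card_range, nsmul_eq_mul]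
      have : (k : ℤ) ≤ D := by exact_mod_cast hk
      gcongr
    calc |∑ i ∈ Finset.range k, u ^ i * v ^ (k - 1 - i)| * |u - v|
        ≤ (D * (W : ℤ) ^ (D - 1)) * |u - v| := by gcongr
      _ = D * |u - v| * (W : ℤ) ^ (D - 1) := by ring

theorem bma_poly (f : Polynomial ℤ) : ∃ K : ℕ, ∀ W : ℕ, 1 ≤ W → ∀ u v : ℤ, |u| ≤ W → |v| ≤ W →
    |f.eval u - f.eval v| ≤ K * |u - v| * (W : ℤ) ^ (f.natDegree - 1) := by
  refine ⟨∑ k ∈ Finset.range (f.natDegree + 1), (f.coeff k).natAbs * f.natDegree, ?_⟩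
  intro W hW u v hu hv
  rw [Polynomial.eval_eq_sum_range, Polynomial.eval_eq_sum_range, ← Finset.sum_sub_distrib]
  refine (Finset.abs_sum_le_sum_abs _ _).trans ?_
  push_cast
  rw [Finset.sum_mul, Finset.sum_mul]
  refine Finset.sum_le_sum fun k hk => ?_
  rw [Finset.mem_range] at hk
  rw [← mul_sub, abs_mul]
  have h1 := bma_powdiff W u v hu hv hW f.natDegree k (by omega)
  calc |f.coeff k| * |u ^ k - v ^ k|
      ≤ |f.coeff k| * (f.natDegree * |u - v| * (W : ℤ) ^ (f.natDegree - 1)) := by gcongr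
    _ = |f.coeff k| * f.natDegree * |u - v| * (W : ℤ) ^ (f.natDegree - 1) := by ring

theorem bma_shift (H : ℕ) (Φ : ℤ → ℝ) (h0 : ∀ b, 0 ≤ Φ b) (h1 : ∀ b, Φ b ≤ 1) (c : ℤ) :
    ∑ a ∈ Iz H, Φ (a + c) ≤ ∑ a ∈ Iz H, Φ a + |(c : ℝ)| := by
  have e1 : ∑ a ∈ Iz H, Φ (a + c) = ∑ b ∈ Finset.Icc (-(H : ℤ) + c) (H + c), Φ b := by
    unfold Iz
    rw [← Finset.sum_image (f := Φ) (g := fun a : ℤ => a + c)]
    · congr 1
      rw [Finset.image_add_right_Icc]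
    · intro a _ b _ h
      exact add_right_cancel h
  rw [e1]
  have e2 : ∑ b ∈ Finset.Icc (-(H : ℤ) + c) (H + c), Φ b ≤
      ∑ a ∈ Iz H, Φ a + ∑ b ∈ Finset.Icc (-(H : ℤ) + c) (H + c) \ Iz H, Φ b := by
    rw [← Finset.sum_union Finset.disjoint_sdiff]
    refine Finset.sum_le_sum_of_subset_of_nonneg ?_ (fun b _ _ => h0 b)
    intro b hb
    simp only [Finset.mem_union, Finset.mem_sdiff]
    tauto
  refine e2.trans ?_
  have e3 : ∑ b ∈ Finset.Icc (-(H : ℤ) + c) (H + c) \ Iz H, Φ b ≤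
      ((Finset.Icc (-(H : ℤ) + c) (H + c) \ Iz H).card : ℝ) := by
    refine (Finset.sum_le_sum fun b _ => h1 b).trans ?_
    simp
  have e4 : (Finset.Icc (-(H : ℤ) + c) (H + c) \ Iz H).card ≤ c.natAbs := by
    rcases le_total 0 c with hc | hc
    · have : Finset.Icc (-(H : ℤ) + c) (H + c) \ Iz H ⊆ Finset.Icc ((H : ℤ) + 1) (H + c) := by
        intro b hb
        rw [Finset.mem_sdiff, mem_Iz, Finset.mem_Icc] at hb
        rw [Finset.mem_Icc]
        omega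
      refine (Finset.card_le_card this).trans ?_
      rw [Int.card_Icc]
      omega
    · have : Finset.Icc (-(H : ℤ) + c) (H + c) \ Iz H ⊆ Finset.Icc (-(H : ℤ) + c) (-H - 1) := by
        intro b hb
        rw [Finset.mem_sdiff, mem_Iz, Finset.mem_Icc] at hb
        rw [Finset.mem_Icc]
        omega
      refine (Finset.card_le_card this).trans ?_
      rw [Int.card_Icc]
      omega
  have e5 : ((c.natAbs : ℕ) : ℝ) = |(c : ℝ)| := by
    rw [Nat.cast_natAbs]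
    push_cast
    rfl
  have e6 : ((Finset.Icc (-(H : ℤ) + c) (H + c) \ Iz H).card : ℝ) ≤ |(c : ℝ)| := by
    rw [← e5]
    exact_mod_cast e4
  linarith

theorem bma_unif (Q : ℕ) (η : ℝ) (hη : 0 < η) : ∃ L X₀ : ℕ, 1 ≤ L ∧ ∀ q : ℤ, q ≠ 0 →
    |q| ≤ Q → ∀ X : ℕ, X₀ ≤ X → ∀ θ : ℝ, ∑ A ∈ Iz X, bq q θ L A ≤ η * X := by
  have h1 : ∀ q : ℤ, ∃ N₀ : ℕ, q ≠ 0 → ∀ N : ℕ, N₀ ≤ N →
    ∃ X₀ : ℕ, ∀ X : ℕ, X₀ ≤ X → ∀ θ : ℝ, ∑ A ∈ Iz X, bq q θ N A ≤ η * X := by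
    intro q
    by_cases hq : q = 0
    · exact ⟨0, fun h => absurd hq h⟩
    · obtain ⟨N₀, h⟩ := mr_q q hq η hη
      exact ⟨N₀, fun _ => h⟩
  choose N₀ hN₀ using h1
  set L : ℕ := 1 + ∑ q ∈ Iz Q, N₀ q with hL
  have h2 : ∀ q : ℤ, ∃ X₀ : ℕ, q ≠ 0 → |q| ≤ Q → ∀ X : ℕ, X₀ ≤ X → ∀ θ : ℝ,
      ∑ A ∈ Iz X, bq q θ L A ≤ η * X := by
    intro q
    by_cases hq : q ≠ 0 ∧ |q| ≤ Q
    · have hle : N₀ q ≤ L := by
        have : N₀ q ≤ ∑ q ∈ Iz Q, N₀ q :=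
          Finset.single_le_sum (f := N₀) (fun _ _ => Nat.zero_le _) (mem_Iz'.2 hq.2)
        omega
      obtain ⟨X₀, h⟩ := hN₀ q hq.1 L hle
      exact ⟨X₀, fun _ _ => h⟩
    · exact ⟨0, fun h h' => absurd ⟨h, h'⟩ hq⟩
  choose X₀ hX₀ using h2
  refine ⟨L, ∑ q ∈ Iz Q, X₀ q, by omega, ?_⟩
  intro q hq hqQ X hX θ
  refine hX₀ q hq hqQ X (le_trans ?_ hX) θ
  exact Finset.single_le_sum (f := X₀) (fun _ _ => Nat.zero_le _) (mem_Iz'.2 hqQ)

theorem bma_bq (f : Polynomial ℤ) (hf : 2 ≤ f.natDegree) (Q : ℕ) (κ : ℝ) (hκ : 0 < κ) :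
    ∃ C x₀ : ℕ, ∀ x H : ℕ, x₀ ≤ x → C * x ^ (f.natDegree - 1) ≤ H → ∀ (q : ℤ) (θ : ℝ), q ≠ 0 →
      |q| ≤ Q → ∑ n ∈ Finset.Icc 1 x, ∑ a ∈ Iz H, bq q θ (2 * x) (f.eval (n : ℤ) + a) ≤
        κ * (x * (2 * H + 1)) := by
  obtain ⟨C₂, x₂, hC₂, htr⟩ := transfer0 f (κ / 8) (by positivity)
  have hC₂' : (0 : ℝ) < C₂ := by exact_mod_cast hC₂
  obtain ⟨L, X₀, hL, hun⟩ := bma_unif Q (κ / 8 / (C₂ * C₂)) (by positivity)
  have hL' : (0 : ℝ) < L := by exact_mod_cast hL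
  refine ⟨1 + ⌈4 * Q / κ⌉₊, x₂ + X₀ + 1 + ⌈4 * L / κ⌉₊, ?_⟩
  intro x H hx hH q θ hq hqQ
  have hx1 : 1 ≤ x := by omega
  have hx2 : x₂ ≤ x := by omega
  have hxX : X₀ ≤ x := by omega
  have hx1' : (1 : ℝ) ≤ x := by exact_mod_cast hx1
  have hx0 : (0 : ℝ) < x := by linarith
  have hxL : 4 * L / κ ≤ x := by
    refine (Nat.le_ceil _).trans ?_
    have : ⌈4 * L / κ⌉₊ ≤ x := by omega
    exact_mod_cast this
  have hxpow : x ≤ x ^ (f.natDegree - 1) := by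
    calc x = x ^ 1 := (pow_one x).symm
      _ ≤ x ^ (f.natDegree - 1) := Nat.pow_le_pow_right hx1 (by omega)
  have hH1 : x ^ (f.natDegree - 1) ≤ H := by
    refine le_trans ?_ hH
    nlinarith [Nat.zero_le (x ^ (f.natDegree - 1)), Nat.zero_le ⌈4 * Q / κ⌉₊]
  have hHx : (4 * Q / κ) * x ≤ H := by
    have h1 : ((1 + ⌈4 * Q / κ⌉₊) * x : ℕ) ≤ H := le_trans (Nat.mul_le_mul_left _ hxpow) hH
    have h2 : ((1 + ⌈4 * Q / κ⌉₊ : ℕ) : ℝ) * x ≤ H := by exact_mod_cast h1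
    refine le_trans ?_ h2
    push_cast
    have h3 : 4 * Q / κ ≤ (⌈4 * Q / κ⌉₊ : ℝ) := Nat.le_ceil _
    nlinarith
  have hT : (0 : ℝ) < 2 * H + 1 := by positivity
  -- the transfer
  set S : ℝ := ∑ n ∈ Finset.Icc 1 x, ∑ a ∈ Iz H, bq q θ L (f.eval (n : ℤ) + a) with hS
  have hS1 : S ≤ κ / 4 * (x * (2 * H + 1)) := by
    have h1 := htr x H hx2 hH1 (fun b => bq q θ L b) (fun b => ⟨bq_nonneg q θ L b, bq_le q θ L b⟩)
    set M : ℕ := max (x ^ f.natDegree) H with hM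
    have hMx : x ≤ M := by
      have : x ≤ x ^ f.natDegree := by
        calc x = x ^ 1 := (pow_one x).symm
          _ ≤ x ^ f.natDegree := Nat.pow_le_pow_right hx1 (by omega)
      exact this.trans (le_max_left _ _)
    have hM0 : (0 : ℝ) < M := by
      have : 1 ≤ M := hx1.trans hMx
      exact_mod_cast this
    have hX : X₀ ≤ C₂ * M := by
      calc X₀ ≤ M := hxX.trans hMx
        _ = 1 * M := (one_mul M).symm
        _ ≤ C₂ * M := Nat.mul_le_mul_right _ hC₂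
    have h2 := hun q hq hqQ (C₂ * M) hX θ
    have h3 : (C₂ : ℝ) / (M : ℕ) * ∑ b ∈ Iz (C₂ * M), bq q θ L b ≤ κ / 8 := by
      calc (C₂ : ℝ) / (M : ℕ) * ∑ b ∈ Iz (C₂ * M), bq q θ L b
          ≤ (C₂ : ℝ) / (M : ℕ) * (κ / 8 / (C₂ * C₂) * ((C₂ * M : ℕ) : ℝ)) := by gcongr
        _ = κ / 8 := by
            push_cast
            field_simp
    calc S ≤ (x : ℝ) * (2 * H + 1) * (κ / 8 + C₂ / (M : ℕ) * ∑ b ∈ Iz (C₂ * M), bq q θ L b) := h1
      _ ≤ (x : ℝ) * (2 * H + 1) * (κ / 8 + κ / 8) := by gcongr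
      _ = κ / 4 * (x * (2 * H + 1)) := by ring
  -- the shifts
  have hsh : ∀ m ∈ Finset.range (2 * x), ∑ n ∈ Finset.Icc 1 x, ∑ a ∈ Iz H,
      bq q θ L (f.eval (n : ℤ) + a + q * m) ≤ S + x * (2 * x * Q) := by
    intro m hm
    rw [Finset.mem_range] at hm
    have h1 : ∀ n ∈ Finset.Icc 1 x, ∑ a ∈ Iz H, bq q θ L (f.eval (n : ℤ) + a + q * m) ≤
        ∑ a ∈ Iz H, bq q θ L (f.eval (n : ℤ) + a) + 2 * x * Q := by
      intro n _
      have h2 := bma_shift H (fun a => bq q θ L (f.eval (n : ℤ) + a)) (fun _ => bq_nonneg _ _ _ _)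
        (fun _ => bq_le _ _ _ _) (q * m)
      have h3 : ∑ a ∈ Iz H, bq q θ L (f.eval (n : ℤ) + a + q * m) =
          ∑ a ∈ Iz H, bq q θ L (f.eval (n : ℤ) + (a + q * m)) :=
        Finset.sum_congr rfl fun a _ => by rw [add_assoc]
      rw [h3]
      refine h2.trans ?_
      have h4 : |((q * m : ℤ) : ℝ)| ≤ 2 * x * Q := by
        push_cast
        rw [abs_mul, Nat.abs_cast]
        have h5 : |(q : ℝ)| ≤ Q := by exact_mod_cast hqQ
        have h6 : (m : ℝ) ≤ 2 * x := by exact_mod_cast hm.le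
        calc |(q : ℝ)| * m ≤ Q * (2 * x) := by gcongr
          _ = 2 * x * Q := by ring
      linarith
    refine (Finset.sum_le_sum h1).trans ?_
    rw [Finset.sum_add_distrib]
    simp [hS]
  -- shorter progressions
  have hx2' : 1 ≤ 2 * x := by omega
  have h1 : ∑ n ∈ Finset.Icc 1 x, ∑ a ∈ Iz H, bq q θ (2 * x) (f.eval (n : ℤ) + a) ≤
      ∑ n ∈ Finset.Icc 1 x, ∑ a ∈ Iz H, ((∑ m ∈ Finset.range (2 * x),
        bq q θ L (f.eval (n : ℤ) + a + q * m)) / ((2 * x : ℕ) : ℝ) + 2 * L / ((2 * x : ℕ) : ℝ)) :=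
    Finset.sum_le_sum fun n _ => Finset.sum_le_sum fun a _ => bq_sub_pr q θ (2 * x) L _ hx2' hL
  refine h1.trans ?_
  have h2 : ∑ n ∈ Finset.Icc 1 x, ∑ a ∈ Iz H, ((∑ m ∈ Finset.range (2 * x),
        bq q θ L (f.eval (n : ℤ) + a + q * m)) / ((2 * x : ℕ) : ℝ) + 2 * L / ((2 * x : ℕ) : ℝ)) =
      (∑ m ∈ Finset.range (2 * x), ∑ n ∈ Finset.Icc 1 x, ∑ a ∈ Iz H,
        bq q θ L (f.eval (n : ℤ) + a + q * m)) / (2 * x) + L * (2 * H + 1) := by
    have e1 : ∑ n ∈ Finset.Icc 1 x, ∑ a ∈ Iz H, ∑ m ∈ Finset.range (2 * x),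
        bq q θ L (f.eval (n : ℤ) + a + q * m) = ∑ m ∈ Finset.range (2 * x),
        ∑ n ∈ Finset.Icc 1 x, ∑ a ∈ Iz H, bq q θ L (f.eval (n : ℤ) + a + q * m) := by
      rw [Finset.sum_comm]
      have : ∀ n ∈ Finset.Icc 1 x, ∑ a ∈ Iz H, ∑ m ∈ Finset.range (2 * x),
          bq q θ L (f.eval (n : ℤ) + a + q * m) = ∑ m ∈ Finset.range (2 * x), ∑ a ∈ Iz H,
          bq q θ L (f.eval (n : ℤ) + a + q * m) := fun n _ => Finset.sum_comm
      rw [Finset.sum_comm, Finset.sum_congr rfl this, Finset.sum_comm]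
    simp only [Finset.sum_add_distrib, ← Finset.sum_div]
    rw [e1]
    congr 1
    · push_cast
      ring
    · rw [Finset.sum_const, Finset.sum_const, Nat.card_Icc, Iz_card, nsmul_eq_mul, nsmul_eq_mul]
      push_cast
      field_simp
  rw [h2]
  have h3 : (∑ m ∈ Finset.range (2 * x), ∑ n ∈ Finset.Icc 1 x, ∑ a ∈ Iz H,
        bq q θ L (f.eval (n : ℤ) + a + q * m)) / (2 * x) ≤ S + x * (2 * x * Q) := by
    rw [div_le_iff₀ (by positivity)]
    refine (Finset.sum_le_sum hsh).trans ?_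
    rw [Finset.sum_const, Finset.card_range, nsmul_eq_mul]
    push_cast
    linarith
  have h4 : (x : ℝ) * (2 * x * Q) ≤ κ / 4 * (x * (2 * H + 1)) := by
    have h5 : (4 * Q : ℝ) * x ≤ κ * H := by
      have := mul_le_mul_of_nonneg_left hHx hκ.le
      calc (4 * Q : ℝ) * x = κ * (4 * Q / κ * x) := by field_simp
        _ ≤ κ * H := this
    have h6 : 0 ≤ (x : ℝ) * (κ * (2 * H + 1) - 4 * (2 * x * Q)) := by
      apply mul_nonneg hx0.le
      nlinarith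
    nlinarith
  have h5 : (L : ℝ) * (2 * H + 1) ≤ κ / 4 * (x * (2 * H + 1)) := by
    have h6 : (L : ℝ) ≤ κ / 4 * x := by
      have := mul_le_mul_of_nonneg_left hxL hκ.le
      have e : κ * (4 * L / κ) = 4 * L := by field_simp
      rw [e] at this
      linarith
    calc (L : ℝ) * (2 * H + 1) ≤ (κ / 4 * x) * (2 * H + 1) := by gcongr
      _ = κ / 4 * (x * (2 * H + 1)) := by ring
  have h6 : 0 ≤ κ / 4 * ((x : ℝ) * (2 * H + 1)) := by positivity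
  linarith

theorem bma_lin (f : Polynomial ℤ) (hf : 2 ≤ f.natDegree) (Q K : ℕ) (κ : ℝ) (hκ : 0 < κ) :
    ∃ C x₀ : ℕ, ∀ x H : ℕ, x₀ ≤ x → C * x ^ (f.natDegree - 1) ≤ H →
      ∀ g : ℕ → ℂ, (∀ n, ‖g n‖ ≤ 1) → ∀ q s : ℤ, q ≠ 0 → |q| ≤ Q →
      |s| ≤ K * (x : ℤ) ^ (f.natDegree - 1) →
      ∑ n ∈ Finset.range x, ‖co (Fg f g x) H (q * n + s)‖ ^ 2 ≤ κ * x * (2 * H + 1) ^ 2 := by
  obtain ⟨C₁, x₁, h1⟩ := bma_bq f hf Q (κ ^ 2 / 16) (by positivity)
  refine ⟨C₁ + ⌈4 * Q / κ ^ 2⌉₊ + ⌈4 * (K + 2 * Q) / κ ^ 2⌉₊, x₁ + 1, ?_⟩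
  intro x H hx hH g hg q s hq hqQ hs
  have hx1 : 1 ≤ x := by omega
  have hx1' : (1 : ℝ) ≤ x := by exact_mod_cast hx1
  have hx0 : (0 : ℝ) < x := by linarith
  have hxpow : x ≤ x ^ (f.natDegree - 1) := by
    calc x = x ^ 1 := (pow_one x).symm
      _ ≤ x ^ (f.natDegree - 1) := Nat.pow_le_pow_right hx1 (by omega)
  have hxpow' : (x : ℝ) ≤ (x : ℝ) ^ (f.natDegree - 1) := by exact_mod_cast hxpow
  have hHr : ((C₁ : ℝ) + ⌈4 * Q / κ ^ 2⌉₊ + ⌈4 * (K + 2 * Q) / κ ^ 2⌉₊) *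
      (x : ℝ) ^ (f.natDegree - 1) ≤ H := by exact_mod_cast hH
  have hP : (0 : ℝ) < (x : ℝ) ^ (f.natDegree - 1) := by positivity
  have hH1 : C₁ * x ^ (f.natDegree - 1) ≤ H := by
    refine le_trans ?_ hH
    gcongr
    omega
  have hT : (0 : ℝ) < 2 * H + 1 := by positivity
  have hκ2 : 0 < κ ^ 2 := by positivity
  have hA : 4 * (Q : ℝ) * x ≤ κ ^ 2 * H := by
    have h2 : 4 * Q / κ ^ 2 * (x : ℝ) ≤ H := by
      have h3 : 4 * Q / κ ^ 2 ≤ (⌈4 * Q / κ ^ 2⌉₊ : ℝ) := Nat.le_ceil _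
      calc 4 * Q / κ ^ 2 * (x : ℝ) ≤ ((C₁ : ℝ) + ⌈4 * Q / κ ^ 2⌉₊ + ⌈4 * (K + 2 * Q) / κ ^ 2⌉₊) *
          (x : ℝ) ^ (f.natDegree - 1) := by
            have : (0 : ℝ) ≤ C₁ := Nat.cast_nonneg _
            have h4 : (0 : ℝ) ≤ (⌈4 * (K + 2 * Q) / κ ^ 2⌉₊ : ℝ) := Nat.cast_nonneg _
            gcongr
            linarith
        _ ≤ H := hHr
    have := mul_le_mul_of_nonneg_left h2 hκ2.le
    calc 4 * (Q : ℝ) * x = κ ^ 2 * (4 * Q / κ ^ 2 * x) := by field_simp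
      _ ≤ κ ^ 2 * H := this
  have hB : 4 * ((K : ℝ) + 2 * Q) * (x : ℝ) ^ (f.natDegree - 1) ≤ κ ^ 2 * H := by
    have h2 : 4 * (K + 2 * Q) / κ ^ 2 * (x : ℝ) ^ (f.natDegree - 1) ≤ H := by
      have h3 : 4 * (K + 2 * Q) / κ ^ 2 ≤ (⌈4 * (K + 2 * Q) / κ ^ 2⌉₊ : ℝ) := Nat.le_ceil _
      calc 4 * (K + 2 * Q) / κ ^ 2 * (x : ℝ) ^ (f.natDegree - 1) ≤
          ((C₁ : ℝ) + ⌈4 * Q / κ ^ 2⌉₊ + ⌈4 * (K + 2 * Q) / κ ^ 2⌉₊) *
          (x : ℝ) ^ (f.natDegree - 1) := by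
            have : (0 : ℝ) ≤ C₁ := Nat.cast_nonneg _
            have h4 : (0 : ℝ) ≤ (⌈4 * Q / κ ^ 2⌉₊ : ℝ) := Nat.cast_nonneg _
            gcongr
            linarith
        _ ≤ H := hHr
    have := mul_le_mul_of_nonneg_left h2 hκ2.le
    calc 4 * ((K : ℝ) + 2 * Q) * (x : ℝ) ^ (f.natDegree - 1) =
        κ ^ 2 * (4 * (K + 2 * Q) / κ ^ 2 * (x : ℝ) ^ (f.natDegree - 1)) := by field_simp
      _ ≤ κ ^ 2 * H := this
  obtain ⟨θ, h2⟩ := b_freq f g hg x H hx1 q (s - q)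
  have h3 := h1 x H (by omega) hH1 q θ hq hqQ
  have hqQ' : |(q : ℝ)| ≤ Q := by exact_mod_cast hqQ
  have hs' : |(s : ℝ)| ≤ K * (x : ℝ) ^ (f.natDegree - 1) := by exact_mod_cast hs
  -- reindexing
  have h4 : ∑ n ∈ Finset.range x, ‖co (Fg f g x) H (q * n + s)‖ ^ 2 =
      ∑ n ∈ Finset.Icc 1 x, ‖∑ a ∈ Iz H, (starRingEnd ℂ) (Fg f g x a) *
        Fg f g x (a + (q * n + (s - q)))‖ ^ 2 := by
    have e1 := Finset.sum_Ico_add' (fun n : ℕ => ‖∑ a ∈ Iz H, (starRingEnd ℂ) (Fg f g x a) *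
        Fg f g x (a + (q * n + (s - q)))‖ ^ 2) 0 x 1
    have e2 : Finset.Icc 1 x = Finset.Ico (0 + 1) (x + 1) := by
      ext n
      rw [Finset.mem_Icc, Finset.mem_Ico]
      omega
    rw [e2, ← e1, Finset.range_eq_Ico]
    refine Finset.sum_congr rfl fun n _ => ?_
    unfold co
    congr 2
    refine Finset.sum_congr rfl fun a _ => ?_
    congr 1
    congr 1
    push_cast
    ring
  rw [h4]
  set W : ℝ := ∑ n ∈ Finset.Icc 1 x, ‖∑ a ∈ Iz H, (starRingEnd ℂ) (Fg f g x a) *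
        Fg f g x (a + (q * n + (s - q)))‖ ^ 2 with hW
  have hW0 : 0 ≤ W := by rw [hW]; positivity
  have h5 : 4 * x * (∑ n ∈ Finset.Icc 1 x, ∑ a ∈ Iz H, bq q θ (2 * x) (f.eval (n : ℤ) + a)) +
          |(q : ℝ)| * (x : ℝ) ^ 3 + 2 * (|((s - q : ℤ) : ℝ)| + |(q : ℝ)|) * (x : ℝ) ^ 2 ≤
          κ ^ 2 * (x : ℝ) ^ 2 * (2 * H + 1) := by
    have e1 : 4 * x * (∑ n ∈ Finset.Icc 1 x, ∑ a ∈ Iz H, bq q θ (2 * x) (f.eval (n : ℤ) + a)) ≤
        4 * x * (κ ^ 2 / 16 * (x * (2 * H + 1))) := by gcongr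
    have e2 : |(q : ℝ)| * (x : ℝ) ^ 3 ≤ κ ^ 2 / 4 * (x : ℝ) ^ 2 * (2 * H + 1) := by
      have : |(q : ℝ)| * (x : ℝ) ^ 3 ≤ (Q * x) * (x : ℝ) ^ 2 := by
        calc |(q : ℝ)| * (x : ℝ) ^ 3 ≤ Q * (x : ℝ) ^ 3 := by gcongr
          _ = (Q * x) * (x : ℝ) ^ 2 := by ring
      refine this.trans ?_
      have e3 : (Q : ℝ) * x ≤ κ ^ 2 / 4 * (2 * H + 1) := by nlinarith
      calc (Q * x) * (x : ℝ) ^ 2 ≤ (κ ^ 2 / 4 * (2 * H + 1)) * (x : ℝ) ^ 2 := by gcongr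
        _ = κ ^ 2 / 4 * (x : ℝ) ^ 2 * (2 * H + 1) := by ring
    have e3 : 2 * (|((s - q : ℤ) : ℝ)| + |(q : ℝ)|) ≤ κ ^ 2 / 2 * (2 * H + 1) := by
      have e4 : |((s - q : ℤ) : ℝ)| ≤ |(s : ℝ)| + |(q : ℝ)| := by
        push_cast
        exact abs_sub _ _
      have e5 : (Q : ℝ) ≤ Q * (x : ℝ) ^ (f.natDegree - 1) := by
        have : (1 : ℝ) ≤ (x : ℝ) ^ (f.natDegree - 1) := by linarith
        nlinarith [Nat.cast_nonneg (α := ℝ) Q]
      nlinarith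
    have e4 : 2 * (|((s - q : ℤ) : ℝ)| + |(q : ℝ)|) * (x : ℝ) ^ 2 ≤
        (κ ^ 2 / 2 * (2 * H + 1)) * (x : ℝ) ^ 2 := by gcongr
    have e5 : 4 * x * (κ ^ 2 / 16 * (x * (2 * H + 1))) + κ ^ 2 / 4 * (x : ℝ) ^ 2 * (2 * H + 1) +
        (κ ^ 2 / 2 * (2 * H + 1)) * (x : ℝ) ^ 2 = κ ^ 2 * (x : ℝ) ^ 2 * (2 * (H : ℝ) + 1) := by
      ring
    linarith
  have h6 : W ^ 2 ≤ (κ * x * (2 * H + 1) ^ 2) ^ 2 := by
    refine h2.trans ?_
    calc (2 * H + 1 : ℝ) ^ 3 * (4 * x *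
        ∑ n ∈ Finset.Icc 1 x, ∑ a ∈ Iz H, bq q θ (2 * x) (f.eval (n : ℤ) + a) +
          |(q : ℝ)| * (x : ℝ) ^ 3 + 2 * (|((s - q : ℤ) : ℝ)| + |(q : ℝ)|) * (x : ℝ) ^ 2)
        ≤ (2 * H + 1 : ℝ) ^ 3 * (κ ^ 2 * (x : ℝ) ^ 2 * (2 * H + 1)) := by gcongr
      _ = (κ * x * (2 * H + 1) ^ 2) ^ 2 := by ring
  exact (sq_le_sq₀ hW0 (by positivity)).1 h6

/-- the difference of two translates of a polynomial -/
theorem bma_pd (f : Polynomial ℤ) (hf : 2 ≤ f.natDegree) (i i' : ℕ) :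
    Pd (f.natDegree - 1) (fun n : ℕ => f.eval ((n + 1 + i : ℕ) : ℤ) - f.eval ((n + 1 + i' : ℕ) : ℤ))
      (((i : ℤ) - i') * (f.natDegree.factorial * f.leadingCoeff)) := by
  have key : ∀ i r : ℕ, Pd (f.natDegree - 1)
      (fun n : ℕ => f.eval ((n + 1 + (i + r) : ℕ) : ℤ) - f.eval ((n + 1 + i : ℕ) : ℤ))
      ((r : ℤ) * (f.natDegree.factorial * f.leadingCoeff)) := by
    intro i r
    have h1 := pd_poly f (f.natDegree - 1 + 1) (by omega) ((1 + i : ℕ) : ℤ)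
    have h2 := h1 r
    have e1 : (fun n : ℕ => f.eval ((n + 1 + (i + r) : ℕ) : ℤ) - f.eval ((n + 1 + i : ℕ) : ℤ)) =
        (fun n : ℕ => (fun j : ℕ => f.eval (((1 + i : ℕ) : ℤ) + (j : ℤ))) (n + r) -
          (fun j : ℕ => f.eval (((1 + i : ℕ) : ℤ) + (j : ℤ))) n) := by
      funext n
      simp only
      congr 2
      · push_cast; ring
      · push_cast; ring
    have e2 : (f.natDegree - 1 + 1) = f.natDegree := by omega
    rw [e1]
    rw [e2] at h2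
    exact h2
  rcases le_total i' i with h | h
  · obtain ⟨r, rfl⟩ := Nat.exists_eq_add_of_le h
    have h1 := key i' r
    have e : (((i' + r : ℕ) : ℤ) - i') = r := by push_cast; ring
    rw [e]
    exact h1
  · obtain ⟨r, rfl⟩ := Nat.exists_eq_add_of_le h
    have h1 := pd_neg _ _ _ (key i r)
    have e : ((i : ℤ) - (i + r : ℕ)) * (f.natDegree.factorial * f.leadingCoeff) =
        -((r : ℤ) * (f.natDegree.factorial * f.leadingCoeff)) := by push_cast; ring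
    rw [e]
    have e1 : (fun n : ℕ => f.eval ((n + 1 + i : ℕ) : ℤ) - f.eval ((n + 1 + (i + r) : ℕ) : ℤ)) =
        (fun n : ℕ => -(f.eval ((n + 1 + (i + r) : ℕ) : ℤ) - f.eval ((n + 1 + i : ℕ) : ℤ))) := by
      funext n
      ring
    rw [e1]
    exact h1

/-! ## `b_gen_pr` -/

theorem bma_F (f : Polynomial ℤ) (g : ℕ → ℂ) (hg : ∀ n, ‖g n‖ ≤ 1) (x : ℕ) (hx : 1 ≤ x) (a : ℤ) :
    ‖Fg f g x a‖ ≤ 1 := by
  unfold Fg
  have hx' : (0 : ℝ) < x := by exact_mod_cast hx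
  rw [norm_div, Complex.norm_natCast, div_le_one hx']
  refine (norm_sum_le_of_le (n := fun _ => (1 : ℝ)) _ fun n _ => ?_).trans ?_
  · rw [norm_mul]
    exact mul_le_one₀ (hg n) (norm_nonneg _) (lz_norm _)
  · simp

/-- the bound for one pair -/
theorem bma_pair (f : Polynomial ℤ) (hf : 2 ≤ f.natDegree) (N : ℕ) (ε : ℝ) (hε : 0 < ε) :
    ∃ C x₀ : ℕ, ∀ x H : ℕ, x₀ ≤ x → C * x ^ (f.natDegree - 1) ≤ H →
      ∀ g : ℕ → ℂ, (∀ n, ‖g n‖ ≤ 1) → ∀ i < N, ∀ i' < N, i ≠ i' →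
      ∑ n ∈ Finset.Icc 1 x, ‖co (Fg f g x) H (f.eval ((n + i : ℕ) : ℤ) -
        f.eval ((n + i' : ℕ) : ℤ))‖ ≤ ε * x * (2 * H + 1) := by
  obtain ⟨Kf, hKf⟩ := bma_poly f
  set D : ℕ := f.natDegree with hD
  obtain ⟨Q, N₀, x₁, δ, κ, hδ, hκ, hpet⟩ := pet_lem (D - 1) (by omega)
    (N * (D.factorial * f.leadingCoeff.natAbs)) (ε ^ 2) (by positivity)
  set K : ℕ := Kf * N * 2 ^ (D - 1) with hK
  obtain ⟨C₁, x₂, hlin⟩ := bma_lin f hf Q (2 ^ (D - 1) * K) κ hκ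
  refine ⟨C₁ + ⌈K / δ⌉₊, x₁ + x₂ + N₀ + N + 1, ?_⟩
  intro x H hx hH g hg i hi i' hi' hii
  have hx1 : 1 ≤ x := by omega
  have hx1' : (1 : ℝ) ≤ x := by exact_mod_cast hx1
  have hHr : ((C₁ : ℝ) + ⌈K / δ⌉₊) * (x : ℝ) ^ (D - 1) ≤ H := by exact_mod_cast hH
  have hH1 : C₁ * x ^ (D - 1) ≤ H := by
    refine le_trans ?_ hH
    gcongr
    omega
  have hbd : ∀ n ≤ x + N₀, |f.eval ((n + 1 + i : ℕ) : ℤ) - f.eval ((n + 1 + i' : ℕ) : ℤ)| ≤
      ((K * x ^ (D - 1) : ℕ) : ℤ) := by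
    intro n hn
    have h1 := hKf (2 * x) (by omega) ((n + 1 + i : ℕ) : ℤ) ((n + 1 + i' : ℕ) : ℤ)
      (by rw [Nat.abs_cast]; exact_mod_cast (by omega)) (by rw [Nat.abs_cast]; exact_mod_cast (by omega))
    refine h1.trans ?_
    have h2 : |((n + 1 + i : ℕ) : ℤ) - ((n + 1 + i' : ℕ) : ℤ)| ≤ N := by
      rw [abs_le]
      constructor <;> omega
    rw [hK]
    push_cast
    rw [mul_pow]
    push_cast at h2
    calc (Kf : ℤ) * |(n : ℤ) + 1 + i - (n + 1 + i')| * (2 ^ (D - 1) * (x : ℤ) ^ (D - 1))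
        ≤ (Kf : ℤ) * N * (2 ^ (D - 1) * (x : ℤ) ^ (D - 1)) := by gcongr
      _ = (Kf : ℤ) * N * 2 ^ (D - 1) * (x : ℤ) ^ (D - 1) := by ring
  have hlc : f.leadingCoeff ≠ 0 := by
    rw [Polynomial.leadingCoeff_ne_zero]
    rintro rfl
    simp at hD
    omega
  have hfac : (D.factorial : ℤ) ≠ 0 := by exact_mod_cast D.factorial_ne_zero
  have h1 := hpet x H (K * x ^ (D - 1)) (Fg f g x)
    (fun n : ℕ => f.eval ((n + 1 + i : ℕ) : ℤ) - f.eval ((n + 1 + i' : ℕ) : ℤ))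
    (((i : ℤ) - i') * (D.factorial * f.leadingCoeff)) (by omega)
    (bma_F f g hg x hx1) (bma_pd f hf i i')
    (mul_ne_zero (sub_ne_zero.2 (by exact_mod_cast hii)) (mul_ne_zero hfac hlc))
    (by
      rw [abs_mul, abs_mul, Nat.abs_cast, Int.abs_eq_natAbs f.leadingCoeff]
      push_cast
      have h2 : |(i : ℤ) - i'| ≤ N := by
        rw [abs_le]
        constructor <;> omega
      gcongr) hbd
    (by
      push_cast
      have h3 : K / δ ≤ (⌈K / δ⌉₊ : ℝ) := Nat.le_ceil _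
      have h4 : K / δ * (x : ℝ) ^ (D - 1) ≤ H := by
        refine le_trans ?_ hHr
        have : (0 : ℝ) ≤ C₁ := Nat.cast_nonneg _
        gcongr
        linarith
      have h5 := mul_le_mul_of_nonneg_left h4 hδ.le
      have e : δ * (K / δ * (x : ℝ) ^ (D - 1)) = K * (x : ℝ) ^ (D - 1) := by field_simp
      rw [e] at h5
      refine h5.trans ?_
      have : (0 : ℝ) ≤ H := Nat.cast_nonneg _
      nlinarith)
    (fun q s hq hqQ hs => hlin x H (by omega) hH1 g hg q s hq hqQ (by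
      refine hs.trans (le_of_eq ?_)
      push_cast
      ring))
  -- from squares to first powers
  have h2 : ∑ n ∈ Finset.Icc 1 x, ‖co (Fg f g x) H (f.eval ((n + i : ℕ) : ℤ) -
        f.eval ((n + i' : ℕ) : ℤ))‖ = ∑ n ∈ Finset.range x, ‖co (Fg f g x) H
          (f.eval ((n + 1 + i : ℕ) : ℤ) - f.eval ((n + 1 + i' : ℕ) : ℤ))‖ := by
    have e1 := Finset.sum_Ico_add' (fun n : ℕ => ‖co (Fg f g x) H (f.eval ((n + i : ℕ) : ℤ) -
        f.eval ((n + i' : ℕ) : ℤ))‖) 0 x 1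
    have e2 : Finset.Icc 1 x = Finset.Ico (0 + 1) (x + 1) := by
      ext n
      rw [Finset.mem_Icc, Finset.mem_Ico]
      omega
    rw [e2, ← e1, Finset.range_eq_Ico]
  rw [h2]
  set u : ℕ → ℝ := fun n => ‖co (Fg f g x) H
          (f.eval ((n + 1 + i : ℕ) : ℤ) - f.eval ((n + 1 + i' : ℕ) : ℤ))‖ with hu
  have h3 : (∑ n ∈ Finset.range x, u n) ^ 2 ≤ x * ∑ n ∈ Finset.range x, u n ^ 2 := by
    have := sq_sum_le_card_mul_sum_sq (s := Finset.range x) (f := u)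
    rwa [Finset.card_range] at this
  have h4 : (∑ n ∈ Finset.range x, u n) ^ 2 ≤ (ε * x * (2 * H + 1)) ^ 2 := by
    refine h3.trans ?_
    calc (x : ℝ) * ∑ n ∈ Finset.range x, u n ^ 2 ≤ x * (ε ^ 2 * x * (2 * H + 1) ^ 2) := by
          gcongr
      _ = (ε * x * (2 * H + 1)) ^ 2 := by ring
  refine (sq_le_sq₀ ?_ (by positivity)).1 h4
  exact Finset.sum_nonneg fun n _ => norm_nonneg _

theorem b_gen_pr (f : Polynomial ℤ) (hf : 2 ≤ f.natDegree) (ε : ℝ) (hε : 0 < ε) :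
    ∃ C x₀ : ℕ, ∀ x H : ℕ, x₀ ≤ x → C * x ^ (f.natDegree - 1) ≤ H →
      ∀ g : ℕ → ℂ, (∀ n, ‖g n‖ ≤ 1) →
      ∑ a ∈ Iz H, ‖Fg f g x a‖ ^ 2 ≤ ε * (2 * H + 1) := by
  obtain ⟨Kf, hKf⟩ := bma_poly f
  set D : ℕ := f.natDegree with hD
  set N : ℕ := ⌈16 / ε ^ 2⌉₊ + 1 with hN
  have hN1 : 1 ≤ N := by omega
  have hNr : 16 / ε ^ 2 ≤ N := by
    refine (Nat.le_ceil _).trans ?_
    exact_mod_cast (by omega : ⌈16 / ε ^ 2⌉₊ ≤ N)
  have hN0 : (0 : ℝ) < N := by exact_mod_cast hN1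
  obtain ⟨C₁, x₁, hpair⟩ := bma_pair f hf N (ε ^ 2 / 16) (by positivity)
  set K : ℕ := Kf * N * 2 ^ (D - 1) with hK
  refine ⟨C₁ + ⌈400 * K / ε ^ 2⌉₊, x₁ + N + 1 + ⌈400 * N / ε ^ 2⌉₊, ?_⟩
  intro x H hx hH g hg
  have hx1 : 1 ≤ x := by omega
  have hx1' : (1 : ℝ) ≤ x := by exact_mod_cast hx1
  have hx0 : (0 : ℝ) < x := by linarith
  have hHr : ((C₁ : ℝ) + ⌈400 * K / ε ^ 2⌉₊) * (x : ℝ) ^ (D - 1) ≤ H := by exact_mod_cast hH
  have hH1 : C₁ * x ^ (D - 1) ≤ H := by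
    refine le_trans ?_ hH
    gcongr
    omega
  have hε2 : 0 < ε ^ 2 := by positivity
  have hT : (0 : ℝ) < 2 * H + 1 := by positivity
  have hR : ∀ n ∈ Finset.Icc 1 x, ∀ i < N, |f.eval ((n + i : ℕ) : ℤ) -
      f.eval (n : ℤ)| ≤ ((K * x ^ (D - 1) : ℕ) : ℤ) := by
    intro n hn i hi
    rw [Finset.mem_Icc] at hn
    have h1 := hKf (2 * x) (by omega) ((n + i : ℕ) : ℤ) (n : ℤ)
      (by rw [Nat.abs_cast]; exact_mod_cast (by omega)) (by rw [Nat.abs_cast]; exact_mod_cast (by omega))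
    refine h1.trans ?_
    have h2 : |((n + i : ℕ) : ℤ) - (n : ℤ)| ≤ N := by
      rw [abs_le]
      constructor <;> omega
    rw [hK]
    push_cast
    rw [mul_pow]
    push_cast at h2
    calc (Kf : ℤ) * |(n : ℤ) + i - n| * (2 ^ (D - 1) * (x : ℤ) ^ (D - 1))
        ≤ (Kf : ℤ) * N * (2 ^ (D - 1) * (x : ℤ) ^ (D - 1)) := by gcongr
      _ = (Kf : ℤ) * N * 2 ^ (D - 1) * (x : ℤ) ^ (D - 1) := by ring
  have h1 := b_corr f g hg x H N (K * x ^ (D - 1)) hx1 hN1 hR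
  -- the sum of the correlations
  have h2 : ∑ i ∈ Finset.range N, ∑ i' ∈ (Finset.range N).erase i,
        ∑ n ∈ Finset.Icc 1 x, ‖∑ a ∈ Iz H, (starRingEnd ℂ) (Fg f g x a) *
          Fg f g x (a + (f.eval ((n + i : ℕ) : ℤ) - f.eval ((n + i' : ℕ) : ℤ)))‖ ≤
      (N : ℝ) ^ 2 * (ε ^ 2 / 16 * x * (2 * H + 1)) := by
    have e1 : ∀ i ∈ Finset.range N, ∑ i' ∈ (Finset.range N).erase i,
        ∑ n ∈ Finset.Icc 1 x, ‖∑ a ∈ Iz H, (starRingEnd ℂ) (Fg f g x a) *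
          Fg f g x (a + (f.eval ((n + i : ℕ) : ℤ) - f.eval ((n + i' : ℕ) : ℤ)))‖ ≤
        N * (ε ^ 2 / 16 * x * (2 * H + 1)) := by
      intro i hi
      have e2 : ∀ i' ∈ (Finset.range N).erase i,
        ∑ n ∈ Finset.Icc 1 x, ‖∑ a ∈ Iz H, (starRingEnd ℂ) (Fg f g x a) *
          Fg f g x (a + (f.eval ((n + i : ℕ) : ℤ) - f.eval ((n + i' : ℕ) : ℤ)))‖ ≤
          ε ^ 2 / 16 * x * (2 * H + 1) := by
        intro i' hi'
        rw [Finset.mem_erase, Finset.mem_range] at hi'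
        rw [Finset.mem_range] at hi
        exact hpair x H (by omega) hH1 g hg i hi i' hi'.2 (Ne.symm hi'.1)
      refine (Finset.sum_le_sum e2).trans ?_
      rw [Finset.sum_const, nsmul_eq_mul]
      have e3 : (((Finset.range N).erase i).card : ℝ) ≤ N := by
        have := Finset.card_erase_le (s := Finset.range N) (a := i)
        rw [Finset.card_range] at this
        exact_mod_cast this
      gcongr
    refine (Finset.sum_le_sum e1).trans ?_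
    rw [Finset.sum_const, Finset.card_range, nsmul_eq_mul]
    apply le_of_eq
    ring
  set S : ℝ := ∑ a ∈ Iz H, ‖Fg f g x a‖ ^ 2 with hS
  have hS0 : 0 ≤ S := by rw [hS]; positivity
  set Z : ℝ := ∑ i ∈ Finset.range N, ∑ i' ∈ (Finset.range N).erase i,
        ∑ n ∈ Finset.Icc 1 x, ‖∑ a ∈ Iz H, (starRingEnd ℂ) (Fg f g x a) *
          Fg f g x (a + (f.eval ((n + i : ℕ) : ℤ) - f.eval ((n + i' : ℕ) : ℤ)))‖ with hZ
  have h3 : (2 * H + 1 : ℝ) ^ 2 / N ≤ ε ^ 2 / 16 * (2 * H + 1) ^ 2 := by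
    rw [div_le_iff₀ hN0]
    have : 1 ≤ ε ^ 2 / 16 * N := by
      have := mul_le_mul_of_nonneg_left hNr hε2.le
      have e : ε ^ 2 * (16 / ε ^ 2) = 16 := by field_simp
      rw [e] at this
      linarith
    calc (2 * H + 1 : ℝ) ^ 2 = (2 * H + 1 : ℝ) ^ 2 * 1 := by ring
      _ ≤ (2 * H + 1 : ℝ) ^ 2 * (ε ^ 2 / 16 * N) := by gcongr
      _ = ε ^ 2 / 16 * (2 * H + 1) ^ 2 * N := by ring
  have h4 : (2 * H + 1 : ℝ) / ((N : ℝ) ^ 2 * x) * Z ≤ ε ^ 2 / 16 * (2 * H + 1) ^ 2 := by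
    calc (2 * H + 1 : ℝ) / ((N : ℝ) ^ 2 * x) * Z
        ≤ (2 * H + 1 : ℝ) / ((N : ℝ) ^ 2 * x) * ((N : ℝ) ^ 2 * (ε ^ 2 / 16 * x * (2 * H + 1))) := by
          gcongr
      _ = ε ^ 2 / 16 * (2 * H + 1) ^ 2 := by
          field_simp
  have h5 : (400 : ℝ) * (K * (x : ℝ) ^ (D - 1)) ≤ ε ^ 2 * H := by
    have e1 : 400 * K / ε ^ 2 * (x : ℝ) ^ (D - 1) ≤ H := by
      refine le_trans ?_ hHr
      have h6 : 400 * K / ε ^ 2 ≤ (⌈400 * K / ε ^ 2⌉₊ : ℝ) := Nat.le_ceil _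
      have : (0 : ℝ) ≤ C₁ := Nat.cast_nonneg _
      gcongr
      linarith
    have e2 := mul_le_mul_of_nonneg_left e1 hε2.le
    calc (400 : ℝ) * (K * (x : ℝ) ^ (D - 1)) = ε ^ 2 * (400 * K / ε ^ 2 * (x : ℝ) ^ (D - 1)) := by
          field_simp
      _ ≤ ε ^ 2 * H := e2
  have h6 : (400 : ℝ) * (N / x) ≤ ε ^ 2 := by
    have e1 : 400 * N / ε ^ 2 ≤ x := by
      refine (Nat.le_ceil _).trans ?_
      exact_mod_cast (by omega : ⌈400 * N / ε ^ 2⌉₊ ≤ x)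
    rw [div_le_iff₀ hε2] at e1
    rw [← mul_div_assoc, div_le_iff₀ hx0]
    linarith
  have h7 : 100 * (2 * H + 1 : ℝ) * ((K * x ^ (D - 1) : ℕ) + N / x * (2 * H + 1)) ≤
      ε ^ 2 / 2 * (2 * H + 1) ^ 2 := by
    have e1 : ((K * x ^ (D - 1) : ℕ) : ℝ) + N / x * (2 * H + 1) ≤ ε ^ 2 / 200 * (2 * H + 1) := by
      push_cast
      have e2 : (N : ℝ) / x * (2 * H + 1) ≤ ε ^ 2 / 400 * (2 * H + 1) := by
        have : (N : ℝ) / x ≤ ε ^ 2 / 400 := by linarith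
        gcongr
      have e3 : (K : ℝ) * (x : ℝ) ^ (D - 1) ≤ ε ^ 2 / 400 * (2 * H + 1) := by
        have : (0 : ℝ) ≤ H := Nat.cast_nonneg _
        nlinarith
      linarith
    calc 100 * (2 * H + 1 : ℝ) * ((K * x ^ (D - 1) : ℕ) + N / x * (2 * H + 1))
        ≤ 100 * (2 * H + 1 : ℝ) * (ε ^ 2 / 200 * (2 * H + 1)) := by gcongr
      _ = ε ^ 2 / 2 * (2 * H + 1) ^ 2 := by ring
  have h8 : S ^ 2 ≤ (ε * (2 * H + 1)) ^ 2 := by
    refine h1.trans ?_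
    have e : (ε * (2 * (H : ℝ) + 1)) ^ 2 = 4 * (ε ^ 2 / 16 * (2 * H + 1) ^ 2 +
        ε ^ 2 / 16 * (2 * H + 1) ^ 2) + ε ^ 2 / 2 * (2 * H + 1) ^ 2 := by ring
    rw [e]
    linarith
  exact (sq_le_sq₀ hS0 (by positivity)).1 h8

end Pool.Agent.PS

end BMA

namespace Pool.Agent.PS

theorem bq_sub : type_of% @bq_sub_pr := @bq_sub_pr

theorem b_gen : type_of% @b_gen_pr := @b_gen_pr

end Pool.Agent.PS
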