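import Mathlib
import Pool.Agent.Lib_helper1.PSF.R2

/-! ### Block GLU -/

section GLU
namespace Pool.Agent.PS

theorem b_main_pr (f : Polynomial ℤ) (hf : f.natDegree = 2) (ε : ℝ) (hε : 0 < ε) :
    ∃ C x₀ : ℕ, ∀ x H : ℕ, x₀ ≤ x → C * x ≤ H → ∀ g : ℕ → ℂ, (∀ n, ‖g n‖ ≤ 1) →
      ∑ a ∈ Iz H, ‖Fg f g x a‖ ^ 2 ≤ ε * (2 * H + 1) := by
  obtain ⟨C, x₀, h⟩ := b_gen f (by omega) ε hε
  refine ⟨C, x₀, fun x H hx hC g hg => h x H hx ?_ g hg⟩
  rw [hf]
  simpa using hC

end Pool.Agent.PS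

end GLU

namespace Pool.Agent.PS

theorem b_main : type_of% @b_main_pr := @b_main_pr

end Pool.Agent.PS

/-! ### Block FIN -/

section FIN
namespace Pool.Agent.PS

open Filter Topology MeasureTheory

theorem fin_bx0 {β : Type} [AddCommMonoid β] (H : ℕ) (Ψ : ℤ → β) :
    ∑ h ∈ bx 0 H, Ψ (h 0) = ∑ a ∈ Iz H, Ψ a := by
  classical
  apply Finset.sum_nbij' (fun h => h 0) (fun a => fun _ => a)
  · intro h hh
    rw [mem_bx] at hh
    rw [mem_Iz']
    exact hh 0
  · intro a ha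
    rw [mem_Iz'] at ha
    rw [mem_bx]
    intro i
    exact ha
  · intro h _
    funext i
    have : i = 0 := Fin.ext (by simp)
    rw [this]
  · intro a _; rfl
  · intro h _; rfl

theorem fin_markov {ι : Type} (T : Finset ι) (F : ι → ℝ) (hF : ∀ t ∈ T, 0 ≤ F t) {c s : ℝ}
    (hc : 0 < c) (h : ∑ t ∈ T, F t ≤ c * s) :
    ((T.filter (fun t => c < F t)).card : ℝ) ≤ s := by
  have h1 : ((T.filter (fun t => c < F t)).card : ℝ) * c ≤ ∑ t ∈ T, F t := by
    calc ((T.filter (fun t => c < F t)).card : ℝ) * c = ∑ t ∈ T.filter (fun t => c < F t), c := by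
          rw [Finset.sum_const, nsmul_eq_mul]
      _ ≤ ∑ t ∈ T.filter (fun t => c < F t), F t := by
          apply Finset.sum_le_sum
          intro t ht
          exact (Finset.mem_filter.1 ht).2.le
      _ ≤ ∑ t ∈ T, F t := by
          apply Finset.sum_le_sum_of_subset_of_nonneg (Finset.filter_subset _ _)
          intro t ht _
          exact hF t ht
  have h2 : ((T.filter (fun t => c < F t)).card : ℝ) * c ≤ s * c := by
    rw [mul_comm s c]; exact h1.trans h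
  exact le_of_mul_le_mul_right h2 hc

theorem fin_pv0 (f : Polynomial ℤ) (h : Fin (0 + 1) → ℤ) (n : ℕ) :
    Pv f h n = f.eval (n : ℤ) + h 0 := by
  unfold Pv
  simp

theorem main_gen_pr (f : Polynomial ℤ) (j : ℕ) (hj : j = 0 → 2 ≤ f.natDegree) (ε : ℝ)
    (hε : 0 < ε) :
    ∃ C x₀ : ℕ, ∀ x H : ℕ, x₀ ≤ x → (1 ≤ j → C * x ≤ H) →
      C * x ^ (f.natDegree - 1) ≤ H * x ^ j → ∀ g : ℕ → ℂ, (∀ n, ‖g n‖ ≤ 1) →
      (((bx j H).filter (fun h => ε * x < ‖∑ n ∈ Finset.Icc 1 x, g n *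
        (lz (Pv f h n) : ℂ)‖)).card : ℝ) ≤ ε * (2 * H + 1) ^ (j + 1) := by
  classical
  rcases Nat.eq_zero_or_pos j with rfl | hj1
  · have hD := hj rfl
    obtain ⟨C, x₀, hb⟩ := b_gen f hD (ε ^ 3) (by positivity)
    refine ⟨C, max x₀ 1, ?_⟩
    intro x H hx _ hC g hg
    have hx1 : 1 ≤ x := (le_max_right _ _).trans hx
    have hxR : (0 : ℝ) < x := by exact_mod_cast hx1
    have hC' : C * x ^ (f.natDegree - 1) ≤ H := by simpa using hC
    have hS := hb x H ((le_max_left _ _).trans hx) hC' g hg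
    have e1 : ((bx 0 H).filter (fun h => ε * x < ‖∑ n ∈ Finset.Icc 1 x, g n *
        (lz (Pv f h n) : ℂ)‖)) = ((bx 0 H).filter (fun h => ε ^ 2 < ‖Fg f g x (h 0)‖ ^ 2)) := by
      apply Finset.filter_congr
      intro h _
      have : ∑ n ∈ Finset.Icc 1 x, g n * (lz (Pv f h n) : ℂ) = Fg f g x (h 0) * x := by
        unfold Fg
        rw [div_mul_cancel₀ _ (by exact_mod_cast hxR.ne')]
        apply Finset.sum_congr rfl
        intro n _
        rw [fin_pv0]
      rw [this, norm_mul, Complex.norm_natCast, mul_lt_mul_iff_left₀ hxR,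
        sq_lt_sq₀ hε.le (norm_nonneg _)]
    rw [e1]
    have := fin_markov (bx 0 H) (fun h => ‖Fg f g x (h 0)‖ ^ 2) (fun _ _ => by positivity)
      (c := ε ^ 2) (s := ε * (2 * H + 1)) (by positivity) (by
        rw [fin_bx0 H (fun a => ‖Fg f g x a‖ ^ 2)]
        refine hS.trans (le_of_eq ?_)
        ring)
    simpa using this
  · obtain ⟨C, x₀, hc⟩ := c_main f j hj1 (ε ^ 3) (by positivity)
    refine ⟨C, max x₀ 1, ?_⟩
    intro x H hx hCx hC g hg
    have hx1 : 1 ≤ x := (le_max_right _ _).trans hx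
    have hxR : (0 : ℝ) < x := by exact_mod_cast hx1
    have hS := hc x H ((le_max_left _ _).trans hx) (hCx hj1) hC g hg
    have e1 : ((bx j H).filter (fun h => ε * x < ‖∑ n ∈ Finset.Icc 1 x, g n *
        (lz (Pv f h n) : ℂ)‖)) = ((bx j H).filter (fun h => (ε * x) ^ 2 <
          ‖∑ n ∈ Finset.Icc 1 x, g n * (lz (Pv f h n) : ℂ)‖ ^ 2)) := by
      apply Finset.filter_congr
      intro h _
      rw [sq_lt_sq₀ (by positivity) (norm_nonneg _)]
    rw [e1]
    exact fin_markov (bx j H) (fun h => ‖∑ n ∈ Finset.Icc 1 x, g n * (lz (Pv f h n) : ℂ)‖ ^ 2)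
      (fun _ _ => by positivity) (c := (ε * x) ^ 2) (s := ε * (2 * H + 1) ^ (j + 1))
      (by positivity) (by
        refine hS.trans (le_of_eq ?_)
        ring)

end Pool.Agent.PS

end FIN

namespace Pool.Agent.PS

theorem main_gen : type_of% @main_gen_pr := @main_gen_pr

end Pool.Agent.PS

/-! ### Block QUA -/

section QUA
/-! PS, block QUA (helper97): quadratic polynomials with fixed leading coefficient and the other
coefficients of height `H`, up to `c H²`. -/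

namespace Pool.Agent.PS

open Filter Topology MeasureTheory

/-- the value of the Liouville function at `A N² + s N + b` -/
noncomputable def qua_F (A s b : ℤ) (N : ℤ) : ℝ := lz (A * N ^ 2 + s * N + b)

/-- the full sums -/
noncomputable def qua_S (A s b : ℤ) (X : ℕ) : ℝ := ∑ n ∈ Finset.Icc 1 X, qua_F A s b n

theorem qua_F_abs (A s b N : ℤ) : |qua_F A s b N| ≤ 1 := lz_abs _

theorem qua_F_refl (A s b N : ℤ) : qua_F A s b (-N) = qua_F A (-s) b N := by
  unfold qua_F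
  congr 1
  ring

theorem qua_S_succ (A s b : ℤ) (X : ℕ) :
    qua_S A s b (X + 1) = qua_S A s b X + qua_F A s b (X + 1) := by
  unfold qua_S
  rw [Finset.sum_Icc_succ_top (by omega)]
  push_cast
  rfl

theorem qua_S_zero (A s b : ℤ) : qua_S A s b 0 = 0 := by simp [qua_S]

/-- the signed sums -/
noncomputable def qua_T (A s b : ℤ) (y : ℤ) : ℝ :=
  if 0 ≤ y then qua_S A s b y.toNat else -∑ n ∈ Finset.range (-y).toNat, qua_F A s b (-(n : ℤ))

theorem qua_T_pos (A s b : ℤ) (Y : ℕ) : qua_T A s b (Y : ℤ) = qua_S A s b Y := by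
  unfold qua_T
  rw [if_pos (Int.natCast_nonneg Y), Int.toNat_natCast]

theorem qua_T_neg (A s b : ℤ) (Y : ℕ) :
    qua_T A s b (-(Y : ℤ)) = -∑ n ∈ Finset.range Y, qua_F A s b (-(n : ℤ)) := by
  unfold qua_T
  by_cases h : (0 : ℤ) ≤ -(Y : ℤ)
  · have hY : Y = 0 := by omega
    subst hY
    simp [qua_S_zero]
  · rw [if_neg h, neg_neg, Int.toNat_natCast]

theorem qua_T_succ (A s b y : ℤ) :
    qua_T A s b (y + 1) = qua_T A s b y + qua_F A s b (y + 1) := by
  rcases le_or_gt 0 y with h | h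
  · obtain ⟨Y, rfl⟩ := Int.eq_ofNat_of_zero_le h
    have h1 : ((Y : ℤ) + 1) = ((Y + 1 : ℕ) : ℤ) := by push_cast; rfl
    rw [qua_T_pos]
    conv_lhs => rw [h1, qua_T_pos, qua_S_succ]
  · obtain ⟨Y, hY⟩ : ∃ Y : ℕ, y = -((Y + 1 : ℕ) : ℤ) := ⟨(-y - 1).toNat, by omega⟩
    have h1 : y + 1 = -(Y : ℤ) := by rw [hY]; push_cast; ring
    rw [h1, hY, qua_T_neg, qua_T_neg, Finset.sum_range_succ]
    ring

theorem qua_win (A s b k : ℤ) (x : ℕ) :
    ∑ n ∈ Finset.Icc 1 x, qua_F A s b ((n : ℤ) + k) = qua_T A s b (k + x) - qua_T A s b k := by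
  induction x with
  | zero => simp
  | succ x ih =>
    rw [Finset.sum_Icc_succ_top (by omega), ih]
    have h1 : k + ((x + 1 : ℕ) : ℤ) = (k + x) + 1 := by push_cast; ring
    have h2 : ((x + 1 : ℕ) : ℤ) + k = (k + x) + 1 := by push_cast; ring
    rw [h1, h2, qua_T_succ]
    ring

theorem qua_T_neg' (A s b : ℤ) (Y : ℕ) :
    ∑ n ∈ Finset.range Y, qua_F A s b (-(n : ℤ)) - qua_S A (-s) b Y =
      qua_F A (-s) b 0 - qua_F A (-s) b Y := by
  induction Y with
  | zero => simp [qua_S_zero]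
  | succ Y ih =>
    rw [Finset.sum_range_succ, qua_S_succ, qua_F_refl]
    push_cast
    linarith

theorem qua_T_abs (A s b y : ℤ) :
    |qua_T A s b y| ≤ |qua_S A s b y.natAbs| + |qua_S A (-s) b y.natAbs| + 2 := by
  rcases le_or_gt 0 y with h | h
  · obtain ⟨Y, rfl⟩ := Int.eq_ofNat_of_zero_le h
    rw [qua_T_pos, Int.natAbs_natCast]
    linarith [abs_nonneg (qua_S A (-s) b Y)]
  · obtain ⟨Y, hY⟩ : ∃ Y : ℕ, y = -(Y : ℤ) := ⟨(-y).toNat, by omega⟩
    rw [hY, qua_T_neg, Int.natAbs_neg, Int.natAbs_natCast, abs_neg]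
    have key : |∑ n ∈ Finset.range Y, qua_F A s b (-(n : ℤ)) - qua_S A (-s) b Y| ≤ 2 := by
      rw [qua_T_neg']
      have h1 := abs_le.1 (qua_F_abs A (-s) b 0)
      have h2 := abs_le.1 (qua_F_abs A (-s) b Y)
      rw [abs_le]
      constructor <;> linarith [h1.1, h1.2, h2.1, h2.2]
    have h5 := abs_sub_abs_le_abs_sub (∑ n ∈ Finset.range Y, qua_F A s b (-(n : ℤ)))
      (qua_S A (-s) b Y)
    linarith [abs_nonneg (qua_S A s b Y)]

theorem qua_S_diff (A s b : ℤ) (X r : ℕ) : |qua_S A s b (X + r) - qua_S A s b X| ≤ r := by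
  induction r with
  | zero => simp
  | succ r ih =>
    have h1 : X + (r + 1) = (X + r) + 1 := by ring
    rw [h1, qua_S_succ]
    have h2 := abs_le.1 ih
    have h3 := abs_le.1 (qua_F_abs A s b (((X + r : ℕ) : ℤ) + 1))
    rw [abs_le]
    push_cast at h3 ⊢
    constructor <;> linarith [h2.1, h2.2, h3.1, h3.2]

theorem qua_S_round (A s b : ℤ) (X g : ℕ) (hg : 1 ≤ g) :
    |qua_S A s b X| ≤ |qua_S A s b (g * (X / g))| + g := by
  have h1 : g * (X / g) + X % g = X := Nat.div_add_mod X g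
  have h2 := qua_S_diff A s b (g * (X / g)) (X % g)
  rw [h1] at h2
  have h3 := abs_sub_abs_le_abs_sub (qua_S A s b X) (qua_S A s b (g * (X / g)))
  have h4 : ((X % g : ℕ) : ℝ) ≤ g := by exact_mod_cast (Nat.mod_lt X (by omega)).le
  linarith

/-- the sum over a quadratic polynomial, by full sums at grid points -/
theorem qua_sum (A a b e s : ℤ) (ha : a = 2 * A * e + s) (x g : ℕ) (hg : 1 ≤ g) :
    |∑ n ∈ Finset.Icc 1 x, lz (A * (n : ℤ) ^ 2 + a * n + b)| ≤
      (|qua_S A s (b - A * e ^ 2 - s * e) (g * ((e + x).natAbs / g))| +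
        |qua_S A (-s) (b - A * e ^ 2 - s * e) (g * ((e + x).natAbs / g))|) +
      (|qua_S A s (b - A * e ^ 2 - s * e) (g * (e.natAbs / g))| +
        |qua_S A (-s) (b - A * e ^ 2 - s * e) (g * (e.natAbs / g))|) + 4 * g + 4 := by
  set b' := b - A * e ^ 2 - s * e with hb'
  have h1 : ∀ n : ℕ, lz (A * (n : ℤ) ^ 2 + a * n + b) = qua_F A s b' ((n : ℤ) + e) := by
    intro n
    unfold qua_F
    congr 1
    rw [hb', ha]
    ring
  rw [Finset.sum_congr rfl (fun n _ => h1 n), qua_win]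
  have h2 := qua_T_abs A s b' (e + x)
  have h3 := qua_T_abs A s b' e
  have h4 := qua_S_round A s b' (e + x).natAbs g hg
  have h5 := qua_S_round A s b' e.natAbs g hg
  have h4' := qua_S_round A (-s) b' (e + x).natAbs g hg
  have h5' := qua_S_round A (-s) b' e.natAbs g hg
  have h6 := abs_sub (qua_T A s b' (e + x)) (qua_T A s b' e)
  linarith

/-- a set of integers of diameter at most `2 L` -/
theorem qua_diam (L : ℝ) (hL : 1 ≤ L) (B : Finset ℤ)
    (hB : ∀ k ∈ B, ∀ l ∈ B, k < l → ((l - k : ℤ) : ℝ) ≤ 2 * L) : (B.card : ℝ) ≤ 2 * (L + 1) := by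
  rcases B.eq_empty_or_nonempty with he | hne
  · rw [he]; simp; linarith
  · set u := B.min' hne with hu
    have hu1 : u ∈ B := B.min'_mem hne
    have hsub : B ⊆ Finset.Icc u (u + ⌊2 * L⌋) := by
      intro l hl
      have h1 : u ≤ l := B.min'_le l hl
      rw [Finset.mem_Icc]
      refine ⟨h1, ?_⟩
      rcases h1.eq_or_lt with h2 | h2
      · rw [← h2]
        have : 0 ≤ ⌊2 * L⌋ := Int.floor_nonneg.2 (by linarith)
        linarith
      · have h3 := hB u hu1 l hl h2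
        have h4 : l - u ≤ ⌊2 * L⌋ := Int.le_floor.2 h3
        linarith
    have h1 := Finset.card_le_card hsub
    rw [Int.card_Icc] at h1
    have h0 : 0 ≤ ⌊2 * L⌋ := Int.floor_nonneg.2 (by linarith)
    have h2 : ((u + ⌊2 * L⌋ + 1 - u).toNat : ℤ) = ⌊2 * L⌋ + 1 := by
      rw [Int.toNat_of_nonneg (by linarith)]; ring
    have h3 : (B.card : ℤ) ≤ ⌊2 * L⌋ + 1 := by
      rw [← h2]; exact_mod_cast h1
    have h4 : (B.card : ℝ) ≤ (⌊2 * L⌋ : ℝ) + 1 := by exact_mod_cast h3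
    have h5 := Int.floor_le (2 * L)
    linarith

/-- the derivative is large -/
theorem qua_der (A s k l σ : ℤ) (m : ℕ) (hA : A ≠ 0) (hs : |s| < 2 * |A|) (hm : 1 ≤ m)
    (hσ : σ = 1 ∨ σ = -1) (hk : (m : ℤ) ≤ σ * k) (hl : (m : ℤ) ≤ σ * l) (hkl : k < l) :
    (m : ℤ) ≤ |A * (l + k) + s| := by
  have hA1 : 1 ≤ |A| := Int.one_le_abs hA
  have hm1 : (1 : ℤ) ≤ m := by exact_mod_cast hm
  have h1 : 2 * (m : ℤ) + 1 ≤ |l + k| := by
    rcases hσ with rfl | rfl
    · rw [le_abs]; left; omega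
    · rw [le_abs]; right; omega
  have h2 : |A| * |l + k| - |s| ≤ |A * (l + k) + s| := by
    have h3 := abs_sub_abs_le_abs_sub (A * (l + k)) (-s)
    rw [abs_mul, abs_neg, sub_neg_eq_add] at h3
    exact h3
  have h3 : |A| * (2 * m + 1) ≤ |A| * |l + k| := mul_le_mul_of_nonneg_left h1 (abs_nonneg A)
  have h4 : (m : ℤ) ≤ |A| * m := by nlinarith
  have h5 : |A| ≤ |A| * m := by nlinarith
  nlinarith

/-- few `k` for the same value -/
theorem qua_cnt (A s b' : ℤ) (hA : A ≠ 0) (hs : |s| < 2 * |A|) (H m : ℕ) (L : ℝ) (hL : 1 ≤ L)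
    (hm : 1 ≤ m) (hHm : (H : ℝ) ≤ L * m) (I : Finset ℤ) :
    ((I.filter (fun k : ℤ => (m : ℤ) ≤ |k| ∧ |b' + A * k ^ 2 + s * k| ≤ H)).card : ℝ) ≤
      4 * (L + 1) := by
  classical
  have key : ∀ (σ : ℤ), (∀ k l : ℤ, (m : ℤ) ≤ σ * k → (m : ℤ) ≤ σ * l → k < l → σ = 1 ∨ σ = -1 →
      |b' + A * k ^ 2 + s * k| ≤ H → |b' + A * l ^ 2 + s * l| ≤ H →
      ((l - k : ℤ) : ℝ) ≤ 2 * L) := by
    intro σ k l h1 h2 hkl hσ h3 h4
    have h5 := abs_le.1 h3
    have h6 := abs_le.1 h4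
    have h7 : |(l - k) * (A * (l + k) + s)| ≤ 2 * H := by
      have e : (l - k) * (A * (l + k) + s) =
        (b' + A * l ^ 2 + s * l) - (b' + A * k ^ 2 + s * k) := by ring
      rw [e, abs_le]
      constructor <;> linarith [h5.1, h5.2, h6.1, h6.2]
    have h8 := qua_der A s k l σ m hA hs hm hσ h1 h2 hkl
    have h9 : (l - k) * m ≤ 2 * H := by
      calc (l - k) * m ≤ (l - k) * |A * (l + k) + s| := by
            apply mul_le_mul_of_nonneg_left h8; linarith
        _ = |(l - k) * (A * (l + k) + s)| := by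
            rw [abs_mul, abs_of_pos (by linarith : (0 : ℤ) < l - k)]
        _ ≤ 2 * H := h7
    have h10 : ((l - k : ℤ) : ℝ) * m ≤ 2 * H := by exact_mod_cast h9
    have hm0 : (0 : ℝ) < m := by exact_mod_cast hm
    have h11 : ((l - k : ℤ) : ℝ) * m ≤ (2 * L) * m := by linarith
    exact le_of_mul_le_mul_right h11 hm0
  set P := I.filter (fun k : ℤ => (m : ℤ) ≤ |k| ∧ |b' + A * k ^ 2 + s * k| ≤ H) with hP
  have hsplit : P ⊆ P.filter (fun k => (m : ℤ) ≤ 1 * k) ∪ P.filter (fun k => (m : ℤ) ≤ (-1) * k) := by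
    intro k hk
    have h1 := (Finset.mem_filter.1 hk).2.1
    refine Finset.mem_union.2 ?_
    rcases le_abs.1 h1 with h | h
    · left; exact Finset.mem_filter.2 ⟨hk, by linarith⟩
    · right; exact Finset.mem_filter.2 ⟨hk, by linarith⟩
  have c1 := qua_diam L hL (P.filter (fun k => (m : ℤ) ≤ 1 * k)) (by
    intro k hk l hl hkl
    rw [Finset.mem_filter] at hk hl
    exact key 1 k l hk.2 hl.2 hkl (Or.inl rfl) (Finset.mem_filter.1 hk.1).2.2
      (Finset.mem_filter.1 hl.1).2.2)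
  have c2 := qua_diam L hL (P.filter (fun k => (m : ℤ) ≤ (-1) * k)) (by
    intro k hk l hl hkl
    rw [Finset.mem_filter] at hk hl
    exact key (-1) k l hk.2 hl.2 hkl (Or.inr rfl) (Finset.mem_filter.1 hk.1).2.2
      (Finset.mem_filter.1 hl.1).2.2)
  have c3 := Finset.card_le_card hsplit
  have c4 := Finset.card_union_le (P.filter (fun k => (m : ℤ) ≤ 1 * k))
    (P.filter (fun k => (m : ℤ) ≤ (-1) * k))
  have c5 : (P.card : ℝ) ≤ ((P.filter (fun k => (m : ℤ) ≤ 1 * k)).card : ℝ) +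
      ((P.filter (fun k => (m : ℤ) ≤ (-1) * k)).card : ℝ) := by exact_mod_cast c3.trans c4
  linarith

/-- few exceptional constant terms, for full sums -/
theorem qua_bad (A s : ℤ) (hA : A ≠ 0) (τ ρ : ℝ) (hτ : 0 < τ) (hρ : 0 < ρ) : ∃ C x₀ : ℕ,
    ∀ X K : ℕ, x₀ ≤ X → C * X ≤ K →
      (((Iz K).filter (fun b => ρ * X < |qua_S A s b X|)).card : ℝ) ≤ τ * (2 * K + 1) := by
  have hdeg : (Polynomial.C A * Polynomial.X ^ 2 + Polynomial.C s * Polynomial.X :
      Polynomial ℤ).natDegree = 2 := by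
    compute_degree!
  obtain ⟨C, x₀, h⟩ := b_gen _ hdeg.ge (τ * ρ ^ 2) (by positivity)
  refine ⟨C, max 1 x₀, fun X K hX hK => ?_⟩
  have hX0 : x₀ ≤ X := (le_max_right _ _).trans hX
  have hX1 : 1 ≤ X := (le_max_left _ _).trans hX
  have hXr : (0 : ℝ) < X := by exact_mod_cast hX1
  have h1 := h X K hX0 (by rw [hdeg]; simpa using hK) (fun _ => 1) (fun _ => by simp)
  have h2 : ∀ b : ℤ, ‖Fg (Polynomial.C A * Polynomial.X ^ 2 + Polynomial.C s * Polynomial.X)
      (fun _ => 1) X b‖ = |qua_S A s b X| / X := by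
    intro b
    have e : (∑ n ∈ Finset.Icc 1 X, (1 : ℂ) *
        (lz ((Polynomial.C A * Polynomial.X ^ 2 + Polynomial.C s * Polynomial.X :
          Polynomial ℤ).eval (n : ℤ) + b) : ℂ)) = ((qua_S A s b X : ℝ) : ℂ) := by
      unfold qua_S qua_F
      rw [Complex.ofReal_sum]
      apply Finset.sum_congr rfl
      intro n _
      rw [one_mul]
      simp
    unfold Fg
    rw [e, norm_div, Complex.norm_real, Real.norm_eq_abs, Complex.norm_natCast]
  have h3 : (((Iz K).filter (fun b => ρ * X < |qua_S A s b X|)).card : ℝ) * ρ ^ 2 ≤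
      τ * ρ ^ 2 * (2 * K + 1) := by
    calc (((Iz K).filter (fun b => ρ * X < |qua_S A s b X|)).card : ℝ) * ρ ^ 2
        = ∑ b ∈ (Iz K).filter (fun b => ρ * X < |qua_S A s b X|), ρ ^ 2 := by
          rw [Finset.sum_const, nsmul_eq_mul]
      _ ≤ ∑ b ∈ (Iz K).filter (fun b => ρ * X < |qua_S A s b X|),
          ‖Fg (Polynomial.C A * Polynomial.X ^ 2 + Polynomial.C s * Polynomial.X)
            (fun _ => 1) X b‖ ^ 2 := by
          apply Finset.sum_le_sum
          intro b hb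
          rw [h2]
          have h4 := (Finset.mem_filter.1 hb).2
          apply pow_le_pow_left₀ hρ.le
          rw [le_div_iff₀ hXr]
          exact h4.le
      _ ≤ ∑ b ∈ Iz K, ‖Fg (Polynomial.C A * Polynomial.X ^ 2 + Polynomial.C s * Polynomial.X)
            (fun _ => 1) X b‖ ^ 2 :=
          Finset.sum_le_sum_of_subset_of_nonneg (Finset.filter_subset _ _)
            (fun _ _ _ => by positivity)
      _ ≤ τ * ρ ^ 2 * (2 * K + 1) := h1
  have hρ2 : 0 < ρ ^ 2 := by positivity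
  have h5 : (((Iz K).filter (fun b => ρ * X < |qua_S A s b X|)).card : ℝ) * ρ ^ 2 ≤
      (τ * (2 * K + 1)) * ρ ^ 2 := by linarith
  exact le_of_mul_le_mul_right h5 hρ2

/-- the case `x ≤ H / C` -/
theorem qua_small (A : ℤ) (hA : A ≠ 0) (ε : ℝ) (hε : 0 < ε) : ∃ C x₀ : ℕ, ∀ x H : ℕ,
    x₀ ≤ x → C * x ≤ H →
    (((Iz H ×ˢ Iz H).filter (fun p : ℤ × ℤ => ε * x < |∑ n ∈ Finset.Icc 1 x,
        lz (A * (n : ℤ) ^ 2 + p.1 * n + p.2)|)).card : ℝ) ≤ ε * (2 * H + 1) ^ 2 := by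
  classical
  have hdeg : (Polynomial.C A * Polynomial.X ^ 2 : Polynomial ℤ).natDegree = 2 := by
    compute_degree!
  obtain ⟨C, x₀, h⟩ := c_main (Polynomial.C A * Polynomial.X ^ 2) 1 le_rfl (ε ^ 3) (by positivity)
  refine ⟨C, max 1 x₀, fun x H hx hH => ?_⟩
  have hx0 : x₀ ≤ x := (le_max_right _ _).trans hx
  have hx1 : 1 ≤ x := (le_max_left _ _).trans hx
  have hxr : (0 : ℝ) < x := by exact_mod_cast hx1
  have hC : C * x ^ ((Polynomial.C A * Polynomial.X ^ 2 : Polynomial ℤ).natDegree - 1) ≤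
      H * x ^ 1 := by
    rw [hdeg]
    simp only [Nat.add_one_sub_one, pow_one]
    exact hH.trans (Nat.le_mul_of_pos_right H hx1)
  have h1 := h x H hx0 hH hC (fun _ => 1) (fun _ => by simp)
  set B := (Iz H ×ˢ Iz H).filter (fun p : ℤ × ℤ => ε * x < |∑ n ∈ Finset.Icc 1 x,
        lz (A * (n : ℤ) ^ 2 + p.1 * n + p.2)|) with hB
  let ι : ℤ × ℤ → (Fin (1 + 1) → ℤ) := fun p => ![p.2, p.1]
  have hv : ∀ p : ℤ × ℤ, (∑ n ∈ Finset.Icc 1 x, (1 : ℂ) *
      (lz (Pv (Polynomial.C A * Polynomial.X ^ 2) (ι p) n) : ℂ)) = ((∑ n ∈ Finset.Icc 1 x,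
        lz (A * (n : ℤ) ^ 2 + p.1 * n + p.2) : ℝ) : ℂ) := by
    intro p
    rw [Complex.ofReal_sum]
    apply Finset.sum_congr rfl
    intro n _
    rw [one_mul]
    congr 2
    unfold Pv
    have e : ∑ i : Fin (1 + 1), ι p i * (n : ℤ) ^ (i : ℕ) = p.2 + p.1 * n := by
      rw [Fin.sum_univ_two]
      simp [ι]
    rw [e, Polynomial.eval_mul, Polynomial.eval_C, Polynomial.eval_pow, Polynomial.eval_X]
    ring
  have hinj : Set.InjOn ι (B : Set (ℤ × ℤ)) := by
    intro p _ q _ hpq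
    have e0 := congrFun hpq 0
    have e1 := congrFun hpq 1
    simp only [ι, Matrix.cons_val_zero, Matrix.cons_val_one] at e0 e1
    exact Prod.ext e1 e0
  have hsub : B.image ι ⊆ bx 1 H := by
    intro h hh
    obtain ⟨p, hp, rfl⟩ := Finset.mem_image.1 hh
    have hp1 := Finset.mem_product.1 (Finset.mem_filter.1 hp).1
    rw [mem_bx]
    intro i
    have a1 := mem_Iz'.1 hp1.1
    have a2 := mem_Iz'.1 hp1.2
    fin_cases i
    · simpa [ι] using a2
    · simpa [ι] using a1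
  have h3 : (B.card : ℝ) * (ε * x) ^ 2 ≤ ε ^ 3 * x ^ 2 * (2 * H + 1) ^ (1 + 1) := by
    calc (B.card : ℝ) * (ε * x) ^ 2 = ∑ p ∈ B, (ε * x) ^ 2 := by
          rw [Finset.sum_const, nsmul_eq_mul]
      _ ≤ ∑ p ∈ B, ‖∑ n ∈ Finset.Icc 1 x, (1 : ℂ) *
          (lz (Pv (Polynomial.C A * Polynomial.X ^ 2) (ι p) n) : ℂ)‖ ^ 2 := by
          apply Finset.sum_le_sum
          intro p hp
          rw [hv, Complex.norm_real, Real.norm_eq_abs]
          exact pow_le_pow_left₀ (by positivity) (Finset.mem_filter.1 hp).2.le 2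
      _ = ∑ h ∈ B.image ι, ‖∑ n ∈ Finset.Icc 1 x, (1 : ℂ) *
          (lz (Pv (Polynomial.C A * Polynomial.X ^ 2) h n) : ℂ)‖ ^ 2 := by
          rw [Finset.sum_image hinj]
      _ ≤ ∑ h ∈ bx 1 H, ‖∑ n ∈ Finset.Icc 1 x, (1 : ℂ) *
          (lz (Pv (Polynomial.C A * Polynomial.X ^ 2) h n) : ℂ)‖ ^ 2 :=
          Finset.sum_le_sum_of_subset_of_nonneg hsub (fun _ _ _ => by positivity)
      _ ≤ _ := h1
  have h4 : 0 < (ε * x) ^ 2 := by positivity
  have h5 : (B.card : ℝ) * (ε * x) ^ 2 ≤ (ε * (2 * H + 1) ^ 2) * (ε * x) ^ 2 := by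
    calc _ ≤ ε ^ 3 * x ^ 2 * (2 * H + 1) ^ (1 + 1) := h3
      _ = _ := by ring
  exact le_of_mul_le_mul_right h5 h4

/-- the pairs whose shifted constant term lies in a given set -/
theorem qua_pairs (A s : ℤ) (hA : A ≠ 0) (hs : |s| < 2 * |A|) (H m : ℕ) (L : ℝ) (hL : 1 ≤ L)
    (hm : 1 ≤ m) (hHm : (H : ℝ) ≤ L * m) (D : Finset ℤ) :
    (((Iz H ×ˢ Iz H).filter (fun p : ℤ × ℤ => p.1 % (2 * A) = s ∧ (m : ℤ) ≤ |p.1 / (2 * A)| ∧
      p.2 - A * (p.1 / (2 * A)) ^ 2 - s * (p.1 / (2 * A)) ∈ D)).card : ℝ) ≤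
        D.card * (4 * (L + 1)) := by
  classical
  set E := (Iz H ×ˢ Iz H).filter (fun p : ℤ × ℤ => p.1 % (2 * A) = s ∧
    (m : ℤ) ≤ |p.1 / (2 * A)| ∧ p.2 - A * (p.1 / (2 * A)) ^ 2 - s * (p.1 / (2 * A)) ∈ D) with hE
  have h1 : E.card = ∑ b' ∈ D, (E.filter (fun p : ℤ × ℤ =>
      p.2 - A * (p.1 / (2 * A)) ^ 2 - s * (p.1 / (2 * A)) = b')).card :=
    Finset.card_eq_sum_card_fiberwise (fun p hp => (Finset.mem_filter.1 hp).2.2.2)
  rw [h1]
  push_cast
  calc ∑ b' ∈ D, ((E.filter (fun p : ℤ × ℤ =>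
      p.2 - A * (p.1 / (2 * A)) ^ 2 - s * (p.1 / (2 * A)) = b')).card : ℝ) ≤
        ∑ b' ∈ D, (4 * (L + 1)) := by
        apply Finset.sum_le_sum
        intro b' _
        set F := E.filter (fun p : ℤ × ℤ =>
          p.2 - A * (p.1 / (2 * A)) ^ 2 - s * (p.1 / (2 * A)) = b') with hF
        refine le_trans ?_ (qua_cnt A s b' hA hs H m L hL hm hHm
          (F.image (fun p : ℤ × ℤ => p.1 / (2 * A))))
        have hinj : Set.InjOn (fun p : ℤ × ℤ => p.1 / (2 * A)) (F : Set (ℤ × ℤ)) := by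
          intro p hp q hq hpq
          have hp1 := Finset.mem_filter.1 (Finset.mem_coe.1 hp)
          have hq1 := Finset.mem_filter.1 (Finset.mem_coe.1 hq)
          have hp2 := (Finset.mem_filter.1 hp1.1).2.1
          have hq2 := (Finset.mem_filter.1 hq1.1).2.1
          have hpq' : p.1 / (2 * A) = q.1 / (2 * A) := hpq
          have e1 : p.1 = q.1 := by
            have d1 := Int.mul_ediv_add_emod p.1 (2 * A)
            have d2 := Int.mul_ediv_add_emod q.1 (2 * A)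
            rw [hp2] at d1
            rw [hq2, ← hpq'] at d2
            linarith
          have e2 : p.2 = q.2 := by
            have h3 := hp1.2
            have h4 := hq1.2
            rw [← hpq'] at h4
            linarith
          exact Prod.ext e1 e2
        have h2 : F.card ≤ ((F.image (fun p : ℤ × ℤ => p.1 / (2 * A))).filter
            (fun k : ℤ => (m : ℤ) ≤ |k| ∧ |b' + A * k ^ 2 + s * k| ≤ H)).card := by
          rw [← Finset.card_image_of_injOn hinj]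
          apply Finset.card_le_card
          intro k hk
          refine Finset.mem_filter.2 ⟨hk, ?_⟩
          obtain ⟨p, hp, rfl⟩ := Finset.mem_image.1 hk
          have hp1 := Finset.mem_filter.1 hp
          have hp2 := Finset.mem_filter.1 hp1.1
          have hp3 := Finset.mem_product.1 hp2.1
          refine ⟨hp2.2.2.1, ?_⟩
          have e : b' + A * (p.1 / (2 * A)) ^ 2 + s * (p.1 / (2 * A)) = p.2 := by
            rw [← hp1.2]; ring
          rw [e]
          exact mem_Iz'.1 hp3.2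
        exact_mod_cast h2
    _ = D.card * (4 * (L + 1)) := by rw [Finset.sum_const, nsmul_eq_mul]

/-- the pairs with small linear coefficient -/
theorem qua_few (A : ℤ) (hA : A ≠ 0) (H m : ℕ) : (((Iz H ×ˢ Iz H).filter (fun p : ℤ × ℤ =>
    |p.1 / (2 * A)| < (m : ℤ))).card : ℝ) ≤ 4 * A.natAbs * m * (2 * H + 1) := by
  classical
  have h1 : ((Iz H ×ˢ Iz H).filter (fun p : ℤ × ℤ => |p.1 / (2 * A)| < (m : ℤ))) ⊆
      Finset.Ico (-(2 * |A| * m : ℤ)) (2 * |A| * m) ×ˢ Iz H := by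
    intro p hp
    rw [Finset.mem_filter, Finset.mem_product] at hp
    have h2 := hp.2
    have d1 := Int.mul_ediv_add_emod p.1 (2 * A)
    have d2 := Int.emod_nonneg p.1 (show (2 * A) ≠ 0 by omega)
    have d3 := Int.emod_lt_abs p.1 (show (2 * A) ≠ 0 by omega)
    set e := p.1 / (2 * A)
    set r := p.1 % (2 * A)
    have h3 : |p.1| < 2 * |A| * m := by
      have h4 : |2 * A * e| ≤ 2 * |A| * (m - 1) := by
        rw [abs_mul, abs_mul, abs_of_pos (by norm_num : (0 : ℤ) < 2)]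
        apply mul_le_mul_of_nonneg_left (by omega) (by positivity)
      have h5 : |p.1| ≤ |2 * A * e| + |r| := by
        rw [← d1]; exact abs_add_le _ _
      rw [abs_of_nonneg d2] at h5
      rw [abs_mul, abs_of_pos (by norm_num : (0 : ℤ) < 2)] at d3
      nlinarith
    have h6 := abs_lt.1 h3
    rw [Finset.mem_product, Finset.mem_Ico]
    exact ⟨⟨h6.1.le, h6.2⟩, hp.1.2⟩
  have h3 := Finset.card_le_card h1
  rw [Finset.card_product, Iz_card, Int.card_Ico] at h3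
  have h4 : (((2 * |A| * m : ℤ) - (-(2 * |A| * m : ℤ))).toNat : ℤ) = 4 * A.natAbs * m := by
    rw [Int.toNat_of_nonneg (by have : 0 ≤ 2 * |A| * (m : ℤ) := by positivity
                                linarith), Int.natCast_natAbs]
    ring
  have h5 : ((2 * |A| * m : ℤ) - (-(2 * |A| * m : ℤ))).toNat = 4 * A.natAbs * m := by
    exact_mod_cast h4
  rw [h5] at h3
  exact_mod_cast h3

/-- the exceptional constant terms of the family -/
noncomputable def qua_D (A : ℤ) (K g J : ℕ) (t : ℝ) (r : ℤ) : Finset ℤ :=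
  (Finset.Icc 1 J).biUnion (fun i => (Iz K).filter (fun b => t < |qua_S A r b (g * i)|) ∪
    (Iz K).filter (fun b => t < |qua_S A (-r) b (g * i)|))

theorem qua_D_not {A : ℤ} {K g J : ℕ} {t : ℝ} {r b : ℤ} (ht : 0 ≤ t)
    (hb : b ∈ Iz K) (h : b ∉ qua_D A K g J t r) (Y : ℕ) (hY : Y ≤ g * J) :
    |qua_S A r b (g * (Y / g))| ≤ t ∧ |qua_S A (-r) b (g * (Y / g))| ≤ t := by
  rcases Nat.eq_zero_or_pos (Y / g) with h0 | h0
  · rw [h0, Nat.mul_zero, qua_S_zero, qua_S_zero, abs_zero]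
    exact ⟨ht, ht⟩
  · have h1 : Y / g ≤ J := Nat.div_le_of_le_mul hY
    have h2 : Y / g ∈ Finset.Icc 1 J := Finset.mem_Icc.2 ⟨h0, h1⟩
    constructor
    · by_contra hc
      rw [not_le] at hc
      exact h (Finset.mem_biUnion.2 ⟨_, h2, Finset.mem_union_left _
        (Finset.mem_filter.2 ⟨hb, hc⟩)⟩)
    · by_contra hc
      rw [not_le] at hc
      exact h (Finset.mem_biUnion.2 ⟨_, h2, Finset.mem_union_right _
        (Finset.mem_filter.2 ⟨hb, hc⟩)⟩)

theorem qua_D_card {A : ℤ} {K g J : ℕ} {t : ℝ} {r : ℤ} {E : ℝ}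
    (h1 : ∀ i ∈ Finset.Icc 1 J, (((Iz K).filter (fun b => t < |qua_S A r b (g * i)|)).card : ℝ) ≤ E)
    (h2 : ∀ i ∈ Finset.Icc 1 J,
      (((Iz K).filter (fun b => t < |qua_S A (-r) b (g * i)|)).card : ℝ) ≤ E) :
    ((qua_D A K g J t r).card : ℝ) ≤ J * (2 * E) := by
  have h3 : ((qua_D A K g J t r).card : ℝ) ≤ ∑ i ∈ Finset.Icc 1 J,
      ((((Iz K).filter (fun b => t < |qua_S A r b (g * i)|) ∪
        (Iz K).filter (fun b => t < |qua_S A (-r) b (g * i)|)).card : ℕ) : ℝ) := by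
    exact_mod_cast Finset.card_biUnion_le
  refine h3.trans ?_
  calc ∑ i ∈ Finset.Icc 1 J,
      ((((Iz K).filter (fun b => t < |qua_S A r b (g * i)|) ∪
        (Iz K).filter (fun b => t < |qua_S A (-r) b (g * i)|)).card : ℕ) : ℝ)
      ≤ ∑ i ∈ Finset.Icc 1 J, 2 * E := by
        apply Finset.sum_le_sum
        intro i hi
        have h4 := Finset.card_union_le ((Iz K).filter (fun b => t < |qua_S A r b (g * i)|))
          ((Iz K).filter (fun b => t < |qua_S A (-r) b (g * i)|))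
        have h5 : ((((Iz K).filter (fun b => t < |qua_S A r b (g * i)|) ∪
          (Iz K).filter (fun b => t < |qua_S A (-r) b (g * i)|)).card : ℕ) : ℝ) ≤
          (((Iz K).filter (fun b => t < |qua_S A r b (g * i)|)).card : ℝ) +
          (((Iz K).filter (fun b => t < |qua_S A (-r) b (g * i)|)).card : ℝ) := by
          exact_mod_cast h4
        linarith [h1 i hi, h2 i hi]
    _ = J * (2 * E) := by
        rw [Finset.sum_const, nsmul_eq_mul, Nat.card_Icc, Nat.add_sub_cancel]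

/-- the quotient and the shifted constant term are not too large -/
theorem qua_size (A a b : ℤ) (hA : A ≠ 0) (H : ℕ) (ha : |a| ≤ H) (hb : |b| ≤ H) :
    |a / (2 * A)| ≤ H + 1 ∧
    b - A * (a / (2 * A)) ^ 2 - (a % (2 * A)) * (a / (2 * A)) ∈ Iz (4 * A.natAbs * (H + 1) ^ 2) := by
  have d1 := Int.mul_ediv_add_emod a (2 * A)
  have d2 := Int.emod_nonneg a (show (2 * A) ≠ 0 by omega)
  have d3 := Int.emod_lt_abs a (show (2 * A) ≠ 0 by omega)
  set e := a / (2 * A)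
  set r := a % (2 * A)
  have hA1 : 1 ≤ |A| := Int.one_le_abs hA
  rw [abs_mul, abs_of_pos (by norm_num : (0 : ℤ) < 2)] at d3
  have he : |e| ≤ H + 1 := by
    have h1 : 2 * |A| * |e| ≤ H + 2 * |A| := by
      have h2 : 2 * A * e = a - r := by linarith
      have h3 : |2 * A * e| ≤ |a| + |r| := by rw [h2]; exact abs_sub _ _
      rw [abs_mul, abs_mul, abs_of_pos (by norm_num : (0 : ℤ) < 2), abs_of_nonneg d2] at h3
      linarith
    by_contra hc
    rw [not_le] at hc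
    have h4 : (H : ℤ) + 2 ≤ |e| := by omega
    have h5 : 2 * |A| * ((H : ℤ) + 2) ≤ 2 * |A| * |e| :=
      mul_le_mul_of_nonneg_left h4 (by positivity)
    have h6 : (H : ℤ) ≤ |A| * H := by nlinarith
    nlinarith
  refine ⟨he, ?_⟩
  rw [mem_Iz']
  have h1 : |A * e ^ 2| ≤ |A| * ((H : ℤ) + 1) ^ 2 := by
    rw [abs_mul, abs_pow]
    apply mul_le_mul_of_nonneg_left _ (abs_nonneg A)
    exact pow_le_pow_left₀ (abs_nonneg e) he 2
  have h2 : |r * e| ≤ 2 * |A| * ((H : ℤ) + 1) := by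
    rw [abs_mul, abs_of_nonneg d2]
    exact mul_le_mul d3.le he (abs_nonneg e) (by positivity)
  have h3 : |b - A * e ^ 2 - r * e| ≤ |b| + |A * e ^ 2| + |r * e| := by
    have h4 := abs_sub (b - A * e ^ 2) (r * e)
    have h5 := abs_sub b (A * e ^ 2)
    linarith
  push_cast
  have h6 : (H : ℤ) ≤ |A| * ((H : ℤ) + 1) ^ 2 := by nlinarith
  have h7 : |A| * ((H : ℤ) + 1) ≤ |A| * ((H : ℤ) + 1) ^ 2 := by nlinarith
  nlinarith

theorem qua_n1 (α H : ℝ) (hα : 1 ≤ α) (hH : 0 ≤ H) : H ^ 2 ≤ 4 * α * (H + 1) ^ 2 := by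
  have h1 : H ^ 2 ≤ (H + 1) ^ 2 := by nlinarith
  have h2 : (H + 1) ^ 2 ≤ 4 * α * (H + 1) ^ 2 := by
    have : 1 ≤ 4 * α := by linarith
    nlinarith [sq_nonneg (H + 1)]
  linarith

theorem qua_n2 (C η x : ℝ) (hC : 1 ≤ C) (hη : η ≤ 1) (hx : 0 ≤ x) :
    (2 * C + η) * x ≤ 3 * C * x := by
  apply mul_le_mul_of_nonneg_right _ hx
  linarith

theorem qua_n3 (α H K : ℝ) (hα : 1 ≤ α) (hH : 0 ≤ H) (hK : K = 4 * α * (H + 1) ^ 2) :
    2 * K + 1 ≤ 9 * α * (2 * H + 1) ^ 2 := by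
  have h2 : (H + 1) ^ 2 ≤ (2 * H + 1) ^ 2 := by
    apply pow_le_pow_left₀ (by positivity)
    linarith
  have h4 : 1 ≤ (2 * H + 1) ^ 2 := by nlinarith
  have h3 : 1 ≤ α * (2 * H + 1) ^ 2 := by nlinarith
  have h5 : α * (H + 1) ^ 2 ≤ α * (2 * H + 1) ^ 2 := mul_le_mul_of_nonneg_left h2 (by linarith)
  rw [hK]
  linarith

theorem qua_n4 (η x g t : ℝ) (ht : 0 ≤ t) (h : 2 * (t + 1) ≤ x * η) (hg : η * x < g + 1) :
    η * x / 2 ≤ g ∧ t + 1 ≤ g := by
  have h1 : x * η = η * x := mul_comm _ _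
  constructor <;> linarith

theorem qua_n5 (x t η : ℝ) (ht : 0 ≤ t) (hη : 0 < η) (h : 2 * (t + 1) ≤ x * η) : 0 < x := by
  by_contra hc
  rw [not_lt] at hc
  have : x * η ≤ 0 := mul_nonpos_of_nonpos_of_nonneg hc hη.le
  linarith

theorem qua_n6 (C t : ℝ) (hC : 1 ≤ C) (ht : 0 ≤ t) : 1 ≤ 3 * C * (t + 1) := by
  have : 1 ≤ C * (t + 1) := by nlinarith
  linarith

/-- For every fixed leading coefficient `A ≠ 0`, almost all the polynomials `A X² + a X + b` of
height `H` have cancellation up to `x`, for `x₀ ≤ x ≤ c H²`. -/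
theorem quadA_main_pr (A : ℤ) (hA : A ≠ 0) (ε : ℝ) (hε : 0 < ε) : ∃ (c : ℝ) (x₀ : ℕ), 0 < c ∧
    ∀ x H : ℕ, x₀ ≤ x → (x : ℝ) ≤ c * (H : ℝ) ^ 2 →
      (((Iz H ×ˢ Iz H).filter (fun p : ℤ × ℤ => ε * x < |∑ n ∈ Finset.Icc 1 x,
        lz (A * (n : ℤ) ^ 2 + p.1 * n + p.2)|)).card : ℝ) ≤ ε * (2 * H + 1) ^ 2 := by
  classical
  obtain ⟨C₁, x₁, hsmall⟩ := qua_small A hA ε hε
  have hA1 : 1 ≤ A.natAbs := Int.natAbs_pos.2 hA
  have hα : (1 : ℝ) ≤ A.natAbs := by exact_mod_cast hA1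
  set α : ℝ := (A.natAbs : ℝ) with hαd
  have hα0 : 0 < α := by linarith
  -- parameters
  set δ := min 1 (ε / (8 * α)) with hδd
  have hδ0 : 0 < δ := lt_min one_pos (by positivity)
  have hδ1 : δ ≤ 1 := min_le_left _ _
  have hδ2 : δ ≤ ε / (8 * α) := min_le_right _ _
  set L := 1 / δ with hLd
  have hL1 : 1 ≤ L := by rw [hLd, le_div_iff₀ hδ0]; linarith
  set C₂ : ℝ := C₁ + 1 with hC₂
  have hC₂1 : 1 ≤ C₂ := by rw [hC₂]; have : (0 : ℝ) ≤ C₁ := Nat.cast_nonneg _; linarith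
  set η := min 1 (ε / 16) with hηd
  have hη0 : 0 < η := lt_min one_pos (by positivity)
  have hη1 : η ≤ 1 := min_le_left _ _
  have hη2 : η ≤ ε / 16 := min_le_right _ _
  set J := ⌈2 * C₂ / η⌉₊ with hJd
  have hJ1 : 2 * C₂ / η ≤ J := Nat.le_ceil _
  have hJ2 : (J : ℝ) < 2 * C₂ / η + 1 := Nat.ceil_lt_add_one (by positivity)
  have hJ0 : (0 : ℝ) < J := lt_of_lt_of_le (by positivity) hJ1
  set ρ := ε / (48 * C₂) with hρd
  have hρ0 : 0 < ρ := by positivity
  set τ := ε / (288 * α ^ 2 * (L + 1) * J) with hτd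
  have hτ0 : 0 < τ := by positivity
  choose Cf xf hbad using fun s => qua_bad A s hA τ ρ hτ0 hρ0
  set R := Finset.Icc (-(2 * |A|)) (2 * |A|) with hR
  set C₃ := ∑ s ∈ R, Cf s with hC₃
  set x₃ := ∑ s ∈ R, xf s with hx₃
  have hCf : ∀ s ∈ R, Cf s ≤ C₃ := fun s hs =>
    Finset.single_le_sum (f := Cf) (fun _ _ => Nat.zero_le _) hs
  have hxf : ∀ s ∈ R, xf s ≤ x₃ := fun s hs =>
    Finset.single_le_sum (f := xf) (fun _ _ => Nat.zero_le _) hs
  set c := 1 / (3 * C₂ * (C₃ + 1)) with hcd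
  have hc0 : 0 < c := by positivity
  have hc1 : c ≤ 1 := by
    rw [hcd, div_le_one (by positivity)]
    exact qua_n6 C₂ C₃ hC₂1 (Nat.cast_nonneg _)
  refine ⟨c, max x₁ (max ⌈2 * (x₃ + 1) / η⌉₊ (max ⌈8 / ε⌉₊ ⌈(1 / δ) ^ 2⌉₊)), hc0, ?_⟩
  intro x H hx hxH
  have hx1 : x₁ ≤ x := (le_max_left _ _).trans hx
  have hx2 : 2 * (x₃ + 1) / η ≤ x := by
    refine (Nat.le_ceil _).trans ?_
    exact_mod_cast (le_max_left _ _).trans ((le_max_right _ _).trans hx)
  have hx3 : 8 / ε ≤ x := by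
    refine (Nat.le_ceil _).trans ?_
    exact_mod_cast (le_max_left _ _).trans ((le_max_right _ _).trans ((le_max_right _ _).trans hx))
  have hx4 : (1 / δ) ^ 2 ≤ x := by
    refine (Nat.le_ceil _).trans ?_
    exact_mod_cast (le_max_right _ _).trans ((le_max_right _ _).trans ((le_max_right _ _).trans hx))
  rw [div_le_iff₀ hη0] at hx2
  rw [div_le_iff₀ hε] at hx3
  have hx3r : (0 : ℝ) ≤ x₃ := Nat.cast_nonneg _
  have hxr : (0 : ℝ) < x := qua_n5 x x₃ η hx3r hη0 hx2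
  -- `H` is large
  have hH : 1 / δ ≤ H := by
    have h1 : (1 / δ) ^ 2 ≤ (H : ℝ) ^ 2 := by
      calc (1 / δ) ^ 2 ≤ x := hx4
        _ ≤ c * (H : ℝ) ^ 2 := hxH
        _ ≤ 1 * (H : ℝ) ^ 2 := mul_le_mul_of_nonneg_right hc1 (by positivity)
        _ = (H : ℝ) ^ 2 := one_mul _
    exact (pow_le_pow_iff_left₀ (by positivity) (Nat.cast_nonneg _) two_ne_zero).1 h1
  have hδH : 1 ≤ δ * H := by
    rw [div_le_iff₀ hδ0] at hH
    linarith
  have hH1 : (1 : ℝ) ≤ H := hL1.trans hH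
  by_cases hcase : C₁ * x ≤ H
  · exact hsmall x H hx1 hcase
  rw [not_le] at hcase
  have hHx : (H : ℝ) + 1 ≤ C₁ * x := by exact_mod_cast hcase
  -- the grid
  set g := ⌊η * x⌋₊ with hgd
  have hg1 : (g : ℝ) ≤ η * x := Nat.floor_le (by positivity)
  have hg23 : η * x / 2 ≤ (g : ℝ) ∧ (x₃ : ℝ) + 1 ≤ g :=
    qua_n4 η x g x₃ hx3r hx2 (Nat.lt_floor_add_one (η * x))
  have hg2 : η * x / 2 ≤ g := hg23.1
  have hg3 : x₃ + 1 ≤ g := by exact_mod_cast hg23.2
  have hg0 : 1 ≤ g := by omega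
  have hgr : (0 : ℝ) < g := by exact_mod_cast hg0
  set K := 4 * A.natAbs * (H + 1) ^ 2 with hK
  have hKr : (K : ℝ) = 4 * α * ((H : ℝ) + 1) ^ 2 := by rw [hK]; push_cast; rfl
  -- all the grid points are fine
  have hpt : ∀ s ∈ R, ∀ i ∈ Finset.Icc 1 J,
      (((Iz K).filter (fun b => ε / 16 * x < |qua_S A s b (g * i)|)).card : ℝ) ≤
        τ * (2 * K + 1) := by
    intro s hs i hi
    have hi' := Finset.mem_Icc.1 hi
    have hir : ((g * i : ℕ) : ℝ) ≤ 3 * C₂ * x := by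
      push_cast
      have h1 : (i : ℝ) ≤ J := by exact_mod_cast hi'.2
      calc (g : ℝ) * i ≤ (η * x) * (2 * C₂ / η + 1) :=
            mul_le_mul hg1 (h1.trans hJ2.le) (Nat.cast_nonneg _) (by positivity)
        _ = (2 * C₂ + η) * x := by field_simp
        _ ≤ 3 * C₂ * x := qua_n2 C₂ η x hC₂1 hη1 hxr.le
    have h1 : xf s ≤ g * i := by
      have := hxf s hs
      calc xf s ≤ g * 1 := by omega
        _ ≤ g * i := Nat.mul_le_mul_left g hi'.1
    have h2 : Cf s * (g * i) ≤ K := by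
      have h3 : ((Cf s * (g * i) : ℕ) : ℝ) ≤ K := by
        rw [Nat.cast_mul, hKr]
        have h4 : (Cf s : ℝ) ≤ C₃ + 1 := by
          have : (Cf s : ℝ) ≤ C₃ := by exact_mod_cast hCf s hs
          linarith
        calc (Cf s : ℝ) * ((g * i : ℕ) : ℝ) ≤ (C₃ + 1) * (3 * C₂ * x) :=
              mul_le_mul h4 hir (Nat.cast_nonneg _) (by positivity)
          _ ≤ (C₃ + 1) * (3 * C₂ * (c * (H : ℝ) ^ 2)) := by
              apply mul_le_mul_of_nonneg_left _ (by positivity)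
              exact mul_le_mul_of_nonneg_left hxH (by positivity)
          _ = (H : ℝ) ^ 2 := by rw [hcd]; field_simp
          _ ≤ 4 * α * ((H : ℝ) + 1) ^ 2 := qua_n1 α H hα (Nat.cast_nonneg _)
      exact_mod_cast h3
    refine le_trans ?_ (hbad s (g * i) K h1 h2)
    have h5 : (Iz K).filter (fun b => ε / 16 * x < |qua_S A s b (g * i)|) ⊆
        (Iz K).filter (fun b => ρ * ((g * i : ℕ) : ℝ) < |qua_S A s b (g * i)|) := by
      intro b hb
      rw [Finset.mem_filter] at hb ⊢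
      refine ⟨hb.1, lt_of_le_of_lt ?_ hb.2⟩
      calc ρ * ((g * i : ℕ) : ℝ) ≤ ρ * (3 * C₂ * x) := mul_le_mul_of_nonneg_left hir hρ0.le
        _ = ε / 16 * x := by rw [hρd]; field_simp; ring
    exact_mod_cast Finset.card_le_card h5
  have hD : ∀ r ∈ Finset.range (2 * A.natAbs),
      ((qua_D A K g J (ε / 16 * x) (r : ℤ)).card : ℝ) ≤ J * (2 * (τ * (2 * K + 1))) := by
    intro r hr
    have hr1 : (r : ℤ) < 2 * |A| := by
      have := Finset.mem_range.1 hr
      rw [Int.abs_eq_natAbs]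
      exact_mod_cast this
    apply qua_D_card
    · exact hpt r (by rw [hR, Finset.mem_Icc]; constructor <;> omega)
    · exact hpt (-r) (by rw [hR, Finset.mem_Icc]; constructor <;> omega)
  set m := ⌊δ * H⌋₊ + 1 with hm
  have hm1 : 1 ≤ m := by omega
  have hm2 : (m : ℝ) ≤ 2 * (δ * H) := by
    rw [hm]
    push_cast
    have := Nat.floor_le (show 0 ≤ δ * H by positivity)
    linarith
  have hm3 : (H : ℝ) ≤ L * m := by
    have h1 := Nat.lt_floor_add_one (δ * H)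
    have h2 : δ * H ≤ m := by rw [hm]; push_cast; exact h1.le
    rw [hLd, div_mul_eq_mul_div, one_mul, le_div_iff₀ hδ0]
    linarith
  -- the inclusion
  have hincl : (Iz H ×ˢ Iz H).filter (fun p : ℤ × ℤ => ε * x < |∑ n ∈ Finset.Icc 1 x,
        lz (A * (n : ℤ) ^ 2 + p.1 * n + p.2)|) ⊆
      (Iz H ×ˢ Iz H).filter (fun p : ℤ × ℤ => |p.1 / (2 * A)| < (m : ℤ)) ∪
      (Finset.range (2 * A.natAbs)).biUnion (fun r => (Iz H ×ˢ Iz H).filter (fun p : ℤ × ℤ =>
        p.1 % (2 * A) = (r : ℤ) ∧ (m : ℤ) ≤ |p.1 / (2 * A)| ∧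
          p.2 - A * (p.1 / (2 * A)) ^ 2 - (r : ℤ) * (p.1 / (2 * A)) ∈
            qua_D A K g J (ε / 16 * x) (r : ℤ))) := by
    intro p hp
    rw [Finset.mem_filter] at hp
    obtain ⟨hp1, hp2⟩ := hp
    have hp3 := Finset.mem_product.1 hp1
    obtain ⟨he, hb'⟩ := qua_size A p.1 p.2 hA H (mem_Iz'.1 hp3.1) (mem_Iz'.1 hp3.2)
    rcases lt_or_ge |p.1 / (2 * A)| (m : ℤ) with h1 | h1
    · exact Finset.mem_union_left _ (Finset.mem_filter.2 ⟨hp1, h1⟩)
    · apply Finset.mem_union_right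
      have d1 := Int.mul_ediv_add_emod p.1 (2 * A)
      have d2 := Int.emod_nonneg p.1 (show (2 * A) ≠ 0 by omega)
      have d3 := Int.emod_lt_abs p.1 (show (2 * A) ≠ 0 by omega)
      have hr0 : ((p.1 % (2 * A)).toNat : ℤ) = p.1 % (2 * A) := Int.toNat_of_nonneg d2
      refine Finset.mem_biUnion.2 ⟨(p.1 % (2 * A)).toNat, ?_, ?_⟩
      · rw [Finset.mem_range]
        rw [abs_mul, abs_of_pos (by norm_num : (0 : ℤ) < 2), Int.abs_eq_natAbs] at d3
        omega
      · rw [hr0]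
        refine Finset.mem_filter.2 ⟨hp1, rfl, h1, ?_⟩
        by_contra hc
        have hY1 : (p.1 / (2 * A) + x).natAbs ≤ g * J ∧ (p.1 / (2 * A)).natAbs ≤ g * J := by
          have h2 : C₂ * x ≤ (g : ℝ) * J := by
            calc C₂ * x = (η * x / 2) * (2 * C₂ / η) := by field_simp
              _ ≤ g * J := mul_le_mul hg2 hJ1 (by positivity) (Nat.cast_nonneg _)
          have h3 : ((p.1 / (2 * A)).natAbs : ℝ) ≤ H + 1 := by
            have h4 : ((p.1 / (2 * A)).natAbs : ℤ) ≤ H + 1 := by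
              rw [← Int.abs_eq_natAbs]; exact he
            exact_mod_cast h4
          have h5 : ((p.1 / (2 * A) + x).natAbs : ℝ) ≤ H + 1 + x := by
            have h6 : (p.1 / (2 * A) + x).natAbs ≤ (p.1 / (2 * A)).natAbs + x := by
              have := Int.natAbs_add_le (p.1 / (2 * A)) (x : ℤ)
              simpa using this
            have h7 : ((p.1 / (2 * A) + x).natAbs : ℝ) ≤ (p.1 / (2 * A)).natAbs + x := by
              exact_mod_cast h6
            linarith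
          have h8 : C₂ * x = C₁ * x + x := by rw [hC₂]; ring
          constructor
          · have : ((p.1 / (2 * A) + x).natAbs : ℝ) ≤ ((g * J : ℕ) : ℝ) := by
              push_cast; linarith
            exact_mod_cast this
          · have : ((p.1 / (2 * A)).natAbs : ℝ) ≤ ((g * J : ℕ) : ℝ) := by
              push_cast; linarith
            exact_mod_cast this
        have h9 := qua_D_not (by positivity) hb' hc _ hY1.1
        have h10 := qua_D_not (by positivity) hb' hc _ hY1.2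
        have h11 := qua_sum A p.1 p.2 (p.1 / (2 * A)) (p.1 % (2 * A)) d1.symm x g hg0
        have h12 : (g : ℝ) ≤ ε / 16 * x := hg1.trans (mul_le_mul_of_nonneg_right hη2 hxr.le)
        linarith [h9.1, h9.2, h10.1, h10.2]
  have hcard := Finset.card_le_card hincl
  have hcard2 := hcard.trans (Finset.card_union_le _ _)
  have hfew := qua_few A hA H m
  have hrest : (((Finset.range (2 * A.natAbs)).biUnion (fun r => (Iz H ×ˢ Iz H).filter
      (fun p : ℤ × ℤ => p.1 % (2 * A) = (r : ℤ) ∧ (m : ℤ) ≤ |p.1 / (2 * A)| ∧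
          p.2 - A * (p.1 / (2 * A)) ^ 2 - (r : ℤ) * (p.1 / (2 * A)) ∈
            qua_D A K g J (ε / 16 * x) (r : ℤ)))).card : ℝ) ≤
      2 * α * (J * (2 * (τ * (2 * K + 1))) * (4 * (L + 1))) := by
    calc _ ≤ ∑ r ∈ Finset.range (2 * A.natAbs), (((Iz H ×ˢ Iz H).filter
      (fun p : ℤ × ℤ => p.1 % (2 * A) = (r : ℤ) ∧ (m : ℤ) ≤ |p.1 / (2 * A)| ∧
          p.2 - A * (p.1 / (2 * A)) ^ 2 - (r : ℤ) * (p.1 / (2 * A)) ∈
            qua_D A K g J (ε / 16 * x) (r : ℤ))).card : ℝ) := by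
          exact_mod_cast Finset.card_biUnion_le
      _ ≤ ∑ r ∈ Finset.range (2 * A.natAbs), (J * (2 * (τ * (2 * K + 1))) * (4 * (L + 1))) := by
          apply Finset.sum_le_sum
          intro r hr
          have hr1 : |(r : ℤ)| < 2 * |A| := by
            have := Finset.mem_range.1 hr
            rw [Int.abs_eq_natAbs, Int.abs_eq_natAbs, Int.natAbs_natCast]
            exact_mod_cast this
          refine (qua_pairs A r hA hr1 H m L hL1 hm1 hm3 _).trans ?_
          exact mul_le_mul_of_nonneg_right (hD r hr) (by positivity)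
      _ = _ := by
          rw [Finset.sum_const, Finset.card_range, nsmul_eq_mul]
          push_cast
          ring
  have hcard3 : (((Iz H ×ˢ Iz H).filter (fun p : ℤ × ℤ => ε * x < |∑ n ∈ Finset.Icc 1 x,
        lz (A * (n : ℤ) ^ 2 + p.1 * n + p.2)|)).card : ℝ) ≤
      4 * α * m * (2 * H + 1) + 2 * α * (J * (2 * (τ * (2 * K + 1))) * (4 * (L + 1))) := by
    refine le_trans (by exact_mod_cast hcard2) (add_le_add hfew hrest)
  refine hcard3.trans ?_
  have hT0 : (0 : ℝ) ≤ 2 * (H : ℝ) + 1 := by positivity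
  have e1 : 4 * α * m * (2 * H + 1) ≤ ε / 2 * (2 * (H : ℝ) + 1) ^ 2 := by
    have h1 : 4 * α * m ≤ ε / 2 * (2 * (H : ℝ) + 1) := by
      calc 4 * α * m ≤ 4 * α * (2 * (δ * H)) := mul_le_mul_of_nonneg_left hm2 (by positivity)
        _ = (8 * α * δ) * H := by ring
        _ ≤ (8 * α * (ε / (8 * α))) * H := by
            apply mul_le_mul_of_nonneg_right _ (Nat.cast_nonneg _)
            exact mul_le_mul_of_nonneg_left hδ2 (by positivity)
        _ = ε * H := by field_simp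
        _ ≤ ε / 2 * (2 * (H : ℝ) + 1) := by linarith
    calc 4 * α * m * (2 * H + 1) ≤ (ε / 2 * (2 * (H : ℝ) + 1)) * (2 * H + 1) :=
          mul_le_mul_of_nonneg_right h1 hT0
      _ = _ := by ring
  have e2 : 2 * α * (J * (2 * (τ * (2 * K + 1))) * (4 * (L + 1))) ≤
      ε / 2 * (2 * (H : ℝ) + 1) ^ 2 := by
    have h1 : 2 * (K : ℝ) + 1 ≤ 9 * α * (2 * (H : ℝ) + 1) ^ 2 :=
      qua_n3 α H K hα (Nat.cast_nonneg _) hKr
    calc 2 * α * (J * (2 * (τ * (2 * K + 1))) * (4 * (L + 1)))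
        = (16 * α * J * (L + 1) * τ) * (2 * K + 1) := by ring
      _ ≤ (16 * α * J * (L + 1) * τ) * (9 * α * (2 * (H : ℝ) + 1) ^ 2) :=
          mul_le_mul_of_nonneg_left h1 (by positivity)
      _ = ε / 2 * (2 * (H : ℝ) + 1) ^ 2 := by
          rw [hτd]
          field_simp
          ring
  linarith

theorem quad_main_pr (ε : ℝ) (hε : 0 < ε) : ∃ (c : ℝ) (x₀ : ℕ), 0 < c ∧ ∀ x H : ℕ, x₀ ≤ x →
    (x : ℝ) ≤ c * (H : ℝ) ^ 2 →
      (((Iz H ×ˢ Iz H).filter (fun p : ℤ × ℤ => ε * x < |∑ n ∈ Finset.Icc 1 x,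
        lz ((n : ℤ) ^ 2 + p.1 * n + p.2)|)).card : ℝ) ≤ ε * (2 * H + 1) ^ 2 := by
  obtain ⟨c, x₀, hc, h⟩ := quadA_main_pr 1 one_ne_zero ε hε
  refine ⟨c, x₀, hc, fun x H hx hH => ?_⟩
  have h1 := h x H hx hH
  simpa only [one_mul] using h1

end Pool.Agent.PS

end QUA

namespace Pool.Agent.PS

theorem quadA_main : type_of% @quadA_main_pr := @quadA_main_pr

theorem quad_main : type_of% @quad_main_pr := @quad_main_pr

end Pool.Agent.PS
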